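import Pool.Agent.H310.HD.Ket2

/-!
Alternative (A) of the HOD dichotomy.
-/

set_option autoImplicit false
set_option linter.unusedVariables false

namespace Pool.Agent.H310.HD

open ZFSet Gss969

universe u

/-- `κ` is a regular cardinal of `HOD`: a limit ordinal such that no function in `HOD` from a
smaller ordinal into `κ` is cofinal. -/
def HODReg (κ : Ordinal.{u}) : Prop :=
  0 < κ ∧ (∀ x < κ, Order.succ x < κ) ∧ ¬ CofinalP HOD κ.toZFSet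

/-- There is a least length of cofinal functions. -/
theorem exists_cof {κ ν : Ordinal.{u}} (h : CofN ν.toZFSet κ.toZFSet) :
    ∃ ν₀ ≤ ν, CofN ν₀.toZFSet κ.toZFSet ∧ ∀ ν' < ν₀, ¬ CofN ν'.toZFSet κ.toZFSet := by
  obtain ⟨ν₀, h1, h2⟩ := WellFounded.has_min (wellFounded_lt (α := Ordinal.{u}))
    {ν₀ | CofN ν₀.toZFSet κ.toZFSet} ⟨ν, h⟩
  exact ⟨ν₀, not_lt.1 (h2 ν h), h1, fun ν' h3 h4 => h2 ν' h4 h3⟩

theorem bdd_init {κ ν : Ordinal.{u}} {f : ZFSet.{u}} (hf : IsFunc ν.toZFSet κ.toZFSet f)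
    (hκlim : ∀ x < κ, Order.succ x < κ) (hνmin : ∀ ν' < ν, ¬ CofN ν'.toZFSet κ.toZFSet) :
    ∀ ρ < ν, ∃ z < κ, ∀ i < ρ, app f i.toZFSet ∈ z.toZFSet := by
  intro ρ hρ
  by_contra hcon
  push Not at hcon
  refine hνmin ρ hρ ⟨gr ρ.toZFSet fun x => app f x, isFunc_gr fun x hx => ?_, fun x hx => ?_⟩
  · obtain ⟨i, hi, rfl⟩ := Ordinal.mem_toZFSet_iff.1 hx
    exact app_mem hf (tz_mem.2 (hi.trans hρ))
  · obtain ⟨ξ, hξ, rfl⟩ := Ordinal.mem_toZFSet_iff.1 hx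
    obtain ⟨i, hi, h⟩ := hcon (Order.succ ξ) (hκlim ξ hξ)
    obtain ⟨y, hy, h'⟩ := Ordinal.mem_toZFSet_iff.1 (app_mem hf (tz_mem.2 (hi.trans hρ)))
    refine ⟨_, tz_mem.2 hi, _, tz_mem.2 hy, by rw [pair_mem_gr, ← h']; exact ⟨tz_mem.2 hi, rfl⟩, ?_⟩
    rw [← h', tz_mem, Order.lt_succ_iff, not_le] at h
    exact tz_mem.2 h

/-- The cofinality is regular. -/
theorem cof_comp {κ ν a : Ordinal.{u}} (hκlim : ∀ x < κ, Order.succ x < κ)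
    (hν : CofN ν.toZFSet κ.toZFSet) (hνmin : ∀ ν' < ν, ¬ CofN ν'.toZFSet κ.toZFSet)
    (ha : CofN a.toZFSet ν.toZFSet) : CofN a.toZFSet κ.toZFSet := by
  obtain ⟨f, hf, hfc⟩ := hν
  obtain ⟨h, hh, hhc⟩ := ha
  choose! z hz hz' using bdd_init hf hκlim hνmin
  refine ⟨gr a.toZFSet fun x => (z (rank (app h x))).toZFSet, isFunc_gr fun x hx => ?_,
    fun y hy => ?_⟩
  · obtain ⟨i, hi, h1⟩ := Ordinal.mem_toZFSet_iff.1 (app_mem hh hx)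
    rw [← h1, Ordinal.rank_toZFSet]
    exact tz_mem.2 (hz i hi)
  · obtain ⟨i, hi, w, hw, hiw, hyw⟩ := hfc y hy
    obtain ⟨i, hi', rfl⟩ := Ordinal.mem_toZFSet_iff.1 hi
    obtain ⟨x, hx, u, hu, hxu, hiu⟩ := hhc _ hi
    obtain ⟨u, hu', rfl⟩ := Ordinal.mem_toZFSet_iff.1 hu
    refine ⟨x, hx, _, tz_mem.2 (hz u hu'), ?_, ?_⟩
    · rw [pair_mem_gr, (app_iff hh hx).1 hxu, Ordinal.rank_toZFSet]
      exact ⟨hx, rfl⟩
    · have h1 := hz' u hu' i (tz_mem.1 hiu)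
      rw [(app_iff hf hi).1 hiw] at h1
      exact (isOrdinal_toZFSet _).1.mem_trans hyw h1

/-- Smaller ordinals have smaller cardinality than a cardinal. -/
theorem IsCard.card_lt {γ ν : Ordinal.{u}} (hγ : IsCard γ.toZFSet) (h : ν < γ) :
    ν.card < γ.card := by
  classical
  by_contra hcon
  push Not at hcon
  have h1 : Cardinal.mk (Set.Iio γ) ≤ Cardinal.mk (Set.Iio ν) := by
    rw [Cardinal.mk_Iio_ordinal, Cardinal.mk_Iio_ordinal, Cardinal.lift_le]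
    exact hcon
  obtain ⟨e⟩ := h1
  -- a surjection from `ν` onto `γ`
  have h0 : 0 < γ := bot_le.trans_lt h
  let F : Ordinal.{u} → Ordinal.{u} := fun x =>
    if hx : ∃ y : Set.Iio γ, (e y).1 = x then hx.choose.1 else 0
  obtain ⟨y, hy, hy'⟩ := hγ.2 ν.toZFSet (tz_mem.2 h)
    (gr ν.toZFSet fun x => (F (rank x)).toZFSet) (isFunc_gr fun x hx => by
      refine tz_mem.2 ?_
      simp only [F]
      split_ifs with h2
      · exact h2.choose.2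
      · exact h0)
  obtain ⟨y, hy1, rfl⟩ := Ordinal.mem_toZFSet_iff.1 hy
  refine hy' (e ⟨y, hy1⟩).1.toZFSet (tz_mem.2 (e ⟨y, hy1⟩).2) ?_
  rw [pair_mem_gr, Ordinal.rank_toZFSet]
  refine ⟨tz_mem.2 (e ⟨y, hy1⟩).2, ?_⟩
  have h2 : ∃ y' : Set.Iio γ, (e y').1 = (e ⟨y, hy1⟩).1 := ⟨_, rfl⟩
  simp only [F]
  rw [dif_pos h2]
  have h3 : h2.choose = ⟨y, hy1⟩ := e.injective (Subtype.ext h2.choose_spec)
  rw [h3]

/-- An onto function to a limit ordinal is cofinal. -/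
theorem onto_cof {m a f : ZFSet.{u}} {α : Ordinal.{u}} (hα : ∀ x < α, Order.succ x < α)
    (hf : IsFunc m α.toZFSet f) (h : ∀ y ∈ α.toZFSet, ∃ x ∈ m, pair x y ∈ f) :
    CofN m α.toZFSet := by
  refine ⟨f, hf, fun x hx => ?_⟩
  obtain ⟨ξ, hξ, rfl⟩ := Ordinal.mem_toZFSet_iff.1 hx
  obtain ⟨n, hn, h1⟩ := h _ (tz_mem.2 (hα ξ hξ))
  exact ⟨n, hn, _, tz_mem.2 (hα ξ hξ), h1, tz_mem.2 (Order.lt_succ ξ)⟩

/-- If all `HOD`-regular `κ > δ` have cofinality `|κ|`, then no `α` with `γ ≤ α < γ⁺` is regular in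
`HOD`, for all singular `γ > δ`. -/
theorem no_reg {γ α l : Ordinal.{u}} (hs : IsSing γ.toZFSet) (hγα : γ ≤ α)
    (hl : IsSuccCard γ.toZFSet l.toZFSet) (hαl : α < l) (hα : HODReg α)
    (h : ∀ ν : Ordinal.{u}, CofN ν.toZFSet α.toZFSet → α.card ≤ ν.card) : False := by
  obtain ⟨hcard, hom, a, ha, g, hg, hgc⟩ := hs
  obtain ⟨a, ha', rfl⟩ := Ordinal.mem_toZFSet_iff.1 ha
  obtain ⟨f, hf, hfo⟩ := hl.2.2 α.toZFSet (tz_mem.2 hαl) ⟨_, tz_mem.2 hα.1, rfl⟩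
  have h1 : CofN γ.toZFSet α.toZFSet := onto_cof (a := f) hα.2.1 hf hfo
  obtain ⟨ν, hν, h2, h3⟩ := exists_cof h1
  rcases hν.lt_or_eq with h4 | h4
  · exact absurd (h ν h2) (not_le.2 ((hcard.card_lt h4).trans_le (Ordinal.card_le_card hγα)))
  · rw [h4] at h2 h3
    refine h3 a ha' (cof_comp hα.2.1 h2 h3 ⟨g, hg, fun x hx => ?_⟩)
    obtain ⟨n, hn, z, hz, h5⟩ := hgc x hx
    exact ⟨n, hn, z, hz, h5⟩

/-- Regular limit cardinals above an extendible cardinal. -/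
theorem Extendible.exists_regLim {δ : Ordinal.{u}} (hδ : Extendible δ) (ξ : Ordinal.{u}) :
    ∃ l > ξ, RegUnc (Ordinal.toZFSet l) ∧ ∀ x < l, ∃ c < l, x < c ∧ IsCard (Ordinal.toZFSet c) := by
  have hM : Mono (fun (_ : ZFSet.{u} → Prop) (l : ZFSet.{u}) =>
      RegUnc l ∧ ∀ x ∈ l, ∃ c ∈ l, x ∈ c ∧ IsCard c) :=
    ⟨fun _ _ _ _ h => h, fun _ => ⟨∅, fun _ _ _ => Iff.rfl⟩,
      (dfn_RegUnc _).and (Dfn.ball Lvl_sub_Trs _ (Dfn.bex Lvl_sub_Trs _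
        ((Dfn.mem _ _).and (dfn_IsCard _))))⟩
  obtain ⟨l, hl, h1, h2⟩ := hδ.above hM le_rfl ⟨hδ.regUnc, fun x hx => by
    obtain ⟨x, hx', rfl⟩ := Ordinal.mem_toZFSet_iff.1 hx
    obtain ⟨c, hc, h1, h2⟩ := hδ.limCard x hx'
    exact ⟨_, tz_mem.2 hc, tz_mem.2 h1, h2⟩⟩ ξ
  refine ⟨l, hl, h1, fun x hx => ?_⟩
  obtain ⟨c, hc, h3, h4⟩ := h2 _ (tz_mem.2 hx)
  obtain ⟨c, hc', rfl⟩ := Ordinal.mem_toZFSet_iff.1 hc
  exact ⟨c, hc', tz_mem.1 h3, h4⟩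

/-- Successor cardinals. -/
theorem exists_succ {γ : Ordinal.{u}} (hγ : IsCard γ.toZFSet) (hω : Ordinal.omega0 < γ) :
    ∃ l > γ, RegUnc (Ordinal.toZFSet l) ∧ IsSuccCard γ.toZFSet (Ordinal.toZFSet l) := by
  classical
  have h0 : Cardinal.aleph0 ≤ γ.card := by
    have := Ordinal.card_le_card hω.le
    rwa [Ordinal.card_omega0] at this
  obtain ⟨l, ⟨h1, h2⟩, hmin⟩ := WellFounded.has_min (wellFounded_lt (α := Ordinal.{u}))
    {l | l > γ ∧ RegUnc (Ordinal.toZFSet l)} (exists_regUnc γ)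
  have hle : l ≤ (Order.succ γ.card).ord := by
    obtain ⟨l', hl', hr⟩ := exists_regUnc γ
    by_contra hcon
    push Not at hcon
    have hreg : (Order.succ γ.card).IsRegular := Cardinal.isRegular_succ h0
    refine hmin (Order.succ γ.card).ord ⟨?_, ?_⟩ hcon
    · show γ < (Order.succ γ.card).ord
      rw [Cardinal.lt_ord]
      exact Order.lt_succ _
    · exact regUnc_ord hreg (h0.trans_lt (Order.lt_succ _))
  refine ⟨l, h1, h2, h2.isCard, tz_mem.2 h1, fun t ht hne => ?_⟩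
  obtain ⟨t, ht', rfl⟩ := Ordinal.mem_toZFSet_iff.1 ht
  obtain ⟨x₀, hx₀, _⟩ := hne
  have h3 : t.card ≤ γ.card := by
    have := Cardinal.lt_ord.1 (ht'.trans_le hle)
    exact Order.lt_succ_iff.1 this
  have h4 : Cardinal.mk (Set.Iio t) ≤ Cardinal.mk (Set.Iio γ) := by
    rw [Cardinal.mk_Iio_ordinal, Cardinal.mk_Iio_ordinal, Cardinal.lift_le]
    exact h3
  obtain ⟨e⟩ := h4
  let F : Ordinal.{u} → ZFSet.{u} := fun x =>
    if hx : ∃ y : Set.Iio t, (e y).1 = x then hx.choose.1.toZFSet else x₀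
  refine ⟨gr γ.toZFSet fun x => F (rank x), isFunc_gr fun x hx => ?_, fun y hy => ?_⟩
  · simp only [F]
    split_ifs with h5
    · exact tz_mem.2 h5.choose.2
    · exact hx₀
  · obtain ⟨y, hy1, rfl⟩ := Ordinal.mem_toZFSet_iff.1 hy
    refine ⟨(e ⟨y, hy1⟩).1.toZFSet, tz_mem.2 (e ⟨y, hy1⟩).2, ?_⟩
    rw [pair_mem_gr, Ordinal.rank_toZFSet]
    refine ⟨tz_mem.2 (e ⟨y, hy1⟩).2, ?_⟩
    have h2 : ∃ y' : Set.Iio t, (e y').1 = (e ⟨y, hy1⟩).1 := ⟨_, rfl⟩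
    simp only [F]
    rw [dif_pos h2]
    have h3 : h2.choose = ⟨y, hy1⟩ := e.injective (Subtype.ext h2.choose_spec)
    rw [h3]

theorem CofOm.lim {α : Ordinal.{u}} (h : CofOm α.toZFSet) :
    0 < α ∧ ∀ x < α, Order.succ x < α := by
  obtain ⟨f, hf, hc⟩ := h
  refine ⟨?_, fun x hx => ?_⟩
  · obtain ⟨y, hy, _⟩ := Ordinal.mem_toZFSet_iff.1 (app_mem hf (nt_mem 0))
    exact bot_le.trans_lt hy
  · obtain ⟨n, hn, y, hy, _, h1⟩ := hc _ (tz_mem.2 hx)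
    obtain ⟨y, hy', rfl⟩ := Ordinal.mem_toZFSet_iff.1 hy
    exact (Order.succ_le_of_lt (tz_mem.1 h1)).trans_lt hy'

end Pool.Agent.H310.HD
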