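import Pool.Agent.H310.HD.Str

/-!
Cardinals in `HOD`: successor cardinals, strong limit cardinals, measurable cardinals, singular
cardinals whose successor is computed correctly.
-/

set_option autoImplicit false
set_option linter.unusedVariables false

namespace Pool.Agent.H310.HD

open ZFSet Gss969

universe u

/-- The class `P` contains a function from `a` onto `t`. -/
def OntoP (P : ZFSet.{u} → Prop) (a t : ZFSet.{u}) : Prop :=
  ∃ g, P g ∧ (IsFunc a t g ∧ ∀ y ∈ t, ∃ x ∈ a, pair x y ∈ g)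

/-- The class `P` contains a cofinal function from a smaller ordinal into `c`. -/
def CofinalP (P : ZFSet.{u} → Prop) (c : ZFSet.{u}) : Prop :=
  ∃ a ∈ c, ∃ g, P g ∧ (IsFunc a c g ∧ ∀ y ∈ c, ∃ x ∈ a, ∃ z ∈ c, pair x z ∈ g ∧ y ∈ z)

/-- `l` is a regular uncountable cardinal and a successor cardinal in the class `P`: every nonzero
ordinal below `l` is the image of a fixed `m < l` under a function in `P`. -/
def SuccIn (P : ZFSet.{u} → Prop) (l : ZFSet.{u}) : Prop :=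
  RegUnc l ∧ ∃ m ∈ l, ∀ t ∈ l, (∃ x ∈ t, x = x) → OntoP P m t

/-- `l` is a regular uncountable cardinal and not a strong limit cardinal in the class `P`: some
function in `P` is an injection from `l` into the power set of a smaller ordinal. -/
def NotStrongLimitIn (P : ZFSet.{u} → Prop) (l : ZFSet.{u}) : Prop :=
  RegUnc l ∧ ∃ m ∈ l, ∃ g, P g ∧ (IsFunc l (powerset m) g ∧
    ∀ x ∈ l, ∀ y ∈ l, ∀ B, B ⊆ m → pair x B ∈ g → pair y B ∈ g → x = y)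

/-- `c` is a singular cardinal. -/
def IsSing (c : ZFSet.{u}) : Prop :=
  IsCard c ∧ om ∈ c ∧ ∃ a ∈ c, ∃ g, IsFunc a c g ∧
    ∀ y ∈ c, ∃ x ∈ a, ∃ z ∈ c, pair x z ∈ g ∧ y ∈ z

/-- `l` is the successor cardinal of `c`. -/
def IsSuccCard (c l : ZFSet.{u}) : Prop :=
  IsCard l ∧ c ∈ l ∧ ∀ t ∈ l, (∃ x ∈ t, x = x) →
    ∃ g, IsFunc c t g ∧ ∀ y ∈ t, ∃ x ∈ c, pair x y ∈ g

/-- `c` is singular in the class `P`, and all ordinals below `l` (the successor cardinal of `c`)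
have cardinality at most `c` in `P`, so that `l` is the successor of `c` in `P` as well. -/
def Correct (P : ZFSet.{u} → Prop) (c l : ZFSet.{u}) : Prop :=
  CofinalP P c ∧ ∀ t ∈ l, (∃ x ∈ t, x = x) → OntoP P c t

/-- `l` is the successor of a singular cardinal `c` which is singular in `P`, and
`(c⁺)^P = c⁺ = l`. -/
def CorrectSucc (P : ZFSet.{u} → Prop) (l : ZFSet.{u}) : Prop :=
  ∃ c ∈ l, IsSing c ∧ IsSuccCard c l ∧ Correct P c l

/-- The uncountable regular cardinal `k` is measurable in the class `P`: some `D ∈ P` is a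
`k`-complete nonprincipal ultrafilter on the subsets of `k` in `P`. -/
def MeasIn (P : ZFSet.{u} → Prop) (k : ZFSet.{u}) : Prop :=
  ∃ D, P D ∧ ((∀ B ∈ D, B ⊆ k) ∧ (∀ B ∈ D, P B) ∧ k ∈ D ∧
    (∀ B ∈ D, ∀ x ∈ k, ∃ y ∈ B, ¬ y = x) ∧
    (∀ B ∈ D, ∀ B', B' ⊆ k → P B' → B ⊆ B' → B' ∈ D) ∧
    (∀ B, B ⊆ k → P B → (B ∈ D ↔ ∀ B' ∈ D, ∃ x ∈ B', x ∈ B)) ∧
    ∀ m ∈ k, ∀ g, IsFunc m (powerset k) g → P g →
      (∀ i ∈ m, ∀ B, B ⊆ k → pair i B ∈ g → B ∈ D) →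
      ∃ B ∈ D, ∀ i ∈ m, ∀ B', B' ⊆ k → pair i B' ∈ g → B ⊆ B')

/-- The subsets of `P` which matter. -/
noncomputable def XX (l : ZFSet.{u}) : ZFSet.{u} :=
  powerset l ∪ (powerset (powerset l) ∪ (powerset (prod l (powerset l)) ∪ powerset (prod l l)))

theorem mem_XX {l x : ZFSet.{u}} : x ∈ XX l ↔ x ⊆ l ∨ (∀ y ∈ x, y ⊆ l) ∨
    (∀ p ∈ x, ∃ a ∈ l, ∃ b, b ⊆ l ∧ p = pair a b) ∨ ∀ p ∈ x, ∃ a ∈ l, ∃ b ∈ l, p = pair a b := by
  unfold XX
  simp only [mem_union, mem_powerset]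
  refine or_congr Iff.rfl (or_congr ?_ (or_congr ?_ ?_))
  · constructor
    · intro h y hy; exact mem_powerset.1 (h hy)
    · intro h y hy; exact mem_powerset.2 (h y hy)
  · constructor
    · intro h p hp
      obtain ⟨a, ha, b, hb, rfl⟩ := mem_prod.1 (h hp)
      exact ⟨a, ha, b, mem_powerset.1 hb, rfl⟩
    · intro h p hp
      obtain ⟨a, ha, b, hb, rfl⟩ := h p hp
      exact pair_mem_prod.2 ⟨ha, mem_powerset.2 hb⟩
  · constructor
    · intro h p hp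
      obtain ⟨a, ha, b, hb, rfl⟩ := mem_prod.1 (h hp)
      exact ⟨a, ha, b, hb, rfl⟩
    · intro h p hp
      obtain ⟨a, ha, b, hb, rfl⟩ := h p hp
      exact pair_mem_prod.2 ⟨ha, hb⟩

theorem XX_mem {U l : ZFSet.{u}} (hU : U ∈ Lvl) (hl : l ∈ U) : XX l ∈ U := by
  unfold XX
  have h1 := Lvl_powerset hU hl
  exact Lvl_union hU h1 (Lvl_union hU (Lvl_powerset hU h1) (Lvl_union hU
    (Lvl_powerset hU (Lvl_prod hU hl h1)) (Lvl_powerset hU (Lvl_prod hU hl hl))))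

theorem dfn_XX (a b : ℕ) : Dfn Lvl.{u} (fun v => v a ∈ XX (v b)) := by
  refine Dfn.congr (A := fun v => v a ⊆ v b ∨ (∀ y ∈ v a, y ⊆ v b) ∨
    (∀ p ∈ v a, ∃ x ∈ v b, ∃ y, y ⊆ v b ∧ p = pair x y) ∨
    ∀ p ∈ v a, ∃ x ∈ v b, ∃ y ∈ v b, p = pair x y) ?_ fun v => mem_XX.symm
  repeat' first
    | exact Dfn.mem _ _ | exact dfn_sub Lvl_sub_Trs _ _ | exact dfn_pair Lvl_sub_Trs _ _ _
    | refine Dfn.or ?_ ?_ | refine Dfn.exsub subset_rfl _ ?_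
    | refine Dfn.ball Lvl_sub_Trs _ ?_ | refine Dfn.bex Lvl_sub_Trs _ ?_

theorem XX_func {a b g l : ZFSet.{u}} (hg : IsFunc a b g) (ha : a ⊆ l) (hb : b ⊆ l) :
    g ∈ XX l := by
  rw [mem_XX]
  right; right; right
  intro p hp
  obtain ⟨x, hx, y, hy, rfl⟩ := mem_prod.1 (hg.1 hp)
  exact ⟨x, ha hx, y, hb hy, rfl⟩

theorem XX_func' {a b g l : ZFSet.{u}} (hg : IsFunc a (powerset b) g) (ha : a ⊆ l) (hb : b ⊆ l) :
    g ∈ XX l := by
  rw [mem_XX]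
  right; right; left
  intro p hp
  obtain ⟨x, hx, y, hy, rfl⟩ := mem_prod.1 (hg.1 hp)
  exact ⟨x, ha hx, y, fun z hz => hb (mem_powerset.1 hy hz), rfl⟩

theorem OntoP.mono {P P' : ZFSet.{u} → Prop} (h : ∀ x, P x → P' x) {a t : ZFSet.{u}}
    (h1 : OntoP P a t) : OntoP P' a t := by
  obtain ⟨g, h2, h3⟩ := h1
  exact ⟨g, h g h2, h3⟩

theorem CofinalP.mono {P P' : ZFSet.{u} → Prop} (h : ∀ x, P x → P' x) {c : ZFSet.{u}}
    (h1 : CofinalP P c) : CofinalP P' c := by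
  obtain ⟨a, ha, g, h2, h3⟩ := h1
  exact ⟨a, ha, g, h g h2, h3⟩

theorem ontoP_congr {P P' : ZFSet.{u} → Prop} {l a t : ZFSet.{u}}
    (h : ∀ x ∈ XX l, P x ↔ P' x) (ha : a ⊆ l) (ht : t ⊆ l) : OntoP P a t ↔ OntoP P' a t := by
  refine exists_congr fun g => and_congr_left fun hg => ?_
  exact h g (XX_func hg.1 ha ht)

theorem cofinalP_congr {P P' : ZFSet.{u} → Prop} {l c : ZFSet.{u}}
    (h : ∀ x ∈ XX l, P x ↔ P' x) (hc : c ⊆ l) (ho : c.IsOrdinal) :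
    CofinalP P c ↔ CofinalP P' c := by
  refine exists_congr fun a => and_congr_right fun ha => exists_congr fun g =>
    and_congr_left fun hg => ?_
  exact h g (XX_func hg.1 (fun x hx => hc (ho.subset_of_mem ha hx)) hc)

theorem dfn_OntoP (w a b : ℕ) : Dfn Lvl.{u} (fun v => OntoP (HODin (v w)) (v a) (v b)) := by
  unfold OntoP
  refine Dfn.ex ?_ ?_
  · refine (dfn_HODin _ _).and (Dfn.and (dfn_isFunc Lvl_sub_Trs _ _ _) ?_)
    exact Dfn.ball Lvl_sub_Trs _ (Dfn.bex Lvl_sub_Trs _ (dfn_pm Lvl_sub_Trs _ _ _))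
  · rintro U hU v hv ⟨g, h1, h2⟩
    exact ⟨g, Lvl_func hU (hv a) (hv b) h2.1, h1, h2⟩

theorem dfn_CofinalP (w a : ℕ) : Dfn Lvl.{u} (fun v => CofinalP (HODin (v w)) (v a)) := by
  unfold CofinalP
  refine Dfn.bex Lvl_sub_Trs _ ?_
  refine Dfn.ex (A := fun g v => HODin (v (w + 1)) g ∧ (IsFunc (v 0) (v (a + 1)) g ∧
    ∀ y ∈ v (a + 1), ∃ x ∈ v 0, ∃ z ∈ v (a + 1), pair x z ∈ g ∧ y ∈ z)) ?_ ?_
  · refine (dfn_HODin _ _).and (Dfn.and (dfn_isFunc Lvl_sub_Trs _ _ _) ?_)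
    repeat' first
      | exact Dfn.mem _ _ | exact dfn_pm Lvl_sub_Trs _ _ _ | refine Dfn.and ?_ ?_
      | refine Dfn.ball Lvl_sub_Trs _ ?_ | refine Dfn.bex Lvl_sub_Trs _ ?_
  · rintro U hU v hv ⟨g, h1, h2⟩
    exact ⟨g, Lvl_func hU (hv 0) (hv (a + 1)) h2.1, h1, h2⟩

theorem dfn_nonempty (a : ℕ) : Dfn Lvl.{u} (fun v => ∃ x ∈ v a, x = x) :=
  Dfn.bex Lvl_sub_Trs _ (Dfn.eq _ _)

theorem mono_SuccIn : Mono (SuccIn.{u}) := by
  refine ⟨?_, fun l => ⟨XX l, fun P P' h => ?_⟩, ?_⟩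
  · rintro P P' h l ⟨h1, m, hm, h2⟩
    exact ⟨h1, m, hm, fun t ht hx => (h2 t ht hx).mono h⟩
  · unfold SuccIn
    refine and_congr_right fun hl => exists_congr fun m => and_congr_right fun hm =>
      forall₂_congr fun t ht => imp_congr_right fun _ => ?_
    exact ontoP_congr h (hl.1.subset_of_mem hm) (hl.1.subset_of_mem ht)
  · unfold SuccIn
    refine (dfn_RegUnc _).and (Dfn.bex Lvl_sub_Trs _ (Dfn.ball Lvl_sub_Trs _ ?_))
    exact (dfn_nonempty _).imp (dfn_OntoP _ _ _)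

theorem mono_NotStrongLimitIn : Mono (NotStrongLimitIn.{u}) := by
  refine ⟨?_, fun l => ⟨XX l, fun P P' h => ?_⟩, ?_⟩
  · rintro P P' h l ⟨h1, m, hm, g, h2, h3⟩
    exact ⟨h1, m, hm, g, h g h2, h3⟩
  · unfold NotStrongLimitIn
    refine and_congr_right fun hl => exists_congr fun m => and_congr_right fun hm =>
      exists_congr fun g => and_congr_left fun hg => ?_
    exact h g (XX_func' hg.1 (fun x hx => hx) (hl.1.subset_of_mem hm))
  · unfold NotStrongLimitIn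
    refine (dfn_RegUnc _).and (Dfn.bex Lvl_sub_Trs _ ?_)
    refine Dfn.ex (A := fun g v => HODin (v 1) g ∧ (IsFunc (v 2) (powerset (v 0)) g ∧
      ∀ x ∈ v 2, ∀ y ∈ v 2, ∀ B, B ⊆ v 0 → pair x B ∈ g → pair y B ∈ g → x = y)) ?_ ?_
    · refine (dfn_HODin _ _).and (Dfn.and ?_ ?_)
      · exact Dfn_pow 1 (A := fun T v => IsFunc (v 3) T (v 0)) (dfn_isFunc Lvl_sub_Trs _ _ _)
      · repeat' first
          | exact Dfn.mem _ _ | exact Dfn.eq _ _ | exact dfn_pm Lvl_sub_Trs _ _ _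
          | refine Dfn.allsub subset_rfl _ ?_ | refine Dfn.imp ?_ ?_
          | refine Dfn.ball Lvl_sub_Trs _ ?_
    · rintro U hU v hv ⟨g, h1, h2⟩
      exact ⟨g, Lvl_func hU (hv 2) (Lvl_powerset hU (hv 0)) h2.1, h1, h2⟩

theorem dfn_IsSing (a : ℕ) : Dfn Lvl.{u} (fun v => IsSing (v a)) := by
  unfold IsSing
  refine (dfn_IsCard _).and (Dfn.and (Dfn_om (A := fun w v => w ∈ v a) (Dfn.mem 0 _)) ?_)
  repeat' first
    | exact Dfn.mem _ _ | exact dfn_pm Lvl_sub_Trs _ _ _ | refine Dfn.exfun _ _ ?_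
    | refine Dfn.and ?_ ?_
    | refine Dfn.ball Lvl_sub_Trs _ ?_ | refine Dfn.bex Lvl_sub_Trs _ ?_

theorem dfn_IsSuccCard (a b : ℕ) : Dfn Lvl.{u} (fun v => IsSuccCard (v a) (v b)) := by
  unfold IsSuccCard
  refine (dfn_IsCard _).and (Dfn.and (Dfn.mem _ _) ?_)
  repeat' first
    | exact Dfn.mem _ _ | exact dfn_nonempty _ | exact dfn_pm Lvl_sub_Trs _ _ _
    | refine Dfn.exfun _ _ ?_ | refine Dfn.imp ?_ ?_
    | refine Dfn.ball Lvl_sub_Trs _ ?_ | refine Dfn.bex Lvl_sub_Trs _ ?_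

theorem dfn_Correct (w a b : ℕ) : Dfn Lvl.{u} (fun v => Correct (HODin (v w)) (v a) (v b)) := by
  unfold Correct
  refine (dfn_CofinalP _ _).and (Dfn.ball Lvl_sub_Trs _ ?_)
  exact (dfn_nonempty _).imp (dfn_OntoP _ _ _)

theorem Correct.mono {P P' : ZFSet.{u} → Prop} (h : ∀ x, P x → P' x) {c l : ZFSet.{u}}
    (h1 : Correct P c l) : Correct P' c l :=
  ⟨h1.1.mono h, fun t ht hx => (h1.2 t ht hx).mono h⟩

theorem correct_congr {P P' : ZFSet.{u} → Prop} {c l : ZFSet.{u}} (hl : l.IsOrdinal)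
    (hc : c ∈ l) (h : ∀ x ∈ XX l, P x ↔ P' x) : Correct P c l ↔ Correct P' c l := by
  refine and_congr (cofinalP_congr h (hl.subset_of_mem hc) (hl.mem hc)) ?_
  refine forall₂_congr fun t ht => imp_congr_right fun _ => ?_
  exact ontoP_congr h (hl.subset_of_mem hc) (hl.subset_of_mem ht)

theorem mono_CorrectSucc : Mono (CorrectSucc.{u}) := by
  refine ⟨?_, fun l => ⟨XX l, fun P P' h => ?_⟩, ?_⟩
  · rintro P P' h l ⟨c, hc, h1, h2, h3⟩
    exact ⟨c, hc, h1, h2, h3.mono h⟩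
  · unfold CorrectSucc
    refine exists_congr fun c => and_congr_right fun hc => and_congr_right fun _ =>
      and_congr_right fun h2 => ?_
    exact correct_congr h2.1.1 hc h
  · unfold CorrectSucc
    refine Dfn.bex Lvl_sub_Trs _ ((dfn_IsSing _).and ((dfn_IsSuccCard _ _).and ?_))
    exact dfn_Correct _ _ _

/-- A property of `l`, of a parameter `p` and of a class `P` which depends only on the elements of
`P` in `XX l`. -/
structure Loc3 (Q : (ZFSet.{u} → Prop) → ZFSet.{u} → ZFSet.{u} → Prop) : Prop where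
  loc : ∀ p l, ∀ P P' : ZFSet.{u} → Prop, (∀ x ∈ XX l, P x ↔ P' x) → (Q P p l ↔ Q P' p l)
  dfn : Dfn Lvl.{u} (fun v => Q (HODin (v 0)) (v 1) (v 2))

theorem Extendible.belowLoc3 {Q : (ZFSet.{u} → Prop) → ZFSet.{u} → ZFSet.{u} → Prop}
    {δ : Ordinal.{u}} (hδ : Extendible δ) (hQ : Loc3 Q) {β l : Ordinal.{u}} (hβ : β < δ)
    (hl : β < l) (h : Q HOD β.toZFSet l.toZFSet) :
    ∃ l' : Ordinal.{u}, β < l' ∧ l' < δ ∧ Q HOD β.toZFSet l'.toZFSet := by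
  obtain ⟨ζ0, h0⟩ := stab (XX l.toZFSet)
  obtain ⟨ζ, h1, h2, h3⟩ := exists_limit_gt (max ζ0 l)
  have hst : ∀ x ∈ XX l.toZFSet, HOD x → HODin (V_ ζ) x :=
    h0 ζ ((le_max_left _ _).trans h1.le)
  obtain ⟨η, θ, τ, j, h5, D⟩ := hδ.data ζ
  have hβδ : β.toZFSet ∈ V_ δ := by rw [mem_vonNeumann, Ordinal.rank_toZFSet]; exact hβ
  have hβη := D.E.bt.mem_trans hβδ D.VdB
  have hA : Dfn Lvl.{u} (fun v => ∃ W ∈ v 0, ∃ l ∈ W, l.IsOrdinal ∧ v 1 ∈ l ∧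
      Q (HODin W) (v 1) l ∧
      ∀ W' ∈ v 0, W ⊆ W' → ∀ x ∈ W', x ∈ XX l → HODin W' x → HODin W x) := by
    refine Dfn.bex Lvl_sub_Trs _ (Dfn.bex Lvl_sub_Trs _ ?_)
    refine (dfn_ord Lvl_sub_Trs _).and ((Dfn.mem _ _).and (Dfn.and ?_ ?_))
    · exact Dfn_reindex hQ.dfn (fun n => if n = 0 then 1 else if n = 1 then 3 else 0)
    · refine Dfn.ball Lvl_sub_Trs _ (Dfn.imp (dfn_sub Lvl_sub_Trs _ _)
        (Dfn.ball Lvl_sub_Trs _ (Dfn.imp ?_ (Dfn.imp (dfn_HODin _ _) (dfn_HODin _ _)))))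
      exact dfn_XX _ _
  have h6 := (D.E.el.t2 D.E.lvl D.nl (A := fun a b => ∃ W ∈ a, ∃ l ∈ W, l.IsOrdinal ∧ b ∈ l ∧
      Q (HODin W) b l ∧ ∀ W' ∈ a, W ⊆ W' → ∀ x ∈ W', x ∈ XX l → HODin W' x → HODin W x)
      hA D.VdB hβη).2 (by
    rw [D.jVd, D.fixV hβδ]
    refine ⟨V_ ζ, vonNeumann_mem_vonNeumann_iff.2 (h5.trans D.ητ), l.toZFSet, ?_,
      isOrdinal_toZFSet l, Ordinal.toZFSet_mem_toZFSet_iff.2 hl, ?_, ?_⟩
    · rw [mem_vonNeumann, Ordinal.rank_toZFSet]; exact (le_max_right _ _).trans_lt h1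
    · rw [hQ.loc _ _ (HODin (V_ ζ)) HOD fun x hx => ⟨fun h => h.hod, fun h => hst x hx h⟩]
      exact h
    · intro W' _ _ x _ hx h7
      exact hst x hx h7.hod)
  obtain ⟨W, hW, l', hl', ho, hb, h7, h8⟩ := h6
  refine ⟨rank l', ?_, (rank_lt_of_mem hl').trans (mem_vonNeumann.1 hW), ?_⟩
  · have := rank_lt_of_mem hb
    rwa [Ordinal.rank_toZFSet] at this
  · rw [ho.toZFSet_rank_eq, ← hQ.loc _ l' (HODin W) HOD ?_]
    · exact h7
    · intro x hx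
      refine ⟨fun h => h.hod, fun h => ?_⟩
      have hlδ : l' ∈ V_ δ := (isTransitive_vonNeumann δ).mem_trans hl' hW
      have hxδ : x ∈ V_ δ := (isTransitive_vonNeumann δ).mem_trans hx (XX_mem hδ.lim hlδ)
      have hWx : W ∪ {x} ∈ V_ δ := by
        refine Lvl_union hδ.lim hW (Lvl_sub hδ.lim (Lvl_powerset hδ.lim hxδ) ?_)
        intro y hy
        rw [ZFSet.mem_singleton] at hy
        rw [hy, mem_powerset]
      obtain ⟨W', hW', hs, h9⟩ := hδ.hodin hWx hxδ h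
      refine h8 W' hW' ?_ x ?_ hx h9
      · intro y hy; exact hs (mem_union.2 (Or.inl hy))
      · exact hs (mem_union.2 (Or.inr (by simp)))

theorem dfn_MeasIn (w a : ℕ) : Dfn Lvl.{u} (fun v => MeasIn (HODin (v w)) (v a)) := by
  unfold MeasIn
  refine Dfn.ex ?_ ?_
  · refine (dfn_HODin _ _).and ?_
    refine Dfn.and ?_ (Dfn.and ?_ (Dfn.and ?_ (Dfn.and ?_ (Dfn.and ?_ (Dfn.and ?_ ?_)))))
    · exact Dfn.ball Lvl_sub_Trs _ (dfn_sub Lvl_sub_Trs _ _)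
    · exact Dfn.ball Lvl_sub_Trs _ (dfn_HODin _ _)
    · exact Dfn.mem _ _
    · exact Dfn.ball Lvl_sub_Trs _ (Dfn.ball Lvl_sub_Trs _ (Dfn.bex Lvl_sub_Trs _
        (Dfn.eq _ _).not))
    · exact Dfn.ball Lvl_sub_Trs _ (Dfn.allsub subset_rfl _ (Dfn.imp (dfn_HODin _ _)
        (Dfn.imp (dfn_sub Lvl_sub_Trs _ _) (Dfn.mem _ _))))
    · exact Dfn.allsub subset_rfl _ (Dfn.imp (dfn_HODin _ _) (Dfn.iff (Dfn.mem _ _)
        (Dfn.ball Lvl_sub_Trs _ (Dfn.bex Lvl_sub_Trs _ (Dfn.mem _ _)))))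
    · refine Dfn.ball Lvl_sub_Trs _ ?_
      refine Dfn_pow (a + 2) (A := fun T v => ∀ g, IsFunc (v 0) T g → HODin (v (w + 2)) g →
        (∀ i ∈ v 0, ∀ B, B ⊆ v (a + 2) → pair i B ∈ g → B ∈ v 1) →
        ∃ B ∈ v 1, ∀ i ∈ v 0, ∀ B', B' ⊆ v (a + 2) → pair i B' ∈ g → B ⊆ B') ?_
      refine Dfn.allfun _ _ (Dfn.imp (dfn_HODin _ _) (Dfn.imp ?_ ?_))
      · exact Dfn.ball Lvl_sub_Trs _ (Dfn.allsub subset_rfl _ (Dfn.imp (dfn_pm Lvl_sub_Trs _ _ _)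
          (Dfn.mem _ _)))
      · exact Dfn.bex Lvl_sub_Trs _ (Dfn.ball Lvl_sub_Trs _ (Dfn.allsub subset_rfl _
          (Dfn.imp (dfn_pm Lvl_sub_Trs _ _ _) (dfn_sub Lvl_sub_Trs _ _))))
  · rintro U hU v hv ⟨D, h1, h2⟩
    refine ⟨D, ?_, h1, h2⟩
    refine Lvl_sub hU (Lvl_powerset hU (hv a)) ?_
    intro B hB
    exact mem_powerset.2 (h2.1 B hB)

theorem measIn_congr {P P' : ZFSet.{u} → Prop} {k : ZFSet.{u}} (hk : k.IsOrdinal)
    (h : ∀ x ∈ XX k, P x ↔ P' x) : MeasIn P k ↔ MeasIn P' k := by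
  have hsub : ∀ B, B ⊆ k → (P B ↔ P' B) := fun B hB => h B (mem_XX.2 (Or.inl hB))
  unfold MeasIn
  refine exists_congr fun D => ?_
  constructor
  · rintro ⟨h0, h1, h2, h3, h4, h5, h6, h7⟩
    refine ⟨(h D (mem_XX.2 (Or.inr (Or.inl h1)))).1 h0, h1,
      fun B hB => (hsub B (h1 B hB)).1 (h2 B hB), h3, h4,
      fun B hB B' hB' hP => h5 B hB B' hB' ((hsub B' hB').2 hP),
      fun B hB hP => h6 B hB ((hsub B hB).2 hP), fun m hm g hg hP => h7 m hm g hg ?_⟩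
    exact (h g (XX_func' hg (hk.subset_of_mem hm) (fun x hx => hx))).2 hP
  · rintro ⟨h0, h1, h2, h3, h4, h5, h6, h7⟩
    refine ⟨(h D (mem_XX.2 (Or.inr (Or.inl h1)))).2 h0, h1,
      fun B hB => (hsub B (h1 B hB)).2 (h2 B hB), h3, h4,
      fun B hB B' hB' hP => h5 B hB B' hB' ((hsub B' hB').1 hP),
      fun B hB hP => h6 B hB ((hsub B hB).1 hP), fun m hm g hg hP => h7 m hm g hg ?_⟩
    exact (h g (XX_func' hg (hk.subset_of_mem hm) (fun x hx => hx))).1 hP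

theorem loc3_notMeas : Loc3.{u} (fun P _ l => RegUnc l ∧ ¬ MeasIn P l) := by
  refine ⟨fun p l P P' h => ?_, ?_⟩
  · exact and_congr_right fun hl => not_congr (measIn_congr hl.1 h)
  · exact (dfn_RegUnc _).and (dfn_MeasIn _ _).not

theorem loc3_notCorrect : Loc3.{u} (fun P p l => ∃ c ∈ l, p ∈ c ∧ IsSing c ∧ IsSuccCard c l ∧
    ¬ Correct P c l) := by
  refine ⟨fun p l P P' h => ?_, ?_⟩
  · refine exists_congr fun c => and_congr_right fun hc => and_congr_right fun _ =>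
      and_congr_right fun _ => and_congr_right fun h2 => not_congr ?_
    exact correct_congr h2.1.1 hc h
  · refine Dfn.bex Lvl_sub_Trs _ ((Dfn.mem _ _).and ((dfn_IsSing _).and
      ((dfn_IsSuccCard _ _).and (Dfn.not ?_))))
    exact dfn_Correct _ _ _

end Pool.Agent.H310.HD
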