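import Pool.Agent.H310.HD.Par3

/-!
The chain of implications between the HOD Hypothesis, families of disjoint stationary sets, covering
and partitions.
-/

set_option autoImplicit false
set_option linter.unusedVariables false

namespace Pool.Agent.H310.HD

open ZFSet Gss969

universe u

/-- Families from cardinals which are not `ω`-strongly measurable in `P`. -/
theorem fam_of_nonSM {b : Bool} {P : ZFSet.{u} → Prop}
    (h : ∀ β : Ordinal.{u}, ∃ l > β, NonSM (Index b) P (Ordinal.toZFSet l)) (k₀ : Ordinal.{u}) :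
    ∃ k ≥ k₀, ∃ l > k, RegUnc (Ordinal.toZFSet l) ∧ ∃ S, P S ∧ Fam om k.toZFSet l.toZFSet S := by
  obtain ⟨k, hk, hn⟩ := h k₀
  obtain ⟨c, hc⟩ := fewSub_large P k
  obtain ⟨l, hl, hn'⟩ := h (max c k)
  have hkl : k < l := (le_max_right _ _).trans_lt hl
  have hr : RegUnc k.toZFSet := hn.1
  have hix : Index b k.toZFSet := ⟨⟨om, hr.2.1, rfl⟩, fun _ => hr.isCard⟩
  obtain ⟨g, hg, hp⟩ := hn'.2 _ (tz_mem.2 hkl) hix (hc l ((le_max_left _ _).trans_lt hl))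
  exact ⟨k, hk.le, l, hkl, hn'.1, g, hg, hp.fam (isOrdinal_toZFSet _)⟩

/-- If all points of cofinality `ω` above `δ` are singular in `HOD`, then no regular `l > δ` is
`ω`-strongly measurable in `P ⊇ HOD`. -/
theorem nonSM_of_sing {b : Bool} {P : ZFSet.{u} → Prop} (hP : ∀ x, HOD x → P x) {δ l : Ordinal.{u}}
    (h : ∀ α > δ, CofOm (Ordinal.toZFSet α) → CofinalP HOD α.toZFSet) (hl : δ < l)
    (hr : RegUnc l.toZFSet) : NonSM (Index b) P l.toZFSet := by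
  refine ⟨hr, fun k hk hi _ => ?_⟩
  obtain ⟨k, hk', rfl⟩ := Ordinal.mem_toZFSet_iff.1 hk
  obtain ⟨⟨x, hx, _⟩, _⟩ := hi
  obtain ⟨β, hβ, _⟩ := Ordinal.mem_toZFSet_iff.1 hx
  obtain ⟨g, hg, hp⟩ := split_of_sing hr ((statL_om hr hl).mono fun α _ hα =>
    ⟨hα.2, h α hα.1 hα.2⟩) (bot_le.trans_lt hβ) hk'.le
  exact ⟨g, hP g hg, hp⟩

/-- Covering for points of cofinality `ω`. -/
theorem sing_of_fam {δ : Ordinal.{u}} (hδ : Extendible δ)
    (h : ∀ k₀ : Ordinal.{u}, ∃ k ≥ k₀, ∃ μ < δ, ∃ l : Ordinal.{u}, RegUnc l.toZFSet ∧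
      ∃ S, HOD S ∧ Fam (Ordinal.toZFSet μ) (Ordinal.toZFSet k) l.toZFSet S) :
    ∀ α > δ, CofOm (Ordinal.toZFSet α) → CofinalP HOD α.toZFSet := by
  intro α hα hc
  obtain ⟨k, hk, μ, hμ, l, hl, S, hS, hF⟩ := h α
  obtain ⟨c, hc', g, hg, hf, hcof⟩ := cover hδ hk hμ hl hS hF hδ.om_lt hc
  exact ⟨_, tz_mem.2 (hc'.trans hα), g, hg, hf, hcof⟩

/-- A regular cardinal above a given ordinal and above `|V_ρ|`. -/
theorem exists_big (ξ ρ : Ordinal.{u}) : ∃ μ > ξ, RegUnc (Ordinal.toZFSet μ) ∧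
    card (V_ ρ) < (μ : Ordinal.{u}).card := by
  obtain ⟨μ, hμ, hr⟩ := exists_regUnc (max ξ (card (V_ ρ)).ord)
  refine ⟨μ, (le_max_left _ _).trans_lt hμ, hr, ?_⟩
  have := hr.isCard.card_lt ((le_max_right _ _).trans_lt hμ)
  rwa [Cardinal.card_ord] at this

end Pool.Agent.H310.HD
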