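import Pool.Agent.H310.HD.Gen2

/-!
Closure properties of the classes `OD` and `HOD`.
-/

set_option autoImplicit false
set_option linter.unusedVariables false

namespace Pool.Agent.H310.HD

open ZFSet Gss969

universe u

/-- `U = V_a`, for an ordinal `a`. -/
def LevOf (U a : ZFSet.{u}) : Prop :=
  Lev U ∧ (∀ x ∈ U, x.IsOrdinal → x ∈ a) ∧ ∀ x ∈ a, x ∈ U

theorem levOf_iff {U : ZFSet.{u}} {α : Ordinal.{u}} : LevOf U α.toZFSet ↔ U = V_ α := by
  constructor
  · rintro ⟨⟨γ, rfl⟩, h1, h2⟩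
    have h3 : γ ≤ α := by
      by_contra hcon
      push Not at hcon
      have h4 : α.toZFSet ∈ V_ γ := by rw [mem_vonNeumann, Ordinal.rank_toZFSet]; exact hcon
      exact mem_irrefl _ (h1 _ h4 (isOrdinal_toZFSet α))
    have h4 : α ≤ γ := by
      by_contra hcon
      push Not at hcon
      have h5 := h2 _ (Ordinal.toZFSet_mem_toZFSet_iff.2 hcon)
      rw [mem_vonNeumann, Ordinal.rank_toZFSet] at h5
      exact lt_irrefl _ h5
    rw [le_antisymm h3 h4]
  · rintro rfl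
    refine ⟨⟨α, rfl⟩, fun x hx ho => ?_, fun x hx => ?_⟩
    · rw [← ho.toZFSet_rank_eq]
      exact Ordinal.toZFSet_mem_toZFSet_iff.2 (mem_vonNeumann.1 hx)
    · obtain ⟨β, hβ, rfl⟩ := Ordinal.mem_toZFSet_iff.1 hx
      rw [mem_vonNeumann, Ordinal.rank_toZFSet]; exact hβ

theorem dfn_LevOf (a b : ℕ) : Dfn Lvl.{u} (fun v => LevOf (v a) (v b)) := by
  unfold LevOf
  refine (dfn_lev a).and (Dfn.and ?_ ?_)
  · exact Dfn.ball Lvl_sub_Trs _ ((dfn_ord Lvl_sub_Trs _).imp (Dfn.mem _ _))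
  · exact Dfn.ball Lvl_sub_Trs _ (Dfn.mem _ _)

/-- The class of ordinal definable sets is closed under definitions with two ordinal definable
parameters and any number of ordinals. -/
theorem OD_of {R : ZFSet.{u} → (ℕ → ZFSet.{u}) → Prop}
    (hR : Dfn Lvl.{u} (fun v => R (v 0) (fun n => v (n + 1)))) {x : ℕ → ZFSet.{u}}
    (h0 : OD (x 0)) (h1 : OD (x 1)) (hx : ∀ i, (x (i + 2)).IsOrdinal) {y : ZFSet.{u}}
    (hy : ∀ y', R y' x ↔ y' = y) : OD y := by
  obtain ⟨α₁, φ₁, s₁, hs₁, hx₁, hφ₁⟩ := h0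
  obtain ⟨α₂, φ₂, s₂, hs₂, hx₂, hφ₂⟩ := h1
  -- the definition
  let B : (ℕ → ZFSet.{u}) → Prop := fun w =>
    ∃ U₁, LevOf U₁ (w 1) ∧ ∃ z₁ ∈ U₁,
      Sat U₁ (Function.update (fun n => w (3 * n + 3)) 0 z₁) φ₁ ∧
      ∃ U₂, LevOf U₂ (w 2) ∧ ∃ z₂ ∈ U₂,
        Sat U₂ (Function.update (fun n => w (3 * n + 4)) 0 z₂) φ₂ ∧
        R (w 0) (fun n => Nat.casesOn n z₁ fun m => Nat.casesOn m z₂ fun k => w (3 * k + 5))
  have hLb : ∀ U ∈ Lvl.{u}, ∀ a ∈ U, ∀ U', a.IsOrdinal → LevOf U' a → U' ∈ U := by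
    rintro U ⟨β, hβ, _, rfl⟩ a ha U' ho h
    rw [← ho.toZFSet_rank_eq, levOf_iff] at h
    rw [h, vonNeumann_mem_vonNeumann_iff]
    exact mem_vonNeumann.1 ha
  have hB : Dfn Lvl.{u} (fun w => (w 1).IsOrdinal ∧ (w 2).IsOrdinal ∧ B w) := by
    have hB1 : Dfn Lvl.{u} (fun w => (w 1).IsOrdinal ∧ (w 2).IsOrdinal ∧ ∃ U₁, LevOf U₁ (w 1) ∧
      ∃ z₁ ∈ U₁, Sat U₁ (Function.update (fun n => w (3 * n + 3)) 0 z₁) φ₁ ∧
      ∃ U₂, ((w 2).IsOrdinal ∧ LevOf U₂ (w 2)) ∧ ∃ z₂ ∈ U₂,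
        Sat U₂ (Function.update (fun n => w (3 * n + 4)) 0 z₂) φ₂ ∧
        R (w 0) (fun n => Nat.casesOn n z₁ fun m => Nat.casesOn m z₂ fun k => w (3 * k + 5))) := by
      refine Dfn.congr (A := fun w => (w 2).IsOrdinal ∧ ∃ U₁, ((w 1).IsOrdinal ∧ LevOf U₁ (w 1)) ∧
      ∃ z₁ ∈ U₁, Sat U₁ (Function.update (fun n => w (3 * n + 3)) 0 z₁) φ₁ ∧
      ∃ U₂, ((w 2).IsOrdinal ∧ LevOf U₂ (w 2)) ∧ ∃ z₂ ∈ U₂,
        Sat U₂ (Function.update (fun n => w (3 * n + 4)) 0 z₂) φ₂ ∧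
        R (w 0) (fun n => Nat.casesOn n z₁ fun m => Nat.casesOn m z₂ fun k => w (3 * k + 5)))
        ?_ ?_
      · refine (dfn_ord Lvl_sub_Trs _).and (Dfn.ex ?_ ?_)
        · refine ((dfn_ord Lvl_sub_Trs _).and (dfn_LevOf _ _)).and (Dfn.bex Lvl_sub_Trs _
            (Dfn.and ?_ (Dfn.ex ?_ ?_)))
          · refine ((dfn_Sat φ₁ 1 (fun n => if n = 0 then 0 else 3 * n + 3 + 2)).mono
              Lvl_sub_Trs).congr fun v => ?_
            have : (fun n => v (if n = 0 then 0 else 3 * n + 3 + 2)) =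
                Function.update (fun n => v (3 * n + 3 + 2)) 0 (v 0) := by
              funext n
              by_cases hn : n = 0
              · subst hn; simp
              · simp [hn]
            rw [this]
          · refine ((dfn_ord Lvl_sub_Trs _).and (dfn_LevOf _ _)).and (Dfn.bex Lvl_sub_Trs _
              (Dfn.and ?_ ?_))
            · refine ((dfn_Sat φ₂ 1 (fun n => if n = 0 then 0 else 3 * n + 4 + 4)).mono
                Lvl_sub_Trs).congr fun v => ?_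
              have : (fun n => v (if n = 0 then 0 else 3 * n + 4 + 4)) =
                  Function.update (fun n => v (3 * n + 4 + 4)) 0 (v 0) := by
                funext n
                by_cases hn : n = 0
                · subst hn; simp
                · simp [hn]
              rw [this]
            · refine (Dfn_reindex hR (fun n => Nat.casesOn n 4 fun m => Nat.casesOn m 2 fun k =>
                Nat.casesOn k 0 fun l => 3 * l + 5 + 4)).congr fun v => ?_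
              have : (fun n => v (Nat.casesOn (n + 1) 4 fun m => Nat.casesOn m 2 fun k =>
                  Nat.casesOn k 0 fun l => 3 * l + 5 + 4)) =
                  fun n => Nat.casesOn n (v 2) fun m => Nat.casesOn m (v 0) fun k =>
                    v (3 * k + 5 + 4) := by
                funext n
                rcases n with _ | n
                · rfl
                · rcases n with _ | n
                  · rfl
                  · rfl
              rw [this]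
              exact Iff.rfl
          · rintro U hU v hv ⟨U₂, ⟨h1, h2⟩, h3⟩
            exact ⟨U₂, hLb U hU _ (hv _) U₂ h1 h2, ⟨h1, h2⟩, h3⟩
        · rintro U hU v hv ⟨U₁, ⟨h1, h2⟩, h3⟩
          exact ⟨U₁, hLb U hU _ (hv _) U₁ h1 h2, ⟨h1, h2⟩, h3⟩
      · intro w
        constructor
        · rintro ⟨h2, U₁, ⟨h3, h4⟩, h5⟩
          exact ⟨h3, h2, U₁, h4, h5⟩
        · rintro ⟨h2, h3, U₁, h4, h5⟩
          exact ⟨h3, U₁, ⟨h2, h4⟩, h5⟩
    refine hB1.congr fun w => ?_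
    constructor
    · rintro ⟨h1, h2, U₁, h3, z₁, h4, h5, U₂, ⟨_, h6⟩, h7⟩
      exact ⟨h1, h2, U₁, h3, z₁, h4, h5, U₂, h6, h7⟩
    · rintro ⟨h1, h2, U₁, h3, z₁, h4, h5, U₂, h6, h7⟩
      exact ⟨h1, h2, U₁, h3, z₁, h4, h5, U₂, ⟨h2, h6⟩, h7⟩
  obtain ⟨φ, hφ⟩ := hB (fun n => 2 * n) (by
    refine Set.infinite_of_injective_forall_mem (f := fun n : ℕ => 2 * n + 1) ?_ ?_
    · intro a b hab; simpa using hab
    · rintro n ⟨m, hm⟩
      simp only at hm
      omega)
  -- the parameters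
  let w : ℕ → ZFSet.{u} := fun n => Nat.casesOn n ∅ fun m => Nat.casesOn m α₁.toZFSet fun k =>
    Nat.casesOn k α₂.toZFSet fun l =>
      if l % 3 = 0 then s₁ (l / 3) else if l % 3 = 1 then s₂ (l / 3) else x (l / 3 + 2)
  obtain ⟨β, hβ, hβ2, hβ3⟩ := exists_limit_gt (max (max α₁ α₂) (max (rank y)
    (⨆ i : ULift.{u} ℕ, rank (x (i.down + 2)))))
  have hα₁ : α₁ < β := ((le_max_left _ _).trans (le_max_left _ _)).trans_lt hβ
  have hα₂ : α₂ < β := ((le_max_right _ _).trans (le_max_left _ _)).trans_lt hβ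
  have hyβ : rank y < β := ((le_max_left _ _).trans (le_max_right _ _)).trans_lt hβ
  have hxβ : ∀ i, rank (x (i + 2)) < β := fun i => by
    refine lt_of_le_of_lt ?_ (((le_max_right _ _).trans (le_max_right _ _)).trans_lt hβ)
    exact Ordinal.le_iSup (fun i : ULift.{u} ℕ => rank (x (i.down + 2))) ⟨i⟩
  have hw : ∀ i, w i ∈ V_ β ∧ (w i).IsOrdinal := by
    intro i
    rcases i with _ | i
    · refine ⟨?_, ?_⟩
      · show ∅ ∈ V_ β
        rw [mem_vonNeumann, rank_empty]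
        exact lt_of_le_of_lt (bot_le : (0 : Ordinal.{u}) ≤ α₁) hα₁
      · show (∅ : ZFSet.{u}).IsOrdinal
        have := isOrdinal_toZFSet (0 : Ordinal.{u})
        rwa [Ordinal.toZFSet_zero] at this
    rcases i with _ | i
    · exact ⟨by show α₁.toZFSet ∈ V_ β; rw [mem_vonNeumann, Ordinal.rank_toZFSet]; exact hα₁,
        isOrdinal_toZFSet _⟩
    rcases i with _ | i
    · exact ⟨by show α₂.toZFSet ∈ V_ β; rw [mem_vonNeumann, Ordinal.rank_toZFSet]; exact hα₂,
        isOrdinal_toZFSet _⟩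
    show (if i % 3 = 0 then s₁ (i / 3) else if i % 3 = 1 then s₂ (i / 3) else x (i / 3 + 2)) ∈ V_ β ∧
      (if i % 3 = 0 then s₁ (i / 3) else if i % 3 = 1 then s₂ (i / 3) else x (i / 3 + 2)).IsOrdinal
    split_ifs
    · exact ⟨mem_vonNeumann.2 ((mem_vonNeumann.1 (hs₁ _).1).trans hα₁), (hs₁ _).2⟩
    · exact ⟨mem_vonNeumann.2 ((mem_vonNeumann.1 (hs₂ _).1).trans hα₂), (hs₂ _).2⟩
    · exact ⟨mem_vonNeumann.2 (hxβ _), hx _⟩
  have hmod : ∀ n, (3 * n + 3 : ℕ) = (3 * n) + 1 + 1 + 1 := fun n => rfl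
  have e₁ : ∀ n, w (3 * n + 3) = s₁ n := by
    intro n
    show (if (3 * n) % 3 = 0 then s₁ (3 * n / 3) else if (3 * n) % 3 = 1 then s₂ (3 * n / 3)
      else x (3 * n / 3 + 2)) = _
    rw [if_pos (by omega)]
    congr 1
    omega
  have e₂ : ∀ n, w (3 * n + 4) = s₂ n := by
    intro n
    show (if (3 * n + 1) % 3 = 0 then s₁ ((3 * n + 1) / 3) else if (3 * n + 1) % 3 = 1 then
      s₂ ((3 * n + 1) / 3) else x ((3 * n + 1) / 3 + 2)) = _
    rw [if_neg (by omega), if_pos (by omega)]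
    congr 1
    omega
  have e₃ : ∀ n, w (3 * n + 5) = x (n + 2) := by
    intro n
    show (if (3 * n + 2) % 3 = 0 then s₁ ((3 * n + 2) / 3) else if (3 * n + 2) % 3 = 1 then
      s₂ ((3 * n + 2) / 3) else x ((3 * n + 2) / 3 + 2)) = _
    rw [if_neg (by omega), if_neg (by omega)]
    congr 2
    omega
  have hBw : ∀ y', B (Function.update w 0 y') ↔ y' = y := by
    intro y'
    have u1 : Function.update w 0 y' 1 = α₁.toZFSet := rfl
    have u2 : Function.update w 0 y' 2 = α₂.toZFSet := rfl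
    have u3 : (fun n => Function.update w 0 y' (3 * n + 3)) = s₁ := by
      funext n
      rw [Function.update_of_ne (by omega), e₁]
    have u4 : (fun n => Function.update w 0 y' (3 * n + 4)) = s₂ := by
      funext n
      rw [Function.update_of_ne (by omega), e₂]
    have u5 : ∀ n, Function.update w 0 y' (3 * n + 5) = x (n + 2) := by
      intro n
      rw [Function.update_of_ne (by omega), e₃]
    have u6 : (fun n => Nat.casesOn n (x 0) fun m => Nat.casesOn m (x 1) fun k =>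
        Function.update w 0 y' (3 * k + 5) : ℕ → ZFSet.{u}) = x := by
      funext n
      rcases n with _ | n
      · rfl
      · rcases n with _ | n
        · rfl
        · exact u5 n
    show (∃ U₁, LevOf U₁ (Function.update w 0 y' 1) ∧ ∃ z₁ ∈ U₁,
      Sat U₁ (Function.update (fun n => Function.update w 0 y' (3 * n + 3)) 0 z₁) φ₁ ∧
      ∃ U₂, LevOf U₂ (Function.update w 0 y' 2) ∧ ∃ z₂ ∈ U₂,
        Sat U₂ (Function.update (fun n => Function.update w 0 y' (3 * n + 4)) 0 z₂) φ₂ ∧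
        R (Function.update w 0 y' 0) (fun n => Nat.casesOn n z₁ fun m => Nat.casesOn m z₂ fun k =>
          Function.update w 0 y' (3 * k + 5))) ↔ _
    rw [u1, u2, u3, u4, Function.update_self]
    constructor
    · rintro ⟨U₁, h1, z₁, hz₁, h2, U₂, h3, z₂, hz₂, h4, h5⟩
      rw [levOf_iff] at h1 h3
      subst h1 h3
      rw [hφ₁ z₁ hz₁] at h2
      rw [hφ₂ z₂ hz₂] at h4
      subst h2 h4
      rw [u6] at h5
      exact (hy y').1 h5
    · intro h
      refine ⟨V_ α₁, levOf_iff.2 rfl, x 0, hx₁, (hφ₁ _ hx₁).2 rfl, V_ α₂, levOf_iff.2 rfl, x 1, hx₂,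
        (hφ₂ _ hx₂).2 rfl, ?_⟩
      rw [u6]
      exact (hy y').2 h
  refine ⟨β, φ, fun n => w (n / 2), fun i => hw _, mem_vonNeumann.2 hyβ, fun y' hy' => ?_⟩
  have hin : ∀ i, Function.update (fun n => w (n / 2)) 0 y' i ∈ V_ β := by
    intro i
    by_cases hi : i = 0
    · subst hi; simpa using hy'
    · rw [Function.update_of_ne hi]; exact (hw _).1
  rw [hφ (V_ β) ⟨β, hβ3, hβ2, rfl⟩ _ hin]
  have e : (fun i => Function.update (fun n => w (n / 2)) 0 y' (2 * i)) = Function.update w 0 y' := by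
    funext i
    by_cases hi : i = 0
    · subst hi; simp
    · rw [Function.update_of_ne (by omega), Function.update_of_ne hi]
      congr 1
      omega
  rw [e]
  show ((Function.update w 0 y' 1).IsOrdinal ∧ (Function.update w 0 y' 2).IsOrdinal ∧
    B (Function.update w 0 y')) ↔ _
  rw [hBw]
  constructor
  · exact fun h => h.2.2
  · exact fun h => ⟨isOrdinal_toZFSet _, isOrdinal_toZFSet _, h⟩

theorem OD_ord (α : Ordinal.{u}) : OD α.toZFSet := by
  refine ⟨Order.succ α, .eq 0 1, fun _ => α.toZFSet, fun i => ⟨?_, isOrdinal_toZFSet _⟩, ?_, ?_⟩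
  · rw [mem_vonNeumann, Ordinal.rank_toZFSet]; exact Order.lt_succ α
  · rw [mem_vonNeumann, Ordinal.rank_toZFSet]; exact Order.lt_succ α
  · intro y _
    exact Iff.rfl

theorem HOD.od {x : ZFSet.{u}} (h : HOD x) : OD x := by
  obtain ⟨t, _, hx, h1⟩ := h
  exact h1 x hx

theorem HOD.mem {x y : ZFSet.{u}} (h : HOD x) (hy : y ∈ x) : HOD y := by
  obtain ⟨t, ht, hx, h1⟩ := h
  exact ⟨t, ht, ht.mem_trans hy hx, h1⟩

theorem HOD_of_sub {y : ZFSet.{u}} (h : OD y) (hs : ∀ z ∈ y, HOD z) : HOD y := by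
  classical
  refine ⟨insert y (ZFSet.sep HOD (V_ (rank y))), ?_, mem_insert _ _, ?_⟩
  · rw [isTransitive_iff_mem_trans] 
    intro a b hab hb
    rw [mem_insert_iff] at hb ⊢
    right
    rw [mem_sep]
    rcases hb with rfl | hb
    · exact ⟨mem_vonNeumann.2 (rank_lt_of_mem hab), hs a hab⟩
    · rw [mem_sep] at hb
      exact ⟨(isTransitive_vonNeumann _).mem_trans hab hb.1, hb.2.mem hab⟩
  · intro z hz
    rw [mem_insert_iff] at hz
    rcases hz with rfl | hz
    · exact h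
    · exact (mem_sep.1 hz).2.od

theorem HOD_ord (α : Ordinal.{u}) : HOD α.toZFSet := by
  induction α using WellFoundedLT.induction with
  | ind α ih =>
    refine HOD_of_sub (OD_ord α) fun z hz => ?_
    obtain ⟨β, hβ, rfl⟩ := Ordinal.mem_toZFSet_iff.1 hz
    exact ih β hβ

/-- Closure of `HOD` under definitions. -/
theorem HOD_of {R : ZFSet.{u} → (ℕ → ZFSet.{u}) → Prop}
    (hR : Dfn Lvl.{u} (fun v => R (v 0) (fun n => v (n + 1)))) {x : ℕ → ZFSet.{u}}
    (h0 : OD (x 0)) (h1 : OD (x 1)) (hx : ∀ i, (x (i + 2)).IsOrdinal) {y : ZFSet.{u}}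
    (hy : ∀ y', R y' x ↔ y' = y) (hs : ∀ z ∈ y, HOD z) : HOD y :=
  HOD_of_sub (OD_of hR h0 h1 hx hy) hs

theorem empty_ord : (∅ : ZFSet.{u}).IsOrdinal := by
  have := isOrdinal_toZFSet (0 : Ordinal.{u})
  rwa [Ordinal.toZFSet_zero] at this

/-- The assignment `a, b`, ordinals. -/
theorem asg_ord {a b c d e f : ZFSet.{u}} (hc : c.IsOrdinal) (hd : d.IsOrdinal) (he : e.IsOrdinal)
    (hf : f.IsOrdinal) : ∀ i, (asg a b c d e f (i + 2)).IsOrdinal := by
  intro i
  rcases i with _ | i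
  · exact hc
  rcases i with _ | i
  · exact hd
  rcases i with _ | i
  · exact he
  · exact hf

theorem HOD_pair_set {a b : ZFSet.{u}} (ha : HOD a) (hb : HOD b) : HOD {a, b} := by
  refine HOD_of (R := fun y x => x 0 ∈ y ∧ x 1 ∈ y ∧ ∀ z ∈ y, z = x 0 ∨ z = x 1)
    (x := asg a b ∅ ∅ ∅ ∅) ?_ ha.od hb.od (asg_ord empty_ord empty_ord empty_ord empty_ord)
    (fun y => ?_) fun z hz => ?_
  · refine (Dfn.mem _ _).and ((Dfn.mem _ _).and ?_)
    exact Dfn.ball Lvl_sub_Trs _ ((Dfn.eq _ _).or (Dfn.eq _ _))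
  · show a ∈ y ∧ b ∈ y ∧ (∀ z ∈ y, z = a ∨ z = b) ↔ _
    constructor
    · rintro ⟨h1, h2, h3⟩
      ext z
      rw [mem_pair]
      constructor
      · exact h3 z
      · rintro (rfl | rfl)
        · exact h1
        · exact h2
    · rintro rfl
      simp
  · rw [mem_pair] at hz
    rcases hz with rfl | rfl
    · exact ha
    · exact hb

theorem HOD_pair {a b : ZFSet.{u}} (ha : HOD a) (hb : HOD b) : HOD (pair a b) := by
  have h1 : HOD ({a} : ZFSet.{u}) := by
    have := HOD_pair_set ha ha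
    rwa [show ({a, a} : ZFSet.{u}) = {a} by ext z; simp] at this
  exact HOD_pair_set h1 (HOD_pair_set ha hb)

theorem HOD.of_pair {a b : ZFSet.{u}} (h : HOD (pair a b)) : HOD a ∧ HOD b := by
  have h1 : HOD ({a, b} : ZFSet.{u}) := h.mem (by simp [pair])
  exact ⟨h1.mem (by simp), h1.mem (by simp)⟩

theorem HOD_inter_ord {S : ZFSet.{u}} (hS : HOD S) (l : Ordinal.{u}) : HOD (S ∩ l.toZFSet) := by
  refine HOD_of (R := fun y x => (∀ z ∈ y, z ∈ x 0 ∧ z ∈ x 2) ∧ ∀ z ∈ x 0, z ∈ x 2 → z ∈ y)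
    (x := asg S S l.toZFSet ∅ ∅ ∅) ?_ hS.od hS.od
    (asg_ord (isOrdinal_toZFSet _) empty_ord empty_ord empty_ord) (fun y => ?_) fun z hz => ?_
  · refine Dfn.and ?_ ?_
    · exact Dfn.ball Lvl_sub_Trs _ ((Dfn.mem _ _).and (Dfn.mem _ _))
    · exact Dfn.ball Lvl_sub_Trs _ ((Dfn.mem _ _).imp (Dfn.mem _ _))
  · show (∀ z ∈ y, z ∈ S ∧ z ∈ l.toZFSet) ∧ (∀ z ∈ S, z ∈ l.toZFSet → z ∈ y) ↔ _
    constructor
    · rintro ⟨h1, h2⟩
      ext z
      rw [mem_inter]
      exact ⟨h1 z, fun h => h2 z h.1 h.2⟩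
    · rintro rfl
      exact ⟨fun z hz => mem_inter.1 hz, fun z h1 h2 => mem_inter.2 ⟨h1, h2⟩⟩
  · exact hS.mem (mem_inter.1 hz).1

end Pool.Agent.H310.HD
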