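import Pool.Agent.H310.HD.Sing

/-!
Closure of the class of ordinal definable sets, with bounds for the levels.
-/

set_option autoImplicit false
set_option linter.unusedVariables false

namespace Pool.Agent.H310.HD

open ZFSet Gss969

universe u

/-- `θ` is a limit of limit ordinals. -/
def LimLim (θ : Ordinal.{u}) : Prop :=
  ∀ ξ < θ, ∃ β < θ, ξ < β ∧ Ordinal.omega0 < β ∧ Order.IsSuccLimit β

/-- The class of ordinal definable sets is closed under definitions with two ordinal definable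
parameters and any number of ordinals; with a bound for the level. -/
theorem OD_of' {R : ZFSet.{u} → (ℕ → ZFSet.{u}) → Prop}
    (hR : Dfn Lvl.{u} (fun v => R (v 0) (fun n => v (n + 1)))) {x : ℕ → ZFSet.{u}}
    {θ : Ordinal.{u}} (hθ : LimLim θ) (h0 : ∃ α < θ, ODat (V_ α) (x 0))
    (h1 : ∃ α < θ, ODat (V_ α) (x 1)) (hx : ∀ i, (x (i + 2)).IsOrdinal) {ρ : Ordinal.{u}}
    (hρ : ρ < θ) (hρ' : ∀ i, rank (x (i + 2)) ≤ ρ) {y : ZFSet.{u}} (hyθ : rank y < θ)
    (hy : ∀ y', R y' x ↔ y' = y) : ∃ β < θ, ODat (V_ β) y := by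
  obtain ⟨α₁, hθ₁, φ₁, s₁, hs₁, hx₁, hφ₁⟩ := h0
  obtain ⟨α₂, hθ₂, φ₂, s₂, hs₂, hx₂, hφ₂⟩ := h1
  -- the definition
  let B : (ℕ → ZFSet.{u}) → Prop := fun w =>
    ∃ U₁, LevOf U₁ (w 1) ∧ ∃ z₁ ∈ U₁,
      Sat U₁ (Function.update (fun n => w (3 * n + 3)) 0 z₁) φ₁ ∧
      ∃ U₂, LevOf U₂ (w 2) ∧ ∃ z₂ ∈ U₂,
        Sat U₂ (Function.update (fun n => w (3 * n + 4)) 0 z₂) φ₂ ∧
        R (w 0) (fun n => Nat.casesOn n z₁ fun m => Nat.casesOn m z₂ fun k => w (3 * k + 5))
  have hLb : ∀ U ∈ Lvl.{u}, ∀ a ∈ U, ∀ U', a.IsOrdinal → LevOf U' a → U' ∈ U := by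
    rintro U ⟨β, hβ, _, rfl⟩ a ha U' ho h
    rw [← ho.toZFSet_rank_eq, levOf_iff] at h
    rw [h, vonNeumann_mem_vonNeumann_iff]
    exact mem_vonNeumann.1 ha
  have hB : Dfn Lvl.{u} (fun w => (w 1).IsOrdinal ∧ (w 2).IsOrdinal ∧ B w) := by
    have hB1 : Dfn Lvl.{u} (fun w => (w 1).IsOrdinal ∧ (w 2).IsOrdinal ∧ ∃ U₁, LevOf U₁ (w 1) ∧
      ∃ z₁ ∈ U₁, Sat U₁ (Function.update (fun n => w (3 * n + 3)) 0 z₁) φ₁ ∧
      ∃ U₂, ((w 2).IsOrdinal ∧ LevOf U₂ (w 2)) ∧ ∃ z₂ ∈ U₂,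
        Sat U₂ (Function.update (fun n => w (3 * n + 4)) 0 z₂) φ₂ ∧
        R (w 0) (fun n => Nat.casesOn n z₁ fun m => Nat.casesOn m z₂ fun k => w (3 * k + 5))) := by
      refine Dfn.congr (A := fun w => (w 2).IsOrdinal ∧ ∃ U₁, ((w 1).IsOrdinal ∧ LevOf U₁ (w 1)) ∧
      ∃ z₁ ∈ U₁, Sat U₁ (Function.update (fun n => w (3 * n + 3)) 0 z₁) φ₁ ∧
      ∃ U₂, ((w 2).IsOrdinal ∧ LevOf U₂ (w 2)) ∧ ∃ z₂ ∈ U₂,
        Sat U₂ (Function.update (fun n => w (3 * n + 4)) 0 z₂) φ₂ ∧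
        R (w 0) (fun n => Nat.casesOn n z₁ fun m => Nat.casesOn m z₂ fun k => w (3 * k + 5)))
        ?_ ?_
      · refine (dfn_ord Lvl_sub_Trs _).and (Dfn.ex ?_ ?_)
        · refine ((dfn_ord Lvl_sub_Trs _).and (dfn_LevOf _ _)).and (Dfn.bex Lvl_sub_Trs _
            (Dfn.and ?_ (Dfn.ex ?_ ?_)))
          · refine ((dfn_Sat φ₁ 1 (fun n => if n = 0 then 0 else 3 * n + 3 + 2)).mono
              Lvl_sub_Trs).congr fun v => ?_
            have : (fun n => v (if n = 0 then 0 else 3 * n + 3 + 2)) =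
                Function.update (fun n => v (3 * n + 3 + 2)) 0 (v 0) := by
              funext n
              by_cases hn : n = 0
              · subst hn; simp
              · simp [hn]
            rw [this]
          · refine ((dfn_ord Lvl_sub_Trs _).and (dfn_LevOf _ _)).and (Dfn.bex Lvl_sub_Trs _
              (Dfn.and ?_ ?_))
            · refine ((dfn_Sat φ₂ 1 (fun n => if n = 0 then 0 else 3 * n + 4 + 4)).mono
                Lvl_sub_Trs).congr fun v => ?_
              have : (fun n => v (if n = 0 then 0 else 3 * n + 4 + 4)) =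
                  Function.update (fun n => v (3 * n + 4 + 4)) 0 (v 0) := by
                funext n
                by_cases hn : n = 0
                · subst hn; simp
                · simp [hn]
              rw [this]
            · refine (Dfn_reindex hR (fun n => Nat.casesOn n 4 fun m => Nat.casesOn m 2 fun k =>
                Nat.casesOn k 0 fun l => 3 * l + 5 + 4)).congr fun v => ?_
              have : (fun n => v (Nat.casesOn (n + 1) 4 fun m => Nat.casesOn m 2 fun k =>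
                  Nat.casesOn k 0 fun l => 3 * l + 5 + 4)) =
                  fun n => Nat.casesOn n (v 2) fun m => Nat.casesOn m (v 0) fun k =>
                    v (3 * k + 5 + 4) := by
                funext n
                rcases n with _ | n
                · rfl
                · rcases n with _ | n
                  · rfl
                  · rfl
              rw [this]
              exact Iff.rfl
          · rintro U hU v hv ⟨U₂, ⟨h1, h2⟩, h3⟩
            exact ⟨U₂, hLb U hU _ (hv _) U₂ h1 h2, ⟨h1, h2⟩, h3⟩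
        · rintro U hU v hv ⟨U₁, ⟨h1, h2⟩, h3⟩
          exact ⟨U₁, hLb U hU _ (hv _) U₁ h1 h2, ⟨h1, h2⟩, h3⟩
      · intro w
        constructor
        · rintro ⟨h2, U₁, ⟨h3, h4⟩, h5⟩
          exact ⟨h3, h2, U₁, h4, h5⟩
        · rintro ⟨h2, h3, U₁, h4, h5⟩
          exact ⟨h3, U₁, ⟨h2, h4⟩, h5⟩
    refine hB1.congr fun w => ?_
    constructor
    · rintro ⟨h1, h2, U₁, h3, z₁, h4, h5, U₂, ⟨_, h6⟩, h7⟩
      exact ⟨h1, h2, U₁, h3, z₁, h4, h5, U₂, h6, h7⟩
    · rintro ⟨h1, h2, U₁, h3, z₁, h4, h5, U₂, h6, h7⟩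
      exact ⟨h1, h2, U₁, h3, z₁, h4, h5, U₂, ⟨h2, h6⟩, h7⟩
  obtain ⟨φ, hφ⟩ := hB (fun n => 2 * n) (by
    refine Set.infinite_of_injective_forall_mem (f := fun n : ℕ => 2 * n + 1) ?_ ?_
    · intro a b hab; simpa using hab
    · rintro n ⟨m, hm⟩
      simp only at hm
      omega)
  -- the parameters
  let w : ℕ → ZFSet.{u} := fun n => Nat.casesOn n ∅ fun m => Nat.casesOn m α₁.toZFSet fun k =>
    Nat.casesOn k α₂.toZFSet fun l =>
      if l % 3 = 0 then s₁ (l / 3) else if l % 3 = 1 then s₂ (l / 3) else x (l / 3 + 2)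
  obtain ⟨β, hβθ, hβ, hβ2, hβ3⟩ := hθ (max (max α₁ α₂) (max (rank y) ρ))
    (max_lt (max_lt hθ₁ hθ₂) (max_lt hyθ hρ))
  have hα₁ : α₁ < β := ((le_max_left _ _).trans (le_max_left _ _)).trans_lt hβ
  have hα₂ : α₂ < β := ((le_max_right _ _).trans (le_max_left _ _)).trans_lt hβ
  have hyβ : rank y < β := ((le_max_left _ _).trans (le_max_right _ _)).trans_lt hβ
  have hxβ : ∀ i, rank (x (i + 2)) < β := fun i => by
    exact lt_of_le_of_lt (hρ' i) (((le_max_right _ _).trans (le_max_right _ _)).trans_lt hβ)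
  have hw : ∀ i, w i ∈ V_ β ∧ (w i).IsOrdinal := by
    intro i
    rcases i with _ | i
    · refine ⟨?_, ?_⟩
      · show ∅ ∈ V_ β
        rw [mem_vonNeumann, rank_empty]
        exact lt_of_le_of_lt (bot_le : (0 : Ordinal.{u}) ≤ α₁) hα₁
      · show (∅ : ZFSet.{u}).IsOrdinal
        have := isOrdinal_toZFSet (0 : Ordinal.{u})
        rwa [Ordinal.toZFSet_zero] at this
    rcases i with _ | i
    · exact ⟨by show α₁.toZFSet ∈ V_ β; rw [mem_vonNeumann, Ordinal.rank_toZFSet]; exact hα₁,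
        isOrdinal_toZFSet _⟩
    rcases i with _ | i
    · exact ⟨by show α₂.toZFSet ∈ V_ β; rw [mem_vonNeumann, Ordinal.rank_toZFSet]; exact hα₂,
        isOrdinal_toZFSet _⟩
    show (if i % 3 = 0 then s₁ (i / 3) else if i % 3 = 1 then s₂ (i / 3) else x (i / 3 + 2)) ∈ V_ β ∧
      (if i % 3 = 0 then s₁ (i / 3) else if i % 3 = 1 then s₂ (i / 3) else x (i / 3 + 2)).IsOrdinal
    split_ifs
    · exact ⟨mem_vonNeumann.2 ((mem_vonNeumann.1 (hs₁ _).1).trans hα₁), (hs₁ _).2⟩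
    · exact ⟨mem_vonNeumann.2 ((mem_vonNeumann.1 (hs₂ _).1).trans hα₂), (hs₂ _).2⟩
    · exact ⟨mem_vonNeumann.2 (hxβ _), hx _⟩
  have hmod : ∀ n, (3 * n + 3 : ℕ) = (3 * n) + 1 + 1 + 1 := fun n => rfl
  have e₁ : ∀ n, w (3 * n + 3) = s₁ n := by
    intro n
    show (if (3 * n) % 3 = 0 then s₁ (3 * n / 3) else if (3 * n) % 3 = 1 then s₂ (3 * n / 3)
      else x (3 * n / 3 + 2)) = _
    rw [if_pos (by omega)]
    congr 1
    omega
  have e₂ : ∀ n, w (3 * n + 4) = s₂ n := by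
    intro n
    show (if (3 * n + 1) % 3 = 0 then s₁ ((3 * n + 1) / 3) else if (3 * n + 1) % 3 = 1 then
      s₂ ((3 * n + 1) / 3) else x ((3 * n + 1) / 3 + 2)) = _
    rw [if_neg (by omega), if_pos (by omega)]
    congr 1
    omega
  have e₃ : ∀ n, w (3 * n + 5) = x (n + 2) := by
    intro n
    show (if (3 * n + 2) % 3 = 0 then s₁ ((3 * n + 2) / 3) else if (3 * n + 2) % 3 = 1 then
      s₂ ((3 * n + 2) / 3) else x ((3 * n + 2) / 3 + 2)) = _
    rw [if_neg (by omega), if_neg (by omega)]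
    congr 2
    omega
  have hBw : ∀ y', B (Function.update w 0 y') ↔ y' = y := by
    intro y'
    have u1 : Function.update w 0 y' 1 = α₁.toZFSet := rfl
    have u2 : Function.update w 0 y' 2 = α₂.toZFSet := rfl
    have u3 : (fun n => Function.update w 0 y' (3 * n + 3)) = s₁ := by
      funext n
      rw [Function.update_of_ne (by omega), e₁]
    have u4 : (fun n => Function.update w 0 y' (3 * n + 4)) = s₂ := by
      funext n
      rw [Function.update_of_ne (by omega), e₂]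
    have u5 : ∀ n, Function.update w 0 y' (3 * n + 5) = x (n + 2) := by
      intro n
      rw [Function.update_of_ne (by omega), e₃]
    have u6 : (fun n => Nat.casesOn n (x 0) fun m => Nat.casesOn m (x 1) fun k =>
        Function.update w 0 y' (3 * k + 5) : ℕ → ZFSet.{u}) = x := by
      funext n
      rcases n with _ | n
      · rfl
      · rcases n with _ | n
        · rfl
        · exact u5 n
    show (∃ U₁, LevOf U₁ (Function.update w 0 y' 1) ∧ ∃ z₁ ∈ U₁,
      Sat U₁ (Function.update (fun n => Function.update w 0 y' (3 * n + 3)) 0 z₁) φ₁ ∧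
      ∃ U₂, LevOf U₂ (Function.update w 0 y' 2) ∧ ∃ z₂ ∈ U₂,
        Sat U₂ (Function.update (fun n => Function.update w 0 y' (3 * n + 4)) 0 z₂) φ₂ ∧
        R (Function.update w 0 y' 0) (fun n => Nat.casesOn n z₁ fun m => Nat.casesOn m z₂ fun k =>
          Function.update w 0 y' (3 * k + 5))) ↔ _
    rw [u1, u2, u3, u4, Function.update_self]
    constructor
    · rintro ⟨U₁, h1, z₁, hz₁, h2, U₂, h3, z₂, hz₂, h4, h5⟩
      rw [levOf_iff] at h1 h3
      subst h1 h3
      rw [hφ₁ z₁ hz₁] at h2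
      rw [hφ₂ z₂ hz₂] at h4
      subst h2 h4
      rw [u6] at h5
      exact (hy y').1 h5
    · intro h
      refine ⟨V_ α₁, levOf_iff.2 rfl, x 0, hx₁, (hφ₁ _ hx₁).2 rfl, V_ α₂, levOf_iff.2 rfl, x 1, hx₂,
        (hφ₂ _ hx₂).2 rfl, ?_⟩
      rw [u6]
      exact (hy y').2 h
  refine ⟨β, hβθ, φ, fun n => w (n / 2), fun i => hw _, mem_vonNeumann.2 hyβ, fun y' hy' => ?_⟩
  have hin : ∀ i, Function.update (fun n => w (n / 2)) 0 y' i ∈ V_ β := by
    intro i
    by_cases hi : i = 0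
    · subst hi; simpa using hy'
    · rw [Function.update_of_ne hi]; exact (hw _).1
  rw [hφ (V_ β) ⟨β, hβ3, hβ2, rfl⟩ _ hin]
  have e : (fun i => Function.update (fun n => w (n / 2)) 0 y' (2 * i)) = Function.update w 0 y' := by
    funext i
    by_cases hi : i = 0
    · subst hi; simp
    · rw [Function.update_of_ne (by omega), Function.update_of_ne hi]
      congr 1
      omega
  rw [e]
  show ((Function.update w 0 y' 1).IsOrdinal ∧ (Function.update w 0 y' 2).IsOrdinal ∧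
    B (Function.update w 0 y')) ↔ _
  rw [hBw]
  constructor
  · exact fun h => h.2.2
  · exact fun h => ⟨isOrdinal_toZFSet _, isOrdinal_toZFSet _, h⟩

theorem exists_limlim (ξ : Ordinal.{u}) : ∃ ζ : Ordinal.{u}, ξ < ζ ∧ LimLim ζ ∧ V_ ζ ∈ Lvl.{u} := by
  choose N hN1 hN2 hN3 using exists_limit_gt.{u}
  let G : ℕ → Ordinal.{u} := fun n => Nat.rec ξ (fun _ γ => N γ) n
  have hG : ∀ n, G n < G (n + 1) := fun n => hN1 (G n)
  obtain ⟨ζ, hζ⟩ : ∃ ζ : Ordinal.{u}, ζ = ⨆ n : ULift.{u} ℕ, G n.down := ⟨_, rfl⟩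
  have hle : ∀ n, G n < ζ := by
    intro n
    rw [hζ]
    exact (hG n).trans_le (Ordinal.le_iSup (fun n : ULift.{u} ℕ => G n.down) ⟨n + 1⟩)
  have hun : ∀ x < ζ, ∃ n, x < G n := by
    intro x hx
    by_contra hcon
    push Not at hcon
    rw [hζ] at hx
    exact absurd hx (not_lt.2 (Ordinal.iSup_le fun n => hcon n.down))
  have hll : LimLim ζ := by
    intro x hx
    obtain ⟨n, hn⟩ := hun x hx
    exact ⟨G (n + 1), hle (n + 1), hn.trans (hG n), hN2 (G n), hN3 (G n)⟩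
  refine ⟨ζ, hle 0, hll, ζ, ?_, (hN2 ξ).trans (hle 1), rfl⟩
  rw [Order.isSuccLimit_iff, Order.isSuccPrelimit_iff_succ_lt]
  refine ⟨?_, ?_⟩
  · intro hm
    rw [isMin_iff_eq_bot] at hm
    have := hle 0
    rw [hm] at this
    exact absurd this (by simp)
  · intro x hx
    obtain ⟨β, h1, h2, _⟩ := hll x hx
    exact (Order.succ_le_of_lt h2).trans_lt h1

end Pool.Agent.H310.HD
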