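import Pool.Agent.H310.HD.Clos2

/-!
Solovay's argument: disjoint stationary sets of points of small cofinality which are listed in
`HOD` make the images `j[α]`, `j` an embedding with critical point `δ`, members of `HOD`.
-/

set_option autoImplicit false
set_option linter.unusedVariables false

namespace Pool.Agent.H310.HD

open ZFSet Gss969

universe u

/-- There is a cofinal function from `m` to `a`. -/
def CofN (m a : ZFSet.{u}) : Prop :=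
  ∃ f, IsFunc m a f ∧ ∀ x ∈ a, ∃ n ∈ m, ∃ y ∈ a, pair n y ∈ f ∧ x ∈ y

theorem cofN_om {a : ZFSet.{u}} : CofN om a ↔ CofOm a := Iff.rfl

theorem dfn_CofN (a b : ℕ) : Dfn Lvl.{u} (fun v => CofN (v a) (v b)) := by
  unfold CofN
  repeat' first
    | exact Dfn.mem _ _ | exact dfn_pm Lvl_sub_Trs _ _ _ | refine Dfn.exfun _ _ ?_
    | refine Dfn.and ?_ ?_
    | refine Dfn.ball Lvl_sub_Trs _ ?_ | refine Dfn.bex Lvl_sub_Trs _ ?_ | refine Dfn.imp ?_ ?_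

/-- `S` is a sequence of length `k` of pairwise disjoint stationary subsets of `l`, all of whose
elements `a` have a cofinal function from `m`. -/
def Fam (m k l S : ZFSet.{u}) : Prop :=
  IsFunc k (powerset l) S ∧
  (∀ i ∈ k, ∀ A, A ⊆ l → pair i A ∈ S → Stat A l ∧ ∀ a ∈ A, CofN m a) ∧
  ∀ i ∈ k, ∀ i' ∈ k, ∀ A, A ⊆ l → ∀ A', A' ⊆ l → pair i A ∈ S → pair i' A' ∈ S →
    (∃ a ∈ A, a ∈ A') → i = i'

theorem dfn_Fam (a b c d : ℕ) : Dfn Lvl.{u} (fun v => Fam (v a) (v b) (v c) (v d)) := by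
  refine Dfn.and ?_ ?_
  · exact Dfn_pow c (A := fun T v => IsFunc (v b) T (v d)) (dfn_isFunc Lvl_sub_Trs _ _ _)
  · repeat' first
      | exact Dfn.mem _ _ | exact Dfn.eq _ _ | exact dfn_pm Lvl_sub_Trs _ _ _
      | exact dfn_Stat _ _ | exact dfn_CofN _ _
      | refine Dfn.and ?_ ?_ | refine Dfn.allsub subset_rfl _ ?_
      | refine Dfn.ball Lvl_sub_Trs _ ?_ | refine Dfn.bex Lvl_sub_Trs _ ?_ | refine Dfn.imp ?_ ?_

namespace ExtData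

variable {δ η θ τ : Ordinal.{u}} {j : ZFSet.{u} → ZFSet.{u}}

theorem ordB {α : Ordinal.{u}} (hα : α < η) : α.toZFSet ∈ V_ η := by
  rw [mem_vonNeumann, Ordinal.rank_toZFSet]; exact hα

theorem jJ (D : ExtData δ η θ τ j) {α : Ordinal.{u}} (hα : α < η) :
    j α.toZFSet = (rank (j α.toZFSet)).toZFSet :=
  (D.E.ord (ordB hα) (isOrdinal_toZFSet α)).toZFSet_rank_eq.symm

theorem J_lt (D : ExtData δ η θ τ j) {α β : Ordinal.{u}} (hα : α < η) (hβ : β < η) :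
    α < β ↔ rank (j α.toZFSet) < rank (j β.toZFSet) := by
  rw [← tz_mem, D.E.mem_iff (ordB hα) (ordB hβ), D.jJ hα, D.jJ hβ, tz_mem, Ordinal.rank_toZFSet,
    Ordinal.rank_toZFSet]

theorem le_J (D : ExtData δ η θ τ j) {α : Ordinal.{u}} (hα : α < η) :
    α ≤ rank (j α.toZFSet) := by
  induction α using WellFoundedLT.induction with
  | ind α ih =>
    by_contra hcon
    push Not at hcon
    have h1 := ih _ hcon (hcon.trans hα)
    have h2 := (D.J_lt (hcon.trans hα) hα).1 hcon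
    exact absurd h1 (not_le.2 h2)

/-- Continuity of the embedding at points of small cofinality. -/
theorem cont (D : ExtData δ η θ τ j) {μ x : Ordinal.{u}} (hμ : μ < δ) (hx : x < η)
    (h : CofN μ.toZFSet x.toZFSet) : ∀ y < rank (j x.toZFSet), ∃ z < x, y < rank (j z.toZFSet) := by
  obtain ⟨f, hf, hc⟩ := h
  intro y hy
  have hμη : μ.toZFSet ∈ V_ η := ordB (hμ.trans D.lt)
  have hfη : f ∈ V_ η := Lvl_func D.E.lvl hμη (ordB hx) hf
  have hc' := (D.E.el.t3 D.E.bt D.E.nt (A := fun m a f => ∀ x ∈ a, ∃ n ∈ m, ∃ y ∈ a,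
    pair n y ∈ f ∧ x ∈ y) (by
      repeat' first
        | exact Dfn.mem _ _ | exact dfn_pm subset_rfl _ _ _ | refine Dfn.and ?_ ?_
        | refine Dfn.ball subset_rfl _ ?_ | refine Dfn.bex subset_rfl _ ?_)
      hμη (ordB hx) hfη).1 hc
  rw [D.fix μ hμ] at hc'
  obtain ⟨n, hn, z, hz, hnz, hyz⟩ := hc' y.toZFSet (by rw [D.jJ hx]; exact tz_mem.2 hy)
  obtain ⟨n, hn', rfl⟩ := Ordinal.mem_toZFSet_iff.1 hn
  have hf' := D.E.func hμη (ordB hx) hf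
  rw [D.fix μ hμ] at hf'
  have h1 := (app_iff hf' hn).1 hnz
  have h2 := D.E.app_eq hμη (ordB hx) hf hn
  rw [D.fix n (hn'.trans hμ), h1] at h2
  obtain ⟨w, hw, hw'⟩ := Ordinal.mem_toZFSet_iff.1 (app_mem hf hn)
  refine ⟨w, hw, ?_⟩
  rw [← hw'] at h2
  rw [h2, D.jJ (hw.trans hx)] at hyz
  exact tz_mem.1 hyz

variable {l μ k : Ordinal.{u}} {S : ZFSet.{u}}

theorem exists_lam (D : ExtData δ η θ τ j) (hl : RegUnc l.toZFSet) (hlη : l < η) :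
    ∃ L : Ordinal.{u}, (∀ x < l, rank (j x.toZFSet) < L) ∧
      (∀ y < L, ∃ x < l, y < rank (j x.toZFSet)) ∧ L ≤ rank (j l.toZFSet) := by
  obtain ⟨L, hL⟩ : ∃ L : Ordinal.{u}, L = ⨆ w : {w // w ∈ l.toZFSet}, rank (j w.1) := ⟨_, rfl⟩
  refine ⟨L, fun x hx => ?_, fun y hy => ?_, ?_⟩
  · have h1 := hl.succ_lt hx
    refine ((D.J_lt (hx.trans hlη) (h1.trans hlη)).1 (Order.lt_succ x)).trans_le ?_
    rw [hL]
    exact Ordinal.le_iSup (fun w : {w // w ∈ l.toZFSet} => rank (j w.1))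
      ⟨(Order.succ x).toZFSet, tz_mem.2 h1⟩
  · rw [hL, Ordinal.lt_iSup_iff] at hy
    obtain ⟨⟨w, hw⟩, h1⟩ := hy
    obtain ⟨x, hx, rfl⟩ := Ordinal.mem_toZFSet_iff.1 hw
    exact ⟨x, hx, h1⟩
  · rw [hL]
    refine Ordinal.iSup_le ?_
    rintro ⟨w, hw⟩
    obtain ⟨x, hx, rfl⟩ := Ordinal.mem_toZFSet_iff.1 hw
    exact ((D.J_lt (hx.trans hlη) hlη).1 hx).le

theorem om_lt (D : ExtData δ η θ τ j) (hδ : V_ δ ∈ Lvl.{u}) : Ordinal.omega0 < δ := by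
  have h1 := mem_vonNeumann.1 (om_mem_Lvl hδ)
  unfold om at h1
  rwa [Ordinal.rank_toZFSet] at h1

/-- The images of stationary sets. -/
theorem stat_up (D : ExtData δ η θ τ j) (hδ : V_ δ ∈ Lvl.{u}) (hl : RegUnc l.toZFSet)
    (hlη : l < η) (hμ : μ < δ) {L : Ordinal.{u}} (hL1 : ∀ x < l, rank (j x.toZFSet) < L)
    (hL2 : ∀ y < L, ∃ x < l, y < rank (j x.toZFSet)) {A : ZFSet.{u}} (hA : A ⊆ l.toZFSet)
    (hAst : Stat A l.toZFSet) (hAc : ∀ a ∈ A, CofN μ.toZFSet a) {C : ZFSet.{u}}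
    (hC : Club C L.toZFSet) : ∃ x < l, x.toZFSet ∈ A ∧ j x.toZFSet ∈ C := by
  have hω := D.om_lt hδ
  have hcl : ∀ {m x : Ordinal.{u}}, m < δ → x < l → 0 < x → CofN m.toZFSet x.toZFSet →
      (∀ y < x, ∃ z < x, y < z ∧ ∃ c : Ordinal.{u}, c.toZFSet ∈ C ∧ rank (j y.toZFSet) < c ∧
        c < rank (j z.toZFSet)) → j x.toZFSet ∈ C := by
    intro m x hm hx hx0 hc h
    rw [D.jJ (hx.trans hlη)]
    refine hC.2.2 _ (tz_mem.2 (hL1 x hx)) ?_ fun y hy => ?_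
    · exact ⟨_, tz_mem.2 ((D.J_lt (hx0.trans (hx.trans hlη)) (hx.trans hlη)).1 hx0), rfl⟩
    · obtain ⟨y, hy', rfl⟩ := Ordinal.mem_toZFSet_iff.1 hy
      obtain ⟨z, hz, h1⟩ := D.cont hm (hx.trans hlη) hc y hy'
      obtain ⟨z', hz', h2, c, h3, h4, h5⟩ := h z hz
      refine ⟨c.toZFSet, h3, tz_mem.2 (h5.trans ?_), tz_mem.2 (h1.trans h4)⟩
      exact (D.J_lt (hz'.trans (hx.trans hlη)) (hx.trans hlη)).1 hz'
  -- the preimage of `C` is unbounded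
  have hun : ∀ y < l, ∃ d < l, y < d ∧ j d.toZFSet ∈ C := by
    have step : ∀ x < l, ∃ x' < l, x < x' ∧ ∃ c : Ordinal.{u}, c.toZFSet ∈ C ∧
        rank (j x.toZFSet) < c ∧ c < rank (j x'.toZFSet) := by
      intro x hx
      obtain ⟨c, hc, hc'⟩ := hC.2.1 _ (tz_mem.2 (hL1 x hx))
      obtain ⟨γ, hγ, rfl⟩ := Ordinal.mem_toZFSet_iff.1 (hC.1 hc)
      obtain ⟨x', hx', h1⟩ := hL2 γ hγ
      have h2 := tz_mem.1 hc'
      exact ⟨x', hx', (D.J_lt (hx.trans hlη) (hx'.trans hlη)).2 (h2.trans h1), γ, hc, h2, h1⟩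
    choose! N hN1 hN2 c hc1 hc2 hc3 using step
    intro y hy
    let G : ℕ → Ordinal.{u} := fun n => Nat.rec y (fun _ γ => N γ) n
    have hG : ∀ n, G n < l := by
      intro n
      induction n with
      | zero => exact hy
      | succ n ih => exact hN1 _ ih
    obtain ⟨α, hα, h1, h2, h3⟩ := exists_sup hl hG fun n => hN2 _ (hG n)
    refine ⟨α, hα, h1 0, hcl (m := Ordinal.omega0) hω hα ((bot_le : (0 : Ordinal.{u}) ≤ y).trans_lt
      (h1 0)) h3 fun z hz => ?_⟩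
    obtain ⟨n, hn⟩ := h2 z hz
    refine ⟨G (n + 1), h1 (n + 1), hn.trans (hN2 _ (hG n)), c (G n), hc1 _ (hG n), ?_,
      hc3 _ (hG n)⟩
    exact ((D.J_lt (hz.trans (hα.trans hlη)) ((hG n).trans hlη)).1 hn).trans (hc2 _ (hG n))
  -- the limit points of the preimage
  have hclub : Club (ZFSet.sep (fun x => (∃ y ∈ x, y = y) ∧ ∀ y ∈ x, ∃ d ∈ x, y ∈ d ∧ j d ∈ C)
      l.toZFSet) l.toZFSet := by
    refine ⟨fun x hx => (mem_sep.1 hx).1, ?_, ?_⟩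
    · intro x hx
      obtain ⟨y, hy, rfl⟩ := Ordinal.mem_toZFSet_iff.1 hx
      choose! N hN1 hN2 hN3 using hun
      let G : ℕ → Ordinal.{u} := fun n => Nat.rec y (fun _ γ => N γ) n
      have hG : ∀ n, G n < l := by
        intro n
        induction n with
        | zero => exact hy
        | succ n ih => exact hN1 _ ih
      obtain ⟨α, hα, h1, h2, h3⟩ := exists_sup hl hG fun n => hN2 _ (hG n)
      refine ⟨α.toZFSet, mem_sep.2 ⟨tz_mem.2 hα, ⟨_, tz_mem.2 (h1 0), rfl⟩, fun z hz => ?_⟩,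
        tz_mem.2 (h1 0)⟩
      obtain ⟨z, hz', rfl⟩ := Ordinal.mem_toZFSet_iff.1 hz
      obtain ⟨n, hn⟩ := h2 z hz'
      exact ⟨(G (n + 1)).toZFSet, tz_mem.2 (h1 (n + 1)), tz_mem.2 (hn.trans (hN2 _ (hG n))),
        hN3 _ (hG n)⟩
    · intro a ha hne hlim
      refine mem_sep.2 ⟨ha, hne, fun y hy => ?_⟩
      obtain ⟨c, hc, hca, hyc⟩ := hlim y hy
      obtain ⟨d, hd, h1, h2⟩ := (mem_sep.1 hc).2.2 y hyc
      obtain ⟨α, hα, rfl⟩ := Ordinal.mem_toZFSet_iff.1 ha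
      exact ⟨d, (isOrdinal_toZFSet α).1.mem_trans hd hca, h1, h2⟩
  obtain ⟨x, hx, hx'⟩ := hAst _ (fun x hx => (mem_sep.1 hx).1) hclub
  obtain ⟨x, hxl, rfl⟩ := Ordinal.mem_toZFSet_iff.1 (hA hx)
  rw [mem_sep] at hx'
  obtain ⟨_, ⟨y0, hy0, _⟩, h1⟩ := hx'
  obtain ⟨y0, hy0', rfl⟩ := Ordinal.mem_toZFSet_iff.1 hy0
  refine ⟨x, hxl, hx, ?_⟩
  rw [D.jJ (hxl.trans hlη)]
  refine hC.2.2 _ (tz_mem.2 (hL1 x hxl)) ?_ fun y hy => ?_
  · have hx0 : 0 < x := (bot_le : (0 : Ordinal.{u}) ≤ y0).trans_lt hy0'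
    exact ⟨_, tz_mem.2 ((D.J_lt (hx0.trans (hxl.trans hlη)) (hxl.trans hlη)).1 hx0), rfl⟩
  · obtain ⟨y, hy', rfl⟩ := Ordinal.mem_toZFSet_iff.1 hy
    obtain ⟨z, hz, h2⟩ := D.cont hμ (hxl.trans hlη) (hAc _ hx) y hy'
    obtain ⟨d, hd, h3, h4⟩ := h1 _ (tz_mem.2 hz)
    obtain ⟨d, hd', rfl⟩ := Ordinal.mem_toZFSet_iff.1 hd
    have hdη := hd'.trans (hxl.trans hlη)
    refine ⟨_, h4, ?_, ?_⟩
    · rw [D.jJ hdη]
      exact tz_mem.2 ((D.J_lt hdη (hxl.trans hlη)).1 hd')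
    · rw [D.jJ hdη]
      exact tz_mem.2 (h2.trans ((D.J_lt (hz.trans (hxl.trans hlη)) hdη).1 (tz_mem.1 h3)))

/-- Every `ξ < j(k)` such that the `ξ`-th set of the image of the family is stationary in
`sup j[l]` is in the image of `k`. -/
theorem stat_down (D : ExtData δ η θ τ j) (hδ : V_ δ ∈ Lvl.{u}) (hl : RegUnc l.toZFSet)
    (hlη : l < η) (hk : k < η) (hμ : μ < δ) {L : Ordinal.{u}}
    (hL1 : ∀ x < l, rank (j x.toZFSet) < L)
    (hL2 : ∀ y < L, ∃ x < l, y < rank (j x.toZFSet)) (hS : Fam μ.toZFSet k.toZFSet l.toZFSet S)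
    {ξ Z B : ZFSet.{u}} (hξ : ξ ∈ j k.toZFSet) (hZ : Stat Z L.toZFSet)
    (hB : B ⊆ j l.toZFSet) (hξB : pair ξ B ∈ j S) (hZB : ∀ z ∈ Z, z ∈ B) :
    ∃ i ∈ k.toZFSet, ξ = j i := by
  have hω := D.om_lt hδ
  have hμη := hμ.trans D.lt
  have hSη : S ∈ V_ η := Lvl_func D.E.lvl (ordB hk) (Lvl_powerset D.E.lvl (ordB hlη)) hS.1
  have hS' : Fam μ.toZFSet (j k.toZFSet) (j l.toZFSet) (j S) := by
    have := (D.E.el.t4 D.E.lvl D.nl (A := fun a b c d => Fam a b c d) (dfn_Fam _ _ _ _)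
      (ordB hμη) (ordB hk) (ordB hlη) hSη).1 hS
    rwa [D.fix μ hμ] at this
  -- the limit points of the image of `l`
  have hclub : Club (ZFSet.sep (fun c => (∃ y ∈ c, y = y) ∧ ∀ y ∈ c, ∃ x ∈ l.toZFSet,
      j x ∈ c ∧ y ∈ j x) L.toZFSet) L.toZFSet := by
    refine ⟨fun x hx => (mem_sep.1 hx).1, ?_, ?_⟩
    · intro y hy
      obtain ⟨y, hy', rfl⟩ := Ordinal.mem_toZFSet_iff.1 hy
      obtain ⟨x, hx, hyx⟩ := hL2 y hy'
      let G : ℕ → Ordinal.{u} := fun n => Nat.rec x (fun _ γ => Order.succ γ) n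
      have hG : ∀ n, G n < l := by
        intro n
        induction n with
        | zero => exact hx
        | succ n ih => exact hl.succ_lt ih
      obtain ⟨α, hα, h1, h2, h3⟩ := exists_sup hl hG fun n => Order.lt_succ _
      have hαη := hα.trans hlη
      have hxα : rank (j x.toZFSet) < rank (j α.toZFSet) := (D.J_lt (hx.trans hlη) hαη).1 (h1 0)
      refine ⟨(rank (j α.toZFSet)).toZFSet, mem_sep.2 ⟨tz_mem.2 (hL1 α hα),
        ⟨_, tz_mem.2 hxα, rfl⟩, fun z hz => ?_⟩, tz_mem.2 (hyx.trans hxα)⟩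
      obtain ⟨z, hz', rfl⟩ := Ordinal.mem_toZFSet_iff.1 hz
      obtain ⟨w, hw, h4⟩ := D.cont (μ := Ordinal.omega0) hω hαη h3 z hz'
      refine ⟨w.toZFSet, tz_mem.2 (hw.trans hα), ?_, ?_⟩
      · rw [D.jJ (hw.trans hαη)]
        exact tz_mem.2 ((D.J_lt (hw.trans hαη) hαη).1 hw)
      · rw [D.jJ (hw.trans hαη)]
        exact tz_mem.2 h4
    · intro a ha hne hlim
      refine mem_sep.2 ⟨ha, hne, fun y hy => ?_⟩
      obtain ⟨c, hc, hca, hyc⟩ := hlim y hy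
      obtain ⟨x, hx, h1, h2⟩ := (mem_sep.1 hc).2.2 y hyc
      obtain ⟨α, hα, rfl⟩ := Ordinal.mem_toZFSet_iff.1 ha
      exact ⟨x, hx, (isOrdinal_toZFSet α).1.mem_trans h1 hca, h2⟩
  obtain ⟨c, hcZ, hc⟩ := hZ _ (fun x hx => (mem_sep.1 hx).1) hclub
  rw [mem_sep] at hc
  obtain ⟨hcL, _, hlim⟩ := hc
  obtain ⟨γ, hγ, rfl⟩ := Ordinal.mem_toZFSet_iff.1 hcL
  have hcB := hZB _ hcZ
  have hcof : CofN μ.toZFSet γ.toZFSet := (hS'.2.1 ξ hξ B hB hξB).2 _ hcB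
  -- the least `x` with `γ ≤ j(x)`
  obtain ⟨x, ⟨hxl, hγx⟩, hmin⟩ := WellFounded.has_min (wellFounded_lt (α := Ordinal.{u}))
    {x | x < l ∧ γ ≤ rank (j x.toZFSet)} (by
      obtain ⟨x, hx, h1⟩ := hL2 γ hγ
      exact ⟨x, hx, h1.le⟩)
  have hxη := hxl.trans hlη
  have hlt : ∀ y < x, rank (j y.toZFSet) < γ := by
    intro y hy
    by_contra hcon
    push Not at hcon
    exact hmin y ⟨hy.trans hxl, hcon⟩ hy
  have hγx' : γ = rank (j x.toZFSet) := by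
    by_contra hne
    have h1 : γ < rank (j x.toZFSet) := lt_of_le_of_ne hγx hne
    obtain ⟨f, hf, hfc⟩ := hcof
    have h2 : ∀ n ∈ μ.toZFSet, ∃ w ∈ x.toZFSet, app f n ∈ j w ∧ j w ∈ γ.toZFSet := by
      intro n hn
      obtain ⟨w, hw, h3, h4⟩ := hlim _ (app_mem hf hn)
      obtain ⟨w, hw', rfl⟩ := Ordinal.mem_toZFSet_iff.1 hw
      refine ⟨_, tz_mem.2 ?_, h4, h3⟩
      rw [D.jJ (hw'.trans hlη)] at h3
      exact (D.J_lt (hw'.trans hlη) hxη).2 ((tz_mem.1 h3).trans h1)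
    choose! W hW1 hW2 hW3 using h2
    have h3 : CofN μ.toZFSet x.toZFSet := by
      refine ⟨gr μ.toZFSet W, isFunc_gr hW1, fun y hy => ?_⟩
      obtain ⟨y, hy', rfl⟩ := Ordinal.mem_toZFSet_iff.1 hy
      obtain ⟨n, hn, z, hz, h4, h5⟩ := hfc _ (tz_mem.2 (hlt y hy'))
      refine ⟨n, hn, W n, hW1 n hn, pair_mem_gr.2 ⟨hn, rfl⟩, ?_⟩
      have h6 := hW2 n hn
      rw [(app_iff hf hn).1 h4] at h6
      obtain ⟨w, hw, hww⟩ := Ordinal.mem_toZFSet_iff.1 (hW1 n hn)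
      rw [← hww] at h6 ⊢
      rw [D.jJ (hw.trans hxη)] at h6
      have h7 := (isOrdinal_toZFSet _).1.mem_trans h5 h6
      exact tz_mem.2 ((D.J_lt (hy'.trans hxη) (hw.trans hxη)).2 (tz_mem.1 h7))
    obtain ⟨z, hz, h4⟩ := D.cont hμ hxη h3 γ h1
    exact absurd (hlt z hz) (not_lt.2 h4.le)
  have hjx : j x.toZFSet = γ.toZFSet := by rw [hγx']; exact D.jJ hxη
  -- `x` belongs to a member of the family
  have h4 := (D.E.el.t4 D.E.lvl D.nl (A := fun S k l x => ∃ i ∈ k, ∃ A, A ⊆ l ∧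
    (pair i A ∈ S ∧ x ∈ A)) (by
      repeat' first
        | exact Dfn.mem _ _ | exact dfn_pm Lvl_sub_Trs _ _ _ | refine Dfn.and ?_ ?_
        | refine Dfn.exsub subset_rfl _ ?_ | refine Dfn.bex Lvl_sub_Trs _ ?_)
      hSη (ordB hk) (ordB hlη) (ordB hxη)).2
    ⟨ξ, hξ, B, hB, hξB, by rw [hjx]; exact hcB⟩
  obtain ⟨i, hi, A, hA, hiA, hxA⟩ := h4
  refine ⟨i, hi, ?_⟩
  have hiη : i ∈ V_ η := D.E.bt.mem_trans hi (ordB hk)
  have hAη : A ∈ V_ η := Lvl_sub D.E.lvl (ordB hlη) hA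
  have h5 : pair (j i) (j A) ∈ j S := by
    rw [← D.E.pair_eq hiη hAη]
    exact (D.E.mem_iff (Lvl_pair D.E.lvl hiη hAη) hSη).1 hiA
  exact hS'.2.2 ξ hξ (j i) ((D.E.mem_iff hiη (ordB hk)).1 hi) B hB (j A)
    ((D.E.sub_iff hAη (ordB hlη)).1 hA) hξB h5
    ⟨_, hcB, by rw [← hjx]; exact (D.E.mem_iff (ordB hxη) hAη).1 hxA⟩

end ExtData

end Pool.Agent.H310.HD
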