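import Pool.Agent.H310.HD.Cover

/-!
Solovay's argument: the covering property.
-/

set_option autoImplicit false
set_option linter.unusedVariables false

namespace Pool.Agent.H310.HD

open ZFSet Gss969

universe u

/-- There are `c ∈ d` and a cofinal function from `c` to `a` which is ordinal definable over a
level in `W`. -/
def CovB (W d a : ZFSet.{u}) : Prop :=
  ∃ c ∈ d, ∃ g, IsFunc c a g ∧ ((∃ U ∈ W, Lev U ∧ ODat U g) ∧
    ∀ y ∈ a, ∃ x ∈ c, ∃ z ∈ a, pair x z ∈ g ∧ y ∈ z)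

theorem dfn_CovB (a b c : ℕ) : Dfn Lvl.{u} (fun v => CovB (v a) (v b) (v c)) := by
  unfold CovB
  repeat' first
    | exact Dfn.mem _ _ | exact dfn_pm Lvl_sub_Trs _ _ _ | exact dfn_lev _ | exact dfn_ODat _ _
    | refine Dfn.exfun _ _ ?_ | refine Dfn.and ?_ ?_
    | refine Dfn.ball Lvl_sub_Trs _ ?_ | refine Dfn.bex Lvl_sub_Trs _ ?_

/-- The set of the ordinals which are recovered from the family. -/
def Rec (ξ T L l : ZFSet.{u}) : Prop :=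
  ∃ Z, Z ⊆ L ∧ (Stat Z L ∧ ∃ B, B ⊆ l ∧ (pair ξ B ∈ T ∧ ∀ z ∈ Z, z ∈ B))

theorem dfn_Rec (a b c d : ℕ) : Dfn Lvl.{u} (fun v => Rec (v a) (v b) (v c) (v d)) := by
  unfold Rec
  repeat' first
    | exact Dfn.mem _ _ | exact dfn_pm Lvl_sub_Trs _ _ _ | exact dfn_Stat _ _
    | refine Dfn.and ?_ ?_ | refine Dfn.exsub subset_rfl _ ?_
    | refine Dfn.ball Lvl_sub_Trs _ ?_

/-- **Covering.** -/
theorem cover {δ : Ordinal.{u}} (hδ : Extendible δ) {α k μ l m : Ordinal.{u}} (hαk : α ≤ k)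
    (hμ : μ < δ) (hl : RegUnc l.toZFSet) {S : ZFSet.{u}} (hSO : HOD S)
    (hS : Fam μ.toZFSet k.toZFSet l.toZFSet S) (hm : m < δ) (hα : CofN m.toZFSet α.toZFSet) :
    ∃ c < δ, ∃ g, HOD g ∧ IsFunc (Ordinal.toZFSet c) α.toZFSet g ∧
      ∀ y ∈ α.toZFSet, ∃ x ∈ (Ordinal.toZFSet c), ∃ z ∈ α.toZFSet, pair x z ∈ g ∧ y ∈ z := by
  obtain ⟨γ, hγ⟩ := hSO.od
  obtain ⟨ζ, h1, hll, hζL⟩ := exists_limlim (max (max γ (rank S)) (max l k))
  obtain ⟨η, θ, τ, j, h5, D⟩ := hδ.data ζ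
  have hδL := hδ.lim
  have hγζ : γ < ζ := ((le_max_left _ _).trans (le_max_left _ _)).trans_lt h1
  have hSζ : S ∈ V_ ζ := mem_vonNeumann.2 (((le_max_right _ _).trans (le_max_left _ _)).trans_lt h1)
  have hlζ : l < ζ := ((le_max_left _ _).trans (le_max_right _ _)).trans_lt h1
  have hkζ : k < ζ := ((le_max_right _ _).trans (le_max_right _ _)).trans_lt h1
  have hαζ : α < ζ := hαk.trans_lt hkζ
  have hW : V_ ζ ∈ V_ η := vonNeumann_mem_vonNeumann_iff.2 h5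
  have hlη := hlζ.trans h5
  have hkη := hkζ.trans h5
  have hαη := hαζ.trans h5
  have hSη : S ∈ V_ η := D.E.bt.mem_trans hSζ hW
  -- the image of `V_ζ`
  obtain ⟨ζ', hζ'⟩ : ∃ ζ' : Ordinal.{u}, ζ' = rank (j ζ.toZFSet) := ⟨_, rfl⟩
  have hζ'θ : ζ' < θ := by
    rw [hζ']
    exact mem_vonNeumann.1 (D.E.el.1 _ (ExtData.ordB h5))
  have hjW : j (V_ ζ) = V_ ζ' := by
    have h := (D.E.jV hW).2
    rw [← hζ'] at h
    ext x
    rw [h x]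
    exact ⟨fun h => h.1, fun h => ⟨h, vonNeumann_subset_of_le hζ'θ.le h⟩⟩
  have hLvl' : V_ ζ' ∈ Lvl.{u} := by
    have := (D.E.el.t1 D.E.lvl D.nl (A := fun a => a ∈ Lvl.{u}) (dfn_Lvl 0) hW).1 hζL
    rwa [hjW] at this
  have hll' : LimLim ζ' := by
    have h2 := (D.E.el.t1 D.E.lvl D.nl (A := fun a => ∀ x ∈ a, ∃ U ∈ a, U ∈ Lvl.{u} ∧ x ∈ U)
      (Dfn.ball Lvl_sub_Trs _ (Dfn.bex Lvl_sub_Trs _ ((dfn_Lvl _).and (Dfn.mem _ _)))) hW).1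
      (fun x hx => by
        obtain ⟨β, h2, h3, h4, h6⟩ := hll _ (mem_vonNeumann.1 hx)
        exact ⟨V_ β, vonNeumann_mem_vonNeumann_iff.2 h2, ⟨β, h6, h4, rfl⟩, mem_vonNeumann.2 h3⟩)
    rw [hjW] at h2
    intro ξ hξ
    obtain ⟨U, hU, ⟨β, h3, h4, rfl⟩, h6⟩ := h2 ξ.toZFSet (ExtData.ordB hξ)
    rw [mem_vonNeumann, Ordinal.rank_toZFSet] at h6
    exact ⟨β, vonNeumann_mem_vonNeumann_iff.1 hU, h6, h4, h3⟩
  have hmemJ : ∀ {x : ZFSet.{u}}, x ∈ V_ ζ → j x ∈ V_ ζ' := by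
    intro x hx
    rw [← hjW]
    exact (D.E.mem_iff (D.E.bt.mem_trans hx hW) hW).1 hx
  have hjl : rank (j l.toZFSet) < ζ' := mem_vonNeumann.1 (hmemJ (ExtData.ordB hlζ))
  have hjα : rank (j α.toZFSet) < ζ' := mem_vonNeumann.1 (hmemJ (ExtData.ordB hαζ))
  have hαζ' : α < ζ' := (D.le_J hαη).trans_lt hjα
  obtain ⟨L, hL1, hL2, hL3⟩ := D.exists_lam hl hlη
  -- `j(S)` is ordinal definable
  have hjS : ∃ β < ζ', ODat (V_ β) (j S) := by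
    have h2 := (D.E.el.t2 D.E.lvl D.nl (A := fun W S => ∃ U ∈ W, Lev U ∧ ODat U S)
      (Dfn.bex Lvl_sub_Trs _ ((dfn_lev _).and (dfn_ODat _ _))) hW hSη).1
      ⟨V_ γ, vonNeumann_mem_vonNeumann_iff.2 hγζ, ⟨γ, rfl⟩, hγ⟩
    rw [hjW] at h2
    obtain ⟨U, hU, ⟨β, rfl⟩, h3⟩ := h2
    exact ⟨β, vonNeumann_mem_vonNeumann_iff.1 hU, h3⟩
  -- the set `j[α]`
  obtain ⟨A, hA⟩ : ∃ A : ZFSet.{u}, A = ZFSet.sep (fun ξ => Rec ξ (j S) L.toZFSet (j l.toZFSet))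
    (j α.toZFSet) := ⟨_, rfl⟩
  have hAk : ∀ ξ, ξ ∈ A ↔ ξ ∈ j α.toZFSet ∧ Rec ξ (j S) L.toZFSet (j l.toZFSet) := by
    intro ξ; rw [hA, mem_sep]
  have hαkz : α.toZFSet ⊆ k.toZFSet := by
    intro x hx
    obtain ⟨x, hx', rfl⟩ := Ordinal.mem_toZFSet_iff.1 hx
    exact tz_mem.2 (hx'.trans_le hαk)
  have hαV : α.toZFSet ∈ V_ η := ExtData.ordB hαη
  have hA' : ∀ ξ, ξ ∈ A ↔ ∃ i ∈ α.toZFSet, ξ = j i := by
    intro ξ
    rw [hAk]
    constructor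
    · rintro ⟨h2, Z, hZL, hZ, B, hB, hξB, hZB⟩
      have h3 : ξ ∈ j k.toZFSet := (D.E.sub_iff hαV (ExtData.ordB hkη)).1 hαkz h2
      obtain ⟨i, hi, rfl⟩ := D.stat_down hδL hl hlη hkη hμ hL1 hL2 hS h3 hZ hB hξB hZB
      exact ⟨i, (D.E.mem_iff (D.E.bt.mem_trans hi (ExtData.ordB hkη)) hαV).2 h2, rfl⟩
    · rintro ⟨i, hi, rfl⟩
      have hiη : i ∈ V_ η := D.E.bt.mem_trans hi hαV
      have hik := hαkz hi
      have hB := mem_powerset.1 (app_mem hS.1 hik)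
      have hBη : app S i ∈ V_ η := Lvl_sub D.E.lvl (ExtData.ordB hlη) hB
      have hiB := app_spec hS.1 hik
      refine ⟨(D.E.mem_iff hiη hαV).1 hi, ZFSet.sep (fun z => z ∈ j (app S i)) L.toZFSet,
        fun z hz => (mem_sep.1 hz).1, ?_, j (app S i),
        (D.E.sub_iff hBη (ExtData.ordB hlη)).1 hB, ?_, fun z hz => (mem_sep.1 hz).2⟩
      · intro C hC1 hC2
        obtain ⟨x, hx, h2, h3⟩ := D.stat_up hδL hl hlη hμ hL1 hL2 hB (hS.2.1 i hik _ hB hiB).1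
          (hS.2.1 i hik _ hB hiB).2 hC2
        exact ⟨_, mem_sep.2 ⟨hC1 h3, (D.E.mem_iff (ExtData.ordB (hx.trans hlη)) hBη).1 h2⟩, h3⟩
      · rw [← D.E.pair_eq hiη hBη]
        exact (D.E.mem_iff (Lvl_pair D.E.lvl hiη hBη) hSη).1 hiB
  -- the restriction of `j` to `α`
  have hjαe : j α.toZFSet = (rank (j α.toZFSet)).toZFSet := D.jJ hαη
  obtain ⟨g, hg⟩ : ∃ g : ZFSet.{u}, g = gr α.toZFSet (fun x => j x) := ⟨_, rfl⟩
  have hgf : IsFunc α.toZFSet (rank (j α.toZFSet)).toZFSet g := by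
    rw [hg, ← hjαe]
    exact isFunc_gr fun x hx => (D.E.mem_iff (D.E.bt.mem_trans hx hαV) hαV).1 hx
  have hEn : Enum g A α.toZFSet (rank (j α.toZFSet)).toZFSet := by
    refine ⟨hgf, ?_, ?_, ?_⟩
    · intro i hi a _ hia
      rw [hg, pair_mem_gr] at hia
      rw [← hia.2]
      exact (hA' _).2 ⟨i, hi, rfl⟩
    · intro i hi i' hi' a _ b _ hia hib
      rw [hg, pair_mem_gr] at hia hib
      rw [← hia.2, ← hib.2]
      exact (D.E.mem_iff (D.E.bt.mem_trans hib.1 hαV) (D.E.bt.mem_trans hi hαV)).1 hi'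
    · intro i hi a _ hia b hb hbA
      rw [hg, pair_mem_gr] at hia
      rw [← hia.2] at hb
      obtain ⟨i', hi', rfl⟩ := (hA' b).1 hbA
      refine ⟨i', (D.E.mem_iff (D.E.bt.mem_trans hi' hαV) (D.E.bt.mem_trans hi hαV)).2 hb, ?_⟩
      rw [hg, pair_mem_gr]
      exact ⟨hi', rfl⟩
  have hgOD : ∃ β < ζ', ODat (V_ β) g := by
    refine OD_of' (R := fun y x => ∃ A, A ⊆ x 2 ∧ (((∀ ξ ∈ A, Rec ξ (x 0) (x 3) (x 4)) ∧
        ∀ ξ ∈ x 2, Rec ξ (x 0) (x 3) (x 4) → ξ ∈ A) ∧ Enum y A (x 5) (x 2)))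
      (x := asg (j S) (j S) (rank (j α.toZFSet)).toZFSet L.toZFSet
        (rank (j l.toZFSet)).toZFSet α.toZFSet) ?_ hll' hjS hjS
      (asg_ord (isOrdinal_toZFSet _) (isOrdinal_toZFSet _) (isOrdinal_toZFSet _)
        (isOrdinal_toZFSet _))
      (ρ := max (rank (j α.toZFSet)) (max (rank (j l.toZFSet)) α))
      (max_lt hjα (max_lt hjl hαζ')) ?_ ?_ fun y => ?_
    · refine Dfn.exsub subset_rfl _ (Dfn.and (Dfn.and ?_ ?_) (dfn_Enum _ _ _ _))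
      · exact Dfn.ball Lvl_sub_Trs _ (dfn_Rec _ _ _ _)
      · exact Dfn.ball Lvl_sub_Trs _ ((dfn_Rec _ _ _ _).imp (Dfn.mem _ _))
    · intro i
      rcases i with _ | i
      · show rank (rank (j α.toZFSet)).toZFSet ≤ _
        rw [Ordinal.rank_toZFSet]
        exact le_max_left _ _
      rcases i with _ | i
      · show rank L.toZFSet ≤ _
        rw [Ordinal.rank_toZFSet]
        exact hL3.trans ((le_max_left _ _).trans (le_max_right _ _))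
      rcases i with _ | i
      · show rank (rank (j l.toZFSet)).toZFSet ≤ _
        rw [Ordinal.rank_toZFSet]
        exact (le_max_left _ _).trans (le_max_right _ _)
      · show rank α.toZFSet ≤ _
        rw [Ordinal.rank_toZFSet]
        exact (le_max_right _ _).trans (le_max_right _ _)
    · exact mem_vonNeumann.1 (Lvl_func hLvl' (ExtData.ordB hαζ') (ExtData.ordB hjα) hgf)
    · show (∃ A, A ⊆ (rank (j α.toZFSet)).toZFSet ∧
        (((∀ ξ ∈ A, Rec ξ (j S) L.toZFSet (rank (j l.toZFSet)).toZFSet) ∧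
          ∀ ξ ∈ (rank (j α.toZFSet)).toZFSet, Rec ξ (j S) L.toZFSet
            (rank (j l.toZFSet)).toZFSet → ξ ∈ A) ∧
          Enum y A α.toZFSet (rank (j α.toZFSet)).toZFSet)) ↔ _
      have hjle : j l.toZFSet = (rank (j l.toZFSet)).toZFSet := D.jJ hlη
      have hAk' : ∀ ξ, ξ ∈ A ↔ ξ ∈ (rank (j α.toZFSet)).toZFSet ∧
          Rec ξ (j S) L.toZFSet (rank (j l.toZFSet)).toZFSet := by
        intro ξ
        rw [← hjαe, ← hjle]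
        exact hAk ξ
      constructor
      · rintro ⟨A', h2, ⟨h3, h4⟩, h6⟩
        have : A' = A := by
          ext ξ
          rw [hAk']
          exact ⟨fun h => ⟨h2 h, h3 ξ h⟩, fun h => h4 ξ h.1 h.2⟩
        rw [this] at h6
        exact h6.unique hEn
      · rintro rfl
        exact ⟨A, fun ξ h => ((hAk' ξ).1 h).1, ⟨fun ξ h => ((hAk' ξ).1 h).2,
          fun ξ h2 h3 => (hAk' ξ).2 ⟨h2, h3⟩⟩, hEn⟩
  obtain ⟨β, hβ, hgβ⟩ := hgOD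
  have hcov : CovB (V_ ζ) δ.toZFSet α.toZFSet := by
    refine (D.E.el.t3 D.E.lvl D.nl (A := fun a b c => CovB a b c) (dfn_CovB _ _ _) hW D.dB hαV).2 ?_
    rw [hjW, D.jd]
    refine ⟨α.toZFSet, tz_mem.2 (hαη.trans D.ητ), g, ?_, ⟨V_ β,
      vonNeumann_mem_vonNeumann_iff.2 hβ, ⟨β, rfl⟩, hgβ⟩, ?_⟩
    · rw [hjαe]; exact hgf
    · intro y hy
      rw [hjαe] at hy
      obtain ⟨y, hy', rfl⟩ := Ordinal.mem_toZFSet_iff.1 hy
      obtain ⟨z, hz, h2⟩ := D.cont hm hαη hα y hy'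
      refine ⟨z.toZFSet, tz_mem.2 hz, j z.toZFSet, ?_, ?_, ?_⟩
      · exact (D.E.mem_iff (ExtData.ordB (hz.trans hαη)) hαV).1 (tz_mem.2 hz)
      · rw [hg, pair_mem_gr]; exact ⟨tz_mem.2 hz, rfl⟩
      · rw [D.jJ (hz.trans hαη)]; exact tz_mem.2 h2
  obtain ⟨c, hc, f, hf, ⟨U, _, ⟨β', rfl⟩, hU⟩, hcof⟩ := hcov
  obtain ⟨c, hc', rfl⟩ := Ordinal.mem_toZFSet_iff.1 hc
  refine ⟨c, hc', f, HOD_of_sub ⟨β', hU⟩ fun p hp => ?_, hf, hcof⟩
  obtain ⟨a, ha, b, hb, rfl⟩ := mem_prod.1 (hf.1 hp)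
  obtain ⟨a, _, rfl⟩ := Ordinal.mem_toZFSet_iff.1 ha
  obtain ⟨b, _, rfl⟩ := Ordinal.mem_toZFSet_iff.1 hb
  exact HOD_pair (HOD_ord a) (HOD_ord b)

end Pool.Agent.H310.HD
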