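import Pool.Agent.H310.HD.Str

/-!
Splitting `cof(ω) ∩ λ` into a given number of stationary sets in `HOD`.
-/

set_option autoImplicit false
set_option linter.unusedVariables false

namespace Pool.Agent.H310.HD

open ZFSet Gss969

universe u

/-- The class `P` contains a partition of `cof(ω) ∩ l` into `m` stationary subsets of the regular
cardinal `l`, if `m` is not empty. -/
def SplitP (P : ZFSet.{u} → Prop) (m l : ZFSet.{u}) : Prop :=
  RegUnc l ∧ ((∃ x ∈ m, x = x) → ∃ g, P g ∧ IsPart m l g)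

theorem mono3_SplitP : Mono3 (SplitP.{u}) := by
  refine ⟨?_, ?_, ?_⟩
  · rintro P P' h m l ⟨h1, h0⟩
    refine ⟨h1, fun hm => ?_⟩
    obtain ⟨g, h2, h3⟩ := h0 hm
    exact ⟨g, h g h2, h3⟩
  · intro m l
    refine ⟨powerset (prod m (powerset l)), fun P P' h => ?_⟩
    unfold SplitP
    refine and_congr_right fun _ => imp_congr_right fun _ => exists_congr fun g => ?_
    constructor
    · rintro ⟨h1, h2⟩
      exact ⟨(h g (mem_powerset.2 h2.1.1)).1 h1, h2⟩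
    · rintro ⟨h1, h2⟩
      exact ⟨(h g (mem_powerset.2 h2.1.1)).2 h1, h2⟩
  · unfold SplitP
    refine (dfn_RegUnc _).and (Dfn.imp (Dfn.bex Lvl_sub_Trs _ (Dfn.eq _ _)) ?_)
    refine Dfn.ex (A := fun g v => HODin (v 0) g ∧ IsPart (v 1) (v 2) g) ?_ ?_
    · exact (dfn_HODin _ _).and (dfn_IsPart _ _ _)
    · rintro U hU v hv ⟨g, h1, h2⟩
      refine ⟨g, ?_, h1, h2⟩
      exact Lvl_func hU (hv 1) (Lvl_powerset hU (hv 2)) h2.1

/-- Every set is listed by all large ordinals. -/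
theorem exists_list (T : ZFSet.{u}) (hT : ∃ t, t ∈ T) : ∃ c : Ordinal.{u}, ∀ m ≥ c,
    ∃ g, IsFunc m.toZFSet T g ∧ ∀ x ∈ T, ∃ i ∈ m.toZFSet, pair i x ∈ g := by
  classical
  obtain ⟨t, ht⟩ := hT
  -- a well-ordering of the elements of `T`
  let α : Type u := Shrink.{u} {x : ZFSet.{u} // x ∈ T}
  let e : {x : ZFSet.{u} // x ∈ T} ≃ α := equivShrink _
  obtain ⟨r, hr⟩ : ∃ r : α → α → Prop, IsWellOrder α r := ⟨WellOrderingRel, inferInstance⟩
  let c : Ordinal.{u} := Ordinal.type r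
  refine ⟨c, fun m hm => ?_⟩
  let G : ZFSet.{u} → ZFSet.{u} := fun i =>
    if h : rank i < c then (e.symm (Ordinal.enum r ⟨rank i, h⟩)).1 else t
  have hG : ∀ x ∈ m.toZFSet, G x ∈ T := by
    intro x _
    simp only [G]
    split_ifs with h
    · exact (e.symm _).2
    · exact ht
  refine ⟨gr m.toZFSet G, isFunc_gr hG, fun x hx => ?_⟩
  let o : Ordinal.{u} := Ordinal.typein r (e ⟨x, hx⟩)
  have ho : o < c := Ordinal.typein_lt_type r _
  refine ⟨o.toZFSet, Ordinal.toZFSet_mem_toZFSet_iff.2 (ho.trans_le hm), ?_⟩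
  rw [pair_mem_gr]
  refine ⟨Ordinal.toZFSet_mem_toZFSet_iff.2 (ho.trans_le hm), ?_⟩
  simp only [G]
  have h1 : rank o.toZFSet < c := by rwa [Ordinal.rank_toZFSet]
  rw [dif_pos h1]
  have h2 : ∀ (a : Ordinal.{u}) (h : a < Ordinal.type r), a = o →
      Ordinal.enum r ⟨a, h⟩ = e ⟨x, hx⟩ := by
    rintro a h rfl
    exact Ordinal.enum_typein r _
  rw [h2 _ h1 (Ordinal.rank_toZFSet o)]
  simp

theorem fewSub_large (P : ZFSet.{u} → Prop) (k : Ordinal.{u}) :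
    ∃ c : Ordinal.{u}, ∀ l > c, FewSub P k.toZFSet (Ordinal.toZFSet l) := by
  obtain ⟨c, hc⟩ := exists_list (powerset k.toZFSet) ⟨k.toZFSet, mem_powerset.2 subset_rfl⟩
  refine ⟨c, fun l hl => ?_⟩
  obtain ⟨g, hg, h1⟩ := hc c le_rfl
  exact ⟨c.toZFSet, Ordinal.toZFSet_mem_toZFSet_iff.2 hl, g, hg, fun B hB _ =>
    h1 B (mem_powerset.2 hB)⟩

end Pool.Agent.H310.HD
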