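import Pool.Agent.H310.HD.Cover2
import Pool.Agent.H310.HD.Split

/-!
Equivalents of the HOD Hypothesis: preparations.
-/

set_option autoImplicit false
set_option linter.unusedVariables false

namespace Pool.Agent.H310.HD

open ZFSet Gss969

universe u

variable {l : Ordinal.{u}}

/-- Stationary many ordinals below a regular cardinal have cofinality `ω`. -/
theorem statL_om (hl : RegUnc l.toZFSet) {β : Ordinal.{u}} (hβ : β < l) :
    StatL {α | β < α ∧ CofOm α.toZFSet} l := by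
  intro C hC1 hC2
  have step : ∀ ξ < l, ∃ d < l, ξ < d ∧ d.toZFSet ∈ C := by
    intro ξ hξ
    obtain ⟨d, hd, hd'⟩ := hC2.2.1 _ (tz_mem.2 hξ)
    obtain ⟨δ, hδ, rfl⟩ := Ordinal.mem_toZFSet_iff.1 (hC1 hd)
    exact ⟨δ, hδ, tz_mem.1 hd', hd⟩
  choose! d hd h1 h2 using step
  let G : ℕ → Ordinal.{u} := fun n => Nat.rec β (fun _ γ => d γ) n
  have hG : ∀ n, G n < l := by
    intro n
    induction n with
    | zero => exact hβ
    | succ n ih => exact hd _ ih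
  obtain ⟨α, hα, h5, h6, h7⟩ := exists_sup hl hG fun n => h1 _ (hG n)
  refine ⟨α, hα, ⟨h5 0, h7⟩, ?_⟩
  refine hC2.2.2 _ (tz_mem.2 hα) ⟨_, tz_mem.2 (h5 0), rfl⟩ fun x hx => ?_
  obtain ⟨ξ, hξ, rfl⟩ := Ordinal.mem_toZFSet_iff.1 hx
  obtain ⟨n, hn⟩ := h6 ξ hξ
  exact ⟨_, h2 _ (hG n), tz_mem.2 (h5 (n + 1)), tz_mem.2 (hn.trans (h1 _ (hG n)))⟩

/-- Regular uncountable ordinals are cardinals. -/
theorem RegUnc.isCard (hl : RegUnc l.toZFSet) : IsCard l.toZFSet := by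
  refine ⟨isOrdinal_toZFSet _, fun m hm f hf => ?_⟩
  obtain ⟨b, hb, h⟩ := hl.2.2 m hm f hf
  exact ⟨b, hb, fun x hx hxb => mem_irrefl _ (h x hx b hb hxb)⟩

/-- Regular cardinals in the sense of Mathlib. -/
theorem regUnc_ord {c : Cardinal.{u}} (hreg : c.IsRegular) (h1 : Cardinal.aleph0 < c) :
    RegUnc c.ord.toZFSet := by
  refine ⟨isOrdinal_toZFSet _, ?_, ?_⟩
  · unfold om
    refine tz_mem.2 ?_
    rw [Cardinal.lt_ord, Ordinal.card_omega0]
    exact h1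
  · intro a ha f hf
    obtain ⟨α, hα, rfl⟩ := Ordinal.mem_toZFSet_iff.1 ha
    obtain ⟨b, hb⟩ : ∃ b : Ordinal.{u}, b = ⨆ w : {w // w ∈ α.toZFSet}, Order.succ
      (rank (app f w.1)) := ⟨_, rfl⟩
    have hlim : Order.IsSuccLimit c.ord := Cardinal.isSuccLimit_ord h1.le
    have hval : ∀ w : {w // w ∈ α.toZFSet}, Order.succ (rank (app f w.1)) < c.ord := by
      rintro ⟨w, hw⟩
      obtain ⟨γ, hγ, h⟩ := Ordinal.mem_toZFSet_iff.1 (app_mem hf hw)
      simp only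
      rw [← h, Ordinal.rank_toZFSet]
      exact hlim.succ_lt hγ
    have hbl : b < c.ord := by
      rw [hb]
      let e : Set.Iio α → {w // w ∈ α.toZFSet} := fun x => ⟨x.1.toZFSet, tz_mem.2 x.2⟩
      have he : Function.Surjective e := by
        rintro ⟨w, hw⟩
        obtain ⟨γ, hγ, rfl⟩ := Ordinal.mem_toZFSet_iff.1 hw
        exact ⟨⟨γ, hγ⟩, rfl⟩
      rw [← he.iSup_comp]
      have h2 : (⨆ x : Set.Iio α, Order.succ (rank (app f (e x).1))) =
          ⨆ x : α.ToType, Order.succ (rank (app f (e (Ordinal.ToType.mk.symm x)).1)) := by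
        rw [← (Ordinal.ToType.mk (o := α)).symm.surjective.iSup_comp]
      rw [h2]
      refine Ordinal.iSup_lt_of_lt_cof ?_ fun x => hval _
      rw [hreg.cof_ord, Cardinal.mk_toType]
      exact Cardinal.lt_ord.1 hα
    refine ⟨b.toZFSet, tz_mem.2 hbl, fun x hx y hy hxy => ?_⟩
    obtain ⟨γ, hγ, rfl⟩ := Ordinal.mem_toZFSet_iff.1 hy
    refine tz_mem.2 ?_
    rw [hb]
    refine (Order.lt_succ γ).trans_le ?_
    have h3 := Ordinal.le_iSup (fun w : {w // w ∈ α.toZFSet} => Order.succ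
      (rank (app f w.1))) ⟨x, hx⟩
    simp only at h3
    rwa [(app_iff hf hx).1 hxy, Ordinal.rank_toZFSet] at h3

/-- There are arbitrarily large regular cardinals. -/
theorem exists_regUnc (ξ : Ordinal.{u}) : ∃ l > ξ, RegUnc (Ordinal.toZFSet l) := by
  obtain ⟨c, hc⟩ : ∃ c : Cardinal.{u}, c = Order.succ (max Cardinal.aleph0 ξ.card) := ⟨_, rfl⟩
  have hreg : c.IsRegular := by
    rw [hc]
    exact Cardinal.isRegular_succ (le_max_left _ _)
  have h1 : Cardinal.aleph0 < c := by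
    rw [hc]
    exact (le_max_left _ _).trans_lt (Order.lt_succ _)
  refine ⟨c.ord, ?_, regUnc_ord hreg h1⟩
  show ξ < c.ord
  rw [Cardinal.lt_ord, hc]
  exact (le_max_right _ _).trans_lt (Order.lt_succ _)

/-- The property of `l` and `P`: `l` is regular and stationary many `α < l` of cofinality `ω` are
singular in `P`. -/
def ManyP (P : ZFSet.{u} → Prop) (l : ZFSet.{u}) : Prop :=
  RegUnc l ∧ ∀ C, C ⊆ l → Club C l → ∃ α ∈ C, CofOm α ∧ CofinalP P α

theorem manyP_iff : ManyP HOD l.toZFSet ↔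
    RegUnc l.toZFSet ∧ StatL {α | CofOm α.toZFSet ∧ CofinalP HOD α.toZFSet} l := by
  refine and_congr_right fun _ => ?_
  constructor
  · intro h C h1 h2
    obtain ⟨a, ha, h3⟩ := h C h1 h2
    obtain ⟨α, hα, rfl⟩ := Ordinal.mem_toZFSet_iff.1 (h1 ha)
    exact ⟨α, hα, h3, ha⟩
  · intro h C h1 h2
    obtain ⟨α, _, h3, h4⟩ := h C h1 h2
    exact ⟨_, h4, h3⟩

theorem mono_ManyP : Mono (ManyP.{u}) := by
  refine ⟨?_, ?_, ?_⟩
  · rintro P P' h l ⟨h1, h2⟩
    refine ⟨h1, fun C hC1 hC2 => ?_⟩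
    obtain ⟨α, hα, h3, h4⟩ := h2 C hC1 hC2
    exact ⟨α, hα, h3, h4.mono h⟩
  · intro l
    refine ⟨XX l, fun P P' h => ?_⟩
    unfold ManyP
    refine and_congr_right fun hl => forall₂_congr fun C hC => imp_congr_right fun _ =>
      exists_congr fun α => and_congr_right fun hα => and_congr_right fun _ => ?_
    refine exists_congr fun a => and_congr_right fun ha => exists_congr fun g =>
      and_congr_left fun hg => ?_
    have hαl : α ⊆ l := hl.1.subset_of_mem (hC hα)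
    exact h g (XX_func hg.1 (fun x hx => hαl ((hl.1.mem (hC hα)).1.mem_trans hx ha)) hαl)
  · unfold ManyP
    refine (dfn_RegUnc _).and ?_
    refine Dfn.allsub subset_rfl _ (Dfn.imp (dfn_Club _ _) (Dfn.bex Lvl_sub_Trs _ ?_))
    exact (dfn_CofOm _).and (dfn_CofinalP _ _)

theorem IsPart.fam {k l g : ZFSet.{u}} (hl : l.IsOrdinal) (h : IsPart k l g) : Fam om k l g := by
  refine ⟨h.1, fun i hi A hA hiA => ⟨h.2.1 i hi A hA hiA, fun a ha => ?_⟩, h.2.2.1⟩
  exact (h.2.2.2 a (hA ha)).2 ⟨i, hi, A, hA, hiA, ha⟩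

theorem Extendible.om_lt {δ : Ordinal.{u}} (hδ : Extendible δ) : Ordinal.omega0 < δ := by
  have h1 := mem_vonNeumann.1 (om_mem_Lvl hδ.lim)
  unfold om at h1
  rwa [Ordinal.rank_toZFSet] at h1

/-- Extendible cardinals are regular. -/
theorem Extendible.regUnc {δ : Ordinal.{u}} (hδ : Extendible δ) : RegUnc δ.toZFSet := by
  refine ⟨isOrdinal_toZFSet _, ?_, ?_⟩
  · unfold om
    exact tz_mem.2 hδ.om_lt
  · intro a ha f hf
    obtain ⟨α, hα, rfl⟩ := Ordinal.mem_toZFSet_iff.1 ha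
    obtain ⟨η, θ, τ, j, _, D⟩ := hδ.data δ
    have hαη : α.toZFSet ∈ V_ η := ExtData.ordB (hα.trans D.lt)
    have hfη : f ∈ V_ η := Lvl_func D.E.lvl hαη D.dB hf
    refine (D.E.el.t3 D.E.bt D.E.nt (A := fun a l f => ∃ b ∈ l, ∀ x ∈ a, ∀ y ∈ l,
      pair x y ∈ f → y ∈ b) (by
        repeat' first
          | exact Dfn.mem _ _ | exact dfn_pm subset_rfl _ _ _ | refine Dfn.imp ?_ ?_
          | refine Dfn.ball subset_rfl _ ?_ | refine Dfn.bex subset_rfl _ ?_)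
      hαη D.dB hfη).2 ?_
    have hf' := D.E.func hαη D.dB hf
    rw [D.fix α hα, D.jd] at hf' ⊢
    refine ⟨δ.toZFSet, tz_mem.2 (D.lt.trans D.ητ), fun x hx y _ hxy => ?_⟩
    obtain ⟨i, hi, rfl⟩ := Ordinal.mem_toZFSet_iff.1 hx
    have h1 := (app_iff hf' hx).1 hxy
    have h2 := D.E.app_eq hαη D.dB hf hx
    rw [D.fix i (hi.trans hα), h1] at h2
    obtain ⟨γ, hγ, h3⟩ := Ordinal.mem_toZFSet_iff.1 (app_mem hf hx)
    rw [← h3, D.fix γ hγ] at h2
    rw [h2]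
    exact tz_mem.2 hγ

/-- Extendible cardinals are limit cardinals. -/
theorem Extendible.limCard {δ : Ordinal.{u}} (hδ : Extendible δ) :
    ∀ ξ < δ, ∃ c < δ, ξ < c ∧ IsCard (Ordinal.toZFSet c) := by
  intro ξ hξ
  have hM : Mono (fun (_ : ZFSet.{u} → Prop) (l : ZFSet.{u}) => IsCard l) :=
    ⟨fun _ _ _ _ h => h, fun _ => ⟨∅, fun _ _ _ => Iff.rfl⟩, dfn_IsCard 1⟩
  obtain ⟨l, hl, hr⟩ := exists_regUnc ξ
  obtain ⟨c, h1, h2, h3⟩ := hδ.reflecting.below hM hξ hl hr.isCard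
  exact ⟨c, h2, h1, h3⟩

end Pool.Agent.H310.HD
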