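import Pool.Agent.H310.HD.VSol

/-!
Exacting cardinals: the embeddings, and Kunen's argument.
-/

set_option autoImplicit false
set_option linter.unusedVariables false

namespace Pool.Agent.H310.HD

open ZFSet Gss969

universe u

/-- `(X, ∈)` is an elementary substructure of `(M, ∈)`. -/
def Elem (X M : ZFSet.{u}) : Prop :=
  X ⊆ M ∧ ∀ (φ : Fml) (v : ℕ → ZFSet.{u}), (∀ i, v i ∈ X) → (Sat X v φ ↔ Sat M v φ)

/-- The data of an embedding of an exacting cardinal. -/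
structure ExD (l ζ : Ordinal.{u}) (X : ZFSet.{u}) (j : ZFSet.{u} → ZFSet.{u}) : Prop where
  el : Elem X (V_ ζ)
  Vs : V_ l ⊆ X
  lX : l.toZFSet ∈ X
  emb : IsEl X (V_ ζ) j
  jl : j l.toZFSet = l.toZFSet
  lvl : V_ ζ ∈ Lvl.{u}
  lvl' : V_ l ∈ Lvl.{u}
  card : IsCard l.toZFSet
  ne : ∃ α < l, j α.toZFSet ≠ α.toZFSet

namespace ExD

variable {l ζ : Ordinal.{u}} {X : ZFSet.{u}} {j : ZFSet.{u} → ZFSet.{u}}

theorem tr (D : ExD l ζ X j) {A : (ℕ → ZFSet.{u}) → Prop} (hA : Dfn Lvl.{u} A)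
    (v : ℕ → ZFSet.{u}) (hv : ∀ i, v i ∈ X) : A v ↔ A (fun i => j (v i)) := by
  have hinf : (Set.range (fun n : ℕ => 2 * n))ᶜ.Infinite := by
    refine Set.infinite_of_injective_forall_mem (f := fun n : ℕ => 2 * n + 1) ?_ ?_
    · intro a b hab; simpa using hab
    · rintro n ⟨m, hm⟩
      simp only at hm
      omega
  obtain ⟨φ, hφ⟩ := hA _ hinf
  have e : ∀ i, (2 * i) / 2 = i := fun i => by omega
  have h1 := hφ (V_ ζ) D.lvl (fun n => v (n / 2)) (fun i => D.el.1 (hv _))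
  have h2 := hφ (V_ ζ) D.lvl (fun n => j (v (n / 2))) (fun i => D.emb.1 _ (hv _))
  simp only [e] at h1 h2
  rw [← h1, ← h2, ← D.el.2 φ _ (fun i => hv _)]
  exact D.emb.2 φ _ (fun i => hv _)

theorem ex (D : ExD l ζ X j) {A : ZFSet.{u} → (ℕ → ZFSet.{u}) → Prop}
    (hA : Dfn Lvl.{u} (fun w => A (w 0) (fun n => w (n + 1)))) (v : ℕ → ZFSet.{u})
    (hv : ∀ i, v i ∈ X) (h : ∃ y ∈ V_ ζ, A y v) : ∃ y ∈ X, A y v := by
  let f' : ℕ → ℕ := fun n => Nat.casesOn n 1 (fun m => 2 * m)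
  have hinf : (Set.range f')ᶜ.Infinite := by
    refine Set.infinite_of_injective_forall_mem (f := fun n : ℕ => 2 * n + 3) ?_ ?_
    · intro a b hab; simpa using hab
    · rintro n ⟨m, hm⟩
      cases m with
      | zero => have : (1 : ℕ) = 2 * n + 3 := hm; omega
      | succ m => have : (2 * m : ℕ) = 2 * n + 3 := hm; omega
  obtain ⟨φ, hφ⟩ := hA _ hinf
  let s : ℕ → ZFSet.{u} := fun n => v (n / 2)
  have hs : ∀ i, s i ∈ X := fun i => hv _
  have hup : ∀ (M : ZFSet.{u}), (∀ i, s i ∈ M) → ∀ a ∈ M, ∀ i, Function.update s 1 a i ∈ M := by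
    intro M hM a ha i
    by_cases hi : i = 1
    · subst hi; simpa using ha
    · rw [Function.update_of_ne hi]; exact hM i
  have hval : ∀ a, A (Function.update s 1 a (f' 0)) (fun n => Function.update s 1 a (f' (n + 1))) ↔
      A a v := by
    intro a
    have h1 : Function.update s 1 a (f' 0) = a := by
      show Function.update s 1 a 1 = a
      simp
    have h2 : (fun n => Function.update s 1 a (f' (n + 1))) = v := by
      funext n
      show Function.update s 1 a (2 * n) = v n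
      rw [Function.update_of_ne (by omega)]
      show v (2 * n / 2) = v n
      congr 1
      omega
    rw [h1, h2]
  have hsV : ∀ i, s i ∈ V_ ζ := fun i => D.el.1 (hs i)
  obtain ⟨y, hy, h⟩ := h
  have h1 : Sat (V_ ζ) s (.ex 1 φ) :=
    ⟨y, hy, (hφ (V_ ζ) D.lvl (Function.update s 1 y) (hup _ hsV y hy)).2 ((hval y).2 h)⟩
  obtain ⟨a, ha, h3⟩ := (D.el.2 (.ex 1 φ) s hs).2 h1
  have h4 := (D.el.2 φ (Function.update s 1 a) (hup _ hs a ha)).1 h3
  exact ⟨a, ha, (hval a).1 ((hφ (V_ ζ) D.lvl _ (hup _ hsV a (D.el.1 ha))).1 h4)⟩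

theorem fixq (D : ExD l ζ X j) {A : ZFSet.{u} → (ℕ → ZFSet.{u}) → Prop}
    (hA : Dfn Lvl.{u} (fun w => A (w 0) (fun n => w (n + 1)))) (v : ℕ → ZFSet.{u})
    (hv : ∀ i, v i ∈ X) (hjv : ∀ i, j (v i) = v i) {y : ZFSet.{u}} (hy : y ∈ V_ ζ) (h : A y v)
    (hu : ∀ y' ∈ V_ ζ, A y' v → y' = y) : y ∈ X ∧ j y = y := by
  obtain ⟨y', hy', h'⟩ := D.ex hA v hv ⟨y, hy, h⟩
  have e := hu y' (D.el.1 hy') h'
  subst e
  refine ⟨hy', ?_⟩
  have h1 := (D.tr hA (fun n => Nat.casesOn n y' v) (fun i => by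
    cases i with
    | zero => exact hy'
    | succ n => exact hv n)).1 h'
  have h2 : A (j y') v := by
    have e1 : (fun n => j (v n)) = v := funext hjv
    have h3 : A (j y') (fun n => j (v n)) := h1
    rwa [e1] at h3
  exact hu (j y') (D.emb.1 _ hy') h2

theorem t1 (D : ExD l ζ X j) {A : ZFSet.{u} → Prop} (hA : Dfn Lvl.{u} (fun v => A (v 0)))
    {a : ZFSet.{u}} (ha : a ∈ X) : A a ↔ A (j a) :=
  D.tr hA (asg a a a a a a) (asg_mem ha ha ha ha ha ha)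

theorem t2 (D : ExD l ζ X j) {A : ZFSet.{u} → ZFSet.{u} → Prop}
    (hA : Dfn Lvl.{u} (fun v => A (v 0) (v 1))) {a b : ZFSet.{u}} (ha : a ∈ X) (hb : b ∈ X) :
    A a b ↔ A (j a) (j b) :=
  D.tr hA (asg a b a a a a) (asg_mem ha hb ha ha ha ha)

theorem t4 (D : ExD l ζ X j) {A : ZFSet.{u} → ZFSet.{u} → ZFSet.{u} → ZFSet.{u} → Prop}
    (hA : Dfn Lvl.{u} (fun v => A (v 0) (v 1) (v 2) (v 3))) {a b c d : ZFSet.{u}} (ha : a ∈ X)
    (hb : b ∈ X) (hc : c ∈ X) (hd : d ∈ X) : A a b c d ↔ A (j a) (j b) (j c) (j d) :=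
  D.tr hA (asg a b c d a a) (asg_mem ha hb hc hd ha ha)

theorem ordX (D : ExD l ζ X j) {α : Ordinal.{u}} (hα : α ≤ l) : α.toZFSet ∈ X := by
  rcases hα.lt_or_eq with h | h
  · exact D.Vs (ExtData.ordB h)
  · rw [h]; exact D.lX

theorem jO (D : ExD l ζ X j) {α : Ordinal.{u}} (hα : α ≤ l) :
    j α.toZFSet = (rank (j α.toZFSet)).toZFSet :=
  ((D.t1 (A := fun a => a.IsOrdinal) (dfn_ord Lvl_sub_Trs _) (D.ordX hα)).1
    (isOrdinal_toZFSet α)).toZFSet_rank_eq.symm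

theorem J_lt (D : ExD l ζ X j) {α β : Ordinal.{u}} (hα : α ≤ l) (hβ : β ≤ l) :
    α < β ↔ rank (j α.toZFSet) < rank (j β.toZFSet) := by
  rw [← tz_mem, D.t2 (A := fun a b => a ∈ b) (Dfn.mem 0 1) (D.ordX hα) (D.ordX hβ), D.jO hα,
    D.jO hβ, tz_mem, Ordinal.rank_toZFSet, Ordinal.rank_toZFSet]

theorem Jl (D : ExD l ζ X j) {α : Ordinal.{u}} (hα : α < l) : rank (j α.toZFSet) < l := by
  have h := (D.J_lt hα.le le_rfl).1 hα
  rwa [D.jl, Ordinal.rank_toZFSet] at h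

theorem le_J (D : ExD l ζ X j) {α : Ordinal.{u}} (hα : α < l) : α ≤ rank (j α.toZFSet) := by
  induction α using WellFoundedLT.induction with
  | ind α ih =>
    by_contra hcon
    push Not at hcon
    have h1 := ih _ hcon (hcon.trans hα)
    have h2 := (D.J_lt (hcon.trans hα).le hα.le).1 hcon
    exact absurd h1 (not_le.2 h2)

theorem om_l (D : ExD l ζ X j) : om.{u} ∈ V_ l := om_mem_Lvl D.lvl'

theorem jom (D : ExD l ζ X j) : j om = om :=
  isOm_iff.1 ((D.t1 (A := fun a => IsOm a) (dfn_isOm 0) (D.Vs D.om_l)).1 (isOm_iff.2 rfl))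

theorem om_lt (D : ExD l ζ X j) : Ordinal.omega0 < l := by
  have h1 := mem_vonNeumann.1 D.om_l
  unfold om at h1
  rwa [Ordinal.rank_toZFSet] at h1

/-- The critical point. -/
theorem exists_crit (D : ExD l ζ X j) : ∃ κ < l, κ < rank (j κ.toZFSet) ∧
    (∀ α < κ, j α.toZFSet = α.toZFSet) ∧ Ordinal.omega0 < κ := by
  obtain ⟨κ, ⟨h1, h2⟩, hmin⟩ := WellFounded.has_min (wellFounded_lt (α := Ordinal.{u}))
    {α | α < l ∧ j α.toZFSet ≠ α.toZFSet} D.ne
  have hfix : ∀ α < κ, j α.toZFSet = α.toZFSet := by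
    intro α hα
    by_contra hcon
    exact hmin α ⟨hα.trans h1, hcon⟩ hα
  have hlt : κ < rank (j κ.toZFSet) := by
    refine lt_of_le_of_ne (D.le_J h1) fun h => h2 ?_
    rw [D.jO h1.le, ← h]
  refine ⟨κ, h1, hlt, hfix, ?_⟩
  by_contra hcon
  push Not at hcon
  rcases hcon.lt_or_eq with h | h
  · obtain ⟨n, rfl⟩ := Ordinal.lt_omega0.1 h
    cases n with
    | zero =>
      have h3 : ¬ ∃ x ∈ (0 : Ordinal.{u}).toZFSet, x = x := by
        rintro ⟨x, hx, _⟩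
        obtain ⟨β, hβ, _⟩ := Ordinal.mem_toZFSet_iff.1 hx
        exact absurd hβ (not_lt.2 bot_le)
      have h4 := (D.t1 (A := fun a => ¬ ∃ x ∈ a, x = x)
        (Dfn.not (Dfn.bex Lvl_sub_Trs _ (Dfn.eq _ _))) (D.ordX h1.le)).1 (by
          simpa using h3)
      refine h4 ⟨((0 : ℕ) : Ordinal.{u}).toZFSet, ?_, rfl⟩
      rw [D.jO h1.le]
      exact tz_mem.2 hlt
    | succ n =>
      have hn : (n : Ordinal.{u}) < ((n + 1 : ℕ) : Ordinal.{u}) := by
        exact_mod_cast Nat.lt_succ_self n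
      have h3 := (D.t2 (A := fun a b => ∀ x ∈ a, x ∈ b ∨ x = b)
        (Dfn.ball Lvl_sub_Trs _ ((Dfn.mem _ _).or (Dfn.eq _ _))) (D.ordX h1.le)
        (D.ordX (hn.trans h1).le)).1 (by
          intro x hx
          obtain ⟨y, hy, rfl⟩ := Ordinal.mem_toZFSet_iff.1 hx
          have hy' : y ≤ n := by
            have : ((n + 1 : ℕ) : Ordinal.{u}) = Order.succ (n : Ordinal.{u}) := by
              push_cast
              rw [Order.succ_eq_add_one]
            rw [this] at hy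
            exact Order.lt_succ_iff.1 hy
          rcases hy'.lt_or_eq with h | h
          · exact Or.inl (tz_mem.2 h)
          · exact Or.inr (by rw [h]))
      rw [hfix _ hn, D.jO h1.le] at h3
      rcases h3 _ (tz_mem.2 hlt) with h4 | h4
      · exact absurd (tz_mem.1 h4) (not_lt.2 hn.le)
      · exact absurd (Ordinal.toZFSet_injective h4) (ne_of_gt hn)
  · refine h2 ?_
    rw [h]
    exact D.jom

/-- Continuity at points of cofinality `ω`. -/
theorem cont (D : ExD l ζ X j) {x : Ordinal.{u}} (hx : x < l) (h : CofOm x.toZFSet) :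
    ∀ y < rank (j x.toZFSet), ∃ z < x, y < rank (j z.toZFSet) := by
  obtain ⟨κ, hκ, _, hfix, hω⟩ := D.exists_crit
  obtain ⟨f, hf, hc⟩ := h
  intro y hy
  have hfl : f ∈ V_ l := Lvl_func D.lvl' D.om_l (ExtData.ordB hx) hf
  have homX := D.Vs D.om_l
  have hxX := D.ordX hx.le
  have hfX := D.Vs hfl
  have hc' := (D.t4 (A := fun m a f _ => ∀ x ∈ a, ∃ n ∈ m, ∃ y ∈ a, pair n y ∈ f ∧ x ∈ y) (by
      repeat' first
        | exact Dfn.mem _ _ | exact dfn_pm Lvl_sub_Trs _ _ _ | refine Dfn.and ?_ ?_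
        | refine Dfn.ball Lvl_sub_Trs _ ?_ | refine Dfn.bex Lvl_sub_Trs _ ?_)
      homX hxX hfX hfX).1 hc
  rw [D.jom] at hc'
  obtain ⟨n, hn, z, hz, hnz, hyz⟩ := hc' y.toZFSet (by rw [D.jO hx.le]; exact tz_mem.2 hy)
  have hn' : ∃ N < κ, n = N.toZFSet := by
    unfold om at hn
    obtain ⟨N, hN, rfl⟩ := Ordinal.mem_toZFSet_iff.1 hn
    exact ⟨N, hN.trans hω, rfl⟩
  obtain ⟨N, hN, rfl⟩ := hn'
  have hf' : IsFunc om (j x.toZFSet) (j f) := by
    have := (D.t4 (A := fun m a f _ => IsFunc m a f) (dfn_isFunc Lvl_sub_Trs _ _ _)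
      homX hxX hfX hfX).1 hf
    rwa [D.jom] at this
  obtain ⟨w, hw, hw'⟩ := Ordinal.mem_toZFSet_iff.1 (app_mem hf hn)
  have h1 := app_spec hf hn
  rw [← hw'] at h1
  have hwX := D.ordX (hw.trans hx).le
  have h2 := (D.t4 (A := fun n w f _ => pair n w ∈ f) (dfn_pm Lvl_sub_Trs _ _ _)
    (D.ordX (hN.trans hκ).le) hwX hfX hfX).1 h1
  rw [hfix N hN] at h2
  refine ⟨w, hw, ?_⟩
  have h3 : z = j w.toZFSet := by
    rw [← (app_iff hf' hn).1 hnz, ← (app_iff hf' hn).1 h2]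
  rw [h3, D.jO (hw.trans hx).le] at hyz
  exact tz_mem.1 hyz

theorem fix_of (D : ExD l ζ X j) {x : Ordinal.{u}} (hx : x < l) (h : CofOm x.toZFSet)
    (hcl : ∀ z < x, rank (j z.toZFSet) < x) : j x.toZFSet = x.toZFSet := by
  rw [D.jO hx.le]
  congr 1
  refine le_antisymm ?_ (D.le_J hx)
  by_contra hcon
  push Not at hcon
  obtain ⟨z, hz, h1⟩ := D.cont hx h x hcon
  exact absurd h1 (not_lt.2 (hcl z hz).le)

end ExD

end Pool.Agent.H310.HD
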