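import Pool.Agent.H310.HD.Exact

/-!
Kunen's argument for exacting cardinals.
-/

set_option autoImplicit false
set_option linter.unusedVariables false

namespace Pool.Agent.H310.HD

open ZFSet Gss969

universe u

variable {l ζ : Ordinal.{u}} {X : ZFSet.{u}} {j : ZFSet.{u} → ZFSet.{u}}

/-- The critical sequence is cofinal. -/
theorem ExD.kunen (D : ExD l ζ X j) : ∃ κ < l, (∀ α < κ, j α.toZFSet = α.toZFSet) ∧
    (∀ α < l, j α.toZFSet = α.toZFSet → α < κ) ∧ CofOm l.toZFSet := by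
  obtain ⟨κ, hκ, hκJ, hfix, hω⟩ := D.exists_crit
  let J : Ordinal.{u} → Ordinal.{u} := fun α => rank (j α.toZFSet)
  let K : ℕ → Ordinal.{u} := fun n => Nat.rec κ (fun _ γ => J γ) n
  have hK : ∀ n, K n < l := by
    intro n
    induction n with
    | zero => exact hκ
    | succ n ih => exact D.Jl ih
  have hKs : ∀ n, K n < K (n + 1) := by
    intro n
    induction n with
    | zero => exact hκJ
    | succ n ih => exact (D.J_lt (hK n).le (hK (n + 1)).le).1 ih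
  have hunb : ∀ ξ < l, ∃ n, ξ < K n := by
    by_contra hcon
    push Not at hcon
    obtain ⟨ξ, hξ, hξK⟩ := hcon
    obtain ⟨ρ, hρ1, hmin⟩ := WellFounded.has_min (wellFounded_lt (α := Ordinal.{u}))
      {b | ∀ n, K n < b} ⟨ξ, fun n => (hKs n).trans_le (hξK (n + 1))⟩
    have hρ1 : ∀ n, K n < ρ := hρ1
    have hρl : ρ < l := by
      refine lt_of_le_of_lt (not_lt.1 (hmin ξ fun n => (hKs n).trans_le (hξK (n + 1)))) hξ
    have hρ2 : ∀ η < ρ, ∃ n, η < K n := by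
      intro η hη
      by_contra hcon
      push Not at hcon
      exact hmin η (fun n => (hKs n).trans_le (hcon (n + 1))) hη
    have hρc : CofOm ρ.toZFSet := by
      refine ⟨fn fun n => (K n).toZFSet, fn_func fun n => tz_mem.2 (hρ1 n), fun x hx => ?_⟩
      obtain ⟨ξ, hξ, rfl⟩ := Ordinal.mem_toZFSet_iff.1 hx
      obtain ⟨n, hn⟩ := hρ2 ξ hξ
      exact ⟨nt n, nt_mem n, _, tz_mem.2 (hρ1 n), pair_fn.2 rfl, tz_mem.2 hn⟩
    have hjρ : j ρ.toZFSet = ρ.toZFSet := by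
      refine D.fix_of hρl hρc fun z hz => ?_
      obtain ⟨n, hn⟩ := hρ2 z hz
      exact ((D.J_lt (hz.trans hρl).le (hK n).le).1 hn).trans (hρ1 (n + 1))
    have hωρ : Ordinal.omega0 < ρ := hω.trans (hρ1 0)
    -- the least regular cardinal above `ρ`
    have h0 : Cardinal.aleph0 ≤ ρ.card := by
      have := Ordinal.card_le_card hωρ.le
      rwa [Ordinal.card_omega0] at this
    have hcr : RegUnc (Order.succ ρ.card).ord.toZFSet :=
      regUnc_ord (Cardinal.isRegular_succ h0) (h0.trans_lt (Order.lt_succ _))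
    have hcρ : ρ < (Order.succ ρ.card).ord := by
      rw [Cardinal.lt_ord]
      exact Order.lt_succ _
    have hcl : (Order.succ ρ.card).ord ≤ l := by
      rw [Cardinal.ord_le]
      exact Order.succ_le_of_lt (D.card.card_lt hρl)
    obtain ⟨r, ⟨hr1, hr⟩, hrmin⟩ := WellFounded.has_min (wellFounded_lt (α := Ordinal.{u}))
      {x | ρ < x ∧ RegUnc x.toZFSet} ⟨_, hcρ, hcr⟩
    have hrl : r ≤ l := le_trans (not_lt.1 (hrmin _ ⟨hcρ, hcr⟩)) hcl
    have hrX := D.ordX hrl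
    have hjr : j r.toZFSet = r.toZFSet := by
      refine (D.fixq (A := fun y v => RegUnc y ∧ v 0 ∈ y ∧ ∀ z ∈ y, v 0 ∈ z → ¬ RegUnc z) ?_
        (fun _ => ρ.toZFSet) (fun _ => D.ordX hρl.le) (fun _ => hjρ) (D.el.1 hrX) ?_ ?_).2
      · refine (dfn_RegUnc _).and ((Dfn.mem _ _).and (Dfn.ball Lvl_sub_Trs _
          ((Dfn.mem _ _).imp (dfn_RegUnc _).not)))
      · refine ⟨hr, tz_mem.2 hr1, fun z hz hρz hz' => ?_⟩
        obtain ⟨z, hz1, rfl⟩ := Ordinal.mem_toZFSet_iff.1 hz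
        exact hrmin z ⟨tz_mem.1 hρz, hz'⟩ hz1
      · rintro y' _ ⟨h1, h2, h3⟩
        have h4 : y' = (rank y').toZFSet := h1.1.toZFSet_rank_eq.symm
        rw [h4] at h1 h2 h3 ⊢
        rcases lt_trichotomy (rank y') r with h5 | h5 | h5
        · exact absurd h5 (hrmin _ ⟨tz_mem.1 h2, h1⟩)
        · rw [h5]
        · exact absurd hr (h3 _ (tz_mem.2 h5) (tz_mem.2 hr1))
    have hκr : κ ≤ r := ((hρ1 0).trans hr1).le
    have hκX := D.ordX hκ.le
    have homX := D.Vs D.om_l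
    obtain ⟨S₀, hS₀⟩ := exists_fam_V hr hκr
    obtain ⟨S, hSX, hS⟩ := D.ex (A := fun y v => Fam (v 0) (v 1) (v 2) y) (dfn_Fam 1 2 3 0)
      (asg om κ.toZFSet r.toZFSet om om om) (asg_mem homX hκX hrX homX homX homX)
      ⟨S₀, Lvl_func D.lvl (D.el.1 hκX) (Lvl_powerset D.lvl (D.el.1 hrX)) hS₀.1, hS₀⟩
    have hS : Fam om κ.toZFSet r.toZFSet S := hS
    have hS' : Fam om (j κ.toZFSet) r.toZFSet (j S) := by
      have := (D.t4 (A := fun a b c d => Fam a b c d) (dfn_Fam _ _ _ _) homX hκX hrX hSX).1 hS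
      rwa [D.jom, hjr] at this
    have hκm : κ.toZFSet ∈ j κ.toZFSet := by
      rw [D.jO hκ.le]
      exact tz_mem.2 hκJ
    have hTs := mem_powerset.1 (app_mem hS'.1 hκm)
    have hT := app_spec hS'.1 hκm
    obtain ⟨hst, hco⟩ := hS'.2.1 _ hκm _ hTs hT
    obtain ⟨x, hxT, hxC⟩ := hst _ (fun x hx => (mem_sep.1 hx).1) (club_closure hr J
      fun ξ hξ => by
        have h1 := (D.J_lt (hξ.le.trans hrl) hrl).1 hξ
        rwa [hjr, Ordinal.rank_toZFSet] at h1)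
    obtain ⟨α, hα, rfl⟩ := Ordinal.mem_toZFSet_iff.1 (hTs hxT)
    have hαl := hα.trans_le hrl
    have hαX := D.ordX hαl.le
    have hjα : j α.toZFSet = α.toZFSet := by
      refine D.fix_of hαl (hco _ hxT) fun z hz => ?_
      have h1 := (mem_sep.1 hxC).2.2 z.toZFSet (tz_mem.2 hz)
      rw [Ordinal.rank_toZFSet] at h1
      exact tz_mem.1 h1
    obtain ⟨i, hi, A, hA, hiA, hαA⟩ := (D.t4 (A := fun S k l x => ∃ i ∈ k, ∃ A, A ⊆ l ∧
      (pair i A ∈ S ∧ x ∈ A)) (by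
        repeat' first
          | exact Dfn.mem _ _ | exact dfn_pm Lvl_sub_Trs _ _ _ | refine Dfn.and ?_ ?_
          | refine Dfn.exsub subset_rfl _ ?_ | refine Dfn.bex Lvl_sub_Trs _ ?_)
        hSX hκX hrX hαX).2 ⟨κ.toZFSet, hκm, app (j S) κ.toZFSet, by rw [hjr]; exact hTs, hT,
          by rw [hjα]; exact hxT⟩
    obtain ⟨ι, hι, rfl⟩ := Ordinal.mem_toZFSet_iff.1 hi
    obtain ⟨A', hA', hiA', hαA'⟩ := (D.t4 (A := fun S i l x => ∃ A, A ⊆ l ∧
      (pair i A ∈ S ∧ x ∈ A)) (by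
        repeat' first
          | exact Dfn.mem _ _ | exact dfn_pm Lvl_sub_Trs _ _ _ | refine Dfn.and ?_ ?_
          | refine Dfn.exsub subset_rfl _ ?_ | refine Dfn.bex Lvl_sub_Trs _ ?_)
        hSX (D.ordX (hι.trans hκ).le) hrX hαX).1 ⟨A, hA, hiA, hαA⟩
    rw [hjr] at hA'
    rw [hfix ι hι] at hiA'
    rw [hjα] at hαA'
    have h7 := hS'.2.2 ι.toZFSet (by rw [D.jO hκ.le]; exact tz_mem.2 (hι.trans hκJ)) κ.toZFSet hκm
      A' hA' _ hTs hiA' hT ⟨_, hαA', hxT⟩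
    exact absurd (Ordinal.toZFSet_injective h7) (ne_of_lt hι)
  refine ⟨κ, hκ, hfix, fun α hα hjα => ?_, ?_⟩
  · by_contra hcon
    push Not at hcon
    obtain ⟨n, hn⟩ := hunb α hα
    have h1 : ∀ n, K n ≤ α := by
      intro n
      induction n with
      | zero => exact hcon
      | succ n ih =>
        rcases ih.lt_or_eq with h | h
        · have h2 := (D.J_lt (hK n).le hα.le).1 h
          rw [hjα, Ordinal.rank_toZFSet] at h2
          exact h2.le
        · have h2 : K (n + 1) = rank (j (K n).toZFSet) := rfl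
          rw [h2, h, hjα, Ordinal.rank_toZFSet]
    exact absurd hn (not_lt.2 (h1 n))
  · refine ⟨fn fun n => (K n).toZFSet, fn_func fun n => tz_mem.2 (hK n), fun x hx => ?_⟩
    obtain ⟨ξ, hξ, rfl⟩ := Ordinal.mem_toZFSet_iff.1 hx
    obtain ⟨n, hn⟩ := hunb ξ hξ
    exact ⟨nt n, nt_mem n, _, tz_mem.2 (hK n), pair_fn.2 rfl, tz_mem.2 hn⟩

end Pool.Agent.H310.HD
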