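import Pool.Agent.H310.HD.Exact2

/-!
Exacting cardinals have cofinality `ω` and are regular in `HOD`.
-/

set_option autoImplicit false
set_option linter.unusedVariables false

namespace Pool.Agent.H310.HD

open ZFSet Gss969

universe u

/-- `l` is an exacting cardinal: for every cardinal `ζ > l` there are an elementary substructure `X`
of `V_ζ` with `V_l ∪ {l} ⊆ X` and an elementary embedding `j : X → V_ζ` with `j(l) = l` which is not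
the identity on `l`. -/
def Exacting (l : Ordinal.{u}) : Prop :=
  IsCard l.toZFSet ∧ Ordinal.omega0 < l ∧ ∀ ζ > l, IsCard (Ordinal.toZFSet ζ) →
    ∃ X, Elem X (V_ ζ) ∧ V_ l ⊆ X ∧ l.toZFSet ∈ X ∧
      ∃ j, IsEl X (V_ ζ) j ∧ j l.toZFSet = l.toZFSet ∧ ∃ α < l, j α.toZFSet ≠ α.toZFSet

theorem lvl_of_succ {γ : Ordinal.{u}} (hγ : Ordinal.omega0 < γ) (h : ∀ x < γ, Order.succ x < γ) :
    V_ γ ∈ Lvl.{u} := by
  refine lvl_of_unb hγ fun x hx => ?_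
  refine ⟨V_ (Order.succ (rank x)), vonNeumann_mem_vonNeumann_iff.2 (h _ (mem_vonNeumann.1 hx)), ?_⟩
  rw [mem_vonNeumann]
  exact Order.lt_succ _

theorem IsCard.succ_lt {l : Ordinal.{u}} (hl : IsCard l.toZFSet) (hω : Ordinal.omega0 < l)
    {x : Ordinal.{u}} (hx : x < l) : Order.succ x < l := by
  by_contra hcon
  push Not at hcon
  have h1 : l = Order.succ x := le_antisymm hcon (Order.succ_le_of_lt hx)
  have h2 : Ordinal.omega0 ≤ x := by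
    rw [h1] at hω
    exact Order.lt_succ_iff.1 hω
  have h3 := hl.card_lt hx
  have h4 : l.card = x.card := by
    rw [h1, Ordinal.card_succ]
    have : Cardinal.aleph0 ≤ x.card := by
      have := Ordinal.card_le_card h2
      rwa [Ordinal.card_omega0] at this
    exact Cardinal.add_one_eq this
  rw [h4] at h3
  exact lt_irrefl _ h3

theorem Exacting.data {l : Ordinal.{u}} (h : Exacting l) (ξ : Ordinal.{u}) :
    ∃ ζ > ξ, l < ζ ∧ ∃ X j, ExD l ζ X j := by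
  obtain ⟨ζ, hζ, hr⟩ := exists_regUnc (max l ξ)
  have hlζ : l < ζ := (le_max_left _ _).trans_lt hζ
  obtain ⟨X, h1, h2, h3, j, h4, h5, h6⟩ := h.2.2 ζ hlζ hr.isCard
  exact ⟨ζ, (le_max_right _ _).trans_lt hζ, hlζ, X, j, h1, h2, h3, h4, h5,
    lvl_of_succ hr.om_lt fun x hx => hr.succ_lt hx,
    lvl_of_succ h.2.1 fun x hx => h.1.succ_lt h.2.1 hx, h.1, h6⟩

/-- Some tuple below `e 2` defines a cofinal function from `e 1` to `e 0`. -/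
def BQ (φ : Fml) (m : ℕ) (e : ℕ → ZFSet.{u}) : Prop :=
  ∃ p : ℕ → ZFSet.{u}, (∀ i < m, p i ∈ e 2) ∧ (∀ i, p (i + m) = e i) ∧
    ∃ z, Good z (e 0) (e 1) ∧ Def φ z p

theorem dfn_BQ (φ : Fml) (m : ℕ) : Dfn Lvl.{u} (fun e => BQ φ m e) := by
  refine Dfn_blk m 2 (C := fun p e => ∃ z, Good z (e 0) (e 1) ∧ Def φ z p) ?_
  refine Dfn.ex ?_ ?_
  · exact (dfn_Good _ _ _).and (dfn_Def φ _ _)
  · rintro U hU v hv ⟨z, h1, h2⟩
    exact ⟨z, Lvl_func hU (hv _) (hv _) h1.2.1, h1, h2⟩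

theorem bq_iff {φ : Fml} {m : ℕ} (hm : m = bd φ + 1) {ζ ν α : Ordinal.{u}}
    (e : ℕ → ZFSet.{u}) (e0 : e 0 = α.toZFSet) (e1 : e 1 = ν.toZFSet) (e2 : e 2 = ζ.toZFSet) :
    BQ φ m e ↔ ∃ q, QQ φ m ζ ν α q := by
  constructor
  · rintro ⟨p, hp, hpe, z, hz, hd⟩
    rw [e2] at hp
    rw [e0, e1] at hz
    have hordp : ∀ i < m, (rank (p i)).toZFSet = p i ∧ rank (p i) < ζ := by
      intro i hi
      obtain ⟨β, hβ, h⟩ := Ordinal.mem_toZFSet_iff.1 (hp i hi)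
      rw [← h, Ordinal.rank_toZFSet]
      exact ⟨rfl, hβ⟩
    exact ⟨fun i => rank (p i), fun i hi => (hordp i hi).2, z, hz,
      (Def.congr fun i hi => ((hordp i (by omega)).1).symm).1 hd⟩
  · rintro ⟨q, hq, x, hx, hx'⟩
    refine ⟨mrg m (fun j => (q j).toZFSet) e, ?_, fun j => mrg_add j, x, ?_, ?_⟩
    · intro i hi
      rw [mrg_lt hi, e2]
      exact tz_mem.2 (hq i hi)
    · rw [e0, e1]; exact hx
    · exact (Def.congr fun i hi => (mrg_lt (by omega)).symm).1 hx'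

/-- **Exacting cardinals are regular in `HOD`** and have cofinality `ω`. -/
theorem Exacting.reg {l : Ordinal.{u}} (h : Exacting l) :
    CofOm l.toZFSet ∧ ¬ CofinalP HOD l.toZFSet := by
  constructor
  · obtain ⟨ζ, _, _, X, j, D⟩ := h.data 0
    obtain ⟨κ, _, _, _, h1⟩ := D.kunen
    exact h1
  rintro ⟨a, ha, x, hx, h1, h2⟩
  obtain ⟨ν, hν, rfl⟩ := Ordinal.mem_toZFSet_iff.1 ha
  obtain ⟨φ, q, hq, hq'⟩ := hx.od.exists_def
  obtain ⟨ζ, hζ, hlζ, X, j, D⟩ := h.data (Order.succ (q 0))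
  obtain ⟨κ, hκ, hfix, hfix', _⟩ := D.kunen
  obtain ⟨m, hm⟩ : ∃ m, m = bd φ + 1 := ⟨_, rfl⟩
  -- the least bound for the tuples
  obtain ⟨t, ⟨ν₁, hν₁, q₁, hq₁⟩, htmin⟩ := WellFounded.has_min (wellFounded_lt (α := Ordinal.{u}))
    {t | ∃ ν < l, ∃ q, QQ φ m t ν l q} ⟨Order.succ (q 0), ν, hν, q,
      fun i _ => (hq' i).trans_lt (Order.lt_succ _), x, ⟨ha, h1, h2⟩, hq⟩
  have htζ : t < ζ := by
    refine lt_of_le_of_lt (not_lt.1 (htmin _ ⟨ν, hν, q,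
      fun i _ => (hq' i).trans_lt (Order.lt_succ _), x, ⟨ha, h1, h2⟩, hq⟩)) hζ
  have htV : t.toZFSet ∈ V_ ζ := ExtData.ordB htζ
  obtain ⟨htX, hjt⟩ : t.toZFSet ∈ X ∧ j t.toZFSet = t.toZFSet := by
    refine D.fixq (A := fun y v => y.IsOrdinal ∧
        (∃ n ∈ v 0, BQ φ m (asg (v 0) n y y y y)) ∧
        ∀ y' ∈ y, ¬ ∃ n ∈ v 0, BQ φ m (asg (v 0) n y' y' y' y')) ?_
      (fun _ => l.toZFSet) (fun _ => D.lX) (fun _ => D.jl) htV ?_ ?_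
    · refine (dfn_ord Lvl_sub_Trs _).and (Dfn.and ?_ ?_)
      · exact Dfn.bex Lvl_sub_Trs 1 (dfn_asg (dfn_BQ φ m) 2 0 1 1 1 1)
      · exact Dfn.ball Lvl_sub_Trs 0 (Dfn.not (Dfn.bex Lvl_sub_Trs 2
          (dfn_asg (dfn_BQ φ m) 3 0 1 1 1 1)))
    · refine ⟨isOrdinal_toZFSet _, ⟨_, tz_mem.2 hν₁, (bq_iff hm _ rfl rfl rfl).2 ⟨q₁, hq₁⟩⟩, ?_⟩
      rintro y' hy' ⟨n, hn, h3⟩
      obtain ⟨y', hy'', rfl⟩ := Ordinal.mem_toZFSet_iff.1 hy'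
      obtain ⟨n, hn', rfl⟩ := Ordinal.mem_toZFSet_iff.1 hn
      exact htmin y' ⟨n, hn', (bq_iff hm _ rfl rfl rfl).1 h3⟩ hy''
    · rintro y' _ ⟨h3, ⟨n, hn, h4⟩, h5⟩
      rw [← h3.toZFSet_rank_eq] at h4 h5 ⊢
      obtain ⟨n, hn', rfl⟩ := Ordinal.mem_toZFSet_iff.1 hn
      rcases lt_trichotomy (rank y') t with h6 | h6 | h6
      · exact absurd h6 (htmin _ ⟨n, hn', (bq_iff hm _ rfl rfl rfl).1 h4⟩)
      · rw [h6]
      · exact absurd ⟨_, tz_mem.2 hν₁, (bq_iff hm _ rfl rfl rfl).2 ⟨q₁, hq₁⟩⟩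
          (h5 _ (tz_mem.2 h6))
  -- the least length
  obtain ⟨n₀, ⟨hn₀, q₂, hq₂⟩, hnmin⟩ := WellFounded.has_min (wellFounded_lt (α := Ordinal.{u}))
    {n | n < l ∧ ∃ q, QQ φ m t n l q} ⟨ν₁, hν₁, q₁, hq₁⟩
  have hn₀X := D.ordX hn₀.le
  obtain ⟨_, hjn⟩ : n₀.toZFSet ∈ X ∧ j n₀.toZFSet = n₀.toZFSet := by
    refine D.fixq (A := fun y v => y ∈ v 0 ∧ BQ φ m (asg (v 0) y (v 1) (v 1) (v 1) (v 1)) ∧
        ∀ y' ∈ y, ¬ BQ φ m (asg (v 0) y' (v 1) (v 1) (v 1) (v 1))) ?_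
      (asg l.toZFSet t.toZFSet l.toZFSet l.toZFSet l.toZFSet l.toZFSet)
      (asg_mem D.lX htX D.lX D.lX D.lX D.lX) ?_ (D.el.1 hn₀X) ?_ ?_
    · refine (Dfn.mem _ _).and (Dfn.and ?_ ?_)
      · exact dfn_asg (dfn_BQ φ m) 1 0 2 2 2 2
      · exact Dfn.ball Lvl_sub_Trs 0 (Dfn.not (dfn_asg (dfn_BQ φ m) 2 0 3 3 3 3))
    · intro i
      rcases i with _ | _ | _ | _ | _ | i
      · exact D.jl
      · exact hjt
      · exact D.jl
      · exact D.jl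
      · exact D.jl
      · exact D.jl
    · refine ⟨tz_mem.2 hn₀, (bq_iff hm _ rfl rfl rfl).2 ⟨q₂, hq₂⟩, ?_⟩
      intro y' hy' h3
      obtain ⟨y', hy'', rfl⟩ := Ordinal.mem_toZFSet_iff.1 hy'
      exact hnmin y' ⟨hy''.trans hn₀, (bq_iff hm _ rfl rfl rfl).1 h3⟩ hy''
    · rintro y' _ ⟨h3, h4, h5⟩
      obtain ⟨y', hy'', rfl⟩ := Ordinal.mem_toZFSet_iff.1 h3
      rcases lt_trichotomy y' n₀ with h6 | h6 | h6
      · exact absurd h6 (hnmin _ ⟨hy'', (bq_iff hm _ rfl rfl rfl).1 h4⟩)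
      · rw [h6]
      · exact absurd ((bq_iff hm _ rfl rfl rfl).2 ⟨q₂, hq₂⟩) (h5 _ (tz_mem.2 h6))
  have hn₀κ : n₀ < κ := hfix' n₀ hn₀ hjn
  -- the least tuple
  obtain ⟨Q, hQ, hmin⟩ := exists_lexmin (P := QQ φ m t n₀ l) ⟨q₂, hq₂⟩ m
  obtain ⟨f, hG, hD⟩ := hQ.2
  have hlt : ∀ i < n₀, ∀ η < l, pair i.toZFSet η.toZFSet ∈ f → η < κ := by
    intro i hi η hη hiη
    refine hfix' η hη ?_
    have hiX := D.ordX (hi.trans hn₀).le
    have hηX := D.ordX hη.le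
    have h3 := (out_iff hm hQ hmin hG hD i.toZFSet η.toZFSet
      (asg l.toZFSet n₀.toZFSet t.toZFSet i.toZFSet η.toZFSet η.toZFSet)
      rfl rfl rfl rfl rfl).2 hiη
    have h4 := (D.tr (dfn_Out φ m)
      (asg l.toZFSet n₀.toZFSet t.toZFSet i.toZFSet η.toZFSet η.toZFSet)
      (asg_mem D.lX hn₀X htX hiX hηX hηX)).1 h3
    have h5 := (out_iff hm hQ hmin hG hD i.toZFSet (j η.toZFSet) _ D.jl hjn hjt
      (hfix i (hi.trans hn₀κ)) rfl).1 h4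
    have hi' : i.toZFSet ∈ n₀.toZFSet := tz_mem.2 hi
    rw [← (app_iff hG.2.1 hi').1 h5, (app_iff hG.2.1 hi').1 hiη]
  obtain ⟨i, hi, z, hz, hiz, hκz⟩ := hG.2.2 _ (tz_mem.2 hκ)
  obtain ⟨i, hi', rfl⟩ := Ordinal.mem_toZFSet_iff.1 hi
  obtain ⟨z, hz', rfl⟩ := Ordinal.mem_toZFSet_iff.1 hz
  exact absurd (hlt i hi' z hz' hiz) (not_lt.2 (tz_mem.1 hκz).le)

end Pool.Agent.H310.HD
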