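import Pool.Agent.H310.HD.Meas

/-!
Fodor's lemma for the stationary sets of a regular cardinal, in terms of `ZFSet`.
-/

set_option autoImplicit false
set_option linter.unusedVariables false

namespace Pool.Agent.H310.HD

open ZFSet Gss969

universe u

variable {l : Ordinal.{u}}

theorem RegUnc.bdd (hl : RegUnc l.toZFSet) {a : Ordinal.{u}} (ha : a < l)
    (f : Ordinal.{u} → Ordinal.{u}) (hf : ∀ i < a, f i < l) : ∃ b < l, ∀ i < a, f i < b := by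
  obtain ⟨b, hb, h⟩ := hl.2.2 a.toZFSet (tz_mem.2 ha)
    (gr a.toZFSet fun x => (f (rank x)).toZFSet) (isFunc_gr fun x hx => by
      obtain ⟨i, hi, rfl⟩ := Ordinal.mem_toZFSet_iff.1 hx
      rw [Ordinal.rank_toZFSet]
      exact tz_mem.2 (hf i hi))
  obtain ⟨β, hβ, rfl⟩ := Ordinal.mem_toZFSet_iff.1 hb
  refine ⟨β, hβ, fun i hi => ?_⟩
  have := h i.toZFSet (tz_mem.2 hi) (f i).toZFSet (tz_mem.2 (hf i hi)) (by
    rw [pair_mem_gr, Ordinal.rank_toZFSet]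
    exact ⟨tz_mem.2 hi, rfl⟩)
  exact tz_mem.1 this

theorem RegUnc.om_lt (hl : RegUnc l.toZFSet) : Ordinal.omega0 < l := by
  have := hl.2.1
  unfold om at this
  exact tz_mem.1 this

theorem RegUnc.pos (hl : RegUnc l.toZFSet) : 0 < l := Ordinal.omega0_pos.trans hl.om_lt

theorem RegUnc.succ_lt (hl : RegUnc l.toZFSet) {ξ : Ordinal.{u}} (hξ : ξ < l) :
    Order.succ ξ < l := by
  have h1 : (1 : Ordinal.{u}) < l := Ordinal.one_lt_omega0.trans hl.om_lt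
  obtain ⟨b, hb, h⟩ := hl.bdd h1 (fun _ => ξ) fun _ _ => hξ
  exact (Order.succ_le_of_lt (h 0 zero_lt_one)).trans_lt hb

/-- `S` is stationary in `l`. -/
def StatL (S : Set Ordinal.{u}) (l : Ordinal.{u}) : Prop :=
  ∀ C, C ⊆ l.toZFSet → Club C l.toZFSet → ∃ α < l, α ∈ S ∧ α.toZFSet ∈ C

theorem stat_iff {Z : ZFSet.{u}} : Stat Z l.toZFSet ↔ StatL {α | α.toZFSet ∈ Z} l := by
  constructor
  · intro h C hC1 hC2
    obtain ⟨x, hx, hx'⟩ := h C hC1 hC2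
    obtain ⟨α, hα, rfl⟩ := Ordinal.mem_toZFSet_iff.1 (hC1 hx')
    exact ⟨α, hα, hx, hx'⟩
  · intro h C hC1 hC2
    obtain ⟨α, _, h1, h2⟩ := h C hC1 hC2
    exact ⟨_, h1, h2⟩

theorem StatL.mono {S S' : Set Ordinal.{u}} (h : StatL S l) (hs : ∀ α < l, α ∈ S → α ∈ S') :
    StatL S' l := by
  intro C h1 h2
  obtain ⟨α, h3, h4, h5⟩ := h C h1 h2
  exact ⟨α, h3, hs α h3 h4, h5⟩

theorem club_tail (hl : RegUnc l.toZFSet) {C : ZFSet.{u}} (hC : Club C l.toZFSet)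
    {k : Ordinal.{u}} (hk : k < l) :
    Club (ZFSet.sep (fun x => k.toZFSet ∈ x) C) l.toZFSet := by
  obtain ⟨h1, h2, h3⟩ := hC
  refine ⟨fun x hx => h1 (mem_sep.1 hx).1, ?_, ?_⟩
  · intro x hx
    obtain ⟨ξ, hξ, rfl⟩ := Ordinal.mem_toZFSet_iff.1 hx
    obtain ⟨c, hc, hc'⟩ := h2 (max ξ k).toZFSet (tz_mem.2 (max_lt hξ hk))
    obtain ⟨γ, hγ, rfl⟩ := Ordinal.mem_toZFSet_iff.1 (h1 hc)
    have h4 := tz_mem.1 hc'
    exact ⟨_, mem_sep.2 ⟨hc, tz_mem.2 ((le_max_right _ _).trans_lt h4)⟩,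
      tz_mem.2 ((le_max_left _ _).trans_lt h4)⟩
  · intro a ha hne hlim
    obtain ⟨α, hα, rfl⟩ := Ordinal.mem_toZFSet_iff.1 ha
    refine mem_sep.2 ⟨h3 _ ha hne fun x hx => ?_, ?_⟩
    · obtain ⟨c, hc, hc1, hc2⟩ := hlim x hx
      exact ⟨c, (mem_sep.1 hc).1, hc1, hc2⟩
    · obtain ⟨x, hx, _⟩ := hne
      obtain ⟨c, hc, hc1, hc2⟩ := hlim x hx
      exact (isOrdinal_toZFSet α).1.mem_trans (mem_sep.1 hc).2 hc1

theorem StatL.tail (hl : RegUnc l.toZFSet) {S : Set Ordinal.{u}} (h : StatL S l)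
    {k : Ordinal.{u}} (hk : k < l) : StatL {α | α ∈ S ∧ k < α} l := by
  intro C h1 h2
  obtain ⟨α, h3, h4, h5⟩ := h _ (fun x hx => h1 (mem_sep.1 hx).1) (club_tail hl h2 hk)
  rw [mem_sep] at h5
  exact ⟨α, h3, ⟨h4, tz_mem.1 h5.2⟩, h5.1⟩

theorem club_closure (hl : RegUnc l.toZFSet) (F : Ordinal.{u} → Ordinal.{u})
    (hF : ∀ ξ < l, F ξ < l) :
    Club (ZFSet.sep (fun x => (∃ y ∈ x, y = y) ∧ ∀ y ∈ x, (F (rank y)).toZFSet ∈ x) l.toZFSet)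
      l.toZFSet := by
  classical
  refine ⟨fun x hx => (mem_sep.1 hx).1, ?_, ?_⟩
  · intro x hx
    obtain ⟨ξ, hξ, rfl⟩ := Ordinal.mem_toZFSet_iff.1 hx
    have step : ∀ γ < l, ∃ γ' < l, γ < γ' ∧ ∀ i ≤ γ, F i < γ' := by
      intro γ hγ
      obtain ⟨b, hb, h⟩ := hl.bdd (hl.succ_lt hγ) F fun i hi =>
        hF i ((Order.lt_succ_iff.1 hi).trans_lt hγ)
      refine ⟨max b (Order.succ γ), max_lt hb (hl.succ_lt hγ),
        (Order.lt_succ γ).trans_le (le_max_right _ _), fun i hi => ?_⟩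
      exact (h i (Order.lt_succ_iff.2 hi)).trans_le (le_max_left _ _)
    choose! N hN1 hN2 hN3 using step
    let G : ℕ → Ordinal.{u} := fun n => Nat.rec ξ (fun _ γ => N γ) n
    have hG : ∀ n, G n < l := by
      intro n
      induction n with
      | zero => exact hξ
      | succ n ih => exact hN1 _ ih
    have hGs : ∀ n, G n < G (n + 1) := fun n => hN2 _ (hG n)
    obtain ⟨b, hb, h⟩ := hl.bdd hl.om_lt (fun i => G (if h : ∃ n : ℕ, i = n then h.choose else 0))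
      fun i _ => hG _
    have hGb : ∀ n, G n < b := by
      intro n
      have h1 := h n (Ordinal.natCast_lt_omega0 n)
      have h2 : ∃ m : ℕ, (n : Ordinal.{u}) = m := ⟨n, rfl⟩
      simp only [dif_pos h2] at h1
      have h3 : h2.choose = n := by exact_mod_cast h2.choose_spec.symm
      rwa [h3] at h1
    obtain ⟨α, hα⟩ : ∃ α : Ordinal.{u}, α = ⨆ n, G n := ⟨_, rfl⟩
    have hbd : BddAbove (Set.range G) := ⟨b, by rintro _ ⟨n, rfl⟩; exact (hGb n).le⟩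
    have hle : ∀ n, G n < α := by
      intro n
      rw [hα]
      exact (hGs n).trans_le (le_ciSup hbd (n + 1))
    have hαl : α < l := by
      rw [hα]
      exact (ciSup_le fun n => (hGb n).le).trans_lt hb
    refine ⟨α.toZFSet, mem_sep.2 ⟨tz_mem.2 hαl, ⟨ξ.toZFSet, tz_mem.2 (hle 0), rfl⟩, ?_⟩,
      tz_mem.2 (hle 0)⟩
    intro y hy
    obtain ⟨γ, hγ, rfl⟩ := Ordinal.mem_toZFSet_iff.1 hy
    rw [Ordinal.rank_toZFSet]
    have h1 : ∃ n, γ ≤ G n := by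
      by_contra hcon
      push Not at hcon
      rw [hα] at hγ
      exact absurd hγ (not_lt.2 (ciSup_le fun n => (hcon n).le))
    obtain ⟨n, hn⟩ := h1
    exact tz_mem.2 ((hN3 _ (hG n) γ hn).trans (hle (n + 1)))
  · intro a ha hne hlim
    refine mem_sep.2 ⟨ha, hne, fun y hy => ?_⟩
    obtain ⟨c, hc, hc1, hc2⟩ := hlim y hy
    obtain ⟨α, hα, rfl⟩ := Ordinal.mem_toZFSet_iff.1 ha
    exact (isOrdinal_toZFSet α).1.mem_trans ((mem_sep.1 hc).2.2 y hc2) hc1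

/-- Fodor's lemma. -/
theorem fodor (hl : RegUnc l.toZFSet) {S : Set Ordinal.{u}} (hS : StatL S l)
    {f : Ordinal.{u} → Ordinal.{u}} (hf : ∀ α ∈ S, α < l → f α < α) :
    ∃ ξ < l, StatL {α | α ∈ S ∧ f α = ξ} l := by
  by_contra hcon
  push Not at hcon
  have h1 : ∀ ξ < l, ∃ C, C ⊆ l.toZFSet ∧ Club C l.toZFSet ∧
      ∀ α < l, α ∈ S → f α = ξ → ¬ α.toZFSet ∈ C := by
    intro ξ hξ
    have h2 := hcon ξ hξ
    unfold StatL at h2
    push Not at h2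
    obtain ⟨C, h3, h4, h5⟩ := h2
    exact ⟨C, h3, h4, fun α h6 h7 h8 => h5 α h6 ⟨h7, h8⟩⟩
  choose! C hC1 hC2 hC3 using h1
  have h2 : ∀ ξ < l, ∀ γ < l, ∃ c < l, γ < c ∧ c.toZFSet ∈ C ξ := by
    intro ξ hξ γ hγ
    obtain ⟨c, hc, hc'⟩ := (hC2 ξ hξ).2.1 _ (tz_mem.2 hγ)
    obtain ⟨δ, hδ, rfl⟩ := Ordinal.mem_toZFSet_iff.1 (hC1 ξ hξ hc)
    exact ⟨δ, hδ, tz_mem.1 hc', hc⟩
  choose! N hN1 hN2 hN3 using h2
  have h3 : ∀ γ < l, ∃ b < l, ∀ ξ < Order.succ γ, N ξ γ < b := by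
    intro γ hγ
    exact hl.bdd (hl.succ_lt hγ) (fun ξ => N ξ γ) fun ξ hξ =>
      hN1 ξ ((Order.lt_succ_iff.1 hξ).trans_lt hγ) γ hγ
  choose! F hF1 hF2 using h3
  obtain ⟨α, hα, hαS, hαC⟩ := hS _ (fun x hx => (mem_sep.1 hx).1) (club_closure hl F hF1)
  rw [mem_sep] at hαC
  obtain ⟨_, hne, hcl⟩ := hαC
  refine hC3 (f α) ((hf α hαS hα).trans hα) α hα hαS rfl ?_
  refine (hC2 (f α) ((hf α hαS hα).trans hα)).2.2 _ (tz_mem.2 hα) hne fun x hx => ?_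
  obtain ⟨y, hy, rfl⟩ := Ordinal.mem_toZFSet_iff.1 hx
  have hγ : max y (f α) < α := max_lt hy (hf α hαS hα)
  have hγl := hγ.trans hα
  have hξl := (hf α hαS hα).trans hα
  refine ⟨(N (f α) (max y (f α))).toZFSet, hN3 _ hξl _ hγl, ?_, ?_⟩
  · have h4 := hcl _ (tz_mem.2 hγ)
    rw [Ordinal.rank_toZFSet] at h4
    exact tz_mem.2 ((hF2 _ hγl _ (Order.lt_succ_iff.2 (le_max_right _ _))).trans (tz_mem.1 h4))
  · exact tz_mem.2 ((le_max_left _ _).trans_lt (hN2 _ hξl _ hγl))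

/-- A union of fewer than `l` nonstationary sets is not stationary. -/
theorem StatL.union (hl : RegUnc l.toZFSet) {S : Set Ordinal.{u}} (hS : StatL S l)
    {k : Ordinal.{u}} (hk : k < l) {P : Ordinal.{u} → Ordinal.{u} → Prop}
    (h : ∀ α ∈ S, α < l → ∃ i < k, P i α) : ∃ i < k, StatL {α | α ∈ S ∧ P i α} l := by
  choose! f hf1 hf2 using h
  obtain ⟨ξ, hξ, h1⟩ := fodor hl (hS.tail hl hk) (f := f) fun α hα hαl =>
    (hf1 α hα.1 hαl).trans hα.2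
  have hξk : ξ < k := by
    obtain ⟨α, hα, h2, _⟩ := h1 l.toZFSet (fun x hx => hx) ⟨fun x hx => hx, fun x hx => by
      obtain ⟨γ, hγ, rfl⟩ := Ordinal.mem_toZFSet_iff.1 hx
      exact ⟨_, tz_mem.2 (hl.succ_lt hγ), tz_mem.2 (Order.lt_succ γ)⟩, fun a ha _ _ => ha⟩
    rw [← h2.2]
    exact hf1 α h2.1.1 hα
  refine ⟨ξ, hξk, h1.mono fun α hα h2 => ⟨h2.1.1, ?_⟩⟩
  rw [← h2.2]
  exact hf2 α h2.1.1 hα

/-- Countable unions. -/
theorem StatL.union_nat (hl : RegUnc l.toZFSet) {S : Set Ordinal.{u}} (hS : StatL S l)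
    {P : ℕ → Ordinal.{u} → Prop} (h : ∀ α ∈ S, α < l → ∃ n, P n α) :
    ∃ n, StatL {α | α ∈ S ∧ P n α} l := by
  obtain ⟨i, hi, h1⟩ := hS.union hl hl.om_lt (P := fun i α => ∃ n : ℕ, i = n ∧ P n α)
    fun α hα hαl => by
      obtain ⟨n, hn⟩ := h α hα hαl
      exact ⟨n, Ordinal.natCast_lt_omega0 n, n, rfl, hn⟩
  obtain ⟨n, rfl⟩ := Ordinal.lt_omega0.1 hi
  refine ⟨n, h1.mono fun α _ h2 => ⟨h2.1, ?_⟩⟩
  obtain ⟨_, m, hm, h3⟩ := h2
  have : n = m := by exact_mod_cast hm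
  rwa [this]

end Pool.Agent.H310.HD
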