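import Pool.Agent.H310.HD.Hod

/-!
Monotone local properties of `HOD`: reflection below reflecting and extendible cardinals.
-/

set_option autoImplicit false
set_option linter.unusedVariables false

namespace Pool.Agent.H310.HD

open ZFSet Gss969

universe u

theorem Dfn_reindex {𝒰 : Set ZFSet.{u}} {A : (ℕ → ZFSet.{u}) → Prop} (h : Dfn 𝒰 A) (g : ℕ → ℕ) :
    Dfn 𝒰 (fun v => A (fun n => v (g n))) := by
  intro f hf
  obtain ⟨φ, hφ⟩ := h (fun n => f (g n)) (hf.mono fun x hx => by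
    rintro ⟨n, rfl⟩
    exact hx ⟨g n, rfl⟩)
  exact ⟨φ, hφ⟩

/-- A property of `l` and of a class `P`, which becomes weaker when `P` is enlarged, depends only
on a set of elements of `P`, and is definable for the classes `HODin W`. -/
structure Mono (Q : (ZFSet.{u} → Prop) → ZFSet.{u} → Prop) : Prop where
  mono : ∀ P P' : ZFSet.{u} → Prop, (∀ x, P x → P' x) → ∀ l, Q P l → Q P' l
  loc : ∀ l, ∃ X : ZFSet.{u}, ∀ P P' : ZFSet.{u} → Prop, (∀ x ∈ X, P x ↔ P' x) →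
    (Q P l ↔ Q P' l)
  dfn : Dfn Lvl.{u} (fun v => Q (HODin (v 0)) (v 1))

namespace Mono

variable {Q : (ZFSet.{u} → Prop) → ZFSet.{u} → Prop}

theorem up (hQ : Mono Q) {W l : ZFSet.{u}} (h : Q (HODin W) l) : Q HOD l :=
  hQ.mono _ _ (fun _ hx => hx.hod) l h

theorem ev (hQ : Mono Q) {l : ZFSet.{u}} (h : Q HOD l) :
    ∃ β : Ordinal.{u}, ∀ ζ ≥ β, Q (HODin (V_ ζ)) l := by
  obtain ⟨X, hX⟩ := hQ.loc l
  obtain ⟨β, hβ⟩ := stab X
  refine ⟨β, fun ζ hζ => ?_⟩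
  rw [hX (HODin (V_ ζ)) HOD fun x hx => ⟨fun h => h.hod, fun h => hβ ζ hζ x hx h⟩]
  exact h

/-- Below `D` there are a set `W` and `l ∈ W` above `b` with the property. -/
def Bel (Q : (ZFSet.{u} → Prop) → ZFSet.{u} → Prop) (D b : ZFSet.{u}) : Prop :=
  ∃ W ∈ D, ∃ l ∈ W, l.IsOrdinal ∧ b ∈ l ∧ Q (HODin W) l

theorem dfn_Bel (hQ : Mono Q) (a b : ℕ) : Dfn Lvl.{u} (fun v => Bel Q (v a) (v b)) := by
  unfold Bel
  refine Dfn.bex Lvl_sub_Trs _ (Dfn.bex Lvl_sub_Trs _ ?_)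
  refine (dfn_ord Lvl_sub_Trs _).and ((Dfn.mem _ _).and ?_)
  exact Dfn_reindex hQ.dfn (fun n => if n = 0 then 1 else 0)

theorem bel_of (hQ : Mono Q) {β l : Ordinal.{u}} (hl : β < l) (h : Q HOD l.toZFSet) :
    ∃ ζ : Ordinal.{u}, V_ ζ ∈ Lvl.{u} ∧ ∀ ζ' > ζ, Bel Q (V_ ζ') β.toZFSet := by
  obtain ⟨ζ0, h0⟩ := hQ.ev h
  obtain ⟨ζ, h1, h2, h3⟩ := exists_limit_gt (max ζ0 l)
  refine ⟨ζ, ⟨ζ, h3, h2, rfl⟩, fun ζ' hζ' => ?_⟩
  refine ⟨V_ ζ, vonNeumann_mem_vonNeumann_iff.2 hζ', l.toZFSet, ?_, isOrdinal_toZFSet l,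
    Ordinal.toZFSet_mem_toZFSet_iff.2 hl, h0 ζ ((le_max_left _ _).trans h1.le)⟩
  rw [mem_vonNeumann, Ordinal.rank_toZFSet]
  exact (le_max_right _ _).trans_lt h1

theorem of_bel (hQ : Mono Q) {β δ : Ordinal.{u}} (h : Bel Q (V_ δ) β.toZFSet) :
    ∃ l : Ordinal.{u}, β < l ∧ l < δ ∧ Q HOD l.toZFSet := by
  obtain ⟨W, hW, l, hl, ho, hb, h1⟩ := h
  refine ⟨rank l, ?_, ?_, ?_⟩
  · have := rank_lt_of_mem hb
    rwa [Ordinal.rank_toZFSet] at this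
  · exact (rank_lt_of_mem hl).trans (mem_vonNeumann.1 hW)
  · rw [ho.toZFSet_rank_eq]
    exact hQ.up h1

end Mono

/-- `δ` is (`Σ₂`-)reflecting: whatever holds of a parameter `p ∈ V_δ` in some `V_α`, `α > ω` a
limit ordinal, holds of `p` in such a `V_α` with `α < δ`. -/
def Reflecting (δ : Ordinal.{u}) : Prop :=
  ∀ p ∈ V_ δ, ∀ (φ : Fml), ∀ U ∈ Lvl.{u}, p ∈ U → Sat U (fun _ => p) φ →
    ∃ U' ∈ Lvl.{u}, U' ∈ V_ δ ∧ p ∈ U' ∧ Sat U' (fun _ => p) φ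

theorem Reflecting.below {Q : (ZFSet.{u} → Prop) → ZFSet.{u} → Prop} {δ : Ordinal.{u}}
    (hδ : Reflecting δ) (hQ : Mono Q) {β l : Ordinal.{u}} (hβ : β < δ) (hl : β < l)
    (h : Q HOD l.toZFSet) : ∃ l' : Ordinal.{u}, β < l' ∧ l' < δ ∧ Q HOD l'.toZFSet := by
  obtain ⟨ζ, hζ, hb⟩ := hQ.bel_of hl h
  obtain ⟨α, h1, h2, h3⟩ := exists_limit_gt (max ζ β)
  have hU : V_ α ∈ Lvl.{u} := ⟨α, h3, h2, rfl⟩
  have hB := hb α ((le_max_left _ _).trans_lt h1)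
  have hD : Dfn Lvl.{u} (fun v => ∃ l ∈ v 0, l.IsOrdinal ∧ v 1 ∈ l ∧ Q (HODin (v 0)) l) := by
    refine Dfn.bex Lvl_sub_Trs _ ?_
    refine (dfn_ord Lvl_sub_Trs _).and ((Dfn.mem _ _).and ?_)
    exact Dfn_reindex hQ.dfn (fun n => if n = 0 then 1 else 0)
  obtain ⟨φ, hφ⟩ := hD (fun n => 2 * n) (by
    refine Set.infinite_of_injective_forall_mem (f := fun n : ℕ => 2 * n + 1) ?_ ?_
    · intro a b hab; simpa using hab
    · rintro n ⟨m, hm⟩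
      simp only at hm
      omega)
  have key : ∀ U ∈ Lvl.{u}, ∀ p ∈ U, (Sat U (fun _ => p) (.ex 0 φ) ↔ Mono.Bel Q U p) := by
    intro U hU p hp
    simp only [Sat]
    unfold Mono.Bel
    refine exists_congr fun a => and_congr_right fun ha => ?_
    rw [hφ U hU _ (by
      intro i
      by_cases hi : i = 0
      · subst hi; simpa using ha
      · simpa [hi] using hp)]
    simp
  have hp : β.toZFSet ∈ V_ δ := by rw [mem_vonNeumann, Ordinal.rank_toZFSet]; exact hβ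
  have hpU : β.toZFSet ∈ V_ α := by
    rw [mem_vonNeumann, Ordinal.rank_toZFSet]; exact (le_max_right _ _).trans_lt h1
  obtain ⟨U', hU', hδ', hp', hs⟩ := hδ _ hp (.ex 0 φ) _ hU hpU ((key _ hU _ hpU).2 hB)
  have := (key _ hU' _ hp').1 hs
  obtain ⟨W, hW, l, hlW, ho, hb, h1⟩ := this
  exact hQ.of_bel ⟨W, (isTransitive_vonNeumann δ).mem_trans hW hδ', l, hlW, ho, hb, h1⟩

theorem Extendible.reflecting {δ : Ordinal.{u}} (hδ : Extendible δ) : Reflecting δ := by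
  intro p hp φ U hU hpU hs
  obtain ⟨α, hα⟩ : ∃ α, U = V_ α := by obtain ⟨α, _, _, rfl⟩ := hU; exact ⟨α, rfl⟩
  subst hα
  obtain ⟨η, θ, τ, j, h1, D⟩ := hδ.data α
  have hUη : V_ α ∈ V_ η := vonNeumann_mem_vonNeumann_iff.2 h1
  have hpη : p ∈ V_ η := D.E.bt.mem_trans hp D.VdB
  have hA : Dfn Lvl.{u} (fun v => ∃ U ∈ v 0, U ∈ Lvl.{u} ∧ v 1 ∈ U ∧ Sat U (fun _ => v 1) φ) := by
    refine Dfn.bex Lvl_sub_Trs _ ((dfn_Lvl _).and ((Dfn.mem _ _).and ?_))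
    exact (dfn_Sat φ 0 (fun _ => 2)).mono Lvl_sub_Trs
  have := (D.E.el.t2 D.E.lvl D.nl (A := fun a b => ∃ U ∈ a, U ∈ Lvl.{u} ∧ b ∈ U ∧
    Sat U (fun _ => b) φ) hA D.VdB hpη).2 (by
      rw [D.jVd, D.fixV hp]
      exact ⟨V_ α, D.sub hUη, hU, hpU, hs⟩)
  obtain ⟨U', h2, h3, h4, h5⟩ := this
  exact ⟨U', h3, h2, h4, h5⟩

/-- One `l ≥ δ` with the property gives arbitrarily large ones. -/
theorem Extendible.above {Q : (ZFSet.{u} → Prop) → ZFSet.{u} → Prop} {δ : Ordinal.{u}}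
    (hδ : Extendible δ) (hQ : Mono Q) {l : Ordinal.{u}} (hl : δ ≤ l) (h : Q HOD l.toZFSet)
    (ξ : Ordinal.{u}) : ∃ l' > ξ, Q HOD l'.toZFSet := by
  obtain ⟨ζ, hζ⟩ := hQ.ev h
  have h0 := hζ ζ le_rfl
  obtain ⟨η, θ, τ, j, h1, D⟩ := hδ.data (max ξ (max ζ l))
  have hζη : V_ ζ ∈ V_ η := vonNeumann_mem_vonNeumann_iff.2
    (((le_max_left _ _).trans (le_max_right _ _)).trans_lt h1)
  have hlη : l.toZFSet ∈ V_ η := by
    rw [mem_vonNeumann, Ordinal.rank_toZFSet]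
    exact ((le_max_right _ _).trans (le_max_right _ _)).trans_lt h1
  have h2 := (D.E.el.t2 D.E.lvl D.nl (A := fun a b => Q (HODin a) b) hQ.dfn hζη hlη).1 h0
  have ho := D.E.ord hlη (isOrdinal_toZFSet l)
  refine ⟨rank (j l.toZFSet), ?_, ?_⟩
  · have h3 : δ.toZFSet ⊆ l.toZFSet := by
      rcases hl.lt_or_eq with hlt | rfl
      · exact (isOrdinal_toZFSet l).subset_of_mem (Ordinal.toZFSet_mem_toZFSet_iff.2 hlt)
      · exact subset_rfl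
    have h4 := rank_mono ((D.E.sub_iff D.dB hlη).1 h3)
    rw [D.jd, Ordinal.rank_toZFSet] at h4
    exact ((le_max_left _ _).trans_lt h1).trans (D.ητ.trans_le h4)
  · rw [ho.toZFSet_rank_eq]
    exact hQ.up h2

/-- If the property holds unboundedly often below `δ`, it holds somewhere above `δ`. -/
theorem Extendible.of_below {Q : (ZFSet.{u} → Prop) → ZFSet.{u} → Prop} {δ : Ordinal.{u}}
    (hδ : Extendible δ) (hQ : Mono Q)
    (h : ∀ β < δ, ∃ l : Ordinal.{u}, β < l ∧ l < δ ∧ Q HOD l.toZFSet) :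
    ∃ l > δ, Q HOD l.toZFSet := by
  have hb : ∀ β < δ, Mono.Bel Q (V_ δ) β.toZFSet := by
    intro β hβ
    obtain ⟨l, h1, h2, h3⟩ := h β hβ
    obtain ⟨ζ, hζ, h4⟩ := hQ.bel_of h1 h3
    obtain ⟨η, θ, τ, j, h5, D⟩ := hδ.data (max ζ β)
    have hβη : β.toZFSet ∈ V_ η := by
      rw [mem_vonNeumann, Ordinal.rank_toZFSet]; exact (le_max_right _ _).trans_lt h5
    have hβδ : β.toZFSet ∈ V_ δ := by rw [mem_vonNeumann, Ordinal.rank_toZFSet]; exact hβ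
    refine (D.E.el.t2 D.E.lvl D.nl (A := fun a b => Mono.Bel Q a b) (hQ.dfn_Bel 0 1)
      D.VdB hβη).2 ?_
    rw [D.jVd, D.fixV hβδ]
    exact h4 τ (((le_max_left _ _).trans_lt h5).trans D.ητ)
  obtain ⟨η, θ, τ, j, h5, D⟩ := hδ.data δ
  have h6 : ∀ b ∈ δ.toZFSet, Mono.Bel Q (V_ δ) b := by
    intro b hb'
    obtain ⟨β, hβ, rfl⟩ := Ordinal.mem_toZFSet_iff.1 hb'
    exact hb β hβ
  have h7 := (D.E.el.t2 D.E.lvl D.nl (A := fun a c => ∀ b ∈ c, Mono.Bel Q a b)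
    (Dfn.ball Lvl_sub_Trs _ (hQ.dfn_Bel _ _)) D.VdB D.dB).1 h6
  rw [D.jVd, D.jd] at h7
  obtain ⟨l, h8, h9, h10⟩ := hQ.of_bel (h7 δ.toZFSet
    (Ordinal.toZFSet_mem_toZFSet_iff.2 (D.lt.trans D.ητ)))
  exact ⟨l, h8, h10⟩

end Pool.Agent.H310.HD
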