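import Pool.Agent.H310.HD.SM

/-!
Properties with a parameter, and properties which are not monotone.
-/

set_option autoImplicit false
set_option linter.unusedVariables false

namespace Pool.Agent.H310.HD

open ZFSet Gss969

universe u

/-- A monotone local property with a parameter `m`. -/
structure Mono3 (Q : (ZFSet.{u} → Prop) → ZFSet.{u} → ZFSet.{u} → Prop) : Prop where
  mono : ∀ P P' : ZFSet.{u} → Prop, (∀ x, P x → P' x) → ∀ m l, Q P m l → Q P' m l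
  loc : ∀ m l, ∃ X : ZFSet.{u}, ∀ P P' : ZFSet.{u} → Prop, (∀ x ∈ X, P x ↔ P' x) →
    (Q P m l ↔ Q P' m l)
  dfn : Dfn Lvl.{u} (fun v => Q (HODin (v 0)) (v 1) (v 2))

namespace Mono3

variable {Q : (ZFSet.{u} → Prop) → ZFSet.{u} → ZFSet.{u} → Prop}

theorem up (hQ : Mono3 Q) {W m l : ZFSet.{u}} (h : Q (HODin W) m l) : Q HOD m l :=
  hQ.mono _ _ (fun _ hx => hx.hod) m l h

theorem ev (hQ : Mono3 Q) {m l : ZFSet.{u}} (h : Q HOD m l) :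
    ∃ β : Ordinal.{u}, ∀ ζ ≥ β, Q (HODin (V_ ζ)) m l := by
  obtain ⟨X, hX⟩ := hQ.loc m l
  obtain ⟨β, hβ⟩ := stab X
  refine ⟨β, fun ζ hζ => ?_⟩
  rw [hX (HODin (V_ ζ)) HOD fun x hx => ⟨fun h => h.hod, fun h => hβ ζ hζ x hx h⟩]
  exact h

def Bel (Q : (ZFSet.{u} → Prop) → ZFSet.{u} → ZFSet.{u} → Prop) (D m b : ZFSet.{u}) : Prop :=
  ∃ W ∈ D, ∃ l ∈ W, l.IsOrdinal ∧ b ∈ l ∧ Q (HODin W) m l

theorem dfn_Bel (hQ : Mono3 Q) (a c b : ℕ) :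
    Dfn Lvl.{u} (fun v => Bel Q (v a) (v c) (v b)) := by
  unfold Bel
  refine Dfn.bex Lvl_sub_Trs _ (Dfn.bex Lvl_sub_Trs _ ?_)
  refine (dfn_ord Lvl_sub_Trs _).and ((Dfn.mem _ _).and ?_)
  exact Dfn_reindex hQ.dfn (fun n => if n = 0 then 1 else if n = 1 then c + 2 else 0)

theorem bel_of (hQ : Mono3 Q) {β l : Ordinal.{u}} {m : ZFSet.{u}} (hl : β < l)
    (h : Q HOD m l.toZFSet) : ∃ ζ : Ordinal.{u}, ∀ ζ' > ζ, Bel Q (V_ ζ') m β.toZFSet := by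
  obtain ⟨ζ0, h0⟩ := hQ.ev h
  obtain ⟨ζ, h1, h2, h3⟩ := exists_limit_gt (max ζ0 l)
  refine ⟨ζ, fun ζ' hζ' => ?_⟩
  refine ⟨V_ ζ, vonNeumann_mem_vonNeumann_iff.2 hζ', l.toZFSet, ?_, isOrdinal_toZFSet l,
    Ordinal.toZFSet_mem_toZFSet_iff.2 hl, h0 ζ ((le_max_left _ _).trans h1.le)⟩
  rw [mem_vonNeumann, Ordinal.rank_toZFSet]
  exact (le_max_right _ _).trans_lt h1

theorem of_bel (hQ : Mono3 Q) {β δ : Ordinal.{u}} {m : ZFSet.{u}}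
    (h : Bel Q (V_ δ) m β.toZFSet) : ∃ l : Ordinal.{u}, β < l ∧ l < δ ∧ Q HOD m l.toZFSet := by
  obtain ⟨W, hW, l, hl, ho, hb, h1⟩ := h
  refine ⟨rank l, ?_, ?_, ?_⟩
  · have := rank_lt_of_mem hb
    rwa [Ordinal.rank_toZFSet] at this
  · exact (rank_lt_of_mem hl).trans (mem_vonNeumann.1 hW)
  · rw [ho.toZFSet_rank_eq]
    exact hQ.up h1

end Mono3

variable {δ : Ordinal.{u}}

theorem Extendible.below3 {Q : (ZFSet.{u} → Prop) → ZFSet.{u} → ZFSet.{u} → Prop}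
    (hδ : Extendible δ) (hQ : Mono3 Q) {μ β l : Ordinal.{u}} (hμ : μ < δ) (hβ : β < δ)
    (hl : β < l) (h : Q HOD μ.toZFSet l.toZFSet) : Mono3.Bel Q (V_ δ) μ.toZFSet β.toZFSet := by
  obtain ⟨ζ, h4⟩ := hQ.bel_of hl h
  obtain ⟨η, θ, τ, j, h5, D⟩ := hδ.data ζ
  have hβδ : β.toZFSet ∈ V_ δ := by rw [mem_vonNeumann, Ordinal.rank_toZFSet]; exact hβ
  have hμδ : μ.toZFSet ∈ V_ δ := by rw [mem_vonNeumann, Ordinal.rank_toZFSet]; exact hμ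
  have hβη := D.E.bt.mem_trans hβδ D.VdB
  have hμη := D.E.bt.mem_trans hμδ D.VdB
  refine (D.E.el.t3 D.E.lvl D.nl (A := fun a m b => Mono3.Bel Q a m b) (hQ.dfn_Bel 0 1 2)
    D.VdB hμη hβη).2 ?_
  rw [D.jVd, D.fixV hβδ, D.fixV hμδ]
  exact h4 τ (h5.trans D.ητ)

/-- If for each parameter below `δ` the property holds unboundedly often below `δ`, then for every
parameter it holds for arbitrarily large `l`. -/
theorem Extendible.all3 {Q : (ZFSet.{u} → Prop) → ZFSet.{u} → ZFSet.{u} → Prop}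
    (hδ : Extendible δ) (hQ : Mono3 Q)
    (h : ∀ μ < δ, ∀ β < δ, ∃ l > β, Q HOD μ.toZFSet (Ordinal.toZFSet l)) (μ β : Ordinal.{u}) :
    ∃ l > β, Q HOD μ.toZFSet (Ordinal.toZFSet l) := by
  have h6 : ∀ m ∈ δ.toZFSet, ∀ b ∈ δ.toZFSet, Mono3.Bel Q (V_ δ) m b := by
    intro m hm b hb
    obtain ⟨μ, hμ, rfl⟩ := Ordinal.mem_toZFSet_iff.1 hm
    obtain ⟨β, hβ, rfl⟩ := Ordinal.mem_toZFSet_iff.1 hb
    obtain ⟨l, hl, h1⟩ := h μ hμ β hβ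
    exact hδ.below3 hQ hμ hβ hl h1
  obtain ⟨η, θ, τ, j, h5, D⟩ := hδ.data (max μ β)
  have h7 := (D.E.el.t2 D.E.lvl D.nl (A := fun a c => ∀ m ∈ c, ∀ b ∈ c, Mono3.Bel Q a m b)
    (Dfn.ball Lvl_sub_Trs _ (Dfn.ball Lvl_sub_Trs _ (hQ.dfn_Bel _ _ _))) D.VdB D.dB).1 h6
  rw [D.jVd, D.jd] at h7
  obtain ⟨l, h8, h9, h10⟩ := hQ.of_bel (h7 μ.toZFSet
    (Ordinal.toZFSet_mem_toZFSet_iff.2 (((le_max_left _ _).trans_lt h5).trans D.ητ))
    β.toZFSet (Ordinal.toZFSet_mem_toZFSet_iff.2 (((le_max_right _ _).trans_lt h5).trans D.ητ)))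
  exact ⟨l, h8, h10⟩

/-- A property of `l` and of a class `P` which depends only on the elements of `P` in a definable
set `X l`. -/
structure Loc (X : ZFSet.{u} → ZFSet.{u}) (Q : (ZFSet.{u} → Prop) → ZFSet.{u} → Prop) : Prop where
  mem : ∀ U ∈ Lvl.{u}, ∀ l ∈ U, X l ∈ U
  dX : Dfn Lvl.{u} (fun v => v 0 ∈ X (v 1))
  loc : ∀ l, ∀ P P' : ZFSet.{u} → Prop, (∀ x ∈ X l, P x ↔ P' x) → (Q P l ↔ Q P' l)
  dfn : Dfn Lvl.{u} (fun v => Q (HODin (v 0)) (v 1))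

theorem Extendible.lim (hδ : Extendible δ) : V_ δ ∈ Lvl.{u} := by
  -- reflect the existence of a limit level containing a given set
  have key : ∀ x ∈ V_ δ, ∃ U' ∈ Lvl.{u}, U' ∈ V_ δ ∧ x ∈ U' := by
    intro x hx
    obtain ⟨α, h1, h2, h3⟩ := exists_limit_gt (rank x)
    obtain ⟨U', h4, h5, h6, _⟩ := hδ.reflecting x hx (.eq 0 0) (V_ α) ⟨α, h3, h2, rfl⟩
      (by rw [mem_vonNeumann]; exact h1) rfl
    exact ⟨U', h4, h5, h6⟩
  rcases eq_or_ne δ 0 with rfl | h0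
  · exfalso
    obtain ⟨η, θ, τ, j, h1, D⟩ := hδ.data 0
    have h2 := (D.E.el.t1 (𝒰 := Trs) D.E.bt D.E.nt (A := fun a => ∀ y ∈ a, ¬ y = y)
      (by repeat' first
            | exact Dfn.eq _ _ | refine Dfn.ball subset_rfl _ ?_ | refine Dfn.not ?_) D.dB).1
      (by intro y hy; simp at hy)
    rw [D.jd] at h2
    have h3 : (0 : Ordinal.{u}) < τ := D.lt.trans D.ητ
    exact h2 _ (Ordinal.toZFSet_mem_toZFSet_iff.2 h3) rfl
  · have hpos : 0 < δ := pos_iff_ne_zero.2 h0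
    obtain ⟨U, hU, hUδ, _⟩ := key ∅ (by rw [mem_vonNeumann, rank_empty]; exact hpos)
    have hω : Ordinal.omega0 < δ := by
      have h1 := mem_vonNeumann.1 ((isTransitive_vonNeumann δ).mem_trans (om_mem_Lvl hU) hUδ)
      unfold om at h1
      rwa [Ordinal.rank_toZFSet] at h1
    refine lvl_of_unb hω fun x hx => ?_
    obtain ⟨U', _, h5, h6⟩ := key x hx
    exact ⟨U', h5, h6⟩

/-- Hereditarily ordinal definable elements of `V_δ` are recognised inside `V_δ`. -/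
theorem Extendible.hodin (hδ : Extendible δ) {W x : ZFSet.{u}} (hW : W ∈ V_ δ) (hx : x ∈ V_ δ)
    (h : HOD x) : ∃ W' ∈ V_ δ, W ⊆ W' ∧ HODin W' x := by
  obtain ⟨ζ, hζ⟩ := h.eventually
  obtain ⟨η, θ, τ, j, h5, D⟩ := hδ.data (max ζ (rank W))
  have hWη := D.E.bt.mem_trans hW D.VdB
  have hxη := D.E.bt.mem_trans hx D.VdB
  refine (D.E.el.t3 D.E.lvl D.nl (A := fun a w x => ∃ W' ∈ a, w ⊆ W' ∧ HODin W' x)
    (Dfn.bex Lvl_sub_Trs _ ((dfn_sub Lvl_sub_Trs _ _).and (dfn_HODin _ _))) D.VdB hWη hxη).2 ?_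
  rw [D.jVd, D.fixV hW, D.fixV hx]
  refine ⟨V_ (max ζ (rank W)), vonNeumann_mem_vonNeumann_iff.2 (h5.trans D.ητ), ?_,
    hζ _ (le_max_left _ _)⟩
  rw [subset_vonNeumann]
  exact le_max_right _ _

theorem Extendible.belowLoc {X : ZFSet.{u} → ZFSet.{u}}
    {Q : (ZFSet.{u} → Prop) → ZFSet.{u} → Prop}
    (hδ : Extendible δ) (hQ : Loc X Q) {β l : Ordinal.{u}} (hβ : β < δ) (hl : β < l)
    (h : Q HOD l.toZFSet) : ∃ l' : Ordinal.{u}, β < l' ∧ l' < δ ∧ Q HOD l'.toZFSet := by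
  obtain ⟨ζ0, h0⟩ := stab (X l.toZFSet)
  obtain ⟨ζ, h1, h2, h3⟩ := exists_limit_gt (max ζ0 l)
  have hst : ∀ x ∈ X l.toZFSet, HOD x → HODin (V_ ζ) x :=
    h0 ζ ((le_max_left _ _).trans h1.le)
  obtain ⟨η, θ, τ, j, h5, D⟩ := hδ.data ζ
  have hβδ : β.toZFSet ∈ V_ δ := by rw [mem_vonNeumann, Ordinal.rank_toZFSet]; exact hβ
  have hβη := D.E.bt.mem_trans hβδ D.VdB
  have hA : Dfn Lvl.{u} (fun v => ∃ W ∈ v 0, ∃ l ∈ W, l.IsOrdinal ∧ v 1 ∈ l ∧ Q (HODin W) l ∧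
      ∀ W' ∈ v 0, W ⊆ W' → ∀ x ∈ W', x ∈ X l → HODin W' x → HODin W x) := by
    refine Dfn.bex Lvl_sub_Trs _ (Dfn.bex Lvl_sub_Trs _ ?_)
    refine (dfn_ord Lvl_sub_Trs _).and ((Dfn.mem _ _).and (Dfn.and ?_ ?_))
    · exact Dfn_reindex hQ.dfn (fun n => if n = 0 then 1 else 0)
    · refine Dfn.ball Lvl_sub_Trs _ (Dfn.imp (dfn_sub Lvl_sub_Trs _ _)
        (Dfn.ball Lvl_sub_Trs _ (Dfn.imp ?_ (Dfn.imp (dfn_HODin _ _) (dfn_HODin _ _)))))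
      exact Dfn_reindex hQ.dX (fun n => if n = 0 then 0 else 2)
  have h6 := (D.E.el.t2 D.E.lvl D.nl (A := fun a b => ∃ W ∈ a, ∃ l ∈ W, l.IsOrdinal ∧ b ∈ l ∧
      Q (HODin W) l ∧ ∀ W' ∈ a, W ⊆ W' → ∀ x ∈ W', x ∈ X l → HODin W' x → HODin W x)
      hA D.VdB hβη).2 (by
    rw [D.jVd, D.fixV hβδ]
    refine ⟨V_ ζ, vonNeumann_mem_vonNeumann_iff.2 (h5.trans D.ητ), l.toZFSet, ?_,
      isOrdinal_toZFSet l, Ordinal.toZFSet_mem_toZFSet_iff.2 hl, ?_, ?_⟩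
    · rw [mem_vonNeumann, Ordinal.rank_toZFSet]; exact (le_max_right _ _).trans_lt h1
    · rw [hQ.loc _ (HODin (V_ ζ)) HOD fun x hx => ⟨fun h => h.hod, fun h => hst x hx h⟩]
      exact h
    · intro W' _ _ x _ hx h7
      exact hst x hx h7.hod)
  obtain ⟨W, hW, l', hl', ho, hb, h7, h8⟩ := h6
  refine ⟨rank l', ?_, (rank_lt_of_mem hl').trans (mem_vonNeumann.1 hW), ?_⟩
  · have := rank_lt_of_mem hb
    rwa [Ordinal.rank_toZFSet] at this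
  · rw [ho.toZFSet_rank_eq, ← hQ.loc l' (HODin W) HOD ?_]
    · exact h7
    · intro x hx
      refine ⟨fun h => h.hod, fun h => ?_⟩
      have hlδ : l' ∈ V_ δ := (isTransitive_vonNeumann δ).mem_trans hl' hW
      have hxδ : x ∈ V_ δ := (isTransitive_vonNeumann δ).mem_trans hx
        (hQ.mem _ hδ.lim _ hlδ)
      have hWx : W ∪ {x} ∈ V_ δ := by
        refine Lvl_union hδ.lim hW (Lvl_sub hδ.lim (Lvl_powerset hδ.lim hxδ) ?_)
        intro y hy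
        rw [ZFSet.mem_singleton] at hy
        rw [hy, mem_powerset]
      obtain ⟨W', hW', hs, h9⟩ := hδ.hodin hWx hxδ h
      refine h8 W' hW' ?_ x ?_ hx h9
      · intro y hy; exact hs (mem_union.2 (Or.inl hy))
      · exact hs (mem_union.2 (Or.inr (by simp)))

end Pool.Agent.H310.HD
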