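import Pool.Agent.H310.HD.Solovay3
import Pool.Agent.H310.HD.Cover

/-!
Solovay's splitting argument in `HOD` for an ordinal definable stationary set.
-/

set_option autoImplicit false
set_option linter.unusedVariables false

namespace Pool.Agent.H310.HD

open ZFSet Gss969

universe u

variable {l : Ordinal.{u}}

/-- A regressive function in `HOD` on points of the ordinal definable set `A`, which takes unboundedly many values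
on stationary sets. -/
theorem exists_TA (hl : RegUnc l.toZFSet) {A : ZFSet.{u}} (hA : OD A)
    (hS : StatL {α | α.toZFSet ∈ A ∧ CofinalP HOD α.toZFSet} l) :
    ∃ T, HOD T ∧ (∀ α η, pair α η ∈ T → α ∈ l.toZFSet ∧ η ∈ l.toZFSet ∧ α ∈ A) ∧
      (∀ α η η', pair α η ∈ T → pair α η' ∈ T → η = η') ∧
      ∀ ξ < l, ∃ η < l, ξ ≤ η ∧ StatL {α | pair α.toZFSet η.toZFSet ∈ T} l := by
  classical
  obtain ⟨en, hen⟩ := exists_enum
  have h1 : ∀ α : Ordinal.{u}, (α.toZFSet ∈ A ∧ CofinalP HOD α.toZFSet) → ∃ ν < α, ∃ n : ℕ,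
      ∃ q : ℕ → Ordinal.{u}, ∃ x, Good x α.toZFSet ν.toZFSet ∧
        Def (en n) x (fun i => (q i).toZFSet) ∧ ∀ i, q i ≤ q 0 := by
    rintro α ⟨_, a, ha, x, hx, h1, h2⟩
    obtain ⟨ν, hν, rfl⟩ := Ordinal.mem_toZFSet_iff.1 ha
    obtain ⟨φ, q, hq, hq'⟩ := hx.od.exists_def
    obtain ⟨n, rfl⟩ := hen φ
    exact ⟨ν, hν, n, q, x, ⟨ha, h1, h2⟩, hq, hq'⟩
  choose! ν hν n q x hx hd hqb using h1
  obtain ⟨ν₀, hν₀, h2⟩ := fodor hl hS (f := ν) fun α hα _ => hν α hα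
  obtain ⟨n₀, h3⟩ := h2.union_nat hl (P := fun k α => n α = k) fun α _ _ => ⟨_, rfl⟩
  obtain ⟨φ, hφ⟩ : ∃ φ, φ = en n₀ := ⟨_, rfl⟩
  obtain ⟨m, hm⟩ : ∃ m, m = bd φ + 1 := ⟨_, rfl⟩
  obtain ⟨ζ, hζ⟩ : ∃ ζ : Ordinal.{u}, ∀ α < l, q α 0 < ζ := by
    refine ⟨⨆ w : {w // w ∈ l.toZFSet}, Order.succ (q (rank w.1) 0), fun α hα => ?_⟩
    refine (Order.lt_succ _).trans_le ?_
    have := Ordinal.le_iSup (fun w : {w // w ∈ l.toZFSet} => Order.succ (q (rank w.1) 0))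
      ⟨α.toZFSet, tz_mem.2 hα⟩
    simpa only [Ordinal.rank_toZFSet] using this
  let A1 : Set Ordinal.{u} := {α | α.toZFSet ∈ A ∧ ∃ q, QQ φ m ζ ν₀ α q}
  have hA1 : StatL A1 l := by
    refine h3.mono fun α hα h => ?_
    obtain ⟨⟨h4, h5⟩, h6⟩ := h
    refine ⟨h4.1, q α, fun i _ => (hqb α h4 i).trans_lt (hζ α hα), x α, ?_, ?_⟩
    · rw [← h5]; exact hx α h4
    · have := hd α h4
      rwa [h6, ← hφ] at this
  -- the least tuples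
  have h4 : ∀ α ∈ A1, ∃ q, ∃ x, QQ φ m ζ ν₀ α q ∧
      (∀ q', QQ φ m ζ ν₀ α q' → ¬ ∃ i < m, q' i < q i ∧ ∀ k < i, q' k = q k) ∧
      Good x α.toZFSet ν₀.toZFSet ∧ Def φ x (fun i => (q i).toZFSet) := by
    intro α hα
    obtain ⟨q, hq, h5⟩ := exists_lexmin hα.2 m
    obtain ⟨x, h6, h7⟩ := hq.2
    exact ⟨q, x, hq, h5, h6, h7⟩
  choose! Q X hQ hmin hG hD using h4
  have hout : ∀ α ∈ A1, ∀ i₀ η : ZFSet.{u}, ∀ e : ℕ → ZFSet.{u}, e 0 = α.toZFSet →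
      e 1 = ν₀.toZFSet → e 2 = ζ.toZFSet → e 3 = i₀ → e 4 = η →
      (Out φ m e ↔ pair i₀ η ∈ X α) := fun α hα i₀ η e e0 e1 e2 e3 e4 =>
    out_iff hm (hQ α hα) (hmin α hα) (hG α hα) (hD α hα) i₀ η e e0 e1 e2 e3 e4
  -- the values
  let val : Ordinal.{u} → Ordinal.{u} → Ordinal.{u} := fun i α => rank (app (X α) i.toZFSet)
  have hval : ∀ α ∈ A1, ∀ i < ν₀, val i α < α ∧ app (X α) i.toZFSet = (val i α).toZFSet := by
    intro α hα i hi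
    obtain ⟨β, hβ, h⟩ := Ordinal.mem_toZFSet_iff.1 (app_mem (hG α hα).2.1 (tz_mem.2 hi))
    simp only [val]
    rw [← h, Ordinal.rank_toZFSet]
    exact ⟨hβ, rfl⟩
  have hcof : ∀ α ∈ A1, ∀ b < α, ∃ i < ν₀, b ≤ val i α := by
    intro α hα b hb
    obtain ⟨i, hi, z, hz, hiz, hbz⟩ := (hG α hα).2.2 _ (tz_mem.2 hb)
    obtain ⟨i, hi', rfl⟩ := Ordinal.mem_toZFSet_iff.1 hi
    obtain ⟨γ, hγ, rfl⟩ := Ordinal.mem_toZFSet_iff.1 hz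
    refine ⟨i, hi', ?_⟩
    have h5 := (app_iff (hG α hα).2.1 hi).1 hiz
    simp only [val]
    rw [h5, Ordinal.rank_toZFSet]
    exact (tz_mem.1 hbz).le
  have hi₀ : ∃ i₀ < ν₀, ∀ ξ < l, StatL {α | α ∈ A1 ∧ ξ ≤ val i₀ α} l := by
    by_contra hcon
    push Not at hcon
    choose! ξ hξ hξ' using hcon
    obtain ⟨b, hb, hb'⟩ := hl.bdd hν₀ ξ hξ
    obtain ⟨i, hi, h5⟩ := (hA1.tail hl hb).union hl hν₀ (P := fun i α => b ≤ val i α)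
      fun α hα _ => hcof α hα.1 b hα.2
    exact hξ' i hi (h5.mono fun α _ h6 => ⟨h6.1.1, (hb' i hi).le.trans h6.2⟩)
  obtain ⟨i₀, hi₀, h5⟩ := hi₀
  -- the set `T`
  let P : ZFSet.{u} → ZFSet.{u} → Prop := fun α η =>
    α ∈ A ∧ Out φ m (asg α ν₀.toZFSet ζ.toZFSet i₀.toZFSet η η)
  obtain ⟨T, hT⟩ : ∃ T : ZFSet.{u}, T = ZFSet.sep (fun p => ∃ α η, p = pair α η ∧ P α η)
    (prod l.toZFSet l.toZFSet) := ⟨_, rfl⟩
  have hT' : ∀ α η, pair α η ∈ T ↔ α ∈ l.toZFSet ∧ η ∈ l.toZFSet ∧ P α η := by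
    intro α η
    rw [hT, mem_sep, pair_mem_prod]
    constructor
    · rintro ⟨⟨h6, h7⟩, α', η', h8, h9⟩
      rw [pair_inj] at h8
      obtain ⟨rfl, rfl⟩ := h8
      exact ⟨h6, h7, h9⟩
    · rintro ⟨h6, h7, h8⟩
      exact ⟨⟨h6, h7⟩, α, η, rfl, h8⟩
  have hTo : ∀ α η : Ordinal.{u}, pair α.toZFSet η.toZFSet ∈ T ↔
      α < l ∧ η < l ∧ α ∈ A1 ∧ pair i₀.toZFSet η.toZFSet ∈ X α := by
    intro α η
    rw [hT', tz_mem, tz_mem]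
    refine and_congr_right fun _ => and_congr_right fun _ => ?_
    constructor
    · rintro ⟨h6, h7⟩
      have hα : α ∈ A1 := ⟨h6, out_ex hm _ rfl rfl rfl h7⟩
      exact ⟨hα, (hout α hα _ _ _ rfl rfl rfl rfl rfl).1 h7⟩
    · rintro ⟨hα, h6⟩
      exact ⟨hα.1, (hout α hα _ _ _ rfl rfl rfl rfl rfl).2 h6⟩
  refine ⟨T, ?_, fun α η h => ?_, fun α η η' h h' => ?_, fun ξ hξ => ?_⟩
  · refine HOD_of (R := fun y x => (∀ p ∈ y, ∃ α ∈ x 2, ∃ η ∈ x 2, p = pair α η ∧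
      (α ∈ x 0 ∧ Out φ m (asg α (x 3) (x 4) (x 5) η η))) ∧ ∀ α ∈ x 2, ∀ η ∈ x 2,
        (α ∈ x 0 ∧ Out φ m (asg α (x 3) (x 4) (x 5) η η)) → pair α η ∈ y)
      (x := asg A A l.toZFSet ν₀.toZFSet ζ.toZFSet i₀.toZFSet) ?_ ?_ ?_
      (asg_ord (isOrdinal_toZFSet _) (isOrdinal_toZFSet _) (isOrdinal_toZFSet _)
        (isOrdinal_toZFSet _)) (fun y => ?_) fun z hz => ?_
    · refine Dfn.and ?_ ?_
      · refine Dfn.ball Lvl_sub_Trs _ (Dfn.bex Lvl_sub_Trs _ (Dfn.bex Lvl_sub_Trs _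
          ((dfn_pair Lvl_sub_Trs _ _ _).and ((Dfn.mem _ _).and ?_))))
        exact dfn_asg (dfn_Out φ m) 1 7 8 9 0 0
      · refine Dfn.ball Lvl_sub_Trs _ (Dfn.ball Lvl_sub_Trs _ (Dfn.imp ((Dfn.mem _ _).and ?_)
          (dfn_pm Lvl_sub_Trs _ _ _)))
        exact dfn_asg (dfn_Out φ m) 1 6 7 8 0 0
    · exact hA
    · exact hA
    · show ((∀ p ∈ y, ∃ α ∈ l.toZFSet, ∃ η ∈ l.toZFSet, p = pair α η ∧ P α η) ∧
        ∀ α ∈ l.toZFSet, ∀ η ∈ l.toZFSet, P α η → pair α η ∈ y) ↔ _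
      constructor
      · rintro ⟨h6, h7⟩
        ext p
        constructor
        · intro hp
          obtain ⟨α, hα, η, hη, rfl, h8⟩ := h6 p hp
          exact (hT' α η).2 ⟨hα, hη, h8⟩
        · intro hp
          rw [hT, mem_sep] at hp
          obtain ⟨h8, α, η, rfl, h9⟩ := hp
          rw [pair_mem_prod] at h8
          exact h7 α h8.1 η h8.2 h9
      · rintro rfl
        refine ⟨fun p hp => ?_, fun α hα η hη h => (hT' α η).2 ⟨hα, hη, h⟩⟩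
        have hp' := hp
        rw [hT, mem_sep] at hp'
        obtain ⟨_, α, η, rfl, h9⟩ := hp'
        obtain ⟨h10, h11, h12⟩ := (hT' α η).1 hp
        exact ⟨α, h10, η, h11, rfl, h12⟩
    · rw [hT, mem_sep] at hz
      obtain ⟨h8, α, η, rfl, _⟩ := hz
      rw [pair_mem_prod] at h8
      obtain ⟨α, _, rfl⟩ := Ordinal.mem_toZFSet_iff.1 h8.1
      obtain ⟨η, _, rfl⟩ := Ordinal.mem_toZFSet_iff.1 h8.2
      exact HOD_pair (HOD_ord α) (HOD_ord η)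
  · obtain ⟨h6, h7, h8⟩ := (hT' α η).1 h
    exact ⟨h6, h7, h8.1⟩
  · obtain ⟨h6, h7, _⟩ := (hT' α η).1 h
    obtain ⟨_, h8, _⟩ := (hT' α η').1 h'
    obtain ⟨α, _, rfl⟩ := Ordinal.mem_toZFSet_iff.1 h6
    obtain ⟨η, _, rfl⟩ := Ordinal.mem_toZFSet_iff.1 h7
    obtain ⟨η', _, rfl⟩ := Ordinal.mem_toZFSet_iff.1 h8
    obtain ⟨_, _, hα, h9⟩ := (hTo α η).1 h
    obtain ⟨_, _, _, h10⟩ := (hTo α η').1 h'
    have hi' : i₀.toZFSet ∈ ν₀.toZFSet := tz_mem.2 hi₀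
    rw [← (app_iff (hG α hα).2.1 hi').1 h9, (app_iff (hG α hα).2.1 hi').1 h10]
  · obtain ⟨η, hη, h6⟩ := fodor hl (h5 ξ hξ) (f := val i₀) fun α hα _ => (hval α hα.1 i₀ hi₀).1
    have hξη : ξ ≤ η := by
      obtain ⟨α, _, h7, _⟩ := h6 l.toZFSet (fun x hx => hx) ⟨fun x hx => hx, fun x hx => by
        obtain ⟨γ, hγ, rfl⟩ := Ordinal.mem_toZFSet_iff.1 hx
        exact ⟨_, tz_mem.2 (hl.succ_lt hγ), tz_mem.2 (Order.lt_succ γ)⟩, fun a ha _ _ => ha⟩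
      rw [← h7.2]
      exact h7.1.2
    refine ⟨η, hη, hξη, h6.mono fun α hα h7 => ?_⟩
    refine (hTo α η).2 ⟨hα, hη, h7.1.1, ?_⟩
    have h8 := app_spec (hG α h7.1.1).2.1 (tz_mem.2 hi₀)
    rwa [(hval α h7.1.1 i₀ hi₀).2, h7.2] at h8

/-- The function `g : k → P(l)` is a partition of `A ∩ l` into stationary subsets of `l`. -/
def PartOf (A k l g : ZFSet.{u}) : Prop :=
  IsFunc k (powerset l) g ∧
  (∀ i ∈ k, ∀ S, S ⊆ l → pair i S ∈ g → Stat S l) ∧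
  (∀ i ∈ k, ∀ i' ∈ k, ∀ S, S ⊆ l → ∀ S', S' ⊆ l → pair i S ∈ g → pair i' S' ∈ g →
    (∃ a ∈ S, a ∈ S') → i = i') ∧
  ∀ a ∈ l, (a ∈ A ↔ ∃ i ∈ k, ∃ S, S ⊆ l ∧ (pair i S ∈ g ∧ a ∈ S))

/-- `α` belongs to the `i`-th set of the partition. -/
def InQ (α i T w k l : ZFSet.{u}) : Prop :=
  pair α l ∈ T ∧ (((∃ x ∈ i, x = x) ∧ ∃ η ∈ l, pair i η ∈ w ∧ pair α η ∈ T) ∨
    ((¬ ∃ x ∈ i, x = x) ∧ ∀ j ∈ k, (∃ x ∈ j, x = x) → ¬ ∃ η ∈ l, pair j η ∈ w ∧ pair α η ∈ T))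

theorem dfn_InQ : Dfn Lvl.{u} (fun v => InQ (v 0) (v 1) (v 2) (v 3) (v 4) (v 5)) := by
  unfold InQ
  repeat' first
    | exact Dfn.mem _ _ | exact Dfn.eq _ _ | exact dfn_pm Lvl_sub_Trs _ _ _
    | refine Dfn.and ?_ ?_ | refine Dfn.or ?_ ?_ | refine Dfn.not ?_
    | refine Dfn.ball Lvl_sub_Trs _ ?_ | refine Dfn.bex Lvl_sub_Trs _ ?_ | refine Dfn.imp ?_ ?_

/-- **Solovay's splitting theorem in `HOD`**, for an ordinal definable set `A`: if stationary many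
`α ∈ A` are singular in `HOD`, then `HOD` contains partitions of `A ∩ l` into any number
`0 < k ≤ l` of stationary subsets of `l`. -/
theorem split_OD (hl : RegUnc l.toZFSet) {A : ZFSet.{u}} (hAO : OD A)
    (hS : StatL {α | α.toZFSet ∈ A ∧ CofinalP HOD α.toZFSet} l) {k : Ordinal.{u}} (hk0 : 0 < k)
    (hk : k ≤ l) : ∃ g, HOD g ∧ PartOf A k.toZFSet l.toZFSet g := by
  obtain ⟨T, hT, hT1, hT2, hT3⟩ := exists_TA hl hAO hS
  -- the set of the stationary values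
  obtain ⟨W, hW, hW'⟩ : ∃ W, HOD W ∧ ∀ η, η ∈ W ↔ η ∈ l.toZFSet ∧
      ∃ Z, Z ⊆ l.toZFSet ∧ (Stat Z l.toZFSet ∧ ∀ α ∈ Z, pair α η ∈ T) := by
    refine ⟨_, HOD_sep (A := fun v => ∃ Z, Z ⊆ v 5 ∧ (Stat Z (v 5) ∧ ∀ α ∈ Z, pair α (v 0) ∈ v 2))
      ?_ hT.od hT.od 0 0 l, fun η => ?_⟩
    · exact Dfn.exsub subset_rfl _ ((dfn_Stat _ _).and (Dfn.ball Lvl_sub_Trs _
        (dfn_pm Lvl_sub_Trs _ _ _)))
    · rw [mem_sep]
      exact Iff.rfl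
  have hWS : ∀ η, η ∈ W → StatL {α | pair α.toZFSet η ∈ T} l := by
    intro η hη
    obtain ⟨_, Z, _, hZ, h1⟩ := (hW' η).1 hη
    exact (stat_iff.1 hZ).mono fun α _ h2 => h1 _ h2
  have hunb : ∀ ξ < l, ∃ η < l, ξ ≤ η ∧ η.toZFSet ∈ W := by
    intro ξ hξ
    obtain ⟨η, hη, h1, h2⟩ := hT3 ξ hξ
    refine ⟨η, hη, h1, (hW' _).2 ⟨tz_mem.2 hη, ZFSet.sep (fun α => pair α η.toZFSet ∈ T) l.toZFSet,
      fun z hz => (mem_sep.1 hz).1, ?_, fun z hz => (mem_sep.1 hz).2⟩⟩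
    rw [stat_iff]
    refine h2.mono fun α hα h3 => ?_
    show α.toZFSet ∈ ZFSet.sep (fun α => pair α η.toZFSet ∈ T) l.toZFSet
    exact mem_sep.2 ⟨tz_mem.2 hα, h3⟩
  obtain ⟨w, hw⟩ := exists_Enum hl hunb hk
  have hwO : OD w := by
    refine OD_of (R := fun y x => Enum y (x 0) (x 2) (x 3))
      (x := asg W W k.toZFSet l.toZFSet ∅ ∅) (dfn_Enum _ _ _ _) hW.od hW.od
      (asg_ord (isOrdinal_toZFSet _) (isOrdinal_toZFSet _) empty_ord empty_ord) fun y => ?_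
    show Enum y W k.toZFSet l.toZFSet ↔ _
    exact ⟨fun h => h.unique hw, fun h => by rw [h]; exact hw⟩
  obtain ⟨hwf, hw1, hw2, hw3⟩ := hw
  have hinj : ∀ i ∈ k.toZFSet, ∀ j ∈ k.toZFSet, ∀ η ∈ l.toZFSet, pair i η ∈ w → pair j η ∈ w →
      i = j := by
    intro i hi j hj η hη h1 h2
    obtain ⟨i, hi', rfl⟩ := Ordinal.mem_toZFSet_iff.1 hi
    obtain ⟨j, hj', rfl⟩ := Ordinal.mem_toZFSet_iff.1 hj
    rcases lt_trichotomy i j with h3 | h3 | h3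
    · exact absurd (hw2 _ hj _ (tz_mem.2 h3) _ hη _ hη h2 h1) (mem_irrefl _)
    · rw [h3]
    · exact absurd (hw2 _ hi _ (tz_mem.2 h3) _ hη _ hη h1 h2) (mem_irrefl _)
  -- the set `T` together with a code of `A`
  obtain ⟨T', hT'⟩ : ∃ T' : ZFSet.{u}, ∀ p, p ∈ T' ↔ p ∈ T ∨ ∃ α ∈ l.toZFSet, α ∈ A ∧
      p = pair α l.toZFSet := by
    refine ⟨T ∪ gr (ZFSet.sep (fun a => a ∈ A) l.toZFSet) fun _ => l.toZFSet, fun p => ?_⟩
    rw [mem_union, mem_gr]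
    refine or_congr_right ⟨?_, ?_⟩
    · rintro ⟨α, hα, h⟩
      rw [mem_sep] at hα
      exact ⟨α, hα.1, hα.2, h.symm⟩
    · rintro ⟨α, h1, h2, h⟩
      exact ⟨α, mem_sep.2 ⟨h1, h2⟩, h.symm⟩
  have hT'O : OD T' := by
    refine OD_of (R := fun y x => (∀ p ∈ y, p ∈ x 0 ∨ ∃ α ∈ x 2, α ∈ x 1 ∧ p = pair α (x 2)) ∧
        ((∀ p ∈ x 0, p ∈ y) ∧ ∀ α ∈ x 2, α ∈ x 1 → pair α (x 2) ∈ y))
      (x := asg T A l.toZFSet ∅ ∅ ∅) ?_ hT.od hAO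
      (asg_ord (isOrdinal_toZFSet _) empty_ord empty_ord empty_ord) fun y => ?_
    · refine Dfn.and ?_ (Dfn.and ?_ ?_)
      · exact Dfn.ball Lvl_sub_Trs _ ((Dfn.mem _ _).or (Dfn.bex Lvl_sub_Trs _
          ((Dfn.mem _ _).and (dfn_pair Lvl_sub_Trs _ _ _))))
      · exact Dfn.ball Lvl_sub_Trs _ (Dfn.mem _ _)
      · exact Dfn.ball Lvl_sub_Trs _ ((Dfn.mem _ _).imp (dfn_pm Lvl_sub_Trs _ _ _))
    · show ((∀ p ∈ y, p ∈ T ∨ ∃ α ∈ l.toZFSet, α ∈ A ∧ p = pair α l.toZFSet) ∧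
        ((∀ p ∈ T, p ∈ y) ∧ ∀ α ∈ l.toZFSet, α ∈ A → pair α l.toZFSet ∈ y)) ↔ _
      constructor
      · rintro ⟨h1, h2, h3⟩
        ext p
        rw [hT']
        constructor
        · exact h1 p
        · rintro (h | ⟨α, h4, h5, rfl⟩)
          · exact h2 p h
          · exact h3 α h4 h5
      · rintro rfl
        exact ⟨fun p hp => (hT' p).1 hp, fun p hp => (hT' p).2 (Or.inl hp),
          fun α h1 h2 => (hT' _).2 (Or.inr ⟨α, h1, h2, rfl⟩)⟩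
  have hTl : ∀ α, ∀ η ∈ l.toZFSet, (pair α η ∈ T' ↔ pair α η ∈ T) := by
    intro α η hη
    rw [hT']
    constructor
    · rintro (h | ⟨α', _, _, h⟩)
      · exact h
      · rw [pair_inj] at h
        rw [h.2] at hη
        exact absurd hη (mem_irrefl _)
    · exact Or.inl
  have hTA : ∀ α, pair α l.toZFSet ∈ T' ↔ α ∈ l.toZFSet ∧ α ∈ A := by
    intro α
    rw [hT']
    constructor
    · rintro (h | ⟨α', h1, h2, h⟩)
      · exact absurd (hT1 _ _ h).2.1 (mem_irrefl _)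
      · rw [pair_inj] at h
        rw [h.1]
        exact ⟨h1, h2⟩
    · rintro ⟨h1, h2⟩
      exact Or.inr ⟨α, h1, h2, rfl⟩
  refine ⟨_, HOD_fam dfn_InQ hT'O hwO k l, isFunc_gr fun i hi => ?_, ?_, ?_, ?_⟩
  · rw [mem_powerset]
    exact fun z hz => (mem_sep.1 hz).1
  · intro i hi S hS hiS
    rw [pair_mem_gr] at hiS
    rw [← hiS.2, stat_iff]
    obtain ⟨η, hη⟩ : ∃ η, η = app w i := ⟨_, rfl⟩
    have h1 : pair i η ∈ w := by rw [hη]; exact app_spec hwf hi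
    have hηl : η ∈ l.toZFSet := by rw [hη]; exact app_mem hwf hi
    refine (hWS η (hw1 i hi η hηl h1)).mono fun α hα h2 => ?_
    show α.toZFSet ∈ ZFSet.sep (fun α => InQ α i T' w k.toZFSet l.toZFSet) l.toZFSet
    refine mem_sep.2 ⟨tz_mem.2 hα, ?_⟩
    refine ⟨(hTA _).2 ⟨tz_mem.2 hα, (hT1 _ _ h2).2.2⟩, ?_⟩
    by_cases h0 : ∃ x ∈ i, x = x
    · exact Or.inl ⟨h0, η, hηl, h1, (hTl _ _ hηl).2 h2⟩
    · refine Or.inr ⟨h0, ?_⟩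
      rintro j hj hj0 ⟨η', hη', h3, h4⟩
      have h5 : η = η' := hT2 _ _ _ h2 ((hTl _ _ hη').1 h4)
      rw [← h5] at h3
      have h6 := hinj i hi j hj η hηl h1 h3
      rw [← h6] at hj0
      exact h0 hj0
  · rintro i hi j hj S hS S' hS' hiS hjS ⟨a, ha, ha'⟩
    rw [pair_mem_gr] at hiS hjS
    rw [← hiS.2, mem_sep] at ha
    rw [← hjS.2, mem_sep] at ha'
    obtain ⟨_, _, h1⟩ := ha
    obtain ⟨_, _, h2⟩ := ha'
    rcases h1 with ⟨h3, η, hη, h4, h5⟩ | ⟨h3, h4⟩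
    · rcases h2 with ⟨h6, η', hη', h7, h8⟩ | ⟨h6, h7⟩
      · have h9 : η = η' := hT2 _ _ _ ((hTl _ _ hη).1 h5) ((hTl _ _ hη').1 h8)
        rw [← h9] at h7
        exact hinj i hi j hj η hη h4 h7
      · exact absurd ⟨η, hη, h4, h5⟩ (h7 i hi h3)
    · rcases h2 with ⟨h6, η', hη', h7, h8⟩ | ⟨h6, h7⟩
      · exact absurd ⟨η', hη', h7, h8⟩ (h4 j hj h6)
      · ext z
        constructor
        · intro hz; exact absurd ⟨z, hz, rfl⟩ h3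
        · intro hz; exact absurd ⟨z, hz, rfl⟩ h6
  · intro a ha
    constructor
    · intro hc
      have hc' := (hTA a).2 ⟨ha, hc⟩
      by_cases h1 : ∃ j ∈ k.toZFSet, (∃ x ∈ j, x = x) ∧ ∃ η ∈ l.toZFSet, pair j η ∈ w ∧
          pair a η ∈ T'
      · obtain ⟨j, hj, h2, h3⟩ := h1
        exact ⟨j, hj, _, fun z hz => (mem_sep.1 hz).1, pair_mem_gr.2 ⟨hj, rfl⟩,
          mem_sep.2 ⟨ha, hc', Or.inl ⟨h2, h3⟩⟩⟩
      · push Not at h1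
        have h0 : (0 : Ordinal.{u}).toZFSet ∈ k.toZFSet := tz_mem.2 hk0
        refine ⟨_, h0, _, fun z hz => (mem_sep.1 hz).1, pair_mem_gr.2 ⟨h0, rfl⟩,
          mem_sep.2 ⟨ha, hc', Or.inr ⟨?_, ?_⟩⟩⟩
        · rintro ⟨x, hx, _⟩
          obtain ⟨β, hβ, _⟩ := Ordinal.mem_toZFSet_iff.1 hx
          exact absurd hβ (not_lt.2 bot_le)
        · rintro j hj hj0 ⟨η, hη, h2, h3⟩
          exact h1 j hj hj0 η hη h2 h3
    · rintro ⟨i, hi, S, hS, hiS, haS⟩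
      rw [pair_mem_gr] at hiS
      rw [← hiS.2, mem_sep] at haS
      exact ((hTA a).1 haS.2.1).2

/-- The set of the `α < l` with a cofinal function from `μ` is ordinal definable. -/
theorem OD_cof (μ l : Ordinal.{u}) :
    OD (ZFSet.sep (fun α => CofN μ.toZFSet α) l.toZFSet) := by
  have h0 : OD (∅ : ZFSet.{u}) := by
    have := OD_ord (0 : Ordinal.{u})
    rwa [Ordinal.toZFSet_zero] at this
  exact (HOD_sep (A := fun v => CofN (v 1) (v 0)) (dfn_CofN _ _) h0 h0 μ 0 l).od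

/-- Families of disjoint stationary sets. -/
theorem fam_of_sing (hl : RegUnc l.toZFSet) {μ : Ordinal.{u}}
    (hS : StatL {α | CofN μ.toZFSet α.toZFSet ∧ CofinalP HOD α.toZFSet} l) {k : Ordinal.{u}}
    (hk0 : 0 < k) (hk : k ≤ l) :
    ∃ S, HOD S ∧ Fam μ.toZFSet k.toZFSet l.toZFSet S := by
  obtain ⟨g, hg, h1, h2, h3, h4⟩ := split_OD hl (OD_cof μ l) (hS.mono fun α hα h =>
    ⟨mem_sep.2 ⟨tz_mem.2 hα, h.1⟩, h.2⟩) hk0 hk
  refine ⟨g, hg, h1, fun i hi A hA hiA => ⟨h2 i hi A hA hiA, fun a ha => ?_⟩, ?_⟩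
  · exact (mem_sep.1 ((h4 a (hA ha)).2 ⟨i, hi, A, hA, hiA, ha⟩)).2
  · intro i hi i' hi' A hA A' hA' h5 h6 h7
    exact h3 i hi i' hi' A hA A' hA' h5 h6 h7

end Pool.Agent.H310.HD
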