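import Pool.Agent.H310.HD.Sat

/-!
`HOD`, its approximations `HODin W`, and elementary embeddings `V_{η+1} → V_{θ+1}`.
-/

set_option autoImplicit false
set_option linter.unusedVariables false

namespace Pool.Agent.H310.HD

open ZFSet Gss969

universe u

/-- `x` is ordinal definable: definable from ordinals over some `V_α`. -/
def OD (x : ZFSet.{u}) : Prop := ∃ α : Ordinal.{u}, ODat (V_ α) x

/-- `x` is hereditarily ordinal definable: it belongs to a transitive set of ordinal definable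
sets. -/
def HOD (x : ZFSet.{u}) : Prop := ∃ t : ZFSet.{u}, t.IsTransitive ∧ x ∈ t ∧ ∀ y ∈ t, OD y

/-- `x` is hereditarily ordinal definable, as seen by `W`. -/
def HODin (W x : ZFSet.{u}) : Prop :=
  ∃ t ∈ W, t.IsTransitive ∧ x ∈ t ∧ ∀ y ∈ t, ∃ U ∈ W, Lev U ∧ ODat U y

theorem dfn_HODin (a b : ℕ) : Dfn Lvl.{u} (fun v => HODin (v a) (v b)) := by
  unfold HODin
  repeat' first
    | exact Dfn.mem _ _ | exact dfn_lev _ | exact dfn_ODat _ _ | exact dfn_trans Lvl_sub_Trs _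
    | refine Dfn.and ?_ ?_ | refine Dfn.ball Lvl_sub_Trs _ ?_ | refine Dfn.bex Lvl_sub_Trs _ ?_

theorem HODin.hod {W x : ZFSet.{u}} (h : HODin W x) : HOD x := by
  obtain ⟨t, _, ht, hx, h1⟩ := h
  refine ⟨t, ht, hx, fun y hy => ?_⟩
  obtain ⟨U, _, ⟨γ, rfl⟩, h2⟩ := h1 y hy
  exact ⟨γ, h2⟩

theorem HODin.mono {W W' x : ZFSet.{u}} (hW : W ⊆ W') (h : HODin W x) : HODin W' x := by
  obtain ⟨t, h0, ht, hx, h1⟩ := h
  refine ⟨t, hW h0, ht, hx, fun y hy => ?_⟩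
  obtain ⟨U, h2, h3⟩ := h1 y hy
  exact ⟨U, hW h2, h3⟩

theorem HOD.eventually {x : ZFSet.{u}} (h : HOD x) :
    ∃ β : Ordinal.{u}, ∀ ζ ≥ β, HODin (V_ ζ) x := by
  obtain ⟨t, ht, hx, h1⟩ := h
  choose! α hα using h1
  refine ⟨max (Order.succ (rank t)) (⨆ w : {w // w ∈ t}, Order.succ (α w.1)), fun ζ hζ => ?_⟩
  refine ⟨t, ?_, ht, hx, fun y hy => ⟨V_ (α y), ?_, ⟨_, rfl⟩, hα y hy⟩⟩
  · rw [mem_vonNeumann]
    exact (Order.lt_succ _).trans_le ((le_max_left _ _).trans hζ)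
  · rw [vonNeumann_mem_vonNeumann_iff]
    refine lt_of_lt_of_le (Order.lt_succ (α y)) (le_trans ?_ ((le_max_right _ _).trans hζ))
    exact Ordinal.le_iSup (fun w : {w // w ∈ t} => Order.succ (α w.1)) ⟨y, hy⟩

theorem stab (X : ZFSet.{u}) : ∃ β : Ordinal.{u}, ∀ ζ ≥ β, ∀ x ∈ X, HOD x → HODin (V_ ζ) x := by
  classical
  have h : ∀ x : ZFSet.{u}, ∃ β : Ordinal.{u}, HOD x → ∀ ζ ≥ β, HODin (V_ ζ) x := by
    intro x
    by_cases hx : HOD x
    · obtain ⟨β, hβ⟩ := hx.eventually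
      exact ⟨β, fun _ => hβ⟩
    · exact ⟨0, fun h => absurd h hx⟩
  choose β hβ using h
  refine ⟨⨆ w : {w // w ∈ X}, β w.1, fun ζ hζ x hx hx' => hβ x hx' ζ (le_trans ?_ hζ)⟩
  exact Ordinal.le_iSup (fun w : {w // w ∈ X} => β w.1) ⟨x, hx⟩

/-- Satisfaction in a member of the structure is definable, formula by formula. -/
theorem dfn_Sat (φ : Fml) : ∀ (k : ℕ) (g : ℕ → ℕ),
    Dfn Trs.{u} (fun v => Sat (v k) (fun n => v (g n)) φ) := by
  induction φ with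
  | mem i l => intro k g; exact Dfn.mem (g i) (g l)
  | eq i l => intro k g; exact Dfn.eq (g i) (g l)
  | neg φ ih => intro k g; exact (ih k g).not
  | and φ ψ ih ih' => intro k g; exact (ih k g).and (ih' k g)
  | ex i φ ih =>
    intro k g
    refine Dfn.bex subset_rfl k (A := fun a v => Sat (v k) (Function.update (fun n => v (g n)) i a) φ)
      ?_
    refine (ih (k + 1) (fun n => if n = i then 0 else g n + 1)).congr fun v => ?_
    have : (fun n => v (if n = i then 0 else g n + 1)) =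
        Function.update (fun n => v (g n + 1)) i (v 0) := by
      funext n
      by_cases hn : n = i
      · subst hn; simp
      · simp [hn]
    rw [this]

theorem IsEl.restrTop {η θ : Ordinal.{u}} {j : ZFSet.{u} → ZFSet.{u}}
    (h : IsEl (V_ (η + 1)) (V_ (θ + 1)) j) : j (V_ η) = V_ θ ∧ IsEl (V_ η) (V_ θ) j := by
  have hM : V_ (η + 1) ∈ Trs.{u} := isTransitive_vonNeumann _
  have hN : V_ (θ + 1) ∈ Trs.{u} := isTransitive_vonNeumann _
  have hη : V_ η ∈ V_ (η + 1) := by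
    rw [vonNeumann_mem_vonNeumann_iff, ← Order.succ_eq_add_one]; exact Order.lt_succ η
  have hθ : V_ θ ∈ V_ (θ + 1) := by
    rw [vonNeumann_mem_vonNeumann_iff, ← Order.succ_eq_add_one]; exact Order.lt_succ θ
  have hsub : ∀ γ : Ordinal.{u}, ∀ x ∈ V_ (γ + 1), x ⊆ V_ γ := by
    intro γ x hx
    rw [mem_vonNeumann, ← Order.succ_eq_add_one, Order.lt_succ_iff] at hx
    rwa [subset_vonNeumann]
  have e : j (V_ η) = V_ θ := by
    have h1 := (h.all_transfer (𝒰 := Trs) (A := fun a v => ∀ z ∈ a, z ∈ v 0)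
      (by repeat' first | exact Dfn.mem _ _ | refine Dfn.ball subset_rfl _ ?_) hM hN
      (asg (V_ η) (V_ η) (V_ η) (V_ η) (V_ η) (V_ η)) (asg_mem hη hη hη hη hη hη)).1
      (fun a ha => hsub η a ha)
    have h2 : ∀ a ∈ V_ (θ + 1), ∀ z ∈ a, z ∈ j (V_ η) := h1
    exact _root_.subset_antisymm (hsub θ _ (h.1 _ hη)) (h2 _ hθ)
  refine ⟨e, fun x hx => ?_, fun φ v hv => ?_⟩
  · rw [← e]
    exact (h.t2 hM hN (A := fun a b => a ∈ b) (Dfn.mem 0 1) (hM.mem_trans hx hη) hη).1 hx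
  · let w : ℕ → ZFSet.{u} := fun n => Nat.casesOn n (V_ η) v
    have h1 := h.transfer (dfn_Sat φ 0 (fun n => n + 1)) hM hN w (by
      intro i
      cases i with
      | zero => exact hη
      | succ n => exact hM.mem_trans (hv n) hη)
    rw [← e]
    exact h1

theorem lvl_of_unb {γ : Ordinal.{u}} (hγ : Ordinal.omega0 < γ)
    (h : ∀ x ∈ V_ γ, ∃ y ∈ V_ γ, x ∈ y) : V_ γ ∈ Lvl := by
  refine ⟨γ, ?_, hγ, rfl⟩
  rw [Order.isSuccLimit_iff, Order.isSuccPrelimit_iff_succ_lt]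
  refine ⟨?_, ?_⟩
  · intro hm
    rw [isMin_iff_eq_bot] at hm
    rw [hm] at hγ
    exact absurd hγ (by simp)
  · intro δ hδ
    obtain ⟨y, hy, hxy⟩ := h (V_ δ) (vonNeumann_mem_vonNeumann_iff.2 hδ)
    have h1 := rank_lt_of_mem hxy
    rw [rank_vonNeumann] at h1
    exact (Order.succ_le_of_lt h1).trans_lt (mem_vonNeumann.1 hy)

theorem lvl_unb {U : ZFSet.{u}} (hU : U ∈ Lvl) : ∀ x ∈ U, ∃ y ∈ U, x ∈ y := by
  intro x hx
  refine ⟨powerset x, Lvl_powerset hU hx, ?_⟩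
  rw [mem_powerset]

theorem mem_lvl_iff {U : ZFSet.{u}} :
    U ∈ Lvl.{u} ↔ Lev U ∧ om ∈ U ∧ ∀ x ∈ U, ∃ y ∈ U, x ∈ y := by
  constructor
  · intro hU
    refine ⟨?_, om_mem_Lvl hU, lvl_unb hU⟩
    obtain ⟨δ, _, _, rfl⟩ := hU
    exact ⟨δ, rfl⟩
  · rintro ⟨⟨γ, rfl⟩, h1, h2⟩
    refine lvl_of_unb ?_ h2
    rw [mem_vonNeumann] at h1
    unfold om at h1
    rwa [Ordinal.rank_toZFSet] at h1

theorem dfn_Lvl (a : ℕ) : Dfn Lvl.{u} (fun v => v a ∈ Lvl.{u}) := by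
  refine Dfn.congr (A := fun v => Lev (v a) ∧ om ∈ v a ∧ ∀ x ∈ v a, ∃ y ∈ v a, x ∈ y) ?_
    fun v => mem_lvl_iff.symm
  refine (dfn_lev a).and (Dfn.and ?_ ?_)
  · exact Dfn_om (A := fun w v => w ∈ v a) (Dfn.mem 0 (a + 1))
  · repeat' first
      | exact Dfn.mem _ _ | refine Dfn.ball Lvl_sub_Trs _ ?_ | refine Dfn.bex Lvl_sub_Trs _ ?_

/-- `δ` is an extendible cardinal: for each `η > δ` there are `θ > η` and an elementary embedding
`j : V_{η+1} → V_{θ+1}` with critical point `δ` and `j(δ) > η`. -/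
def Extendible (δ : Ordinal.{u}) : Prop :=
  ∀ η > δ, ∃ θ > η, ∃ j : ZFSet.{u} → ZFSet.{u}, IsEl (V_ (η + 1)) (V_ (θ + 1)) j ∧
    (∀ α < δ, j α.toZFSet = α.toZFSet) ∧ η.toZFSet ∈ j δ.toZFSet

/-- The data extracted from extendibility. -/
structure ExtData (δ η θ τ : Ordinal.{u}) (j : ZFSet.{u} → ZFSet.{u}) : Prop where
  E : Emb (V_ η) (V_ θ) j
  nl : V_ θ ∈ Lvl.{u}
  fix : ∀ α < δ, j α.toZFSet = α.toZFSet
  lt : δ < η
  jd : j δ.toZFSet = τ.toZFSet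
  ητ : η < τ
  τθ : τ < θ

theorem exists_limit_gt (ξ : Ordinal.{u}) :
    ∃ η : Ordinal.{u}, ξ < η ∧ Ordinal.omega0 < η ∧ Order.IsSuccLimit η := by
  refine ⟨max ξ Ordinal.omega0 + Ordinal.omega0, ?_, ?_, ?_⟩
  · exact (le_max_left _ _).trans_lt (lt_add_of_pos_right _ Ordinal.omega0_pos)
  · exact (le_max_right _ _).trans_lt (lt_add_of_pos_right _ Ordinal.omega0_pos)
  · exact Ordinal.isSuccLimit_add _ Ordinal.isSuccLimit_omega0

theorem Extendible.data {δ : Ordinal.{u}} (h : Extendible δ) (ξ : Ordinal.{u}) :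
    ∃ (η θ τ : Ordinal.{u}) (j : ZFSet.{u} → ZFSet.{u}), ξ < η ∧ ExtData δ η θ τ j := by
  obtain ⟨η, h1, h2, h3⟩ := exists_limit_gt (max ξ δ)
  have hδη : δ < η := (le_max_right _ _).trans_lt h1
  obtain ⟨θ, hθ, j, hj, hfix, hjd⟩ := h η hδη
  obtain ⟨e, hel⟩ := IsEl.restrTop hj
  have hη : V_ η ∈ Lvl.{u} := ⟨η, h3, h2, rfl⟩
  have hE : Emb (V_ η) (V_ θ) j := ⟨hel, hη, isTransitive_vonNeumann _⟩
  have hnl : V_ θ ∈ Lvl.{u} := by
    refine lvl_of_unb (h2.trans hθ) ?_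
    have := (hel.all_transfer (𝒰 := Trs) (A := fun a v => a = a) (Dfn.eq 0 0)
      hE.bt hE.nt (fun _ => ∅) (fun _ => by
        rw [mem_vonNeumann, rank_empty]; exact lt_trans (by simp) h2))
    have hη' : V_ η ∈ V_ (η + 1) := by
      rw [vonNeumann_mem_vonNeumann_iff, ← Order.succ_eq_add_one]; exact Order.lt_succ η
    have h4 := (hj.t1 (𝒰 := Trs) (isTransitive_vonNeumann _) (isTransitive_vonNeumann _)
      (A := fun a => ∀ x ∈ a, ∃ y ∈ a, x ∈ y)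
      (by repeat' first
            | exact Dfn.mem _ _ | refine Dfn.ball subset_rfl _ ?_
            | refine Dfn.bex subset_rfl _ ?_) hη').1 (lvl_unb hη)
    rwa [e] at h4
  have hδB : δ.toZFSet ∈ V_ η := by
    rw [mem_vonNeumann, Ordinal.rank_toZFSet]; exact hδη
  have hord := hE.ord hδB (isOrdinal_toZFSet δ)
  refine ⟨η, θ, rank (j δ.toZFSet), j, (le_max_left _ _).trans_lt h1, hE, hnl, hfix, hδη,
    hord.toZFSet_rank_eq.symm, ?_, ?_⟩
  · have := rank_lt_of_mem hjd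
    rwa [Ordinal.rank_toZFSet] at this
  · exact mem_vonNeumann.1 (hel.1 _ hδB)

namespace ExtData

variable {δ η θ τ : Ordinal.{u}} {j : ZFSet.{u} → ZFSet.{u}}

theorem dB (D : ExtData δ η θ τ j) : δ.toZFSet ∈ V_ η := by
  rw [mem_vonNeumann, Ordinal.rank_toZFSet]; exact D.lt

theorem VdB (D : ExtData δ η θ τ j) : V_ δ ∈ V_ η := vonNeumann_mem_vonNeumann_iff.2 D.lt

theorem jVd (D : ExtData δ η θ τ j) : j (V_ δ) = V_ τ := by
  have h := (D.E.jV D.VdB).2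
  rw [D.jd, Ordinal.rank_toZFSet] at h
  ext x
  rw [h x]
  exact ⟨fun h => h.1, fun h => ⟨h, vonNeumann_subset_of_le D.τθ.le h⟩⟩

theorem fixV (D : ExtData δ η θ τ j) {x : ZFSet.{u}} (hx : x ∈ V_ δ) : j x = x :=
  D.E.fix D.VdB D.fix δ le_rfl x hx

theorem sub (D : ExtData δ η θ τ j) {x : ZFSet.{u}} (hx : x ∈ V_ η) : x ∈ V_ τ :=
  vonNeumann_subset_of_le D.ητ.le hx

end ExtData

end Pool.Agent.H310.HD
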