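import Pool.Agent.H310.HD.Equiv

/-!
Preparations for the proof that HOD-regular ordinals above an extendible cardinal have large
cofinality.
-/

set_option autoImplicit false
set_option linter.unusedVariables false

namespace Pool.Agent.H310.HD

open ZFSet Gss969

universe u

namespace ExtData

variable {δ η θ τ : Ordinal.{u}} {j : ZFSet.{u} → ZFSet.{u}} {l μ k : Ordinal.{u}} {S : ZFSet.{u}}

theorem exists_lam' (D : ExtData δ η θ τ j) (hl : ∀ x < l, Order.succ x < l) (hlη : l < η) :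
    ∃ L : Ordinal.{u}, (∀ x < l, rank (j x.toZFSet) < L) ∧
      (∀ y < L, ∃ x < l, y < rank (j x.toZFSet)) ∧ L ≤ rank (j l.toZFSet) := by
  obtain ⟨L, hL⟩ : ∃ L : Ordinal.{u}, L = ⨆ w : {w // w ∈ l.toZFSet}, rank (j w.1) := ⟨_, rfl⟩
  refine ⟨L, fun x hx => ?_, fun y hy => ?_, ?_⟩
  · have h1 := hl x hx
    refine ((D.J_lt (hx.trans hlη) (h1.trans hlη)).1 (Order.lt_succ x)).trans_le ?_
    rw [hL]
    exact Ordinal.le_iSup (fun w : {w // w ∈ l.toZFSet} => rank (j w.1))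
      ⟨(Order.succ x).toZFSet, tz_mem.2 h1⟩
  · rw [hL, Ordinal.lt_iSup_iff] at hy
    obtain ⟨⟨w, hw⟩, h1⟩ := hy
    obtain ⟨x, hx, rfl⟩ := Ordinal.mem_toZFSet_iff.1 hw
    exact ⟨x, hx, h1⟩
  · rw [hL]
    refine Ordinal.iSup_le ?_
    rintro ⟨w, hw⟩
    obtain ⟨x, hx, rfl⟩ := Ordinal.mem_toZFSet_iff.1 hw
    exact ((D.J_lt (hx.trans hlη) hlη).1 hx).le

/-- The restriction of `j` to an ordinal is ordinal definable. -/
theorem restr_OD (D : ExtData δ η θ τ j) (hδL : V_ δ ∈ Lvl.{u}) {α : Ordinal.{u}} (hαk : α ≤ k)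
    (hkη : k < η) (hlη : l < η) (hμ : μ < δ) (hl : RegUnc l.toZFSet)
    (hS : Fam μ.toZFSet k.toZFSet l.toZFSet S) (hjS : OD (j S)) :
    OD (gr α.toZFSet (fun x => j x)) := by
  have hαη := hαk.trans_lt hkη
  have hSη : S ∈ V_ η := Lvl_func D.E.lvl (ordB hkη) (Lvl_powerset D.E.lvl (ordB hlη)) hS.1
  obtain ⟨L, hL1, hL2, hL3⟩ := D.exists_lam hl hlη
  obtain ⟨A, hA⟩ : ∃ A : ZFSet.{u}, A = ZFSet.sep (fun ξ => Rec ξ (j S) L.toZFSet (j l.toZFSet))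
    (j α.toZFSet) := ⟨_, rfl⟩
  have hAk : ∀ ξ, ξ ∈ A ↔ ξ ∈ j α.toZFSet ∧ Rec ξ (j S) L.toZFSet (j l.toZFSet) := by
    intro ξ; rw [hA, mem_sep]
  have hαkz : α.toZFSet ⊆ k.toZFSet := by
    intro x hx
    obtain ⟨x, hx', rfl⟩ := Ordinal.mem_toZFSet_iff.1 hx
    exact tz_mem.2 (hx'.trans_le hαk)
  have hαV : α.toZFSet ∈ V_ η := ordB hαη
  have hA' : ∀ ξ, ξ ∈ A ↔ ∃ i ∈ α.toZFSet, ξ = j i := by
    intro ξ
    rw [hAk]
    constructor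
    · rintro ⟨h2, Z, hZL, hZ, B, hB, hξB, hZB⟩
      have h3 : ξ ∈ j k.toZFSet := (D.E.sub_iff hαV (ordB hkη)).1 hαkz h2
      obtain ⟨i, hi, rfl⟩ := D.stat_down hδL hl hlη hkη hμ hL1 hL2 hS h3 hZ hB hξB hZB
      exact ⟨i, (D.E.mem_iff (D.E.bt.mem_trans hi (ordB hkη)) hαV).2 h2, rfl⟩
    · rintro ⟨i, hi, rfl⟩
      have hiη : i ∈ V_ η := D.E.bt.mem_trans hi hαV
      have hik := hαkz hi
      have hB := mem_powerset.1 (app_mem hS.1 hik)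
      have hBη : app S i ∈ V_ η := Lvl_sub D.E.lvl (ordB hlη) hB
      have hiB := app_spec hS.1 hik
      refine ⟨(D.E.mem_iff hiη hαV).1 hi, ZFSet.sep (fun z => z ∈ j (app S i)) L.toZFSet,
        fun z hz => (mem_sep.1 hz).1, ?_, j (app S i),
        (D.E.sub_iff hBη (ordB hlη)).1 hB, ?_, fun z hz => (mem_sep.1 hz).2⟩
      · intro C hC1 hC2
        obtain ⟨x, hx, h2, h3⟩ := D.stat_up hδL hl hlη hμ hL1 hL2 hB (hS.2.1 i hik _ hB hiB).1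
          (hS.2.1 i hik _ hB hiB).2 hC2
        exact ⟨_, mem_sep.2 ⟨hC1 h3, (D.E.mem_iff (ordB (hx.trans hlη)) hBη).1 h2⟩, h3⟩
      · rw [← D.E.pair_eq hiη hBη]
        exact (D.E.mem_iff (Lvl_pair D.E.lvl hiη hBη) hSη).1 hiB
  have hjαe : j α.toZFSet = (rank (j α.toZFSet)).toZFSet := D.jJ hαη
  obtain ⟨g, hg⟩ : ∃ g : ZFSet.{u}, g = gr α.toZFSet (fun x => j x) := ⟨_, rfl⟩
  have hgf : IsFunc α.toZFSet (rank (j α.toZFSet)).toZFSet g := by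
    rw [hg, ← hjαe]
    exact isFunc_gr fun x hx => (D.E.mem_iff (D.E.bt.mem_trans hx hαV) hαV).1 hx
  have hEn : Enum g A α.toZFSet (rank (j α.toZFSet)).toZFSet := by
    refine ⟨hgf, ?_, ?_, ?_⟩
    · intro i hi a _ hia
      rw [hg, pair_mem_gr] at hia
      rw [← hia.2]
      exact (hA' _).2 ⟨i, hi, rfl⟩
    · intro i hi i' hi' a _ b _ hia hib
      rw [hg, pair_mem_gr] at hia hib
      rw [← hia.2, ← hib.2]
      exact (D.E.mem_iff (D.E.bt.mem_trans hib.1 hαV) (D.E.bt.mem_trans hi hαV)).1 hi'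
    · intro i hi a _ hia b hb hbA
      rw [hg, pair_mem_gr] at hia
      rw [← hia.2] at hb
      obtain ⟨i', hi', rfl⟩ := (hA' b).1 hbA
      refine ⟨i', (D.E.mem_iff (D.E.bt.mem_trans hi' hαV) (D.E.bt.mem_trans hi hαV)).2 hb, ?_⟩
      rw [hg, pair_mem_gr]
      exact ⟨hi', rfl⟩
  have hjle : j l.toZFSet = (rank (j l.toZFSet)).toZFSet := D.jJ hlη
  have hAk' : ∀ ξ, ξ ∈ A ↔ ξ ∈ (rank (j α.toZFSet)).toZFSet ∧
      Rec ξ (j S) L.toZFSet (rank (j l.toZFSet)).toZFSet := by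
    intro ξ
    rw [← hjαe, ← hjle]
    exact hAk ξ
  rw [← hg]
  refine OD_of (R := fun y x => ∃ A, A ⊆ x 2 ∧ (((∀ ξ ∈ A, Rec ξ (x 0) (x 3) (x 4)) ∧
      ∀ ξ ∈ x 2, Rec ξ (x 0) (x 3) (x 4) → ξ ∈ A) ∧ Enum y A (x 5) (x 2)))
    (x := asg (j S) (j S) (rank (j α.toZFSet)).toZFSet L.toZFSet
      (rank (j l.toZFSet)).toZFSet α.toZFSet) ?_ hjS hjS
    (asg_ord (isOrdinal_toZFSet _) (isOrdinal_toZFSet _) (isOrdinal_toZFSet _)
      (isOrdinal_toZFSet _)) fun y => ?_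
  · refine Dfn.exsub subset_rfl _ (Dfn.and (Dfn.and ?_ ?_) (dfn_Enum _ _ _ _))
    · exact Dfn.ball Lvl_sub_Trs _ (dfn_Rec _ _ _ _)
    · exact Dfn.ball Lvl_sub_Trs _ ((dfn_Rec _ _ _ _).imp (Dfn.mem _ _))
  · show (∃ A, A ⊆ (rank (j α.toZFSet)).toZFSet ∧
      (((∀ ξ ∈ A, Rec ξ (j S) L.toZFSet (rank (j l.toZFSet)).toZFSet) ∧
        ∀ ξ ∈ (rank (j α.toZFSet)).toZFSet, Rec ξ (j S) L.toZFSet
          (rank (j l.toZFSet)).toZFSet → ξ ∈ A) ∧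
        Enum y A α.toZFSet (rank (j α.toZFSet)).toZFSet)) ↔ _
    constructor
    · rintro ⟨A', h2, ⟨h3, h4⟩, h6⟩
      have : A' = A := by
        ext ξ
        rw [hAk']
        exact ⟨fun h => ⟨h2 h, h3 ξ h⟩, fun h => h4 ξ h.1 h.2⟩
      rw [this] at h6
      exact h6.unique hEn
    · rintro rfl
      exact ⟨A, fun ξ h => ((hAk' ξ).1 h).1, ⟨fun ξ h => ((hAk' ξ).1 h).2,
        fun ξ h2 h3 => (hAk' ξ).2 ⟨h2, h3⟩⟩, hEn⟩

end ExtData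

/-- Supremum of an increasing sequence below an ordinal of uncountable cofinality. -/
theorem exists_sup' {κ : Ordinal.{u}} (hκ : ¬ CofN Ordinal.omega0.toZFSet κ.toZFSet)
    {G : ℕ → Ordinal.{u}} (hG : ∀ n, G n < κ) (hs : ∀ n, G n < G (n + 1)) :
    ∃ α < κ, (∀ n, G n < α) ∧ ∀ ξ < α, ∃ n, ξ < G n := by
  have hb : ∃ b < κ, ∀ n, G n ≤ b := by
    by_contra hcon
    push Not at hcon
    refine hκ ⟨fn fun n => (G n).toZFSet, fn_func fun n => tz_mem.2 (hG n), fun x hx => ?_⟩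
    obtain ⟨ξ, hξ, rfl⟩ := Ordinal.mem_toZFSet_iff.1 hx
    obtain ⟨n, hn⟩ := hcon ξ hξ
    exact ⟨nt n, nt_mem n, _, tz_mem.2 (hG n), pair_fn.2 rfl, tz_mem.2 hn⟩
  obtain ⟨b, hb, hGb⟩ := hb
  obtain ⟨α, hα⟩ : ∃ α : Ordinal.{u}, α = ⨆ n, G n := ⟨_, rfl⟩
  have hbd : BddAbove (Set.range G) := ⟨b, by rintro _ ⟨n, rfl⟩; exact hGb n⟩
  refine ⟨α, ?_, fun n => ?_, fun ξ hξ => ?_⟩
  · rw [hα]
    exact (ciSup_le hGb).trans_lt hb
  · rw [hα]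
    exact (hs n).trans_le (le_ciSup hbd (n + 1))
  · by_contra hcon
    push Not at hcon
    rw [hα] at hξ
    exact absurd hξ (not_lt.2 (ciSup_le fun n => hcon n))

/-- The increasing enumeration of a set of ordinals is given by `Ordinal.enumOrd`. -/
theorem enum_gr {W : ZFSet.{u}} {l : Ordinal.{u}} {k : Ordinal.{u}}
    (hlt : ∀ i < k, Ordinal.enumOrd {η | η.toZFSet ∈ W ∨ l ≤ η} i < l) :
    Enum (gr k.toZFSet fun x => (Ordinal.enumOrd {η | η.toZFSet ∈ W ∨ l ≤ η} (rank x)).toZFSet)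
      W k.toZFSet l.toZFSet ∧ ¬ BddAbove {η : Ordinal.{u} | η.toZFSet ∈ W ∨ l ≤ η} := by
  have hS : ¬ BddAbove {η : Ordinal.{u} | η.toZFSet ∈ W ∨ l ≤ η} := by
    rintro ⟨b, hb⟩
    have h1 : Order.succ (max b l) ∈ {η : Ordinal.{u} | η.toZFSet ∈ W ∨ l ≤ η} :=
      Or.inr ((le_max_right _ _).trans (Order.le_succ _))
    have h2 := hb h1
    exact absurd ((Order.lt_succ (max b l)).trans_le h2) (not_lt.2 (le_max_left _ _))
  have hmono := Ordinal.enumOrd_strictMono hS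
  refine ⟨⟨isFunc_gr fun x hx => ?_, ?_, ?_, ?_⟩, hS⟩
  · obtain ⟨i, hi, rfl⟩ := Ordinal.mem_toZFSet_iff.1 hx
    rw [Ordinal.rank_toZFSet]
    exact tz_mem.2 (hlt i hi)
  · intro i hi a ha hia
    obtain ⟨i, hi', rfl⟩ := Ordinal.mem_toZFSet_iff.1 hi
    rw [pair_mem_gr, Ordinal.rank_toZFSet] at hia
    rw [← hia.2]
    rcases Ordinal.enumOrd_mem hS i with h1 | h1
    · exact h1
    · exact absurd h1 (not_le.2 (hlt i hi'))
  · intro i hi j hj a ha b hb hia hjb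
    obtain ⟨i, hi', rfl⟩ := Ordinal.mem_toZFSet_iff.1 hi
    obtain ⟨j, hj', rfl⟩ := Ordinal.mem_toZFSet_iff.1 hj
    rw [pair_mem_gr, Ordinal.rank_toZFSet] at hia hjb
    rw [← hia.2, ← hjb.2]
    exact tz_mem.2 (hmono hj')
  · intro i hi a ha hia b hb hbW
    obtain ⟨i, hi', rfl⟩ := Ordinal.mem_toZFSet_iff.1 hi
    rw [pair_mem_gr, Ordinal.rank_toZFSet] at hia
    rw [← hia.2] at hb
    obtain ⟨β, hβ, rfl⟩ := Ordinal.mem_toZFSet_iff.1 hb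
    have h1 : β ∈ Set.range (Ordinal.enumOrd {η : Ordinal.{u} | η.toZFSet ∈ W ∨ l ≤ η}) := by
      rw [Ordinal.range_enumOrd hS]
      exact Or.inl hbW
    obtain ⟨j, rfl⟩ := h1
    have hji : j < i := hmono.lt_iff_lt.1 hβ
    refine ⟨j.toZFSet, tz_mem.2 hji, ?_⟩
    rw [pair_mem_gr, Ordinal.rank_toZFSet]
    exact ⟨tz_mem.2 (hji.trans hi'), rfl⟩

/-- Ordinal definable functions between ordinals are in `HOD`. -/
theorem OD.hod_func {g : ZFSet.{u}} {a b : Ordinal.{u}} (h : OD g)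
    (hg : IsFunc a.toZFSet b.toZFSet g) : HOD g := by
  refine HOD_of_sub h fun p hp => ?_
  obtain ⟨x, hx, y, hy, rfl⟩ := mem_prod.1 (hg.1 hp)
  obtain ⟨x, _, rfl⟩ := Ordinal.mem_toZFSet_iff.1 hx
  obtain ⟨y, _, rfl⟩ := Ordinal.mem_toZFSet_iff.1 hy
  exact HOD_pair (HOD_ord x) (HOD_ord y)

/-- An unbounded ordinal definable subset of a HOD-regular ordinal `κ` has order type `κ`. -/
theorem enum_all {W : ZFSet.{u}} {κ : Ordinal.{u}} (hW : OD W)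
    (hunb : ∀ ξ < κ, ∃ η < κ, ξ < η ∧ η.toZFSet ∈ W) (hreg : ¬ CofinalP HOD κ.toZFSet) :
    ∀ i < κ, Ordinal.enumOrd {η | η.toZFSet ∈ W ∨ κ ≤ η} i < κ := by
  intro i
  induction i using WellFoundedLT.induction with
  | ind i ih =>
    intro hi
    by_contra hcon
    push Not at hcon
    obtain ⟨hE, hS⟩ := enum_gr (W := W) (l := κ) (k := i) fun i' hi' => ih i' hi' (hi'.trans hi)
    have hO : OD (gr i.toZFSet fun x =>
        (Ordinal.enumOrd {η | η.toZFSet ∈ W ∨ κ ≤ η} (rank x)).toZFSet) := by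
      refine OD_of (R := fun y x => Enum y (x 0) (x 2) (x 3))
        (x := asg W W i.toZFSet κ.toZFSet ∅ ∅) (dfn_Enum _ _ _ _) hW hW
        (asg_ord (isOrdinal_toZFSet _) (isOrdinal_toZFSet _) empty_ord empty_ord) fun y => ?_
      show Enum y W i.toZFSet κ.toZFSet ↔ _
      exact ⟨fun h => h.unique hE, fun h => by rw [h]; exact hE⟩
    refine hreg ⟨i.toZFSet, tz_mem.2 hi, _, hO.hod_func hE.1, hE.1, fun y hy => ?_⟩
    obtain ⟨ξ, hξ, rfl⟩ := Ordinal.mem_toZFSet_iff.1 hy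
    obtain ⟨e, he, hξe, heW⟩ := hunb ξ hξ
    have h1 : e ∈ Set.range (Ordinal.enumOrd {η : Ordinal.{u} | η.toZFSet ∈ W ∨ κ ≤ η}) := by
      rw [Ordinal.range_enumOrd hS]
      exact Or.inl heW
    obtain ⟨i', rfl⟩ := h1
    have hi' : i' < i := (Ordinal.enumOrd_strictMono hS).lt_iff_lt.1 (he.trans_le hcon)
    refine ⟨i'.toZFSet, tz_mem.2 hi', _, tz_mem.2 he, ?_, tz_mem.2 hξe⟩
    rw [pair_mem_gr, Ordinal.rank_toZFSet]
    exact ⟨tz_mem.2 hi', rfl⟩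

end Pool.Agent.H310.HD
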