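import Pool.Agent.H310.HD.Ket

/-!
Ketonen's argument: ordinals `κ > δ` which are regular in `HOD` satisfy `cf(κ) = |κ|`.
-/

set_option autoImplicit false
set_option linter.unusedVariables false

namespace Pool.Agent.H310.HD

open ZFSet Gss969

universe u

/-- `g` is a cofinal function from `c` to `x`. -/
def Cofi (c x g : ZFSet.{u}) : Prop :=
  IsFunc c x g ∧ ∀ y ∈ x, ∃ i ∈ c, ∃ z ∈ x, pair i z ∈ g ∧ y ∈ z

theorem dfn_Cofi (a b c : ℕ) : Dfn Lvl.{u} (fun v => Cofi (v a) (v b) (v c)) := by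
  unfold Cofi
  refine (dfn_isFunc Lvl_sub_Trs _ _ _).and ?_
  repeat' first
    | exact Dfn.mem _ _ | exact dfn_pm Lvl_sub_Trs _ _ _ | refine Dfn.and ?_ ?_
    | refine Dfn.ball Lvl_sub_Trs _ ?_ | refine Dfn.bex Lvl_sub_Trs _ ?_

/-- `T` chooses cofinal functions in `HOD` for the elements of `κ` of cofinality less than `δ`. -/
def GA (W d κ T : ZFSet.{u}) : Prop :=
  ∀ x ∈ κ, (∃ m ∈ d, CofN m x) → ∃ c ∈ d, ∃ g, IsFunc c x g ∧ (pair x g ∈ T ∧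
    (HODin W g ∧ ∀ y ∈ x, ∃ i ∈ c, ∃ z ∈ x, pair i z ∈ g ∧ y ∈ z))

theorem dfn_GA (a b c d : ℕ) : Dfn Lvl.{u} (fun v => GA (v a) (v b) (v c) (v d)) := by
  unfold GA
  repeat' first
    | exact Dfn.mem _ _ | exact dfn_pm Lvl_sub_Trs _ _ _ | exact dfn_CofN _ _
    | exact dfn_HODin _ _ | refine Dfn.exfun _ _ ?_
    | refine Dfn.and ?_ ?_ | refine Dfn.imp ?_ ?_
    | refine Dfn.ball Lvl_sub_Trs _ ?_ | refine Dfn.bex Lvl_sub_Trs _ ?_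

/-- Some value of `g` lies strictly between the images of `y` and `z` under `r`. -/
def Btw (g r c L K y z : ZFSet.{u}) : Prop :=
  ∃ i ∈ c, ∃ b ∈ L, pair i b ∈ g ∧ ∃ u ∈ K, ∃ v ∈ K, pair y u ∈ r ∧ (pair z v ∈ r ∧ (u ∈ b ∧ b ∈ v))

theorem dfn_Btw (a b c d e f g : ℕ) :
    Dfn Lvl.{u} (fun v => Btw (v a) (v b) (v c) (v d) (v e) (v f) (v g)) := by
  unfold Btw
  repeat' first
    | exact Dfn.mem _ _ | exact dfn_pm Lvl_sub_Trs _ _ _ | refine Dfn.and ?_ ?_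
    | refine Dfn.bex Lvl_sub_Trs _ ?_

/-- `e` is a nonempty point closed under the relation `Btw`. -/
def InE (g r c L K x : ZFSet.{u}) : Prop :=
  (∃ y ∈ x, y = y) ∧ ∀ y ∈ x, ∃ z ∈ x, Btw g r c L K y z

theorem dfn_InE (a b c d e f : ℕ) :
    Dfn Lvl.{u} (fun v => InE (v a) (v b) (v c) (v d) (v e) (v f)) := by
  unfold InE
  refine Dfn.and ?_ ?_
  · exact Dfn.bex Lvl_sub_Trs _ (Dfn.eq _ _)
  · exact Dfn.ball Lvl_sub_Trs _ (Dfn.bex Lvl_sub_Trs _ (dfn_Btw _ _ _ _ _ _ _))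

/-- `x` is the least upper bound of the values of `f` on `ρ` (strictly above them). -/
def Lub (f κ ρ x : ZFSet.{u}) : Prop :=
  (∀ i ∈ ρ, ∀ y ∈ κ, pair i y ∈ f → y ∈ x) ∧
    ∀ x' ∈ x, ∃ i ∈ ρ, ∃ y ∈ κ, pair i y ∈ f ∧ ¬ y ∈ x'

/-- The elements of `E` which are hit by the function chosen for `x`. -/
def Hit (d T E e x : ZFSet.{u}) : Prop :=
  ∃ c ∈ d, ∃ g, IsFunc c x g ∧ (pair x g ∈ T ∧ ∃ i ∈ c, ∃ b ∈ x, pair i b ∈ g ∧
    (e ⊆ b ∧ ∀ e' ∈ E, e ∈ e' → b ∈ e'))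

/-- The statement which is reflected. -/
def Big (v : ℕ → ZFSet.{u}) : Prop :=
  ∃ ρ ∈ v 0, ∃ x ∈ v 1, Lub (v 3) (v 1) ρ x ∧ Hit (v 2) (v 4) (v 5) (v 6) x

theorem dfn_Big : Dfn Lvl.{u} Big := by
  unfold Big Lub Hit
  repeat' first
    | exact Dfn.mem _ _ | exact dfn_pm Lvl_sub_Trs _ _ _ | exact dfn_sub Lvl_sub_Trs _ _
    | refine Dfn.exfun _ _ ?_
    | refine Dfn.and ?_ ?_ | refine Dfn.not ?_ | refine Dfn.imp ?_ ?_
    | refine Dfn.ball Lvl_sub_Trs _ ?_ | refine Dfn.bex Lvl_sub_Trs _ ?_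

/-- The assignment listing seven given sets. -/
def asg7 (a b c d e f g : ZFSet.{u}) : ℕ → ZFSet.{u}
  | 0 => a
  | 1 => b
  | 2 => c
  | 3 => d
  | 4 => e
  | 5 => f
  | _ => g

theorem asg7_mem {M a b c d e f g : ZFSet.{u}} (ha : a ∈ M) (hb : b ∈ M) (hc : c ∈ M) (hd : d ∈ M)
    (he : e ∈ M) (hf : f ∈ M) (hg : g ∈ M) : ∀ i, asg7 a b c d e f g i ∈ M
  | 0 => ha
  | 1 => hb
  | 2 => hc
  | 3 => hd
  | 4 => he
  | 5 => hf
  | (_ + 6) => hg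

/-- **Ketonen's argument.** -/
theorem ket {δ : Ordinal.{u}} (hδ : Extendible δ) {κ ν k μ l : Ordinal.{u}} (hκk : κ ≤ k)
    (hμ : μ < δ) (hl : RegUnc l.toZFSet) {S : ZFSet.{u}} (hSO : HOD S)
    (hS : Fam μ.toZFSet k.toZFSet l.toZFSet S)
    (hC : ∀ α : Ordinal.{u}, ∀ μ < δ, CofN (Ordinal.toZFSet μ) α.toZFSet →
      ∃ c < δ, ∃ g, HOD g ∧ Cofi (Ordinal.toZFSet c) α.toZFSet g)
    (hκδ : δ < κ) (hκlim : ∀ x < κ, Order.succ x < κ) (hreg : ¬ CofinalP HOD κ.toZFSet)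
    (hν : CofN ν.toZFSet κ.toZFSet) (hνmin : ∀ ν' < ν, ¬ CofN ν'.toZFSet κ.toZFSet) :
    κ.card ≤ ν.card := by
  classical
  have hδL := hδ.lim
  have hω := hδ.om_lt
  have hδν : δ ≤ ν := by
    by_contra hcon
    push Not at hcon
    obtain ⟨c, hc, g, hg, hg'⟩ := hC κ ν hcon hν
    exact hreg ⟨c.toZFSet, tz_mem.2 (hc.trans hκδ), g, hg, hg'⟩
  obtain ⟨f, hf, hfc⟩ := hν
  have hfv : ∀ i < ν, ∃ y < κ, pair i.toZFSet y.toZFSet ∈ f ∧ app f i.toZFSet = y.toZFSet := by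
    intro i hi
    obtain ⟨y, hy, h⟩ := Ordinal.mem_toZFSet_iff.1 (app_mem hf (tz_mem.2 hi))
    refine ⟨y, hy, ?_, h.symm⟩
    rw [h]
    exact app_spec hf (tz_mem.2 hi)
  -- initial segments are bounded
  have hbdd : ∀ ρ < ν, ∃ z < κ, ∀ i < ρ, app f i.toZFSet ∈ z.toZFSet := by
    intro ρ hρ
    by_contra hcon
    push Not at hcon
    refine hνmin ρ hρ ⟨gr ρ.toZFSet fun x => app f x, isFunc_gr fun x hx => ?_, fun x hx => ?_⟩
    · obtain ⟨i, hi, rfl⟩ := Ordinal.mem_toZFSet_iff.1 hx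
      exact app_mem hf (tz_mem.2 (hi.trans hρ))
    · obtain ⟨ξ, hξ, rfl⟩ := Ordinal.mem_toZFSet_iff.1 hx
      obtain ⟨i, hi, h⟩ := hcon (Order.succ ξ) (hκlim ξ hξ)
      obtain ⟨y, hy, _, h'⟩ := hfv i (hi.trans hρ)
      refine ⟨_, tz_mem.2 hi, _, tz_mem.2 hy, by rw [pair_mem_gr, h']; exact ⟨tz_mem.2 hi, rfl⟩, ?_⟩
      rw [h', tz_mem, Order.lt_succ_iff, not_le] at h
      exact tz_mem.2 h
  have hνlim : ∀ i < ν, Order.succ i < ν := by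
    intro i hi
    by_contra hcon
    push Not at hcon
    obtain ⟨z, hz, h1⟩ := hbdd i hi
    obtain ⟨y, hy, _, h2⟩ := hfv i hi
    obtain ⟨n, hn, w, hw, h3, h4⟩ := hfc _ (tz_mem.2 (max_lt hz hy))
    obtain ⟨n, hn', rfl⟩ := Ordinal.mem_toZFSet_iff.1 hn
    obtain ⟨w, hw', rfl⟩ := Ordinal.mem_toZFSet_iff.1 hw
    have h5 := tz_mem.1 h4
    rcases (Order.lt_succ_iff.1 (hn'.trans_le hcon)).lt_or_eq with h6 | h6
    · have h7 := h1 n h6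
      rw [(app_iff hf hn).1 h3, tz_mem] at h7
      exact absurd (h7.trans_le (le_max_left z y)) (not_lt.2 h5.le)
    · rw [h6] at h3
      rw [(app_iff hf (tz_mem.2 hi)).1 h3] at h2
      have h7 := Ordinal.toZFSet_injective h2
      exact absurd (h5.trans_le (le_of_eq h7)) (not_lt.2 (le_max_right _ _))
  -- the cofinal functions
  have hG : ∀ x : Ordinal.{u}, ∃ g, (∃ μ < δ, CofN (Ordinal.toZFSet μ) x.toZFSet) →
      HOD g ∧ ∃ c < δ, Cofi (Ordinal.toZFSet c) x.toZFSet g := by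
    intro x
    by_cases h : ∃ μ < δ, CofN (Ordinal.toZFSet μ) x.toZFSet
    · obtain ⟨μ', h1, h2⟩ := h
      obtain ⟨c, hc, g, hg, hg'⟩ := hC x μ' h1 h2
      exact ⟨g, fun _ => ⟨hg, c, hc, hg'⟩⟩
    · exact ⟨∅, fun h' => absurd h' h⟩
  choose G hG using hG
  obtain ⟨ρ₀, hρ₀⟩ : ∃ ρ₀ : Ordinal.{u}, ∀ x < κ, G x ∈ V_ ρ₀ := by
    refine ⟨⨆ w : {w // w ∈ κ.toZFSet}, Order.succ (rank (G (rank w.1))), fun x hx => ?_⟩
    rw [mem_vonNeumann]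
    refine (Order.lt_succ _).trans_le ?_
    have := Ordinal.le_iSup (fun w : {w // w ∈ κ.toZFSet} => Order.succ (rank (G (rank w.1))))
      ⟨x.toZFSet, tz_mem.2 hx⟩
    simpa only [Ordinal.rank_toZFSet] using this
  obtain ⟨T, hT⟩ : ∃ T : ZFSet.{u}, T = gr κ.toZFSet (fun x => G (rank x)) := ⟨_, rfl⟩
  have hTf : IsFunc κ.toZFSet (V_ ρ₀) T := by
    rw [hT]
    refine isFunc_gr fun x hx => ?_
    obtain ⟨x, hx', rfl⟩ := Ordinal.mem_toZFSet_iff.1 hx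
    rw [Ordinal.rank_toZFSet]
    exact hρ₀ x hx'
  obtain ⟨β₀, hβ₀⟩ := stab (V_ ρ₀)
  obtain ⟨γ, hγ⟩ := hSO.od
  obtain ⟨ζ, hζ⟩ : ∃ ζ : Ordinal.{u}, ζ = max (max (max β₀ (Order.succ ρ₀)) (max (Order.succ γ) κ))
    (max (max l k) ν) := ⟨_, rfl⟩
  have z1 : β₀ ≤ ζ := by
    rw [hζ]; exact (le_max_left _ _).trans ((le_max_left _ _).trans (le_max_left _ _))
  have z2 : ρ₀ < ζ := by
    rw [hζ]; exact (Order.lt_succ _).trans_le ((le_max_right _ _).trans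
      ((le_max_left _ _).trans (le_max_left _ _)))
  have z3 : γ < ζ := by
    rw [hζ]; exact (Order.lt_succ _).trans_le ((le_max_left _ _).trans
      ((le_max_right _ _).trans (le_max_left _ _)))
  have z4 : κ ≤ ζ := by
    rw [hζ]; exact (le_max_right _ _).trans ((le_max_right _ _).trans (le_max_left _ _))
  have z5 : l ≤ ζ := by
    rw [hζ]; exact (le_max_left _ _).trans ((le_max_left _ _).trans (le_max_right _ _))
  have z6 : k ≤ ζ := by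
    rw [hζ]; exact (le_max_right _ _).trans ((le_max_left _ _).trans (le_max_right _ _))
  have z7 : ν ≤ ζ := by
    rw [hζ]; exact (le_max_right _ _).trans (le_max_right _ _)
  obtain ⟨η, θ, τ, j, h5, D⟩ := hδ.data ζ
  have hκη := z4.trans_lt h5
  have hlη := z5.trans_lt h5
  have hkη := z6.trans_lt h5
  have hνη := z7.trans_lt h5
  have hκV : κ.toZFSet ∈ V_ η := ExtData.ordB hκη
  have hνV : ν.toZFSet ∈ V_ η := ExtData.ordB hνη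
  have hW : V_ ζ ∈ V_ η := vonNeumann_mem_vonNeumann_iff.2 h5
  have hSη : S ∈ V_ η := Lvl_func D.E.lvl (ExtData.ordB hkη)
    (Lvl_powerset D.E.lvl (ExtData.ordB hlη)) hS.1
  have hρη : V_ ρ₀ ∈ V_ η := vonNeumann_mem_vonNeumann_iff.2 (z2.trans h5)
  have hTη : T ∈ V_ η := Lvl_func D.E.lvl hκV hρη hTf
  have hfη : f ∈ V_ η := Lvl_func D.E.lvl hνV hκV hf
  have hjS : OD (j S) := by
    have h2 := (D.E.el.t2 D.E.lvl D.nl (A := fun W S => ∃ U ∈ W, Lev U ∧ ODat U S)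
      (Dfn.bex Lvl_sub_Trs _ ((dfn_lev _).and (dfn_ODat _ _))) hW hSη).1
      ⟨V_ γ, vonNeumann_mem_vonNeumann_iff.2 z3, ⟨γ, rfl⟩, hγ⟩
    obtain ⟨U, _, ⟨β, rfl⟩, h3⟩ := h2
    exact ⟨β, h3⟩
  have hjr := D.restr_OD hδL hκk hkη hlη hμ hl hS hjS
  obtain ⟨r, hr⟩ : ∃ r : ZFSet.{u}, r = gr κ.toZFSet (fun x => j x) := ⟨_, rfl⟩
  rw [← hr] at hjr
  obtain ⟨L, hL1, hL2, hL3⟩ := D.exists_lam' hκlim hκη
  obtain ⟨N, hN1, hN2, hN3⟩ := D.exists_lam' hνlim hνη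
  have hjκ := D.jJ hκη
  have hjν := D.jJ hνη
  have hτν : τ ≤ rank (j ν.toZFSet) := by
    have h1 : δ.toZFSet ⊆ ν.toZFSet := by
      intro x hx
      obtain ⟨x, hx', rfl⟩ := Ordinal.mem_toZFSet_iff.1 hx
      exact tz_mem.2 (hx'.trans_le hδν)
    have h2 := rank_mono ((D.E.sub_iff D.dB hνV).1 h1)
    rwa [D.jd, Ordinal.rank_toZFSet] at h2
  have hντ : ν < τ := hνη.trans D.ητ
  -- no short cofinal functions into `j(κ)`
  have hno : ∀ m ∈ j ν.toZFSet, ¬ CofN m (j κ.toZFSet) :=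
    (D.E.el.t2 D.E.lvl D.nl (A := fun a b => ∀ m ∈ a, ¬ CofN m b)
      (Dfn.ball Lvl_sub_Trs _ (Dfn.not (dfn_CofN _ _))) hνV hκV).1 (by
        intro m hm
        obtain ⟨m, hm', rfl⟩ := Ordinal.mem_toZFSet_iff.1 hm
        exact hνmin m hm')
  have hjf : ∀ i < ν, ∀ y : ZFSet.{u}, app f i.toZFSet = y →
      pair (j i.toZFSet) (j y) ∈ j f := by
    intro i hi y hy
    have hiV : i.toZFSet ∈ V_ η := ExtData.ordB (hi.trans hνη)
    have hyV : y ∈ V_ η := by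
      rw [← hy]; exact D.E.bt.mem_trans (app_mem hf (tz_mem.2 hi)) hκV
    rw [← D.E.pair_eq hiV hyV]
    refine (D.E.mem_iff (Lvl_pair D.E.lvl hiV hyV) hfη).1 ?_
    rw [← hy]
    exact app_spec hf (tz_mem.2 hi)
  -- `ν` is cofinal in `L`
  have hνL : CofN ν.toZFSet L.toZFSet := by
    refine ⟨gr ν.toZFSet (fun x => j (app f x)), isFunc_gr fun x hx => ?_, fun x hx => ?_⟩
    · obtain ⟨i, hi, rfl⟩ := Ordinal.mem_toZFSet_iff.1 hx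
      obtain ⟨y, hy, _, h1⟩ := hfv i hi
      rw [h1, D.jJ (hy.trans hκη)]
      exact tz_mem.2 (hL1 y hy)
    · obtain ⟨ξ, hξ, rfl⟩ := Ordinal.mem_toZFSet_iff.1 hx
      obtain ⟨x', hx', h1⟩ := hL2 ξ hξ
      obtain ⟨n, hn, w, hw, h3, h4⟩ := hfc _ (tz_mem.2 hx')
      obtain ⟨w, hw', rfl⟩ := Ordinal.mem_toZFSet_iff.1 hw
      refine ⟨n, hn, j w.toZFSet, ?_, ?_, ?_⟩
      · rw [D.jJ (hw'.trans hκη)]
        exact tz_mem.2 (hL1 w hw')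
      · rw [pair_mem_gr, (app_iff hf hn).1 h3]
        exact ⟨hn, rfl⟩
      · rw [D.jJ (hw'.trans hκη)]
        exact tz_mem.2 (h1.trans ((D.J_lt (hx'.trans hκη) (hw'.trans hκη)).1 (tz_mem.1 h4)))
  have hLlt : L < rank (j κ.toZFSet) := by
    refine lt_of_le_of_ne hL3 fun h => ?_
    refine hno ν.toZFSet ?_ ?_
    · rw [hjν]; exact tz_mem.2 (hντ.trans_le hτν)
    · rw [hjκ, ← h]; exact hνL
  -- values of `j(f)` below `N`
  have hup : ∀ i ∈ N.toZFSet, ∀ y ∈ j κ.toZFSet, pair i y ∈ j f → y ∈ L.toZFSet := by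
    intro i hi y hy hiy
    obtain ⟨i, hi', rfl⟩ := Ordinal.mem_toZFSet_iff.1 hi
    obtain ⟨i', hi1, hi2⟩ := hN2 i hi'
    obtain ⟨z, hz, h1⟩ := hbdd i' hi1
    have h2 := (D.E.el.t4 D.E.lvl D.nl (A := fun a b c d => ∀ i ∈ a, ∀ y ∈ b, pair i y ∈ c → y ∈ d)
      (by
        repeat' first
          | exact Dfn.mem _ _ | exact dfn_pm Lvl_sub_Trs _ _ _ | refine Dfn.imp ?_ ?_
          | refine Dfn.ball Lvl_sub_Trs _ ?_)
      (ExtData.ordB (hi1.trans hνη)) hκV hfη (ExtData.ordB (hz.trans hκη))).1 (by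
        intro x hx w hw hxw
        obtain ⟨x, hx', rfl⟩ := Ordinal.mem_toZFSet_iff.1 hx
        have h3 := h1 x hx'
        rwa [(app_iff hf (tz_mem.2 (hx'.trans hi1))).1 hxw] at h3)
    have h3 := h2 i.toZFSet (by rw [D.jJ (hi1.trans hνη)]; exact tz_mem.2 hi2) y hy hiy
    rw [D.jJ (hz.trans hκη)] at h3
    exact (isOrdinal_toZFSet L).1.mem_trans h3 (tz_mem.2 (hL1 z hz))
  have hNlt : N < rank (j ν.toZFSet) := by
    refine lt_of_le_of_ne hN3 fun h => ?_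
    refine absurd hLlt (not_lt.2 ?_)
    by_contra hcon
    push Not at hcon
    have h1 := (D.E.el.t3 D.E.lvl D.nl (A := fun a b c => ∀ y ∈ b, ∃ n ∈ a, ∃ z ∈ b,
      pair n z ∈ c ∧ y ∈ z) (by
        repeat' first
          | exact Dfn.mem _ _ | exact dfn_pm Lvl_sub_Trs _ _ _ | refine Dfn.and ?_ ?_
          | refine Dfn.ball Lvl_sub_Trs _ ?_ | refine Dfn.bex Lvl_sub_Trs _ ?_)
      hνV hκV hfη).1 hfc
    obtain ⟨n, hn, z, hz, h2, h3⟩ := h1 L.toZFSet (by rw [hjκ]; exact tz_mem.2 hcon)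
    rw [hjν, ← h] at hn
    exact mem_irrefl _ ((isOrdinal_toZFSet L).1.mem_trans h3 (hup n hn z hz h2))
  have hLκ : L.toZFSet ∈ j κ.toZFSet := by rw [hjκ]; exact tz_mem.2 hLlt
  -- the function chosen at `L`
  have hGA : GA (j (V_ ζ)) (j δ.toZFSet) (j κ.toZFSet) (j T) :=
    (D.E.el.t4 D.E.lvl D.nl (A := fun a b c d => GA a b c d) (dfn_GA _ _ _ _) hW D.dB hκV hTη).1 (by
      intro x hx hm
      obtain ⟨x, hx', rfl⟩ := Ordinal.mem_toZFSet_iff.1 hx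
      obtain ⟨m, hm', hmx⟩ := hm
      obtain ⟨m, hm'', rfl⟩ := Ordinal.mem_toZFSet_iff.1 hm'
      obtain ⟨hgH, c, hc, hgf, hgc⟩ := hG x ⟨m, hm'', hmx⟩
      refine ⟨c.toZFSet, tz_mem.2 hc, G x, hgf, ?_, hβ₀ ζ z1 _ (hρ₀ x hx') hgH, hgc⟩
      rw [hT, pair_mem_gr, Ordinal.rank_toZFSet]
      exact ⟨hx, rfl⟩)
  obtain ⟨c, hc, g, hgf, hgT, hgH, hgc⟩ := hGA _ hLκ ⟨ν.toZFSet, by
    rw [D.jd]; exact tz_mem.2 hντ, hνL⟩
  rw [D.jd] at hc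
  obtain ⟨c, hc', rfl⟩ := Ordinal.mem_toZFSet_iff.1 hc
  have hgO : OD g := hgH.hod.od
  have hpr : ∀ {y : Ordinal.{u}} {u : ZFSet.{u}}, y < κ → (pair y.toZFSet u ∈ r ↔
      u = (rank (j y.toZFSet)).toZFSet) := by
    intro y u hy
    constructor
    · intro h
      rw [hr, pair_mem_gr] at h
      rw [← h.2]
      exact D.jJ (hy.trans hκη)
    · intro h
      rw [hr, pair_mem_gr, h]
      exact ⟨tz_mem.2 hy, D.jJ (hy.trans hκη)⟩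
  obtain ⟨K, hK⟩ : ∃ K, K = rank (j κ.toZFSet) := ⟨_, rfl⟩
  have hJK : ∀ {y : Ordinal.{u}}, y < κ → rank (j y.toZFSet) < K := by
    intro y hy
    rw [hK]
    exact (D.J_lt (hy.trans hκη) hκη).1 hy
  have hbtw : ∀ {y z : Ordinal.{u}}, y < κ → z < κ →
      (Btw g r c.toZFSet L.toZFSet K.toZFSet y.toZFSet z.toZFSet ↔
        ∃ i ∈ c.toZFSet, ∃ b < L, pair i b.toZFSet ∈ g ∧ rank (j y.toZFSet) < b ∧
          b < rank (j z.toZFSet)) := by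
    intro y z hy hz
    constructor
    · rintro ⟨i, hi, b, hb, hib, u, hu, v, hv, h1, h2, h3, h4⟩
      obtain ⟨b, hb', rfl⟩ := Ordinal.mem_toZFSet_iff.1 hb
      rw [hpr hy] at h1
      rw [hpr hz] at h2
      rw [h1] at h3
      rw [h2] at h4
      exact ⟨i, hi, b, hb', hib, tz_mem.1 h3, tz_mem.1 h4⟩
    · rintro ⟨i, hi, b, hb, hib, h3, h4⟩
      exact ⟨i, hi, _, tz_mem.2 hb, hib, _, tz_mem.2 (hJK hy), _, tz_mem.2 (hJK hz),
        (hpr hy).2 rfl, (hpr hz).2 rfl, tz_mem.2 h3, tz_mem.2 h4⟩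
  have hstep : ∀ y < κ, ∃ z < κ, y < z ∧
      Btw g r c.toZFSet L.toZFSet K.toZFSet y.toZFSet z.toZFSet := by
    intro y hy
    obtain ⟨i, hi, b, hb, hib, h1⟩ := hgc _ (tz_mem.2 (hL1 y hy))
    obtain ⟨b, hb', rfl⟩ := Ordinal.mem_toZFSet_iff.1 hb
    obtain ⟨z, hz, h2⟩ := hL2 b hb'
    exact ⟨z, hz, (D.J_lt (hy.trans hκη) (hz.trans hκη)).2 ((tz_mem.1 h1).trans h2),
      (hbtw hy hz).2 ⟨i, hi, b, hb', hib, tz_mem.1 h1, h2⟩⟩
  -- the set `E`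
  obtain ⟨E, hE⟩ : ∃ E : ZFSet.{u}, E = ZFSet.sep
    (fun x => InE g r c.toZFSet L.toZFSet K.toZFSet x) κ.toZFSet := ⟨_, rfl⟩
  have hE' : ∀ x, x ∈ E ↔ x ∈ κ.toZFSet ∧ InE g r c.toZFSet L.toZFSet K.toZFSet x := by
    intro x; rw [hE, mem_sep]
  have hEO : OD E := by
    refine OD_of (R := fun y x => (∀ a ∈ y, a ∈ x 2 ∧ InE (x 0) (x 1) (x 3) (x 4) (x 5) a) ∧
      ∀ a ∈ x 2, InE (x 0) (x 1) (x 3) (x 4) (x 5) a → a ∈ y)
      (x := asg g r κ.toZFSet c.toZFSet L.toZFSet K.toZFSet) ?_ hgO hjr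
      (asg_ord (isOrdinal_toZFSet _) (isOrdinal_toZFSet _) (isOrdinal_toZFSet _)
        (isOrdinal_toZFSet _)) fun y => ?_
    · refine Dfn.and ?_ ?_
      · exact Dfn.ball Lvl_sub_Trs _ ((Dfn.mem _ _).and (dfn_InE _ _ _ _ _ _))
      · exact Dfn.ball Lvl_sub_Trs _ ((dfn_InE _ _ _ _ _ _).imp (Dfn.mem _ _))
    · show ((∀ a ∈ y, a ∈ κ.toZFSet ∧ InE g r c.toZFSet L.toZFSet K.toZFSet a) ∧
        ∀ a ∈ κ.toZFSet, InE g r c.toZFSet L.toZFSet K.toZFSet a → a ∈ y) ↔ _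
      constructor
      · rintro ⟨h1, h2⟩
        ext a
        rw [hE']
        exact ⟨h1 a, fun h => h2 a h.1 h.2⟩
      · rintro rfl
        exact ⟨fun a ha => (hE' a).1 ha, fun a h1 h2 => (hE' a).2 ⟨h1, h2⟩⟩
  have hEunb : ∀ ξ < κ, ∃ e < κ, ξ < e ∧ e.toZFSet ∈ E := by
    choose! M hM1 hM2 hM3 using hstep
    intro ξ hξ
    let Gs : ℕ → Ordinal.{u} := fun n => Nat.rec ξ (fun _ γ => M γ) n
    have hGs : ∀ n, Gs n < κ := by
      intro n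
      induction n with
      | zero => exact hξ
      | succ n ih => exact hM1 _ ih
    obtain ⟨α, hα, h1, h2⟩ := exists_sup' (hνmin _ (hω.trans_le hδν)) hGs
      fun n => hM2 _ (hGs n)
    refine ⟨α, hα, h1 0, (hE' _).2 ⟨tz_mem.2 hα, ⟨_, tz_mem.2 (h1 0), rfl⟩, fun y hy => ?_⟩⟩
    obtain ⟨y, hy', rfl⟩ := Ordinal.mem_toZFSet_iff.1 hy
    obtain ⟨n, hn⟩ := h2 y hy'
    refine ⟨(Gs (n + 1)).toZFSet, tz_mem.2 (h1 (n + 1)), ?_⟩
    obtain ⟨i, hi, b, hb, hib, h3, h4⟩ := (hbtw (hGs n) (hGs (n + 1))).1 (hM3 _ (hGs n))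
    refine (hbtw (hy'.trans hα) (hGs (n + 1))).2 ⟨i, hi, b, hb, hib, ?_, h4⟩
    exact ((D.J_lt (hy'.trans (hα.trans hκη)) ((hGs n).trans hκη)).1 hn).trans h3
  have hen := enum_all hEO hEunb hreg
  have hEη : E ∈ V_ η := Lvl_sub D.E.lvl hκV fun x hx => ((hE' x).1 hx).1
  -- reflection
  have hbig : ∀ e < κ, e.toZFSet ∈ E → Big (asg7 ν.toZFSet κ.toZFSet δ.toZFSet f T E e.toZFSet) := by
    intro e he heE
    have heη := he.trans hκη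
    refine (D.E.el.transfer dfn_Big D.E.lvl D.nl _ (asg7_mem hνV hκV D.dB hfη hTη hEη
      (ExtData.ordB heη))).2 ?_
    show ∃ ρ ∈ j ν.toZFSet, ∃ x ∈ j κ.toZFSet, Lub (j f) (j κ.toZFSet) ρ x ∧
      Hit (j δ.toZFSet) (j T) (j E) (j e.toZFSet) x
    refine ⟨N.toZFSet, by rw [hjν]; exact tz_mem.2 hNlt, L.toZFSet, hLκ, ⟨hup, ?_⟩, c.toZFSet, ?_,
      g, hgf, hgT, ?_⟩
    · intro x' hx'
      obtain ⟨x', hx1, rfl⟩ := Ordinal.mem_toZFSet_iff.1 hx'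
      obtain ⟨x, hx, h1⟩ := hL2 x' hx1
      obtain ⟨i, hi, y, hy, h2, h3⟩ := hfc _ (tz_mem.2 hx)
      obtain ⟨i, hi', rfl⟩ := Ordinal.mem_toZFSet_iff.1 hi
      obtain ⟨y, hy', rfl⟩ := Ordinal.mem_toZFSet_iff.1 hy
      refine ⟨j i.toZFSet, ?_, j y.toZFSet, (D.E.mem_iff (ExtData.ordB (hy'.trans hκη)) hκV).1 hy,
        hjf i hi' _ ((app_iff hf hi).1 h2), ?_⟩
      · rw [D.jJ (hi'.trans hνη)]; exact tz_mem.2 (hN1 i hi')
      · rw [D.jJ (hy'.trans hκη), tz_mem, not_lt]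
        exact (h1.trans ((D.J_lt (hx.trans hκη) (hy'.trans hκη)).1 (tz_mem.1 h3))).le
    · rw [D.jd]; exact hc
    · -- the next element of `E`
      obtain ⟨e', ⟨he1, he2, he3⟩, hmin⟩ := WellFounded.has_min
        (wellFounded_lt (α := Ordinal.{u})) {e' | e' < κ ∧ e < e' ∧ e'.toZFSet ∈ E} (hEunb e he)
      obtain ⟨z, hz, hb⟩ := ((hE' _).1 he3).2.2 _ (tz_mem.2 he2)
      obtain ⟨z, hz', rfl⟩ := Ordinal.mem_toZFSet_iff.1 hz
      obtain ⟨i, hi, b, hb1, hib, h1, h2⟩ := (hbtw he (hz'.trans he1)).1 hb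
      refine ⟨i, hi, b.toZFSet, tz_mem.2 hb1, hib, ?_, ?_⟩
      · rw [D.jJ heη]
        intro w hw
        exact (isOrdinal_toZFSet b).1.mem_trans hw (tz_mem.2 h1)
      · have h3 := (D.E.el.t3 D.E.lvl D.nl (A := fun a b c => ∀ e' ∈ a, b ∈ e' → c ⊆ e') (by
          repeat' first
            | exact Dfn.mem _ _ | exact dfn_sub Lvl_sub_Trs _ _ | refine Dfn.imp ?_ ?_
            | refine Dfn.ball Lvl_sub_Trs _ ?_)
          hEη (ExtData.ordB heη) (ExtData.ordB (he1.trans hκη))).1 (by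
            intro w hw hew
            obtain ⟨hwκ, _⟩ := (hE' w).1 hw
            obtain ⟨w, hw', rfl⟩ := Ordinal.mem_toZFSet_iff.1 hwκ
            have h4 : e' ≤ w := by
              by_contra hcon
              push Not at hcon
              exact hmin w ⟨hw', tz_mem.1 hew, hw⟩ hcon
            intro x hx
            obtain ⟨x, hx', rfl⟩ := Ordinal.mem_toZFSet_iff.1 hx
            exact tz_mem.2 (hx'.trans_le h4))
        intro w hw hew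
        refine h3 w hw hew ?_
        rw [D.jJ (he1.trans hκη)]
        exact tz_mem.2 (h2.trans ((D.J_lt (hz'.trans (he1.trans hκη)) (he1.trans hκη)).1 hz'))
  -- the injection
  have hex : ∀ e : Ordinal.{u}, ∃ ρ i : Ordinal.{u}, (e < κ ∧ e.toZFSet ∈ E) → ρ < ν ∧ i < δ ∧
      ∃ x ∈ κ.toZFSet, Lub f κ.toZFSet ρ.toZFSet x ∧ ∃ c g, i.toZFSet ∈ c ∧ IsFunc c x g ∧
        pair x g ∈ T ∧ ∃ b ∈ x, pair i.toZFSet b ∈ g ∧ e.toZFSet ⊆ b ∧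
          ∀ e' ∈ E, e.toZFSet ∈ e' → b ∈ e' := by
    intro e
    by_cases h : e < κ ∧ e.toZFSet ∈ E
    · obtain ⟨ρ, hρ, x, hx, h1, c, hc, g, hg, h2, i, hi, b, hb, h3, h4, h5⟩ := hbig e h.1 h.2
      obtain ⟨ρ, hρ', rfl⟩ := Ordinal.mem_toZFSet_iff.1 hρ
      obtain ⟨c, hc', rfl⟩ := Ordinal.mem_toZFSet_iff.1 hc
      obtain ⟨i, hi', rfl⟩ := Ordinal.mem_toZFSet_iff.1 hi
      exact ⟨ρ, i, fun _ => ⟨hρ', hi'.trans hc', x, hx, h1, c.toZFSet, g, hi, hg, h2, b, hb, h3,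
        h4, h5⟩⟩
    · exact ⟨0, 0, fun h' => absurd h' h⟩
  choose R I hRI using hex
  have hinj : ∀ e₁ e₂ : Ordinal.{u}, e₁ < κ → e₁.toZFSet ∈ E → e₂ < κ → e₂.toZFSet ∈ E →
      R e₁ = R e₂ → I e₁ = I e₂ → ¬ e₁ < e₂ := by
    intro e₁ e₂ h1 h1' h2 h2' hR hI hlt
    obtain ⟨_, _, x₁, hx₁, hl₁, c₁, g₁, hi₁, hg₁, ht₁, b₁, hb₁, hp₁, hs₁, ha₁⟩ := hRI e₁ ⟨h1, h1'⟩
    obtain ⟨_, _, x₂, hx₂, hl₂, c₂, g₂, hi₂, hg₂, ht₂, b₂, hb₂, hp₂, hs₂, ha₂⟩ := hRI e₂ ⟨h2, h2'⟩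
    rw [← hR] at hl₂
    rw [← hI] at hi₂ hp₂
    have hxx : x₁ = x₂ := by
      obtain ⟨y₁, hy₁, rfl⟩ := Ordinal.mem_toZFSet_iff.1 hx₁
      obtain ⟨y₂, hy₂, rfl⟩ := Ordinal.mem_toZFSet_iff.1 hx₂
      rcases lt_trichotomy y₁ y₂ with h | h | h
      · obtain ⟨i, hi, y, hy, h3, h4⟩ := hl₂.2 _ (tz_mem.2 h)
        exact absurd (hl₁.1 i hi y hy h3) h4
      · rw [h]
      · obtain ⟨i, hi, y, hy, h3, h4⟩ := hl₁.2 _ (tz_mem.2 h)
        exact absurd (hl₂.1 i hi y hy h3) h4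
    subst hxx
    have hgg : g₁ = g₂ := by
      rw [← (app_iff hTf hx₁).1 ht₁, (app_iff hTf hx₁).1 ht₂]
    subst hgg
    have hbb : b₁ = b₂ := by
      rw [← (app_iff hg₁ hi₁).1 hp₁, (app_iff hg₂ hi₂).1 hp₂]
    subst hbb
    exact mem_irrefl _ (hs₂ (ha₁ _ h2' (tz_mem.2 hlt)))
  obtain ⟨_, hSb⟩ := enum_gr (W := E) (l := κ) (k := κ) hen
  have hmono := Ordinal.enumOrd_strictMono hSb
  have henE : ∀ i < κ, (Ordinal.enumOrd {η | η.toZFSet ∈ E ∨ κ ≤ η} i).toZFSet ∈ E := by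
    intro i hi
    rcases Ordinal.enumOrd_mem hSb i with h1 | h1
    · exact h1
    · exact absurd h1 (not_le.2 (hen i hi))
  have hcard : Cardinal.mk (Set.Iio κ) ≤ Cardinal.mk (Set.Iio ν × Set.Iio δ) := by
    refine Cardinal.mk_le_of_injective (f := fun i : Set.Iio κ =>
      ((⟨R (Ordinal.enumOrd {η | η.toZFSet ∈ E ∨ κ ≤ η} i.1),
        (hRI _ ⟨hen i.1 i.2, henE i.1 i.2⟩).1⟩ : Set.Iio ν),
       (⟨I (Ordinal.enumOrd {η | η.toZFSet ∈ E ∨ κ ≤ η} i.1),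
        (hRI _ ⟨hen i.1 i.2, henE i.1 i.2⟩).2.1⟩ : Set.Iio δ))) ?_
    intro i i' h
    simp only [Prod.mk.injEq, Subtype.mk.injEq] at h
    obtain ⟨h1, h2⟩ := h
    have e1 := hen i.1 i.2
    have e2 := hen i'.1 i'.2
    have n1 := hinj _ _ e1 (henE i.1 i.2) e2 (henE i'.1 i'.2) h1 h2
    have n2 := hinj _ _ e2 (henE i'.1 i'.2) e1 (henE i.1 i.2) h1.symm h2.symm
    have h3 := le_antisymm (not_lt.1 n2) (not_lt.1 n1)
    exact Subtype.ext (hmono.injective h3)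
  rw [Cardinal.mk_prod, Cardinal.lift_id, Cardinal.lift_id, Cardinal.mk_Iio_ordinal,
    Cardinal.mk_Iio_ordinal, Cardinal.mk_Iio_ordinal, ← Cardinal.lift_mul,
    Cardinal.lift_le] at hcard
  have hν1 : Cardinal.aleph0 ≤ ν.card := by
    have := Ordinal.card_le_card (hω.le.trans hδν)
    rwa [Ordinal.card_omega0] at this
  refine hcard.trans ?_
  rw [Cardinal.mul_eq_left hν1 (Ordinal.card_le_card hδν)]
  intro h0
  have h1 := Ordinal.card_eq_zero.1 h0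
  exact absurd hω (by rw [h1]; simp)

end Pool.Agent.H310.HD
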