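import Pool.Agent.H310.HD.Gen2

/-!
`ω`-strongly measurable cardinals: the two readings of the definition.
-/

set_option autoImplicit false
set_option linter.unusedVariables false

namespace Pool.Agent.H310.HD

open ZFSet Gss969

universe u

/-- The ordinals allowed as index sets of the partitions: all nonzero ordinals (`b = false`) or
only nonzero cardinals (`b = true`). -/
def Index (b : Bool) (k : ZFSet.{u}) : Prop := (∃ x ∈ k, x = x) ∧ (b = true → IsCard k)

/-- The regular uncountable cardinal `l` is `ω`-strongly measurable in `HOD`: there is `k < l` with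
`(2 ^ k)^HOD < l` such that no sequence of length `k` in `HOD` is a partition of `cof(ω) ∩ l` into
stationary subsets of `l`. -/
def StrMeas (b : Bool) (l : Ordinal.{u}) : Prop :=
  RegUnc l.toZFSet ∧ ∃ k ∈ l.toZFSet, Index b k ∧ FewSub HOD k l.toZFSet ∧
    ¬ ∃ g, HOD g ∧ IsPart k l.toZFSet g

/-- `l` is regular and uncountable, but not `ω`-strongly measurable in `HOD`. -/
def NotStrMeas (b : Bool) (l : Ordinal.{u}) : Prop := RegUnc l.toZFSet ∧ ¬ StrMeas b l

theorem notStrMeas_iff (b : Bool) (l : Ordinal.{u}) :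
    NotStrMeas b l ↔ NonSM (Index b) HOD l.toZFSet := by
  unfold NotStrMeas StrMeas NonSM
  constructor
  · rintro ⟨h1, h2⟩
    refine ⟨h1, fun k hk hb hf => ?_⟩
    by_contra h3
    exact h2 ⟨h1, k, hk, hb, hf, h3⟩
  · rintro ⟨h1, h2⟩
    refine ⟨h1, ?_⟩
    rintro ⟨_, k, hk, hb, hf, h3⟩
    exact h3 (h2 k hk hb hf)

theorem mono_Index (b : Bool) : Mono (NonSM.{u} (Index b)) := by
  refine mono_NonSM ?_
  refine Dfn.and (Dfn.bex Lvl_sub_Trs _ (Dfn.eq _ _)) ?_
  cases b
  · exact (Dfn.eq 0 0).congr fun v => by simp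
  · exact (dfn_IsCard 0).congr fun v => by simp

end Pool.Agent.H310.HD
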