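import Pool.Agent.H310.HD.Clos
import Pool.Agent.H310.HD.Str

/-!
Normal ultrafilters on a cardinal and reflection of partitions into stationary sets which belong
to `HOD`.
-/

set_option autoImplicit false
set_option linter.unusedVariables false

namespace Pool.Agent.H310.HD

open ZFSet Gss969 Filter

universe u

/-- `D` is a normal ultrafilter on the uncountable ordinal `κ` (which is then a measurable
cardinal). -/
structure Normal (κ : Ordinal.{u}) (D : Ultrafilter Ordinal.{u}) : Prop where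
  unc : Ordinal.omega0 < κ
  conc : ∀ᶠ l in (D : Filter Ordinal.{u}), l < κ
  free : ∀ ξ, ∀ᶠ l in (D : Filter Ordinal.{u}), l ≠ ξ
  complete : ∀ μ < κ, ∀ p : Ordinal.{u} → Ordinal.{u} → Prop,
    (∀ i < μ, ∀ᶠ l in (D : Filter Ordinal.{u}), p i l) →
    ∀ᶠ l in (D : Filter Ordinal.{u}), ∀ i < μ, p i l
  normal : ∀ f : Ordinal.{u} → Ordinal.{u}, (∀ᶠ l in (D : Filter Ordinal.{u}), f l < l) →
    ∃ ξ, ∀ᶠ l in (D : Filter Ordinal.{u}), f l = ξ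

theorem tz_mem {a b : Ordinal.{u}} : a.toZFSet ∈ b.toZFSet ↔ a < b :=
  Ordinal.toZFSet_mem_toZFSet_iff

/-- The restriction of the sequence of sets `g` to the ordinal `l`. -/
noncomputable def restr (g k l : ZFSet.{u}) : ZFSet.{u} := gr k fun i => app g i ∩ l

theorem HOD_restr {g : ZFSet.{u}} {k κ l : Ordinal.{u}} (hg : HOD g)
    (hf : IsFunc k.toZFSet (powerset κ.toZFSet) g) : HOD (restr g k.toZFSet l.toZFSet) := by
  refine HOD_of (R := fun y x => (∀ p ∈ y, ∃ i ∈ x 2, ∃ S, S ⊆ x 4 ∧ (pair i S ∈ x 0 ∧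
      ∃ T, T ⊆ x 3 ∧ ((∀ z ∈ T, z ∈ S) ∧ (∀ z ∈ S, z ∈ x 3 → z ∈ T) ∧ p = pair i T))) ∧
      ∀ i ∈ x 2, ∀ S, S ⊆ x 4 → pair i S ∈ x 0 → ∃ T, T ⊆ x 3 ∧ ((∀ z ∈ T, z ∈ S) ∧
        (∀ z ∈ S, z ∈ x 3 → z ∈ T) ∧ pair i T ∈ y))
    (x := asg g g k.toZFSet l.toZFSet κ.toZFSet ∅) ?_ hg.od hg.od
    (asg_ord (isOrdinal_toZFSet _) (isOrdinal_toZFSet _) (isOrdinal_toZFSet _) empty_ord)
    (fun y => ?_) fun z hz => ?_
  · repeat' first
      | exact Dfn.mem _ _ | exact dfn_pm Lvl_sub_Trs _ _ _ | exact dfn_pair Lvl_sub_Trs _ _ _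
      | refine Dfn.exsub subset_rfl _ ?_ | refine Dfn.allsub subset_rfl _ ?_
      | refine Dfn.and ?_ ?_ | refine Dfn.ball Lvl_sub_Trs _ ?_ | refine Dfn.bex Lvl_sub_Trs _ ?_
      | refine Dfn.imp ?_ ?_
  · show ((∀ p ∈ y, ∃ i ∈ k.toZFSet, ∃ S, S ⊆ κ.toZFSet ∧ (pair i S ∈ g ∧
      ∃ T, T ⊆ l.toZFSet ∧ ((∀ z ∈ T, z ∈ S) ∧ (∀ z ∈ S, z ∈ l.toZFSet → z ∈ T) ∧
        p = pair i T))) ∧
      ∀ i ∈ k.toZFSet, ∀ S, S ⊆ κ.toZFSet → pair i S ∈ g → ∃ T, T ⊆ l.toZFSet ∧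
        ((∀ z ∈ T, z ∈ S) ∧ (∀ z ∈ S, z ∈ l.toZFSet → z ∈ T) ∧ pair i T ∈ y)) ↔ _
    have hT : ∀ S T : ZFSet.{u}, T ⊆ l.toZFSet → (∀ z ∈ T, z ∈ S) →
        (∀ z ∈ S, z ∈ l.toZFSet → z ∈ T) → T = S ∩ l.toZFSet := by
      intro S T h1 h2 h3
      ext z
      rw [mem_inter]
      exact ⟨fun h => ⟨h2 z h, h1 h⟩, fun h => h3 z h.1 h.2⟩
    unfold restr
    constructor
    · rintro ⟨h1, h2⟩
      ext p
      rw [mem_gr]
      constructor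
      · intro hp
        obtain ⟨i, hi, S, hS, hiS, T, hT1, hT2, hT3, rfl⟩ := h1 p hp
        refine ⟨i, hi, ?_⟩
        rw [(app_iff hf hi).1 hiS, hT S T hT1 hT2 hT3]
      · rintro ⟨i, hi, rfl⟩
        obtain ⟨T, hT1, hT2, hT3, hT4⟩ := h2 i hi _ (mem_powerset.1 (app_mem hf hi))
          (app_spec hf hi)
        rw [hT _ T hT1 hT2 hT3] at hT4
        exact hT4
    · rintro rfl
      constructor
      · intro p hp
        obtain ⟨i, hi, rfl⟩ := mem_gr.1 hp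
        exact ⟨i, hi, _, mem_powerset.1 (app_mem hf hi), app_spec hf hi, _,
          fun z hz => (mem_inter.1 hz).2, fun z hz => (mem_inter.1 hz).1,
          fun z h1 h2 => mem_inter.2 ⟨h1, h2⟩, rfl⟩
      · intro i hi S hS hiS
        refine ⟨S ∩ l.toZFSet, fun z hz => (mem_inter.1 hz).2, fun z hz => (mem_inter.1 hz).1,
          fun z h1 h2 => mem_inter.2 ⟨h1, h2⟩, ?_⟩
        rw [pair_mem_gr]
        exact ⟨hi, by rw [(app_iff hf hi).1 hiS]⟩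
  · unfold restr at hz
    obtain ⟨i, hi, rfl⟩ := mem_gr.1 hz
    obtain ⟨i, _, rfl⟩ := Ordinal.mem_toZFSet_iff.1 hi
    exact HOD_pair (HOD_ord i) (HOD_inter_ord (hg.mem (app_spec hf hi)).of_pair.2 l)

namespace Normal

variable {κ : Ordinal.{u}} {D : Ultrafilter Ordinal.{u}}

theorem ioi (h : Normal κ D) {ξ : Ordinal.{u}} (hξ : ξ < κ) :
    ∀ᶠ l in (D : Filter Ordinal.{u}), ξ < l := by
  filter_upwards [h.complete ξ hξ (fun i l => l ≠ i) fun i _ => h.free i, h.free ξ] with l h1 h2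
  by_contra hcon
  push Not at hcon
  rcases hcon.eq_or_lt with h3 | h3
  · exact h2 h3
  · exact h1 l h3 rfl

theorem regUnc (h : Normal κ D) : RegUnc κ.toZFSet := by
  refine ⟨isOrdinal_toZFSet κ, ?_, ?_⟩
  · unfold om
    exact tz_mem.2 h.unc
  · intro a ha f hf
    obtain ⟨α, hα, rfl⟩ := Ordinal.mem_toZFSet_iff.1 ha
    by_contra hcon
    push Not at hcon
    have h1 : ∀ i < α, ∀ᶠ l in (D : Filter Ordinal.{u}), rank (app f i.toZFSet) < l := by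
      intro i hi
      refine h.ioi ?_
      have h2 := app_mem hf (tz_mem.2 hi)
      obtain ⟨β, hβ, hβ'⟩ := Ordinal.mem_toZFSet_iff.1 h2
      rw [← hβ', Ordinal.rank_toZFSet]
      exact hβ
    obtain ⟨l, h2, h3⟩ := ((h.complete α hα _ h1).and h.conc).exists
    obtain ⟨x, hx, y, hy, hxy, hyl⟩ := hcon l.toZFSet (tz_mem.2 h3)
    obtain ⟨i, hi, rfl⟩ := Ordinal.mem_toZFSet_iff.1 hx
    have h4 := h2 i hi
    rw [(app_iff hf hx).1 hxy] at h4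
    obtain ⟨β, hβ, rfl⟩ := Ordinal.mem_toZFSet_iff.1 hy
    rw [Ordinal.rank_toZFSet] at h4
    exact hyl (tz_mem.2 h4)

/-- Almost all `l < κ` are regular and uncountable. -/
theorem regUnc_ae (h : Normal κ D) : ∀ᶠ l in (D : Filter Ordinal.{u}), RegUnc l.toZFSet := by
  by_contra hcon
  rw [← Ultrafilter.eventually_not] at hcon
  have h1 : ∀ᶠ l in (D : Filter Ordinal.{u}), ∃ a < l, ∃ f, IsFunc a.toZFSet l.toZFSet f ∧
      ∀ b < l, ∃ i < a, b ≤ rank (app f i.toZFSet) := by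
    filter_upwards [hcon, h.ioi h.unc] with l h1 h2
    unfold RegUnc at h1
    push Not at h1
    obtain ⟨a, ha, f, hf, h3⟩ := h1 (isOrdinal_toZFSet l) (by unfold om; exact tz_mem.2 h2)
    obtain ⟨α, hα, rfl⟩ := Ordinal.mem_toZFSet_iff.1 ha
    refine ⟨α, hα, f, hf, fun b hb => ?_⟩
    obtain ⟨x, hx, y, hy, hxy, hyb⟩ := h3 b.toZFSet (tz_mem.2 hb)
    obtain ⟨i, hi, rfl⟩ := Ordinal.mem_toZFSet_iff.1 hx
    refine ⟨i, hi, ?_⟩
    rw [(app_iff hf hx).1 hxy]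
    obtain ⟨β, hβ, rfl⟩ := Ordinal.mem_toZFSet_iff.1 hy
    rw [Ordinal.rank_toZFSet]
    by_contra h4
    push Not at h4
    exact hyb (tz_mem.2 h4)
  choose! a ha f hf h2 using (fun l (h : ∃ a < l, ∃ f, IsFunc a.toZFSet l.toZFSet f ∧
      ∀ b < l, ∃ i < a, b ≤ rank (app f i.toZFSet)) => h)
  obtain ⟨α, hα⟩ := h.normal a (h1.mono fun l hl => ha l hl)
  have hακ : α < κ := by
    obtain ⟨l, h3, h4, h5⟩ := (hα.and (h1.and h.conc)).exists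
    rw [← h3]
    exact (ha l h4).trans h5
  have h3 : ∀ i < α, ∃ ξ, ∀ᶠ l in (D : Filter Ordinal.{u}), rank (app (f l) i.toZFSet) = ξ := by
    intro i hi
    refine h.normal (fun l => rank (app (f l) i.toZFSet)) ?_
    filter_upwards [hα, h1] with l h3 h4
    have h5 := app_mem (hf l h4) (x := i.toZFSet) (by rw [h3]; exact tz_mem.2 hi)
    obtain ⟨β, hβ, hβ'⟩ := Ordinal.mem_toZFSet_iff.1 h5
    rw [← hβ', Ordinal.rank_toZFSet]
    exact hβ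
  choose! ξ hξ using h3
  have h4 : ∀ i < α, ∀ᶠ l in (D : Filter Ordinal.{u}), ξ i < l := by
    intro i hi
    refine h.ioi ?_
    obtain ⟨l, h5, h6, h7, h8⟩ := ((hξ i hi).and (hα.and (h1.and h.conc))).exists
    rw [← h5]
    have h9 := app_mem (hf l h7) (x := i.toZFSet) (by rw [h6]; exact tz_mem.2 hi)
    obtain ⟨β, hβ, hβ'⟩ := Ordinal.mem_toZFSet_iff.1 h9
    rw [← hβ', Ordinal.rank_toZFSet]
    exact hβ.trans h8
  -- one ordinal `l₀` above all values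
  obtain ⟨l₀, h5, h6⟩ := ((h.complete α hακ _ h4).and h.conc).exists
  obtain ⟨l, h7, h8, h9, h10⟩ := ((h.complete α hακ _ hξ).and (hα.and (h1.and (h.ioi h6)))).exists
  obtain ⟨i, hi, h11⟩ := h2 l h9 l₀ h10
  rw [h8] at hi
  rw [h7 i hi] at h11
  exact absurd h11 (not_le.2 (h5 i hi))

/-- Stationary sets reflect. -/
theorem stat_ae (h : Normal κ D) {S : ZFSet.{u}} (hS : Stat S κ.toZFSet) :
    ∀ᶠ l in (D : Filter Ordinal.{u}), Stat (S ∩ l.toZFSet) l.toZFSet := by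
  classical
  by_contra hcon
  rw [← Ultrafilter.eventually_not] at hcon
  have h1 : ∀ᶠ l in (D : Filter Ordinal.{u}), ∃ C : ZFSet.{u}, C ⊆ l.toZFSet ∧
      Club C l.toZFSet ∧ ∀ x ∈ S, x ∈ l.toZFSet → ¬ x ∈ C := by
    filter_upwards [hcon] with l h1
    unfold Stat at h1
    push Not at h1
    obtain ⟨C, hC1, hC2, hC3⟩ := h1
    exact ⟨C, hC1, hC2, fun x hx hxl => hC3 x (mem_inter.2 ⟨hx, hxl⟩)⟩
  choose! C hC1 hC2 hC3 using (fun l (h : ∃ C : ZFSet.{u}, C ⊆ (Ordinal.toZFSet.{u} l) ∧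
      Club C (Ordinal.toZFSet.{u} l) ∧ ∀ x ∈ S, x ∈ (Ordinal.toZFSet.{u} l) → ¬ x ∈ C) => h)
  obtain ⟨E, hE⟩ : ∃ E : ZFSet.{u}, E = ZFSet.sep (fun x => ∀ᶠ l in (D : Filter Ordinal.{u}),
    x ∈ C l) κ.toZFSet := ⟨_, rfl⟩
  have hE' : ∀ x, x ∈ E ↔ x ∈ κ.toZFSet ∧ ∀ᶠ l in (D : Filter Ordinal.{u}), x ∈ C l := by
    intro x; rw [hE, mem_sep]
  have hclub : Club E κ.toZFSet := by
    refine ⟨fun x hx => ((hE' x).1 hx).1, ?_, ?_⟩
    · intro x hx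
      obtain ⟨ξ, hξ, rfl⟩ := Ordinal.mem_toZFSet_iff.1 hx
      have h2 : ∀ᶠ l in (D : Filter Ordinal.{u}), ∃ c < l, ξ < c ∧ c.toZFSet ∈ C l := by
        filter_upwards [h1, h.ioi hξ] with l h2 h3
        obtain ⟨c, hc, hc'⟩ := (hC2 l h2).2.1 _ (tz_mem.2 h3)
        obtain ⟨γ, hγ, rfl⟩ := Ordinal.mem_toZFSet_iff.1 (hC1 l h2 hc)
        exact ⟨γ, hγ, tz_mem.1 hc', hc⟩
      choose! c hc1 hc2 hc3 using (fun l (h : ∃ c < l, ξ < c ∧ c.toZFSet ∈ C l) => h)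
      obtain ⟨γ, hγ⟩ := h.normal c (h2.mono fun l hl => hc1 l hl)
      obtain ⟨l, h3, h4, h5⟩ := (hγ.and (h2.and h.conc)).exists
      have hγκ : γ < κ := by rw [← h3]; exact (hc1 l h4).trans h5
      refine ⟨γ.toZFSet, (hE' _).2 ⟨tz_mem.2 hγκ, ?_⟩, ?_⟩
      · filter_upwards [hγ, h2] with l h6 h7
        rw [← h6]
        exact hc3 l h7
      · rw [← h3]
        exact tz_mem.2 (hc2 l h4)
    · intro a ha hne hlim
      obtain ⟨α, hα, rfl⟩ := Ordinal.mem_toZFSet_iff.1 ha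
      refine (hE' _).2 ⟨ha, ?_⟩
      have h2 : ∀ ξ < α, ∃ c < α, ξ < c ∧ ∀ᶠ l in (D : Filter Ordinal.{u}), c.toZFSet ∈ C l := by
        intro ξ hξ
        obtain ⟨c, hc1, hc2, hc3⟩ := hlim _ (tz_mem.2 hξ)
        obtain ⟨γ, hγ, rfl⟩ := Ordinal.mem_toZFSet_iff.1 hc2
        exact ⟨γ, hγ, tz_mem.1 hc3, ((hE' _).1 hc1).2⟩
      choose! c hc1 hc2 hc3 using h2
      filter_upwards [h.complete α hα _ hc3, h1, h.ioi hα] with l h3 h4 h5
      refine (hC2 l h4).2.2 _ (tz_mem.2 h5) hne fun x hx => ?_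
      obtain ⟨ξ, hξ, rfl⟩ := Ordinal.mem_toZFSet_iff.1 hx
      exact ⟨(c ξ).toZFSet, h3 ξ hξ, tz_mem.2 (hc1 ξ hξ), tz_mem.2 (hc2 ξ hξ)⟩
  obtain ⟨x, hx, hx'⟩ := hS E hclub.1 hclub
  obtain ⟨l, h2, h3⟩ := ((((hE' x).1 hx').2).and h1).exists
  exact hC3 l h3 x hx (hC1 l h3 h2) h2

/-- Partitions reflect. -/
theorem isPart_ae (h : Normal κ D) {μ : Ordinal.{u}} (hμ : μ < κ) {g : ZFSet.{u}}
    (hg : IsPart μ.toZFSet κ.toZFSet g) : ∀ᶠ l in (D : Filter Ordinal.{u}),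
      IsPart μ.toZFSet l.toZFSet (restr g μ.toZFSet l.toZFSet) := by
  obtain ⟨h1, h2, h3, h4⟩ := hg
  have hst : ∀ i < μ, ∀ᶠ l in (D : Filter Ordinal.{u}),
      Stat (app g i.toZFSet ∩ l.toZFSet) l.toZFSet := by
    intro i hi
    have hi' := tz_mem.2 hi
    exact h.stat_ae (h2 _ hi' _ (mem_powerset.1 (app_mem h1 hi')) (app_spec h1 hi'))
  filter_upwards [h.complete μ hμ _ hst, h.conc] with l h5 h6
  unfold restr
  refine ⟨isFunc_gr fun i hi => ?_, ?_, ?_, ?_⟩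
  · rw [mem_powerset]
    exact fun z hz => (mem_inter.1 hz).2
  · intro i hi S hS hiS
    obtain ⟨i, hi', rfl⟩ := Ordinal.mem_toZFSet_iff.1 hi
    rw [pair_mem_gr] at hiS
    rw [← hiS.2]
    exact h5 i hi'
  · rintro i hi i' hi' S hS S' hS' hiS hiS' ⟨a, ha, ha'⟩
    rw [pair_mem_gr] at hiS hiS'
    rw [← hiS.2, mem_inter] at ha
    rw [← hiS'.2, mem_inter] at ha'
    exact h3 i hi i' hi' _ (mem_powerset.1 (app_mem h1 hi)) _ (mem_powerset.1 (app_mem h1 hi'))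
      (app_spec h1 hi) (app_spec h1 hi') ⟨a, ha.1, ha'.1⟩
  · intro a ha
    obtain ⟨α, hα, rfl⟩ := Ordinal.mem_toZFSet_iff.1 ha
    rw [h4 _ (tz_mem.2 (hα.trans h6))]
    constructor
    · rintro ⟨i, hi, S, hS, hiS, haS⟩
      refine ⟨i, hi, S ∩ l.toZFSet, fun z hz => (mem_inter.1 hz).2, ?_, mem_inter.2 ⟨haS, ha⟩⟩
      rw [pair_mem_gr]
      exact ⟨hi, by rw [(app_iff h1 hi).1 hiS]⟩
    · rintro ⟨i, hi, S, hS, hiS, haS⟩
      rw [pair_mem_gr] at hiS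
      rw [← hiS.2, mem_inter] at haS
      exact ⟨i, hi, _, mem_powerset.1 (app_mem h1 hi), app_spec h1 hi, haS.1⟩

/-- If `κ` is not `ω`-strongly measurable in `HOD`, then almost all `l < κ` are not. -/
theorem notStrMeas_ae (h : Normal κ D) {b : Bool} (hn : NotStrMeas b κ) :
    ∀ᶠ l in (D : Filter Ordinal.{u}), NotStrMeas b l := by
  by_contra hcon
  rw [← Ultrafilter.eventually_not] at hcon
  have h1 : ∀ᶠ l in (D : Filter Ordinal.{u}), ∃ μ < l, Index b μ.toZFSet ∧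
      FewSub HOD μ.toZFSet l.toZFSet ∧ ¬ ∃ g, HOD g ∧ IsPart μ.toZFSet l.toZFSet g := by
    filter_upwards [hcon, h.regUnc_ae] with l h1 h2
    rw [NotStrMeas] at h1
    push Not at h1
    obtain ⟨_, k, hk, h3, h4, h5⟩ := h1 h2
    obtain ⟨μ, hμ, rfl⟩ := Ordinal.mem_toZFSet_iff.1 hk
    exact ⟨μ, hμ, h3, h4, h5⟩
  choose! m hm1 hm2 hm3 hm4 using (fun l (h : ∃ μ < l, Index b (Ordinal.toZFSet.{u} μ) ∧
      FewSub HOD (Ordinal.toZFSet.{u} μ) (Ordinal.toZFSet.{u} l) ∧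
      ¬ ∃ g, HOD g ∧ IsPart (Ordinal.toZFSet.{u} μ) (Ordinal.toZFSet.{u} l) g) => h)
  obtain ⟨μ, hμ⟩ := h.normal m (h1.mono fun l hl => hm1 l hl)
  obtain ⟨l, h2, h3, h4⟩ := (hμ.and (h1.and h.conc)).exists
  have hμκ : μ < κ := by rw [← h2]; exact (hm1 l h3).trans h4
  have hfew : FewSub HOD μ.toZFSet κ.toZFSet := by
    have h5 := hm3 l h3
    rw [h2] at h5
    obtain ⟨n, hn, g, hg⟩ := h5
    obtain ⟨ν, hν, rfl⟩ := Ordinal.mem_toZFSet_iff.1 hn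
    exact ⟨_, tz_mem.2 (hν.trans h4), g, hg⟩
  have hix : Index b μ.toZFSet := by
    have h5 := hm2 l h3
    rwa [h2] at h5
  rw [notStrMeas_iff] at hn
  obtain ⟨g, hg, hp⟩ := hn.2 _ (tz_mem.2 hμκ) hix hfew
  obtain ⟨l, h5, h6, h7⟩ := ((h.isPart_ae hμκ hp).and (hμ.and h1)).exists
  have h8 := hm4 l h7
  rw [h6] at h8
  exact h8 ⟨_, HOD_restr hg hp.1, h5⟩

end Normal

end Pool.Agent.H310.HD
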