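import Pool.Agent.H310.HD.Alt

/-!
Definability from ordinals and a set parameter.
-/

set_option autoImplicit false
set_option linter.unusedVariables false

namespace Pool.Agent.H310.HD

open ZFSet Gss969

universe u

/-- `x` is definable over some `V_α` from the set `p` and ordinals: the variable `x_0` stands for
`x`, `x_1` for `p`, the other variables for ordinals. -/
def ODp (p x : ZFSet.{u}) : Prop :=
  ∃ (α : Ordinal.{u}) (φ : Fml) (s : ℕ → ZFSet.{u}), (∀ i, s i ∈ V_ α ∧ (s i).IsOrdinal) ∧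
    p ∈ V_ α ∧ x ∈ V_ α ∧
      ∀ y ∈ V_ α, (Sat (V_ α) (Function.update (Function.update s 1 p) 0 y) φ ↔ y = x)

/-- `x` is hereditarily definable from ordinals and `p`. -/
def HODp (p x : ZFSet.{u}) : Prop :=
  ∃ t : ZFSet.{u}, t.IsTransitive ∧ x ∈ t ∧ ∀ y ∈ t, ODp p y

theorem HODp.odp {p x : ZFSet.{u}} (h : HODp p x) : ODp p x := by
  obtain ⟨t, _, hx, h1⟩ := h
  exact h1 x hx

/-- The variables of a formula can be shifted: `x_1` becomes unused. -/
theorem exists_shift (φ : Fml) : ∃ ψ : Fml, ∀ U ∈ Trs.{u}, ∀ v : ℕ → ZFSet.{u}, (∀ i, v i ∈ U) →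
    (Sat U v ψ ↔ Sat U (fun n => if n = 0 then v 0 else v (n + 1)) φ) := by
  induction φ with
  | mem i j =>
    refine ⟨.mem (if i = 0 then 0 else i + 1) (if j = 0 then 0 else j + 1), fun U hU v hv => ?_⟩
    simp only [Sat]
    by_cases hi : i = 0 <;> by_cases hj : j = 0 <;> simp [hi, hj]
  | eq i j =>
    refine ⟨.eq (if i = 0 then 0 else i + 1) (if j = 0 then 0 else j + 1), fun U hU v hv => ?_⟩
    simp only [Sat]
    by_cases hi : i = 0 <;> by_cases hj : j = 0 <;> simp [hi, hj]
  | neg φ ih =>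
    obtain ⟨ψ, h⟩ := ih
    exact ⟨.neg ψ, fun U hU v hv => by simp only [Sat]; exact not_congr (h U hU v hv)⟩
  | and φ φ' ih ih' =>
    obtain ⟨ψ, h⟩ := ih
    obtain ⟨ψ', h'⟩ := ih'
    exact ⟨.and ψ ψ', fun U hU v hv => by
      simp only [Sat]; exact and_congr (h U hU v hv) (h' U hU v hv)⟩
  | ex i φ ih =>
    obtain ⟨ψ, h⟩ := ih
    refine ⟨.ex (if i = 0 then 0 else i + 1) ψ, fun U hU v hv => ?_⟩
    simp only [Sat]
    refine exists_congr fun a => and_congr_right fun ha => ?_
    rw [h U hU _ (by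
      intro k
      by_cases hk : k = (if i = 0 then 0 else i + 1)
      · rw [hk]; simpa using ha
      · rw [Function.update_of_ne hk]; exact hv k)]
    have : (fun n => if n = 0 then Function.update v (if i = 0 then 0 else i + 1) a 0
        else Function.update v (if i = 0 then 0 else i + 1) a (n + 1)) =
        Function.update (fun n => if n = 0 then v 0 else v (n + 1)) i a := by
      funext n
      by_cases hi : i = 0
      · subst hi
        by_cases hn : n = 0
        · subst hn; simp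
        · simp [hn]
      · by_cases hn : n = 0
        · subst hn
          have : (0 : ℕ) ≠ i := fun h => hi h.symm
          simp [hi, this]
        · by_cases hni : n = i
          · subst hni; simp [hn]
          · simp [hn, hi, hni]
    rw [this]

theorem OD.odp {x : ZFSet.{u}} (h : OD x) (p : ZFSet.{u}) : ODp p x := by
  -- definable over a larger level
  have h1 : ∃ (α : Ordinal.{u}) (φ : Fml) (s : ℕ → ZFSet.{u}), (∀ i, s i ∈ V_ α ∧
      (s i).IsOrdinal) ∧ p ∈ V_ α ∧ x ∈ V_ α ∧
      ∀ y ∈ V_ α, (Sat (V_ α) (Function.update s 0 y) φ ↔ y = x) := by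
    obtain ⟨φ, q, hq, hq'⟩ := h.exists_def
    obtain ⟨β, hβ, hβ2, hβ3⟩ := exists_limit_gt (max (q 0) (max (rank p) (rank x)))
    obtain ⟨ψ, hψ⟩ := (dfn_Def φ 0 (fun n => n + 1)) (fun n => 2 * n) (by
      refine Set.infinite_of_injective_forall_mem (f := fun n : ℕ => 2 * n + 1) ?_ ?_
      · intro a b hab; simpa using hab
      · rintro n ⟨m, hm⟩
        simp only at hm
        omega)
    have hqβ : ∀ i, (q i).toZFSet ∈ V_ β := fun i => by
      rw [mem_vonNeumann, Ordinal.rank_toZFSet]
      exact (hq' i).trans_lt ((le_max_left _ _).trans_lt hβ)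
    refine ⟨β, ψ, fun n => (q (n / 2 - 1)).toZFSet, fun i => ⟨hqβ _, isOrdinal_toZFSet _⟩,
      mem_vonNeumann.2 (((le_max_left _ _).trans (le_max_right _ _)).trans_lt hβ),
      mem_vonNeumann.2 (((le_max_right _ _).trans (le_max_right _ _)).trans_lt hβ),
      fun y hy => ?_⟩
    rw [hψ (V_ β) ⟨β, hβ3, hβ2, rfl⟩ _ (by
      intro i
      by_cases hi : i = 0
      · subst hi; simpa using hy
      · rw [Function.update_of_ne hi]; exact hqβ _)]
    have e : (fun n => Function.update (fun n => (q (n / 2 - 1)).toZFSet) 0 y (2 * (n + 1))) =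
        fun i => (q i).toZFSet := by
      funext i
      rw [Function.update_of_ne (by omega)]
      congr 2
      omega
    show Def φ (Function.update (fun n => (q (n / 2 - 1)).toZFSet) 0 y (2 * 0))
      (fun n => Function.update (fun n => (q (n / 2 - 1)).toZFSet) 0 y (2 * (n + 1))) ↔ _
    rw [e]
    simp only [Nat.mul_zero, Function.update_self]
    exact ⟨fun h' => h'.unique hq, fun h' => by rw [h']; exact hq⟩
  obtain ⟨α, φ, s, hs, hp, hx, h2⟩ := h1
  obtain ⟨ψ, hψ⟩ := exists_shift φ
  refine ⟨α, ψ, fun n => s (n - 1), fun i => hs _, hp, hx, fun y hy => ?_⟩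
  rw [hψ _ (isTransitive_vonNeumann α) _ (by
    intro i
    by_cases hi : i = 0
    · subst hi; simpa using hy
    · rw [Function.update_of_ne hi]
      by_cases hi1 : i = 1
      · subst hi1; simpa using hp
      · rw [Function.update_of_ne hi1]; exact (hs _).1), ← h2 y hy]
  have : (fun n => if n = 0 then Function.update (Function.update (fun n => s (n - 1)) 1 p) 0 y 0
      else Function.update (Function.update (fun n => s (n - 1)) 1 p) 0 y (n + 1)) =
      Function.update s 0 y := by
    funext n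
    by_cases hn : n = 0
    · subst hn; simp
    · rw [if_neg hn, Function.update_of_ne (by omega), Function.update_of_ne (by omega),
        Function.update_of_ne hn]
      simp
  rw [this]

theorem HOD.hodp {x : ZFSet.{u}} (h : HOD x) (p : ZFSet.{u}) : HODp p x := by
  obtain ⟨t, ht, hx, h1⟩ := h
  exact ⟨t, ht, hx, fun y hy => (h1 y hy).odp p⟩

/-- In `U` the formula `φ` defines `Z` from `y` and the parameters. -/
def Val (φ : Fml) (w : ℕ → ZFSet.{u}) : Prop :=
  w 2 ∈ w 0 ∧ w 1 ∈ w 0 ∧
    ∀ Z' ∈ w 0, (Sat (w 0) (fun n => if n = 0 then Z' else if n = 1 then w 1 else w (n + 3)) φ ↔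
      Z' = w 2)

theorem dfn_Val (φ : Fml) : Dfn Lvl.{u} (Val φ) := by
  refine (Dfn.mem _ _).and ((Dfn.mem _ _).and (Dfn.ball Lvl_sub_Trs _ (Dfn.iff ?_ (Dfn.eq _ _))))
  refine ((dfn_Sat φ 1 (fun n => if n = 0 then 0 else if n = 1 then 2 else n + 3 + 1)).mono
    Lvl_sub_Trs).congr fun v => ?_
  have : (fun n => v (if n = 0 then 0 else if n = 1 then 2 else n + 3 + 1)) =
      fun n => if n = 0 then v 0 else if n = 1 then v 2 else v (n + 3 + 1) := by
    funext n
    by_cases h0 : n = 0
    · simp [h0]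
    · by_cases h1 : n = 1
      · simp [h1]
      · simp [h0, h1]
  rw [this]

/-- Assignment with parameters `U, y, Z` and a sequence of ordinals. -/
def vas (U y Z : ZFSet.{u}) (s : ℕ → ZFSet.{u}) : ℕ → ZFSet.{u}
  | 0 => U
  | 1 => y
  | 2 => Z
  | (n + 3) => s n

theorem Val.unique {φ : Fml} {U y Z Z' : ZFSet.{u}} {s : ℕ → ZFSet.{u}}
    (h : Val φ (vas U y Z s)) (h' : Val φ (vas U y Z' s)) : Z = Z' := by
  have h1 := (h.2.2 Z h.1).2 rfl
  exact (h'.2.2 Z h.1).1 h1

theorem ODp.val {p x : ZFSet.{u}} (h : ODp p x) : ∃ (α : Ordinal.{u}) (φ : Fml)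
    (s : ℕ → Ordinal.{u}), p ∈ V_ α ∧ Val φ (vas (V_ α) p x fun n => (s n).toZFSet) := by
  obtain ⟨α, φ, s, hs, hp, hx, h1⟩ := h
  refine ⟨α, φ, fun n => rank (s n), hp, hx, hp, fun y hy => ?_⟩
  show Sat (V_ α) (fun n => if n = 0 then y else if n = 1 then p else (rank (s n)).toZFSet) φ ↔
    y = x
  rw [← h1 y hy]
  have : (fun n => if n = 0 then y else if n = 1 then p else (rank (s n)).toZFSet) =
      Function.update (Function.update s 1 p) 0 y := by
    funext n
    by_cases h0 : n = 0
    · subst h0; simp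
    · by_cases h1 : n = 1
      · subst h1; simp
      · rw [Function.update_of_ne h0, Function.update_of_ne h1, if_neg h0, if_neg h1,
          (hs n).2.toZFSet_rank_eq]
  rw [this]

theorem OD_V (α : Ordinal.{u}) : OD (V_ α) := by
  have h0 := OD_ord (0 : Ordinal.{u})
  rw [Ordinal.toZFSet_zero] at h0
  refine OD_of (R := fun y x => LevOf y (x 2)) (x := asg ∅ ∅ α.toZFSet ∅ ∅ ∅) (dfn_LevOf _ _) h0 h0
    (asg_ord (isOrdinal_toZFSet _) empty_ord empty_ord empty_ord) fun y => ?_
  exact levOf_iff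

end Pool.Agent.H310.HD
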