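import Pool.Agent.H310.HD.Par

/-!
Set parameters do not matter: singular cardinals, and families of disjoint stationary sets.
-/

set_option autoImplicit false
set_option linter.unusedVariables false

namespace Pool.Agent.H310.HD

open ZFSet Gss969

universe u

/-- **Singular cardinals.** A cardinal larger than `|V_ρ|` which is singular in `HOD_p`, `p ∈ V_ρ`,
is singular in `HOD`. -/
theorem sing_of_par {p : ZFSet.{u}} {ρ γ : Ordinal.{u}} (hp : p ∈ V_ ρ)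
    (hγ : IsCard γ.toZFSet) (hω : Ordinal.omega0 < γ) (hbig : card (V_ ρ) < γ.card)
    (hs : CofinalP (HODp p) γ.toZFSet) : CofinalP HOD γ.toZFSet := by
  classical
  obtain ⟨c, hc, g, hg, hgf, hgc⟩ := hs
  obtain ⟨c, hc', rfl⟩ := Ordinal.mem_toZFSet_iff.1 hc
  obtain ⟨α, φ, s, hpα, hval⟩ := hg.odp.val
  -- the set of all values
  obtain ⟨W, hW⟩ : ∃ W : ZFSet.{u}, W = ZFSet.sep (fun ξ => ∃ y ∈ V_ ρ, ∃ Z ∈ V_ α,
    Val φ (vas (V_ α) y Z fun n => (s n).toZFSet) ∧ (IsFunc c.toZFSet γ.toZFSet Z ∧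
      ∃ i ∈ c.toZFSet, pair i ξ ∈ Z)) γ.toZFSet := ⟨_, rfl⟩
  have hW' : ∀ ξ, ξ ∈ W ↔ ξ ∈ γ.toZFSet ∧ ∃ y ∈ V_ ρ, ∃ Z ∈ V_ α,
      Val φ (vas (V_ α) y Z fun n => (s n).toZFSet) ∧ (IsFunc c.toZFSet γ.toZFSet Z ∧
      ∃ i ∈ c.toZFSet, pair i ξ ∈ Z) := by
    intro ξ; rw [hW, mem_sep]
  have hWO : OD W := by
    refine OD_of (R := fun w x => (∀ ξ ∈ w, ξ ∈ x 2 ∧ ∃ y ∈ x 1, ∃ Z ∈ x 0,
        Val φ (vas (x 0) y Z fun n => x (n + 4)) ∧ (IsFunc (x 3) (x 2) Z ∧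
          ∃ i ∈ x 3, pair i ξ ∈ Z)) ∧
        ∀ ξ ∈ x 2, (∃ y ∈ x 1, ∃ Z ∈ x 0,
        Val φ (vas (x 0) y Z fun n => x (n + 4)) ∧ (IsFunc (x 3) (x 2) Z ∧
          ∃ i ∈ x 3, pair i ξ ∈ Z)) → ξ ∈ w)
      (x := fun n => Nat.casesOn n (V_ α) fun n => Nat.casesOn n (V_ ρ) fun n =>
        Nat.casesOn n γ.toZFSet fun n => Nat.casesOn n c.toZFSet fun n => (s n).toZFSet) ?_
      (OD_V α) (OD_V ρ) ?_ fun w => ?_
    · have hv : ∀ a b c' : ℕ, Dfn Lvl.{u} (fun v => Val φ (vas (v (a + 2)) (v 1) (v 0)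
          fun n => v (n + 4 + a + 2))) := by
        intro a b c'
        refine (Dfn_reindex (dfn_Val φ) (fun n => Nat.casesOn n (a + 2) fun n =>
          Nat.casesOn n 1 fun n => Nat.casesOn n 0 fun n => n + 4 + a + 2)).congr fun v => ?_
        have : (fun n => v (Nat.casesOn n (a + 2) fun n =>
          Nat.casesOn n 1 fun n => Nat.casesOn n 0 fun n => n + 4 + a + 2)) =
            vas (v (a + 2)) (v 1) (v 0) fun n => v (n + 4 + a + 2) := by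
          funext n
          rcases n with _ | n
          · rfl
          rcases n with _ | n
          · rfl
          rcases n with _ | n
          · rfl
          · rfl
        rw [this]
      refine Dfn.and ?_ ?_
      · refine Dfn.ball Lvl_sub_Trs _ ((Dfn.mem _ _).and (Dfn.bex Lvl_sub_Trs _
          (Dfn.bex Lvl_sub_Trs _ (Dfn.and (hv 2 0 0) ((dfn_isFunc Lvl_sub_Trs _ _ _).and
            (Dfn.bex Lvl_sub_Trs _ (dfn_pm Lvl_sub_Trs _ _ _)))))))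
      · refine Dfn.ball Lvl_sub_Trs _ (Dfn.imp (Dfn.bex Lvl_sub_Trs _
          (Dfn.bex Lvl_sub_Trs _ (Dfn.and (hv 2 0 0) ((dfn_isFunc Lvl_sub_Trs _ _ _).and
            (Dfn.bex Lvl_sub_Trs _ (dfn_pm Lvl_sub_Trs _ _ _)))))) (Dfn.mem _ _))
    · intro i
      rcases i with _ | i
      · exact isOrdinal_toZFSet _
      rcases i with _ | i
      · exact isOrdinal_toZFSet _
      · exact isOrdinal_toZFSet _
    · show ((∀ ξ ∈ w, ξ ∈ γ.toZFSet ∧ ∃ y ∈ V_ ρ, ∃ Z ∈ V_ α,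
        Val φ (vas (V_ α) y Z fun n => (s n).toZFSet) ∧ (IsFunc c.toZFSet γ.toZFSet Z ∧
          ∃ i ∈ c.toZFSet, pair i ξ ∈ Z)) ∧
        ∀ ξ ∈ γ.toZFSet, (∃ y ∈ V_ ρ, ∃ Z ∈ V_ α,
        Val φ (vas (V_ α) y Z fun n => (s n).toZFSet) ∧ (IsFunc c.toZFSet γ.toZFSet Z ∧
          ∃ i ∈ c.toZFSet, pair i ξ ∈ Z)) → ξ ∈ w) ↔ _
      constructor
      · rintro ⟨h1, h2⟩
        ext a
        rw [hW']
        exact ⟨h1 a, fun h => h2 a h.1 h.2⟩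
      · rintro rfl
        exact ⟨fun a ha => (hW' a).1 ha, fun a h1 h2 => (hW' a).2 ⟨h1, h2⟩⟩
  have hunb : ∀ ξ < γ, ∃ η < γ, ξ < η ∧ η.toZFSet ∈ W := by
    intro ξ hξ
    obtain ⟨i, hi, z, hz, h1, h2⟩ := hgc _ (tz_mem.2 hξ)
    obtain ⟨z, hz', rfl⟩ := Ordinal.mem_toZFSet_iff.1 hz
    exact ⟨z, hz', tz_mem.1 h2, (hW' _).2 ⟨hz, p, hp, g, hval.1, hval, hgf, i, hi, h1⟩⟩
  by_contra hcon
  have hen := enum_all hWO hunb hcon
  obtain ⟨_, hSb⟩ := enum_gr (W := W) (l := γ) (k := γ) hen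
  have hmono := Ordinal.enumOrd_strictMono hSb
  -- an injection of `γ` into `V_ρ × c`
  have hex : ∀ i : Set.Iio γ, ∃ q : {y // y ∈ V_ ρ} × Set.Iio c, ∃ Z ∈ V_ α,
      Val φ (vas (V_ α) q.1.1 Z fun n => (s n).toZFSet) ∧ (IsFunc c.toZFSet γ.toZFSet Z ∧
        pair q.2.1.toZFSet (Ordinal.enumOrd {η | η.toZFSet ∈ W ∨ γ ≤ η} i.1).toZFSet ∈ Z) := by
    rintro ⟨i, hi⟩
    have h1 : (Ordinal.enumOrd {η | η.toZFSet ∈ W ∨ γ ≤ η} i).toZFSet ∈ W := by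
      rcases Ordinal.enumOrd_mem hSb i with h1 | h1
      · exact h1
      · exact absurd h1 (not_le.2 (hen i hi))
    obtain ⟨_, y, hy, Z, hZ, hv, hf, k, hk, h2⟩ := (hW' _).1 h1
    obtain ⟨k, hk', rfl⟩ := Ordinal.mem_toZFSet_iff.1 hk
    exact ⟨(⟨y, hy⟩, ⟨k, hk'⟩), Z, hZ, hv, hf, h2⟩
  choose Q hQ using hex
  have hinj : Function.Injective Q := by
    intro i i' h
    obtain ⟨Z, _, hv, hf, h1⟩ := hQ i
    obtain ⟨Z', _, hv', hf', h1'⟩ := hQ i'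
    rw [← h] at hv' h1'
    have h2 : Z = Z' := hv.unique hv'
    rw [← h2] at h1'
    have hk : (Q i).2.1.toZFSet ∈ c.toZFSet := tz_mem.2 (Q i).2.2
    have h3 := (app_iff hf hk).1 h1
    rw [(app_iff hf hk).1 h1'] at h3
    exact Subtype.ext (hmono.injective (Ordinal.toZFSet_injective h3.symm))
  have h1 := Cardinal.mk_le_of_injective hinj
  rw [Cardinal.mk_prod, Cardinal.mk_Iio_ordinal, Cardinal.mk_Iio_ordinal] at h1
  have h2 : Cardinal.mk {y // y ∈ V_ ρ} = Cardinal.lift.{u + 1} (card (V_ ρ)) :=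
    cardinalMk_coe_sort
  rw [h2, Cardinal.lift_lift, Cardinal.lift_lift, ← Cardinal.lift_mul, Cardinal.lift_le] at h1
  have h3 : Cardinal.aleph0 ≤ γ.card := by
    have := Ordinal.card_le_card hω.le
    rwa [Ordinal.card_omega0] at this
  exact absurd h1 (not_le.2 (Cardinal.mul_lt_of_lt h3 hbig (hγ.card_lt hc')))

end Pool.Agent.H310.HD
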