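import Pool.Agent.H310.HD.Par2

/-!
Set parameters do not matter: families of disjoint stationary sets.
-/

set_option autoImplicit false
set_option linter.unusedVariables false

namespace Pool.Agent.H310.HD

open ZFSet Gss969

universe u

/-- Functions from `V_ρ` to a regular cardinal `μ > |V_ρ|` are bounded. -/
theorem RegUnc.bdd_V {μ ρ : Ordinal.{u}} (hμ : RegUnc μ.toZFSet) (hbig : card (V_ ρ) < μ.card)
    (F : ZFSet.{u} → Ordinal.{u}) (hF : ∀ y ∈ V_ ρ, F y < μ) : ∃ b < μ, ∀ y ∈ V_ ρ, F y < b := by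
  have hlt : (card (V_ ρ)).ord < μ := by
    by_contra hcon
    push Not at hcon
    have := Ordinal.card_le_card hcon
    rw [Cardinal.card_ord] at this
    exact absurd hbig (not_lt.2 this)
  have h1 : Cardinal.mk (Set.Iio (card (V_ ρ)).ord) = Cardinal.mk {y // y ∈ V_ ρ} := by
    rw [Cardinal.mk_Iio_ordinal, Cardinal.card_ord]
    exact cardinalMk_coe_sort.symm
  obtain ⟨e⟩ := Cardinal.eq.1 h1
  obtain ⟨b, hb, h⟩ := hμ.bdd hlt (fun i => if hi : i < (card (V_ ρ)).ord then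
    F (e ⟨i, hi⟩).1 else 0) (fun i hi => by
      simp only [dif_pos hi]
      exact hF _ (e ⟨i, hi⟩).2)
  refine ⟨b, hb, fun y hy => ?_⟩
  have h2 := h (e.symm ⟨y, hy⟩).1 (e.symm ⟨y, hy⟩).2
  have h3 : ((e.symm ⟨y, hy⟩).1 : Ordinal.{u}) < (card (V_ ρ)).ord := (e.symm ⟨y, hy⟩).2
  simp only [dif_pos h3] at h2
  have h4 : (⟨(e.symm ⟨y, hy⟩).1, h3⟩ : Set.Iio (card (V_ ρ)).ord) = e.symm ⟨y, hy⟩ := rfl
  rw [h4, Equiv.apply_symm_apply] at h2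
  exact h2

/-- The values of `Z` are disjoint. -/
def Dj (k l Z : ZFSet.{u}) : Prop :=
  ∀ i ∈ k, ∀ i' ∈ k, ∀ A, A ⊆ l → ∀ A', A' ⊆ l → pair i A ∈ Z → pair i' A' ∈ Z →
    (∃ a ∈ A, a ∈ A') → i = i'

theorem dfn_Dj (a b c : ℕ) : Dfn Lvl.{u} (fun v => Dj (v a) (v b) (v c)) := by
  unfold Dj
  repeat' first
    | exact Dfn.mem _ _ | exact Dfn.eq _ _ | exact dfn_pm Lvl_sub_Trs _ _ _
    | refine Dfn.allsub subset_rfl _ ?_
    | refine Dfn.ball Lvl_sub_Trs _ ?_ | refine Dfn.bex Lvl_sub_Trs _ ?_ | refine Dfn.imp ?_ ?_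

/-- `a` belongs to the `i`-th set of the family defined from `y`; the variables are
`i, y, a, U, l, k, s`. -/
def HitP (φ : Fml) (w : ℕ → ZFSet.{u}) : Prop :=
  ∃ Z ∈ w 3, Val φ (vas (w 3) (w 1) Z fun n => w (n + 6)) ∧ (Dj (w 5) (w 4) Z ∧
    ∃ A, A ⊆ w 4 ∧ (pair (w 0) A ∈ Z ∧ w 2 ∈ A))

theorem dfn_HitP (φ : Fml) : Dfn Lvl.{u} (HitP φ) := by
  refine Dfn.bex Lvl_sub_Trs _ (Dfn.and ?_ ((dfn_Dj _ _ _).and (Dfn.exsub subset_rfl _
    ((dfn_pm Lvl_sub_Trs _ _ _).and (Dfn.mem _ _)))))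
  refine (Dfn_reindex (dfn_Val φ) (fun n => Nat.casesOn n 4 fun n =>
    Nat.casesOn n 2 fun n => Nat.casesOn n 0 fun n => n + 6 + 1)).congr fun v => ?_
  have : (fun n => v (Nat.casesOn n 4 fun n =>
    Nat.casesOn n 2 fun n => Nat.casesOn n 0 fun n => n + 6 + 1)) =
      vas (v 4) (v 2) (v 0) fun n => v (n + 6 + 1) := by
    funext n
    rcases n with _ | n
    · rfl
    rcases n with _ | n
    · rfl
    rcases n with _ | n
    · rfl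
    · rfl
  rw [this]

/-- Assignment for `HitP`. -/
def has (i y a U l k : ZFSet.{u}) (s : ℕ → ZFSet.{u}) : ℕ → ZFSet.{u}
  | 0 => i
  | 1 => y
  | 2 => a
  | 3 => U
  | 4 => l
  | 5 => k
  | (n + 6) => s n

theorem dfn_has (φ : Fml) (i y a U l k t : ℕ) :
    Dfn Lvl.{u} (fun v => HitP φ (has (v i) (v y) (v a) (v U) (v l) (v k) fun n => v (n + t))) := by
  refine (Dfn_reindex (dfn_HitP φ) (fun n => Nat.casesOn n i fun n => Nat.casesOn n y fun n =>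
    Nat.casesOn n a fun n => Nat.casesOn n U fun n => Nat.casesOn n l fun n => Nat.casesOn n k
      fun n => n + t)).congr fun v => ?_
  have : (fun n => v (Nat.casesOn n i fun n => Nat.casesOn n y fun n =>
    Nat.casesOn n a fun n => Nat.casesOn n U fun n => Nat.casesOn n l fun n => Nat.casesOn n k
      fun n => n + t)) = has (v i) (v y) (v a) (v U) (v l) (v k) fun n => v (n + t) := by
    funext n
    rcases n with _ | n
    · rfl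
    rcases n with _ | n
    · rfl
    rcases n with _ | n
    · rfl
    rcases n with _ | n
    · rfl
    rcases n with _ | n
    · rfl
    rcases n with _ | n
    · rfl
    · rfl
  rw [this]

/-- `η` is the least bound `< μ` for the indices of `a`. -/
def KP (φ : Fml) (a η U X l μ k m : ZFSet.{u}) (s : ℕ → ZFSet.{u}) : Prop :=
  CofN m a ∧ ((∀ y ∈ X, ∀ i ∈ μ, HitP φ (has i y a U l k s) → i ∈ η) ∧
    ∀ η' ∈ η, ∃ y ∈ X, ∃ i ∈ μ, HitP φ (has i y a U l k s) ∧ ¬ i ∈ η')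

theorem dfn_KP (φ : Fml) (a η U X l μ k m t : ℕ) :
    Dfn Lvl.{u} (fun v => KP φ (v a) (v η) (v U) (v X) (v l) (v μ) (v k) (v m)
      fun n => v (n + t)) := by
  unfold KP
  refine (dfn_CofN _ _).and (Dfn.and ?_ ?_)
  · exact Dfn.ball Lvl_sub_Trs _ (Dfn.ball Lvl_sub_Trs _
      ((dfn_has φ 0 1 (a + 2) (U + 2) (l + 2) (k + 2) (t + 2)).imp (Dfn.mem _ _)))
  · exact Dfn.ball Lvl_sub_Trs _ (Dfn.bex Lvl_sub_Trs _ (Dfn.bex Lvl_sub_Trs _
      ((dfn_has φ 0 1 (a + 3) (U + 3) (l + 3) (k + 3) (t + 3)).and (Dfn.not (Dfn.mem _ _)))))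

/-- The function `T` on the points of cofinality at most `m` obtained from all parameters. -/
theorem exists_Tpar {p S : ZFSet.{u}} {ρ m k l μ : Ordinal.{u}} (hp : p ∈ V_ ρ)
    (hμr : RegUnc μ.toZFSet) (hbig : card (V_ ρ) < μ.card) (hμk : μ ≤ k) (hμl : μ < l)
    (hl : RegUnc l.toZFSet) (hS : HODp p S) (hF : Fam m.toZFSet k.toZFSet l.toZFSet S) :
    ∃ T, OD T ∧ (∀ α η, pair α η ∈ T → α ∈ l.toZFSet ∧ η ∈ μ.toZFSet ∧ CofN m.toZFSet α) ∧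
      (∀ α η η', pair α η ∈ T → pair α η' ∈ T → η = η') ∧
      ∀ ξ < μ, ∃ η < μ, ξ < η ∧ StatL {α | pair α.toZFSet η.toZFSet ∈ T} l := by
  classical
  obtain ⟨β, φ, s, hpβ, hval⟩ := hS.odp.val
  let σ : ℕ → ZFSet.{u} := fun n => (s n).toZFSet
  let H : ZFSet.{u} → ZFSet.{u} → ZFSet.{u} → Prop := fun i y a =>
    HitP φ (has i y a (V_ β) l.toZFSet k.toZFSet σ)
  let K : ZFSet.{u} → ZFSet.{u} → Prop := fun a η =>
    KP φ a η (V_ β) (V_ ρ) l.toZFSet μ.toZFSet k.toZFSet m.toZFSet σ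
  have hμk' : μ.toZFSet ⊆ k.toZFSet := by
    intro x hx
    obtain ⟨x, hx', rfl⟩ := Ordinal.mem_toZFSet_iff.1 hx
    exact tz_mem.2 (hx'.trans_le hμk)
  -- at most one index for each `y`
  have huniq : ∀ i ∈ μ.toZFSet, ∀ i' ∈ μ.toZFSet, ∀ y a, H i y a → H i' y a → i = i' := by
    rintro i hi i' hi' y a ⟨Z, hZ, hv, hd, A, hA, h1, h2⟩ ⟨Z', hZ', hv', hd', A', hA', h1', h2'⟩
    have : Z = Z' := Val.unique hv hv'
    subst this
    exact hd i (hμk' hi) i' (hμk' hi') A hA A' hA' h1 h1' ⟨a, h2, h2'⟩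
  -- the least bound exists
  have hK : ∀ a, CofN m.toZFSet a → ∃ η < μ, K a (Ordinal.toZFSet η) := by
    intro a ha
    obtain ⟨b, hb, h1⟩ := hμr.bdd_V hbig (fun y => if h : ∃ i < μ, H (Ordinal.toZFSet i) y a then
      h.choose else 0) (fun y _ => by
        split_ifs with h
        · exact h.choose_spec.1
        · exact hμr.pos)
    have hb' : ∀ y ∈ V_ ρ, ∀ i < μ, H (Ordinal.toZFSet i) y a → i < b := by
      intro y hy i hi hH
      have h2 := h1 y hy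
      have h3 : ∃ i < μ, H (Ordinal.toZFSet i) y a := ⟨i, hi, hH⟩
      simp only [dif_pos h3] at h2
      have h4 := huniq _ (tz_mem.2 h3.choose_spec.1) _ (tz_mem.2 hi) y a h3.choose_spec.2 hH
      rwa [Ordinal.toZFSet_injective h4] at h2
    obtain ⟨η, hη, hmin⟩ := WellFounded.has_min (wellFounded_lt (α := Ordinal.{u}))
      {η | ∀ y ∈ V_ ρ, ∀ i < μ, H (Ordinal.toZFSet i) y a → i < η} ⟨b, hb'⟩
    have hηb : η ≤ b := not_lt.1 (hmin b hb')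
    refine ⟨η, hηb.trans_lt hb, ha, fun y hy i hi hH => ?_, fun η' hη' => ?_⟩
    · obtain ⟨i, hi', rfl⟩ := Ordinal.mem_toZFSet_iff.1 hi
      exact tz_mem.2 (hη y hy i hi' hH)
    · obtain ⟨η', hη'', rfl⟩ := Ordinal.mem_toZFSet_iff.1 hη'
      by_contra hcon
      push Not at hcon
      exact hmin η' (fun y hy i hi hH => tz_mem.1 (hcon y hy _ (tz_mem.2 hi) hH)) hη''
  obtain ⟨T, hT⟩ : ∃ T : ZFSet.{u}, T = ZFSet.sep (fun q => ∃ a η, q = pair a η ∧ K a η)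
    (prod l.toZFSet μ.toZFSet) := ⟨_, rfl⟩
  have hT' : ∀ a η, pair a η ∈ T ↔ a ∈ l.toZFSet ∧ η ∈ μ.toZFSet ∧ K a η := by
    intro a η
    rw [hT, mem_sep, pair_mem_prod]
    constructor
    · rintro ⟨⟨h6, h7⟩, a', η', h8, h9⟩
      rw [pair_inj] at h8
      obtain ⟨rfl, rfl⟩ := h8
      exact ⟨h6, h7, h9⟩
    · rintro ⟨h6, h7, h8⟩
      exact ⟨⟨h6, h7⟩, a, η, rfl, h8⟩
  refine ⟨T, ?_, fun a η h => ?_, fun a η η' h h' => ?_, fun ξ hξ => ?_⟩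
  · refine OD_of (R := fun w x => (∀ q ∈ w, ∃ a ∈ x 2, ∃ η ∈ x 3, q = pair a η ∧
        KP φ a η (x 0) (x 1) (x 2) (x 3) (x 4) (x 5) fun n => x (n + 6)) ∧
        ∀ a ∈ x 2, ∀ η ∈ x 3, KP φ a η (x 0) (x 1) (x 2) (x 3) (x 4) (x 5) (fun n => x (n + 6)) →
          pair a η ∈ w)
      (x := fun n => Nat.casesOn n (V_ β) fun n => Nat.casesOn n (V_ ρ) fun n =>
        Nat.casesOn n l.toZFSet fun n => Nat.casesOn n μ.toZFSet fun n =>
          Nat.casesOn n k.toZFSet fun n => Nat.casesOn n m.toZFSet fun n => (s n).toZFSet) ?_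
      (OD_V β) (OD_V ρ) ?_ fun w => ?_
    · refine Dfn.and ?_ ?_
      · exact Dfn.ball Lvl_sub_Trs _ (Dfn.bex Lvl_sub_Trs _ (Dfn.bex Lvl_sub_Trs _
          ((dfn_pair Lvl_sub_Trs _ _ _).and (dfn_KP φ 1 0 4 5 6 7 8 9 10))))
      · exact Dfn.ball Lvl_sub_Trs _ (Dfn.ball Lvl_sub_Trs _
          ((dfn_KP φ 1 0 3 4 5 6 7 8 9).imp (dfn_pm Lvl_sub_Trs _ _ _)))
    · intro i
      rcases i with _ | i
      · exact isOrdinal_toZFSet _
      rcases i with _ | i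
      · exact isOrdinal_toZFSet _
      rcases i with _ | i
      · exact isOrdinal_toZFSet _
      rcases i with _ | i
      · exact isOrdinal_toZFSet _
      · exact isOrdinal_toZFSet _
    · show ((∀ q ∈ w, ∃ a ∈ l.toZFSet, ∃ η ∈ μ.toZFSet, q = pair a η ∧ K a η) ∧
        ∀ a ∈ l.toZFSet, ∀ η ∈ μ.toZFSet, K a η → pair a η ∈ w) ↔ _
      constructor
      · rintro ⟨h6, h7⟩
        ext q
        constructor
        · intro hq
          obtain ⟨a, ha, η, hη, rfl, h8⟩ := h6 q hq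
          exact (hT' a η).2 ⟨ha, hη, h8⟩
        · intro hq
          rw [hT, mem_sep] at hq
          obtain ⟨h8, a, η, rfl, h9⟩ := hq
          rw [pair_mem_prod] at h8
          exact h7 a h8.1 η h8.2 h9
      · rintro rfl
        refine ⟨fun q hq => ?_, fun a ha η hη h => (hT' a η).2 ⟨ha, hη, h⟩⟩
        have hq' := hq
        rw [hT, mem_sep] at hq'
        obtain ⟨_, a, η, rfl, h9⟩ := hq'
        obtain ⟨h10, h11, h12⟩ := (hT' a η).1 hq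
        exact ⟨a, h10, η, h11, rfl, h12⟩
  · obtain ⟨h1, h2, h3⟩ := (hT' a η).1 h
    exact ⟨h1, h2, h3.1⟩
  · obtain ⟨_, h2, h3⟩ := (hT' a η).1 h
    obtain ⟨_, h2', h3'⟩ := (hT' a η').1 h'
    obtain ⟨x, _, rfl⟩ := Ordinal.mem_toZFSet_iff.1 h2
    obtain ⟨x', _, rfl⟩ := Ordinal.mem_toZFSet_iff.1 h2'
    rcases lt_trichotomy x x' with h4 | h4 | h4
    · obtain ⟨y, hy, i, hi, h5, h6⟩ := h3'.2.2 _ (tz_mem.2 h4)
      exact absurd (h3.2.1 y hy i hi h5) h6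
    · rw [h4]
    · obtain ⟨y, hy, i, hi, h5, h6⟩ := h3.2.2 _ (tz_mem.2 h4)
      exact absurd (h3'.2.1 y hy i hi h5) h6
  · have hξk : ξ.toZFSet ∈ k.toZFSet := hμk' (tz_mem.2 hξ)
    have hA := mem_powerset.1 (app_mem hF.1 hξk)
    have hsp := app_spec hF.1 hξk
    obtain ⟨hst, hcf⟩ := hF.2.1 _ hξk _ hA hsp
    obtain ⟨η, hη, h1⟩ := (stat_iff.1 hst).union hl hμl
      (P := fun η a => K a.toZFSet (Ordinal.toZFSet η)) fun a ha _ => hK _ (hcf _ ha)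
    refine ⟨η, hη, ?_, h1.mono fun a ha h2 => (hT' _ _).2 ⟨tz_mem.2 ha, tz_mem.2 hη, h2.2⟩⟩
    obtain ⟨a, _, h2, _⟩ := h1 l.toZFSet (fun x hx => hx) ⟨fun x hx => hx, fun x hx => by
      obtain ⟨γ, hγ, rfl⟩ := Ordinal.mem_toZFSet_iff.1 hx
      exact ⟨_, tz_mem.2 (hl.succ_lt hγ), tz_mem.2 (Order.lt_succ γ)⟩, fun a ha _ _ => ha⟩
    exact tz_mem.1 (h2.2.2.1 p hp _ (tz_mem.2 hξ) ⟨S, hval.1, hval, hF.2.2, _, hA, hsp, h2.1⟩)

/-- Families of disjoint stationary sets in `HOD_p` give such families in `HOD`. -/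
theorem fam_of_par {p S : ZFSet.{u}} {ρ m k l μ : Ordinal.{u}} (hp : p ∈ V_ ρ)
    (hμr : RegUnc μ.toZFSet) (hbig : card (V_ ρ) < μ.card) (hμk : μ ≤ k) (hμl : μ < l)
    (hl : RegUnc l.toZFSet) (hS : HODp p S) (hF : Fam m.toZFSet k.toZFSet l.toZFSet S) :
    ∃ S', HOD S' ∧ Fam m.toZFSet μ.toZFSet l.toZFSet S' := by
  obtain ⟨T, hTO, hT1, hT2, hT3⟩ := exists_Tpar hp hμr hbig hμk hμl hl hS hF
  have hsub : μ.toZFSet ⊆ l.toZFSet := by
    intro x hx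
    obtain ⟨x, hx', rfl⟩ := Ordinal.mem_toZFSet_iff.1 hx
    exact tz_mem.2 (hx'.trans hμl)
  obtain ⟨W, hW, hW'⟩ : ∃ W, HOD W ∧ ∀ η, η ∈ W ↔ η ∈ μ.toZFSet ∧
      ∃ Z, Z ⊆ l.toZFSet ∧ (Stat Z l.toZFSet ∧ ∀ α ∈ Z, pair α η ∈ T) := by
    refine ⟨_, HOD_sep (A := fun v => ∃ Z, Z ⊆ v 1 ∧ (Stat Z (v 1) ∧ ∀ α ∈ Z, pair α (v 0) ∈ v 2))
      ?_ hTO hTO l 0 μ, fun η => ?_⟩
    · exact Dfn.exsub subset_rfl _ ((dfn_Stat _ _).and (Dfn.ball Lvl_sub_Trs _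
        (dfn_pm Lvl_sub_Trs _ _ _)))
    · rw [mem_sep]
      exact Iff.rfl
  have hWS : ∀ η, η ∈ W → StatL {α | pair α.toZFSet η ∈ T} l := by
    intro η hη
    obtain ⟨_, Z, _, hZ, h1⟩ := (hW' η).1 hη
    exact (stat_iff.1 hZ).mono fun α _ h2 => h1 _ h2
  have hunb : ∀ ξ < μ, ∃ η < μ, ξ ≤ η ∧ η.toZFSet ∈ W := by
    intro ξ hξ
    obtain ⟨η, hη, h1, h2⟩ := hT3 ξ hξ
    refine ⟨η, hη, h1.le, (hW' _).2 ⟨tz_mem.2 hη, ZFSet.sep (fun α => pair α η.toZFSet ∈ T)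
      l.toZFSet, fun z hz => (mem_sep.1 hz).1, ?_, fun z hz => (mem_sep.1 hz).2⟩⟩
    rw [stat_iff]
    refine h2.mono fun α hα h3 => ?_
    show α.toZFSet ∈ ZFSet.sep (fun α => pair α η.toZFSet ∈ T) l.toZFSet
    exact mem_sep.2 ⟨tz_mem.2 hα, h3⟩
  obtain ⟨w, hw⟩ := exists_Enum hμr hunb le_rfl
  have hwO : OD w := by
    refine OD_of (R := fun y x => Enum y (x 0) (x 2) (x 2))
      (x := asg W W μ.toZFSet ∅ ∅ ∅) (dfn_Enum _ _ _ _) hW.od hW.od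
      (asg_ord (isOrdinal_toZFSet _) empty_ord empty_ord empty_ord) fun y => ?_
    show Enum y W μ.toZFSet μ.toZFSet ↔ _
    exact ⟨fun h => h.unique hw, fun h => by rw [h]; exact hw⟩
  obtain ⟨hwf, hw1, hw2, hw3⟩ := hw
  have hinj : ∀ i ∈ μ.toZFSet, ∀ j ∈ μ.toZFSet, ∀ η ∈ μ.toZFSet, pair i η ∈ w → pair j η ∈ w →
      i = j := by
    intro i hi j hj η hη h1 h2
    obtain ⟨i, hi', rfl⟩ := Ordinal.mem_toZFSet_iff.1 hi
    obtain ⟨j, hj', rfl⟩ := Ordinal.mem_toZFSet_iff.1 hj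
    rcases lt_trichotomy i j with h3 | h3 | h3
    · exact absurd (hw2 _ hj _ (tz_mem.2 h3) _ hη _ hη h2 h1) (mem_irrefl _)
    · rw [h3]
    · exact absurd (hw2 _ hi _ (tz_mem.2 h3) _ hη _ hη h1 h2) (mem_irrefl _)
  have hA : Dfn Lvl.{u} (fun v => ∃ η ∈ v 5, pair (v 1) η ∈ v 3 ∧ pair (v 0) η ∈ v 2) := by
    refine Dfn.bex Lvl_sub_Trs _ (Dfn.and ?_ ?_)
    · exact dfn_pm Lvl_sub_Trs _ _ _
    · exact dfn_pm Lvl_sub_Trs _ _ _
  refine ⟨_, HOD_fam hA hTO hwO μ l, isFunc_gr fun i hi => ?_, ?_, ?_⟩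
  · rw [mem_powerset]
    exact fun z hz => (mem_sep.1 hz).1
  · intro i hi A hA' hiA
    rw [pair_mem_gr] at hiA
    rw [← hiA.2]
    obtain ⟨η, hη⟩ : ∃ η, η = app w i := ⟨_, rfl⟩
    have h1 : pair i η ∈ w := by rw [hη]; exact app_spec hwf hi
    have hημ : η ∈ μ.toZFSet := by rw [hη]; exact app_mem hwf hi
    refine ⟨?_, fun a ha => ?_⟩
    · rw [stat_iff]
      refine (hWS η (hw1 i hi η hημ h1)).mono fun α hα h2 => ?_
      show α.toZFSet ∈ ZFSet.sep (fun a => ∃ η ∈ l.toZFSet, pair i η ∈ w ∧ pair a η ∈ T) l.toZFSet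
      exact mem_sep.2 ⟨tz_mem.2 hα, η, hsub hημ, h1, h2⟩
    · obtain ⟨_, η', _, _, h3⟩ := mem_sep.1 ha
      exact (hT1 _ _ h3).2.2
  · rintro i hi j hj S hS S' hS' hiS hjS ⟨a, ha, ha'⟩
    rw [pair_mem_gr] at hiS hjS
    rw [← hiS.2] at ha
    rw [← hjS.2] at ha'
    obtain ⟨_, η, hη, h4, h5⟩ := mem_sep.1 ha
    obtain ⟨_, η', hη', h7, h8⟩ := mem_sep.1 ha'
    have h9 : η = η' := hT2 _ _ _ h5 h8
    rw [← h9] at h7
    exact hinj i hi j hj η (hT1 _ _ h5).2.1 h4 h7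

end Pool.Agent.H310.HD
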