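import Pool.Agent.H310.HD.Gen

/-!
`ω`-strongly measurable cardinals in `HOD`.
-/

set_option autoImplicit false
set_option linter.unusedVariables false

namespace Pool.Agent.H310.HD

open ZFSet Gss969

universe u

/-- Substitution of a power set. -/
theorem Dfn_pow (i : ℕ) {A : ZFSet.{u} → (ℕ → ZFSet.{u}) → Prop}
    (h : Dfn Lvl (fun w => A (w 0) (fun n => w (n + 1)))) :
    Dfn Lvl (fun v => A (powerset (v i)) v) := by
  refine Dfn.congr (A := fun v => ∃ w, ((∀ z ∈ w, z ⊆ v i) ∧ ∀ z, z ⊆ v i → z ∈ w) ∧ A w v)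
    (Dfn.ex (A := fun w v => ((∀ z ∈ w, z ⊆ v i) ∧ ∀ z, z ⊆ v i → z ∈ w) ∧ A w v) ?_ ?_) ?_
  · refine Dfn.and (Dfn.and ?_ ?_) h
    · exact Dfn.ball Lvl_sub_Trs _ (dfn_sub Lvl_sub_Trs _ _)
    · exact Dfn.allsub subset_rfl _ (Dfn.mem _ _)
  · rintro U hU v hv ⟨a, ⟨h1, h2⟩, h3⟩
    refine ⟨a, ?_, ⟨h1, h2⟩, h3⟩
    refine Lvl_sub hU (Lvl_powerset hU (hv i)) ?_
    intro z hz
    rw [mem_powerset]
    exact h1 z hz
  · intro v
    constructor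
    · rintro ⟨w, ⟨h1, h2⟩, h3⟩
      have : w = powerset (v i) := by
        ext z
        rw [mem_powerset]
        exact ⟨h1 z, h2 z⟩
      rwa [this] at h3
    · intro h3
      exact ⟨_, ⟨fun z hz => mem_powerset.1 hz, fun z hz => mem_powerset.2 hz⟩, h3⟩

/-- `l` is a regular uncountable cardinal: an ordinal greater than `ω` such that every function
from a smaller ordinal into `l` is bounded. -/
def RegUnc (l : ZFSet.{u}) : Prop :=
  l.IsOrdinal ∧ om ∈ l ∧ ∀ a ∈ l, ∀ f, IsFunc a l f → ∃ b ∈ l, ∀ x ∈ a, ∀ y ∈ l,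
    pair x y ∈ f → y ∈ b

/-- `a` is an ordinal of cofinality `ω`. -/
def CofOm (a : ZFSet.{u}) : Prop :=
  ∃ f, IsFunc om a f ∧ ∀ x ∈ a, ∃ n ∈ om.{u}, ∃ y ∈ a, pair n y ∈ f ∧ x ∈ y

/-- `C` is closed and unbounded in `l`. -/
def Club (C l : ZFSet.{u}) : Prop :=
  C ⊆ l ∧ (∀ x ∈ l, ∃ c ∈ C, x ∈ c) ∧
    ∀ a ∈ l, (∃ x ∈ a, x = x) → (∀ x ∈ a, ∃ c ∈ C, c ∈ a ∧ x ∈ c) → a ∈ C

/-- `S` is stationary in `l`. -/
def Stat (S l : ZFSet.{u}) : Prop := ∀ C, C ⊆ l → Club C l → ∃ x ∈ S, x ∈ C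

/-- The function `g : k → P(l)` is a partition of `cof(ω) ∩ l` into stationary subsets of `l`. -/
def IsPart (k l g : ZFSet.{u}) : Prop :=
  IsFunc k (powerset l) g ∧
  (∀ i ∈ k, ∀ S, S ⊆ l → pair i S ∈ g → Stat S l) ∧
  (∀ i ∈ k, ∀ i' ∈ k, ∀ S, S ⊆ l → ∀ S', S' ⊆ l → pair i S ∈ g → pair i' S' ∈ g →
    (∃ a ∈ S, a ∈ S') → i = i') ∧
  ∀ a ∈ l, (CofOm a ↔ ∃ i ∈ k, ∃ S, S ⊆ l ∧ (pair i S ∈ g ∧ a ∈ S))

/-- There are fewer than `l` subsets of `k` in the class `P`: the set of these subsets is an image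
of an element of `l`. -/
def FewSub (P : ZFSet.{u} → Prop) (k l : ZFSet.{u}) : Prop :=
  ∃ m ∈ l, ∃ g, IsFunc m (powerset k) g ∧ ∀ B, B ⊆ k → P B → ∃ i ∈ m, pair i B ∈ g

/-- `l` is a regular uncountable cardinal which is not `ω`-strongly measurable in the class `P`;
here `K` is the class of the ordinals which are allowed as indices. -/
def NonSM (K : ZFSet.{u} → Prop) (P : ZFSet.{u} → Prop) (l : ZFSet.{u}) : Prop :=
  RegUnc l ∧ ∀ k ∈ l, K k → FewSub P k l → ∃ g, P g ∧ IsPart k l g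

theorem dfn_RegUnc (a : ℕ) : Dfn Lvl.{u} (fun v => RegUnc (v a)) := by
  unfold RegUnc
  refine (dfn_ord Lvl_sub_Trs _).and (Dfn.and (Dfn_om (A := fun w v => w ∈ v a) (Dfn.mem 0 _)) ?_)
  repeat' first
    | exact Dfn.mem _ _ | exact dfn_pm Lvl_sub_Trs _ _ _ | refine Dfn.allfun _ _ ?_
    | refine Dfn.ball Lvl_sub_Trs _ ?_ | refine Dfn.bex Lvl_sub_Trs _ ?_ | refine Dfn.imp ?_ ?_

theorem dfn_CofOm (a : ℕ) : Dfn Lvl.{u} (fun v => CofOm (v a)) := by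
  refine Dfn_om (A := fun w v => ∃ f, IsFunc w (v a) f ∧ ∀ x ∈ v a, ∃ n ∈ w, ∃ y ∈ v a,
    pair n y ∈ f ∧ x ∈ y) ?_
  repeat' first
    | exact Dfn.mem _ _ | exact dfn_pm Lvl_sub_Trs _ _ _ | refine Dfn.exfun _ _ ?_
    | refine Dfn.and ?_ ?_
    | refine Dfn.ball Lvl_sub_Trs _ ?_ | refine Dfn.bex Lvl_sub_Trs _ ?_ | refine Dfn.imp ?_ ?_

theorem dfn_Club (a b : ℕ) : Dfn Lvl.{u} (fun v => Club (v a) (v b)) := by
  unfold Club
  repeat' first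
    | exact Dfn.mem _ _ | exact Dfn.eq _ _ | exact dfn_sub Lvl_sub_Trs _ _ | refine Dfn.and ?_ ?_
    | refine Dfn.ball Lvl_sub_Trs _ ?_ | refine Dfn.bex Lvl_sub_Trs _ ?_ | refine Dfn.imp ?_ ?_

theorem dfn_Stat (a b : ℕ) : Dfn Lvl.{u} (fun v => Stat (v a) (v b)) := by
  unfold Stat
  refine Dfn.allsub subset_rfl _ (Dfn.imp (dfn_Club _ _) ?_)
  exact Dfn.bex Lvl_sub_Trs _ (Dfn.mem _ _)

theorem dfn_IsPart (a b c : ℕ) : Dfn Lvl.{u} (fun v => IsPart (v a) (v b) (v c)) := by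
  refine Dfn.and ?_ ?_
  · exact Dfn_pow b (A := fun T v => IsFunc (v a) T (v c)) (dfn_isFunc Lvl_sub_Trs _ _ _)
  · repeat' first
      | exact Dfn.mem _ _ | exact Dfn.eq _ _ | exact dfn_pm Lvl_sub_Trs _ _ _
      | exact dfn_Stat _ _ | exact dfn_CofOm _ | refine Dfn.iff ?_ ?_
      | refine Dfn.and ?_ ?_ | refine Dfn.allsub subset_rfl _ ?_ | refine Dfn.exsub subset_rfl _ ?_
      | refine Dfn.ball Lvl_sub_Trs _ ?_ | refine Dfn.bex Lvl_sub_Trs _ ?_ | refine Dfn.imp ?_ ?_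

theorem dfn_FewSub (a b c : ℕ) : Dfn Lvl.{u} (fun v => FewSub (HODin (v a)) (v b) (v c)) := by
  unfold FewSub
  refine Dfn.bex Lvl_sub_Trs _ ?_
  refine Dfn_pow (b + 1) (A := fun T v => ∃ g, IsFunc (v 0) T g ∧
    ∀ B, B ⊆ v (b + 1) → HODin (v (a + 1)) B → ∃ i ∈ v 0, pair i B ∈ g) ?_
  refine Dfn.exfun _ _ ?_
  refine Dfn.allsub subset_rfl _ (Dfn.imp (dfn_HODin _ _) ?_)
  exact Dfn.bex Lvl_sub_Trs _ (dfn_pm Lvl_sub_Trs _ _ _)

theorem IsPart.sub {k l g : ZFSet.{u}} (h : IsPart k l g) (hk : k ⊆ l) :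
    g ∈ powerset (prod l (powerset l)) := by
  rw [mem_powerset]
  intro p hp
  obtain ⟨a, ha, b, hb, rfl⟩ := mem_prod.1 (h.1.1 hp)
  exact pair_mem_prod.2 ⟨hk ha, hb⟩

theorem mono_NonSM {K : ZFSet.{u} → Prop} (hK : Dfn Lvl.{u} (fun v => K (v 0))) :
    Mono (NonSM K) := by
  refine ⟨?_, ?_, ?_⟩
  · rintro P P' h l ⟨h1, h2⟩
    refine ⟨h1, fun k hk hKk ⟨m, hm, g, hg, h3⟩ => ?_⟩
    obtain ⟨f, hf, h4⟩ := h2 k hk hKk ⟨m, hm, g, hg, fun B hB hPB => h3 B hB (h B hPB)⟩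
    exact ⟨f, h f hf, h4⟩
  · intro l
    refine ⟨powerset (prod l (powerset l)) ∪ powerset l, fun P P' h => ?_⟩
    unfold NonSM
    refine and_congr_right fun hl => ?_
    refine forall₂_congr fun k hk => imp_congr_right fun _ => ?_
    have hkl : k ⊆ l := hl.1.subset_of_mem hk
    refine imp_congr ?_ ?_
    · unfold FewSub
      refine exists_congr fun m => and_congr_right fun _ => exists_congr fun g =>
        and_congr_right fun _ => forall₂_congr fun B hB => ?_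
      rw [h B (mem_union.2 (Or.inr (mem_powerset.2 fun x hx => hkl (hB hx))))]
    · refine exists_congr fun g => ?_
      constructor
      · rintro ⟨h1, h2⟩
        exact ⟨(h g (mem_union.2 (Or.inl (h2.sub hkl)))).1 h1, h2⟩
      · rintro ⟨h1, h2⟩
        exact ⟨(h g (mem_union.2 (Or.inl (h2.sub hkl)))).2 h1, h2⟩
  · unfold NonSM
    refine (dfn_RegUnc _).and ?_
    refine Dfn.ball Lvl_sub_Trs _ ?_
    refine Dfn.imp (Dfn_reindex hK (fun n => n)) (Dfn.imp (dfn_FewSub _ _ _) ?_)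
    refine Dfn.ex (A := fun g v => HODin (v 1) g ∧ IsPart (v 0) (v 2) g) ?_ ?_
    · exact (dfn_HODin _ _).and (dfn_IsPart _ _ _)
    · rintro U hU v hv ⟨g, h1, h2⟩
      refine ⟨g, ?_, h1, h2⟩
      exact Lvl_func hU (hv 0) (Lvl_powerset hU (hv 2)) h2.1

/-- `k` is a cardinal: an ordinal which is not an image of a smaller ordinal. -/
def IsCard (k : ZFSet.{u}) : Prop :=
  k.IsOrdinal ∧ ∀ m ∈ k, ∀ f, IsFunc m k f → ∃ y ∈ k, ∀ x ∈ m, ¬ pair x y ∈ f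

theorem dfn_IsCard (a : ℕ) : Dfn Lvl.{u} (fun v => IsCard (v a)) := by
  unfold IsCard
  refine (dfn_ord Lvl_sub_Trs _).and ?_
  repeat' first
    | exact Dfn.mem _ _ | exact dfn_pm Lvl_sub_Trs _ _ _ | refine Dfn.allfun _ _ ?_
    | refine Dfn.not ?_
    | refine Dfn.ball Lvl_sub_Trs _ ?_ | refine Dfn.bex Lvl_sub_Trs _ ?_ | refine Dfn.imp ?_ ?_

theorem mono_ord : Mono (NonSM.{u} fun k => k = k) := mono_NonSM (Dfn.eq 0 0)

theorem mono_card : Mono (NonSM.{u} IsCard) := mono_NonSM (dfn_IsCard 0)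

end Pool.Agent.H310.HD
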