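import Pool.Agent.Gss969.LevelEmb
import Pool.Agent.Gss969.Elem2

/-!
Ordinal definability over a set: the relation `x is definable over (U, ∈) from ordinals` is
first order definable in every `V_δ`, `δ > ω` a limit ordinal.
-/

set_option autoImplicit false
set_option linter.unusedVariables false

namespace Pool.Agent.H310.HD

open ZFSet Gss969

universe u

/-- `w` is the set `ω`. -/
def IsOm (w : ZFSet.{u}) : Prop :=
  w.IsOrdinal ∧ (∃ x ∈ w, ∀ y ∈ x, ¬ y = y) ∧ (∀ x ∈ w, ∃ y ∈ w, x ∈ y) ∧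
    ∀ x ∈ w, (∀ y ∈ x, ¬ y = y) ∨ ∃ y ∈ x, ∀ z ∈ x, z ⊆ y

theorem nt_sub {n m : ℕ} : nt.{u} n ∈ nt m ↔ n < m := by
  unfold nt
  rw [Ordinal.toZFSet_mem_toZFSet_iff]
  exact_mod_cast Iff.rfl

theorem mem_nt {n : ℕ} {x : ZFSet.{u}} : x ∈ nt n ↔ ∃ m < n, x = nt m := by
  constructor
  · intro h
    unfold nt at h
    rw [Ordinal.mem_toZFSet_iff] at h
    obtain ⟨b, hb, rfl⟩ := h
    obtain ⟨m, rfl⟩ := Ordinal.lt_omega0.1 (hb.trans (Ordinal.natCast_lt_omega0 n))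
    exact ⟨m, by exact_mod_cast hb, rfl⟩
  · rintro ⟨m, hm, rfl⟩
    exact nt_sub.2 hm

theorem isOm_iff {w : ZFSet.{u}} : IsOm w ↔ w = om := by
  constructor
  · rintro ⟨h1, ⟨x, hx, _⟩, h3, h4⟩
    have e := h1.toZFSet_rank_eq
    obtain ⟨α, hα⟩ : ∃ α, α = rank w := ⟨_, rfl⟩
    rw [← hα] at e
    subst e
    have hle : α ≤ Ordinal.omega0 := by
      by_contra hlt
      push Not at hlt
      have hom : om.{u} ∈ α.toZFSet := by
        unfold om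
        exact Ordinal.toZFSet_mem_toZFSet_iff.2 hlt
      rcases h4 _ hom with h | ⟨y, hy, h⟩
      · exact h (nt 0) (nt_mem 0) rfl
      · obtain ⟨n, rfl⟩ := mem_om.1 hy
        have := h (nt (n + 1)) (nt_mem _) (nt_sub.2 (Nat.lt_succ_self n))
        exact mem_irrefl _ this
    rcases hle.lt_or_eq with hlt | rfl
    · exfalso
      obtain ⟨n, rfl⟩ := Ordinal.lt_omega0.1 hlt
      have e : (n : Ordinal.{u}).toZFSet = nt n := rfl
      rw [e] at hx h3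
      obtain ⟨m, hm, rfl⟩ := mem_nt.1 hx
      obtain ⟨y, hy, hy'⟩ := h3 (nt (n - 1)) (nt_sub.2 (by omega))
      obtain ⟨k, hk, rfl⟩ := mem_nt.1 hy
      have := nt_sub.1 hy'
      omega
    · rfl
  · rintro rfl
    refine ⟨isOrdinal_toZFSet _, ⟨nt 0, nt_mem 0, ?_⟩, ?_, ?_⟩
    · intro y hy
      obtain ⟨m, hm, _⟩ := mem_nt.1 hy
      omega
    · intro x hx
      obtain ⟨n, rfl⟩ := mem_om.1 hx
      exact ⟨nt (n + 1), nt_mem _, nt_sub.2 (Nat.lt_succ_self n)⟩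
    · intro x hx
      obtain ⟨n, rfl⟩ := mem_om.1 hx
      rcases n with _ | n
      · left
        intro y hy
        obtain ⟨m, hm, _⟩ := mem_nt.1 hy
        omega
      · right
        refine ⟨nt n, nt_sub.2 (Nat.lt_succ_self n), ?_⟩
        intro z hz
        obtain ⟨m, hm, rfl⟩ := mem_nt.1 hz
        intro y hy
        obtain ⟨k, hk, rfl⟩ := mem_nt.1 hy
        exact nt_sub.2 (by omega)

theorem dfn_isOm (i : ℕ) : Dfn Lvl.{u} (fun v => IsOm (v i)) := by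
  unfold IsOm
  repeat' first
    | exact dfn_ord Lvl_sub_Trs _ | exact Dfn.mem _ _ | exact Dfn.eq _ _
    | exact dfn_sub Lvl_sub_Trs _ _
    | refine Dfn.and ?_ ?_ | refine Dfn.or ?_ ?_ | refine Dfn.not ?_
    | refine Dfn.ball Lvl_sub_Trs _ ?_ | refine Dfn.bex Lvl_sub_Trs _ ?_

/-- Substitution of the constant `ω`. -/
theorem Dfn_om {A : ZFSet.{u} → (ℕ → ZFSet.{u}) → Prop}
    (h : Dfn Lvl (fun w => A (w 0) (fun n => w (n + 1)))) : Dfn Lvl (fun v => A om v) := by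
  refine Dfn.congr (A := fun v => ∃ w, IsOm w ∧ A w v)
    (Dfn.ex (A := fun w v => IsOm w ∧ A w v) ((dfn_isOm 0).and h) ?_) ?_
  · rintro U hU v hv ⟨a, ha, h1⟩
    exact ⟨a, by rw [isOm_iff.1 ha]; exact om_mem_Lvl hU, ha, h1⟩
  · intro v
    constructor
    · rintro ⟨w, hw, h1⟩
      rwa [isOm_iff.1 hw] at h1
    · intro h1
      exact ⟨om, isOm_iff.2 rfl, h1⟩

/-- `F` is a family of sets of assignments `W → U`, closed under the logical operations. -/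
def ClosedW (W U F : ZFSet.{u}) : Prop :=
  (∀ i ∈ W, ∀ l ∈ W, ∃ X ∈ F, ∀ s, IsFunc W U s →
    (s ∈ X ↔ ∃ a ∈ U, ∃ b ∈ U, pair i a ∈ s ∧ pair l b ∈ s ∧ a ∈ b)) ∧
  (∀ i ∈ W, ∀ l ∈ W, ∃ X ∈ F, ∀ s, IsFunc W U s →
    (s ∈ X ↔ ∃ a ∈ U, pair i a ∈ s ∧ pair l a ∈ s)) ∧
  (∀ X ∈ F, ∃ Y ∈ F, ∀ s, IsFunc W U s → (s ∈ Y ↔ ¬ s ∈ X)) ∧
  (∀ X ∈ F, ∀ Y ∈ F, ∃ Z ∈ F, ∀ s, IsFunc W U s → (s ∈ Z ↔ s ∈ X ∧ s ∈ Y)) ∧
  (∀ i ∈ W, ∀ X ∈ F, ∃ Y ∈ F, ∀ s, IsFunc W U s → (s ∈ Y ↔ ∃ s', IsFunc W U s' ∧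
    (s' ∈ X ∧ ∀ l ∈ W, ¬ l = i → ∀ a ∈ U, pair l a ∈ s → pair l a ∈ s')))

theorem dfn_ClosedW (a b c : ℕ) : Dfn Lvl.{u} (fun v => ClosedW (v a) (v b) (v c)) := by
  unfold ClosedW
  repeat' first
    | exact Dfn.mem _ _ | exact Dfn.eq _ _ | exact dfn_pm Lvl_sub_Trs _ _ _
    | refine Dfn.and ?_ ?_ | refine Dfn.iff ?_ ?_ | refine Dfn.not ?_
    | refine Dfn.allfun _ _ ?_ | refine Dfn.exfun _ _ ?_
    | refine Dfn.ball Lvl_sub_Trs _ ?_ | refine Dfn.bex Lvl_sub_Trs _ ?_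
    | refine Dfn.imp ?_ ?_

/-- `X` is in every closed family: it is the set of assignments satisfying some formula. -/
def DefS (W U X : ZFSet.{u}) : Prop :=
  ∀ F, ((∀ Y ∈ F, ∀ s ∈ Y, IsFunc W U s) ∧ ClosedW W U F) → X ∈ F

theorem dfn_DefS (a b c : ℕ) : Dfn Lvl.{u} (fun v => DefS (v a) (v b) (v c)) := by
  refine Dfn.all (A := fun F v => ((∀ Y ∈ F, ∀ s ∈ Y, IsFunc (v a) (v b) s) ∧
    ClosedW (v a) (v b) F) → v c ∈ F) ?_ ?_
  · repeat' first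
      | exact Dfn.mem _ _ | exact dfn_isFunc Lvl_sub_Trs _ _ _ | exact dfn_ClosedW _ _ _
      | refine Dfn.and ?_ ?_ | refine Dfn.ball Lvl_sub_Trs _ ?_ | refine Dfn.imp ?_ ?_
  · rintro U hU v hv ⟨F, hF⟩
    refine ⟨F, ?_, hF⟩
    push Not at hF
    refine Lvl_sub hU (Lvl_powerset hU (Lvl_funs hU (hv a) (hv b))) ?_
    intro Y hY
    rw [mem_powerset]
    intro s hs
    exact mem_funs.2 (hF.1.1 Y hY s hs)

/-- The sets of assignments defined by formulas. -/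
noncomputable def xsAll (U : ZFSet.{u}) : ZFSet.{u} :=
  ZFSet.sep (fun X => ∃ φ, X = xs U φ) (powerset (funs om U))

theorem mem_xsAll {U X : ZFSet.{u}} : X ∈ xsAll U ↔ ∃ φ, X = xs U φ := by
  unfold xsAll
  rw [mem_sep]
  constructor
  · exact fun h => h.2
  · rintro ⟨φ, rfl⟩
    exact ⟨by rw [mem_powerset]; exact sep_subset, φ, rfl⟩

theorem mem_xs {U s : ZFSet.{u}} {φ : Fml} (hs : IsFunc om U s) :
    s ∈ xs U φ ↔ Sat U (fun n => app s (nt n)) φ := by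
  unfold xs
  rw [mem_sep]
  exact ⟨fun h => h.2, fun h => ⟨mem_funs.2 hs, h⟩⟩

theorem xs_func {U s : ZFSet.{u}} {φ : Fml} (hs : s ∈ xs U φ) : IsFunc om U s :=
  mem_funs.1 (mem_sep.1 hs).1

/-- A function on `ω` from a sequence. -/
noncomputable def nf (v : ℕ → ZFSet.{u}) : ZFSet.{u} → ZFSet.{u} := by
  classical exact fun x => if h : ∃ n, x = nt n then v h.choose else ∅

theorem nf_nt (v : ℕ → ZFSet.{u}) (n : ℕ) : nf v (nt n) = v n := by
  unfold nf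
  have h : ∃ m, nt.{u} n = nt m := ⟨n, rfl⟩
  rw [dif_pos h]
  exact congrArg v (nt_inj.1 h.choose_spec).symm

noncomputable def fn (v : ℕ → ZFSet.{u}) : ZFSet.{u} := gr om (nf v)

theorem fn_func {U : ZFSet.{u}} {v : ℕ → ZFSet.{u}} (hv : ∀ i, v i ∈ U) : IsFunc om U (fn v) := by
  refine isFunc_gr fun x hx => ?_
  obtain ⟨n, rfl⟩ := mem_om.1 hx
  rw [nf_nt]
  exact hv n

theorem app_fn (v : ℕ → ZFSet.{u}) (n : ℕ) : app (fn v) (nt n) = v n := by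
  unfold fn
  rw [app_gr (nt_mem n), nf_nt]

theorem pair_fn {v : ℕ → ZFSet.{u}} {n : ℕ} {a : ZFSet.{u}} :
    pair (nt n) a ∈ fn v ↔ v n = a := by
  unfold fn
  rw [pair_mem_gr, nf_nt]
  exact ⟨fun h => h.2, fun h => ⟨nt_mem n, h⟩⟩

/-- Two functions on `ω` which differ at most at `n`. -/
theorem upd_of {U s s' : ZFSet.{u}} (hs : IsFunc om U s) (hs' : IsFunc om U s') (n : ℕ)
    (h : ∀ l ∈ om.{u}, ¬ l = nt n → ∀ a ∈ U, pair l a ∈ s → pair l a ∈ s') :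
    (fun m => app s' (nt m)) = Function.update (fun m => app s (nt m)) n (app s' (nt n)) := by
  funext m
  by_cases hm : m = n
  · subst hm; simp
  · rw [Function.update_of_ne hm]
    have hne : ¬ nt.{u} m = nt n := fun h => hm (nt_inj.1 h)
    exact (app_iff hs' (nt_mem m)).1 (h _ (nt_mem m) hne _ (app_mem hs (nt_mem m))
      (app_spec hs (nt_mem m)))

theorem exists_upd {U s : ZFSet.{u}} (hs : IsFunc om U s) (n : ℕ) {a : ZFSet.{u}} (ha : a ∈ U) :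
    ∃ s', IsFunc om U s' ∧ app s' (nt n) = a ∧
      ∀ l ∈ om.{u}, ¬ l = nt n → ∀ b ∈ U, pair l b ∈ s → pair l b ∈ s' := by
  refine ⟨fn (Function.update (fun m => app s (nt m)) n a), fn_func ?_, ?_, ?_⟩
  · intro i
    by_cases hi : i = n
    · subst hi; simpa using ha
    · rw [Function.update_of_ne hi]; exact app_mem hs (nt_mem i)
  · rw [app_fn]; simp
  · intro l hl hne b hb hlb
    obtain ⟨m, rfl⟩ := mem_om.1 hl
    have hm : m ≠ n := fun h => hne (by rw [h])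
    rw [pair_fn, Function.update_of_ne hm]
    exact (app_iff hs (nt_mem m)).1 hlb

theorem closed_xsAll (U : ZFSet.{u}) : ClosedW om U (xsAll U) := by
  refine ⟨?_, ?_, ?_, ?_, ?_⟩
  · intro i hi l hl
    obtain ⟨i, rfl⟩ := mem_om.1 hi
    obtain ⟨l, rfl⟩ := mem_om.1 hl
    refine ⟨xs U (.mem i l), mem_xsAll.2 ⟨_, rfl⟩, fun s hs => ?_⟩
    rw [mem_xs hs]
    simp only [Sat]
    constructor
    · intro h
      exact ⟨_, app_mem hs (nt_mem i), _, app_mem hs (nt_mem l), app_spec hs (nt_mem i),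
        app_spec hs (nt_mem l), h⟩
    · rintro ⟨a, _, b, _, h3, h4, h5⟩
      rw [(app_iff hs (nt_mem i)).1 h3, (app_iff hs (nt_mem l)).1 h4]; exact h5
  · intro i hi l hl
    obtain ⟨i, rfl⟩ := mem_om.1 hi
    obtain ⟨l, rfl⟩ := mem_om.1 hl
    refine ⟨xs U (.eq i l), mem_xsAll.2 ⟨_, rfl⟩, fun s hs => ?_⟩
    rw [mem_xs hs]
    simp only [Sat]
    constructor
    · intro h
      exact ⟨_, app_mem hs (nt_mem i), app_spec hs (nt_mem i), h ▸ app_spec hs (nt_mem l)⟩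
    · rintro ⟨a, _, h3, h4⟩
      rw [(app_iff hs (nt_mem i)).1 h3, (app_iff hs (nt_mem l)).1 h4]
  · intro X hX
    obtain ⟨φ, rfl⟩ := mem_xsAll.1 hX
    refine ⟨xs U (.neg φ), mem_xsAll.2 ⟨_, rfl⟩, fun s hs => ?_⟩
    rw [mem_xs hs, mem_xs hs]; exact Iff.rfl
  · intro X hX Y hY
    obtain ⟨φ, rfl⟩ := mem_xsAll.1 hX
    obtain ⟨ψ, rfl⟩ := mem_xsAll.1 hY
    refine ⟨xs U (.and φ ψ), mem_xsAll.2 ⟨_, rfl⟩, fun s hs => ?_⟩
    rw [mem_xs hs, mem_xs hs, mem_xs hs]; exact Iff.rfl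
  · intro i hi X hX
    obtain ⟨i, rfl⟩ := mem_om.1 hi
    obtain ⟨φ, rfl⟩ := mem_xsAll.1 hX
    refine ⟨xs U (.ex i φ), mem_xsAll.2 ⟨_, rfl⟩, fun s hs => ?_⟩
    rw [mem_xs hs]
    simp only [Sat]
    constructor
    · rintro ⟨a, ha, h1⟩
      obtain ⟨s', hs', h2, h3⟩ := exists_upd hs i ha
      refine ⟨s', hs', ?_, h3⟩
      rw [mem_xs hs', upd_of hs hs' i h3, h2]
      exact h1
    · rintro ⟨s', hs', h1, h3⟩
      rw [mem_xs hs', upd_of hs hs' i h3] at h1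
      exact ⟨_, app_mem hs' (nt_mem i), h1⟩

theorem set_eq {U X Y : ZFSet.{u}} (hX : ∀ s ∈ X, IsFunc om U s) (hY : ∀ s ∈ Y, IsFunc om U s)
    (h : ∀ s, IsFunc om U s → (s ∈ X ↔ s ∈ Y)) : X = Y := by
  ext s
  exact ⟨fun hs => (h s (hX s hs)).1 hs, fun hs => (h s (hY s hs)).2 hs⟩

theorem xs_mem_closed {U F : ZFSet.{u}} (hF : ∀ Y ∈ F, ∀ s ∈ Y, IsFunc om U s)
    (h : ClosedW om U F) (φ : Fml) : xs U φ ∈ F := by
  obtain ⟨c1, c2, c3, c4, c5⟩ := h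
  obtain ⟨d1, d2, d3, d4, d5⟩ := closed_xsAll U
  induction φ with
  | mem i l =>
    obtain ⟨X, hX, h1⟩ := c1 _ (nt_mem i) _ (nt_mem l)
    have : xs U (.mem i l) = X := by
      refine set_eq (fun s => xs_func) (hF X hX) fun s hs => ?_
      rw [h1 s hs, mem_xs hs]
      simp only [Sat]
      constructor
      · intro h
        exact ⟨_, app_mem hs (nt_mem i), _, app_mem hs (nt_mem l), app_spec hs (nt_mem i),
          app_spec hs (nt_mem l), h⟩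
      · rintro ⟨a, _, b, _, h3, h4, h5⟩
        rw [(app_iff hs (nt_mem i)).1 h3, (app_iff hs (nt_mem l)).1 h4]; exact h5
    rw [this]; exact hX
  | eq i l =>
    obtain ⟨X, hX, h1⟩ := c2 _ (nt_mem i) _ (nt_mem l)
    have : xs U (.eq i l) = X := by
      refine set_eq (fun s => xs_func) (hF X hX) fun s hs => ?_
      rw [h1 s hs, mem_xs hs]
      simp only [Sat]
      constructor
      · intro h
        exact ⟨_, app_mem hs (nt_mem i), app_spec hs (nt_mem i), h ▸ app_spec hs (nt_mem l)⟩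
      · rintro ⟨a, _, h3, h4⟩
        rw [(app_iff hs (nt_mem i)).1 h3, (app_iff hs (nt_mem l)).1 h4]
    rw [this]; exact hX
  | neg φ ih =>
    obtain ⟨X, hX, h1⟩ := c3 _ ih
    have : xs U (.neg φ) = X := by
      refine set_eq (fun s => xs_func) (hF X hX) fun s hs => ?_
      rw [h1 s hs, mem_xs hs, mem_xs hs]; exact Iff.rfl
    rw [this]; exact hX
  | and φ ψ ih ih' =>
    obtain ⟨X, hX, h1⟩ := c4 _ ih _ ih'
    have : xs U (.and φ ψ) = X := by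
      refine set_eq (fun s => xs_func) (hF X hX) fun s hs => ?_
      rw [h1 s hs, mem_xs hs, mem_xs hs, mem_xs hs]; exact Iff.rfl
    rw [this]; exact hX
  | ex i φ ih =>
    obtain ⟨X, hX, h1⟩ := c5 _ (nt_mem i) _ ih
    have : xs U (.ex i φ) = X := by
      refine set_eq (fun s => xs_func) (hF X hX) fun s hs => ?_
      rw [h1 s hs, mem_xs hs]
      simp only [Sat]
      constructor
      · rintro ⟨a, ha, h1⟩
        obtain ⟨s', hs', h2, h3⟩ := exists_upd hs i ha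
        refine ⟨s', hs', ?_, h3⟩
        rw [mem_xs hs', upd_of hs hs' i h3, h2]
        exact h1
      · rintro ⟨s', hs', h1, h3⟩
        rw [mem_xs hs', upd_of hs hs' i h3] at h1
        exact ⟨_, app_mem hs' (nt_mem i), h1⟩
    rw [this]; exact hX

theorem defS_iff {U X : ZFSet.{u}} : DefS om U X ↔ ∃ φ, X = xs U φ := by
  constructor
  · intro h
    exact mem_xsAll.1 (h (xsAll U) ⟨fun Y hY s hs => by
      obtain ⟨φ, rfl⟩ := mem_xsAll.1 hY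
      exact xs_func hs, closed_xsAll U⟩)
  · rintro ⟨φ, rfl⟩ F ⟨hF, hC⟩
    exact xs_mem_closed hF hC φ

/-- `x` is definable over `(U, ∈)` from ordinals in `U`: some formula with ordinal parameters is
satisfied by `x` and by no other element of `U`. The variable `x_0` stands for `x`, the other
variables for the parameters. -/
def ODat (U x : ZFSet.{u}) : Prop :=
  ∃ (φ : Fml) (s : ℕ → ZFSet.{u}), (∀ i, s i ∈ U ∧ (s i).IsOrdinal) ∧ x ∈ U ∧
    ∀ y ∈ U, (Sat U (Function.update s 0 y) φ ↔ y = x)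

def ODI (W U x : ZFSet.{u}) : Prop :=
  ∃ s, IsFunc W U s ∧ (x ∈ U ∧ (∀ i ∈ W, ∀ a ∈ U, pair i a ∈ s → a.IsOrdinal) ∧
    ∃ z ∈ W, (∀ y ∈ z, ¬ y = y) ∧ ∃ X, (∀ t ∈ X, IsFunc W U t) ∧ DefS W U X ∧
      ∀ y ∈ U, ∀ s', IsFunc W U s' → pair z y ∈ s' →
        (∀ l ∈ W, ¬ l = z → ∀ a ∈ U, pair l a ∈ s → pair l a ∈ s') → (s' ∈ X ↔ y = x))

theorem zero_iff {z : ZFSet.{u}} (hz : z ∈ om) : (∀ y ∈ z, ¬ y = y) ↔ z = nt 0 := by
  obtain ⟨n, rfl⟩ := mem_om.1 hz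
  rw [nt_inj]
  constructor
  · intro h
    by_contra hn
    exact h (nt 0) (nt_sub.2 (Nat.pos_of_ne_zero hn)) rfl
  · rintro rfl y hy
    obtain ⟨m, hm, _⟩ := mem_nt.1 hy
    omega

theorem odAt_iff {U x : ZFSet.{u}} : ODat U x ↔ ODI om U x := by
  constructor
  · rintro ⟨φ, s, hs, hx, h⟩
    refine ⟨fn s, fn_func fun i => (hs i).1, hx, ?_, nt 0, nt_mem 0, (zero_iff (nt_mem 0)).2 rfl,
      xs U φ, fun t => xs_func, defS_iff.2 ⟨φ, rfl⟩, ?_⟩
    · intro i hi a ha hia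
      obtain ⟨n, rfl⟩ := mem_om.1 hi
      rw [← pair_fn.1 hia]
      exact (hs n).2
    · intro y hy s' hs' h0 hag
      rw [mem_xs hs', upd_of (fn_func fun i => (hs i).1) hs' 0 hag,
        (app_iff hs' (nt_mem 0)).1 h0, ← h y hy]
      have : (fun m => app (fn s) (nt m)) = s := by funext m; exact app_fn s m
      rw [this]
  · rintro ⟨s, hs, hx, hord, z, hz, hz0, X, _, hX, h⟩
    rw [zero_iff hz] at hz0
    subst hz0
    obtain ⟨φ, rfl⟩ := defS_iff.1 hX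
    refine ⟨φ, fun n => app s (nt n), fun i => ⟨app_mem hs (nt_mem i),
      hord _ (nt_mem i) _ (app_mem hs (nt_mem i)) (app_spec hs (nt_mem i))⟩, hx, ?_⟩
    intro y hy
    obtain ⟨s', hs', h2, h3⟩ := exists_upd hs 0 hy
    rw [← h y hy s' hs' (by rw [← h2]; exact app_spec hs' (nt_mem 0)) h3, mem_xs hs',
      upd_of hs hs' 0 h3, h2]

theorem dfn_ODI (a b c : ℕ) : Dfn Lvl.{u} (fun v => ODI (v a) (v b) (v c)) := by
  unfold ODI
  refine Dfn.exfun _ _ ?_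
  refine Dfn.and (Dfn.mem _ _) ?_
  refine Dfn.and ?_ ?_
  · repeat' first
      | exact Dfn.mem _ _ | exact dfn_pm Lvl_sub_Trs _ _ _ | exact dfn_ord Lvl_sub_Trs _
      | refine Dfn.ball Lvl_sub_Trs _ ?_ | refine Dfn.imp ?_ ?_
  refine Dfn.bex Lvl_sub_Trs _ ?_
  refine Dfn.and ?_ ?_
  · repeat' first
      | exact Dfn.eq _ _ | refine Dfn.ball Lvl_sub_Trs _ ?_ | refine Dfn.not ?_
  refine Dfn.ex ?_ ?_
  · refine Dfn.and ?_ ?_
    · repeat' first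
        | exact dfn_isFunc Lvl_sub_Trs _ _ _ | refine Dfn.ball Lvl_sub_Trs _ ?_
    refine Dfn.and (dfn_DefS _ _ _) ?_
    repeat' first
      | exact Dfn.mem _ _ | exact Dfn.eq _ _ | exact dfn_pm Lvl_sub_Trs _ _ _
      | refine Dfn.allfun _ _ ?_ | refine Dfn.ball Lvl_sub_Trs _ ?_
      | refine Dfn.iff ?_ ?_ | refine Dfn.not ?_ | refine Dfn.imp ?_ ?_
  · rintro U hU v hv ⟨X, h1, h2⟩
    refine ⟨X, ?_, h1, h2⟩
    refine Lvl_sub hU (Lvl_funs hU (hv (a + 2)) (hv (b + 2))) ?_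
    intro s hs
    exact mem_funs.2 (h1 s hs)

theorem dfn_ODat (a b : ℕ) : Dfn Lvl.{u} (fun v => ODat (v a) (v b)) := by
  refine Dfn.congr (A := fun v => ODI om (v a) (v b)) ?_ fun v => odAt_iff.symm
  exact Dfn_om (A := fun W v => ODI W (v a) (v b)) (dfn_ODI 0 (a + 1) (b + 1))

end Pool.Agent.H310.HD
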