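import Pool.Agent.H310.HD.Tail

/-!
Short families suffice.
-/

set_option autoImplicit false
set_option linter.unusedVariables false

namespace Pool.Agent.H310.HD

open ZFSet Gss969

universe u

/-- For all regular uncountable `k ∈ d` there is a family of length `k` in `W`. -/
def ShortB (W d m : ZFSet.{u}) : Prop :=
  ∀ k ∈ d, RegUnc k → ∃ l ∈ W, RegUnc l ∧ ∃ S ∈ W, (∃ U ∈ W, Lev U ∧ ODat U S) ∧ Fam m k l S

theorem dfn_ShortB (a b c : ℕ) : Dfn Lvl.{u} (fun v => ShortB (v a) (v b) (v c)) := by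
  unfold ShortB
  repeat' first
    | exact Dfn.mem _ _ | exact dfn_lev _ | exact dfn_ODat _ _ | exact dfn_RegUnc _
    | exact dfn_Fam _ _ _ _ | refine Dfn.imp ?_ ?_ | refine Dfn.and ?_ ?_
    | refine Dfn.ball Lvl_sub_Trs _ ?_ | refine Dfn.bex Lvl_sub_Trs _ ?_

/-- Families of length `k` for all regular `k < δ` give arbitrarily long families. -/
theorem fam_of_short {δ : Ordinal.{u}} (hδ : Extendible δ) {μ : Ordinal.{u}} (hμ : μ < δ)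
    (h : ∀ k < δ, RegUnc (Ordinal.toZFSet k) → ∃ l : Ordinal.{u}, RegUnc l.toZFSet ∧
      ∃ S, HOD S ∧ Fam μ.toZFSet (Ordinal.toZFSet k) l.toZFSet S) (k₀ : Ordinal.{u})
    (hk₀ : RegUnc k₀.toZFSet) :
    ∃ l : Ordinal.{u}, RegUnc l.toZFSet ∧ ∃ S, HOD S ∧ Fam μ.toZFSet k₀.toZFSet l.toZFSet S := by
  have h' : ∀ k : Ordinal.{u}, ∃ l : Ordinal.{u}, ∃ S : ZFSet.{u}, ∃ γ : Ordinal.{u},
      (k < δ → RegUnc k.toZFSet → RegUnc l.toZFSet ∧ ODat (V_ γ) S ∧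
        Fam μ.toZFSet k.toZFSet l.toZFSet S) := by
    intro k
    by_cases hk : k < δ ∧ RegUnc k.toZFSet
    · obtain ⟨l, hl, S, hS, hF⟩ := h k hk.1 hk.2
      obtain ⟨γ, hγ⟩ := hS.od
      exact ⟨l, S, γ, fun _ _ => ⟨hl, hγ, hF⟩⟩
    · exact ⟨0, ∅, 0, fun h1 h2 => absurd ⟨h1, h2⟩ hk⟩
  choose l S γ hS using h'
  obtain ⟨ζ₀, hζ₀⟩ : ∃ ζ₀ : Ordinal.{u}, ∀ k < δ, max (max (l k) (rank (S k))) (γ k) < ζ₀ := by
    refine ⟨⨆ w : {w // w ∈ δ.toZFSet}, Order.succ (max (max (l (rank w.1))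
      (rank (S (rank w.1)))) (γ (rank w.1))), fun k hk => ?_⟩
    refine (Order.lt_succ _).trans_le ?_
    have := Ordinal.le_iSup (fun w : {w // w ∈ δ.toZFSet} => Order.succ (max (max (l (rank w.1))
      (rank (S (rank w.1)))) (γ (rank w.1)))) ⟨k.toZFSet, tz_mem.2 hk⟩
    simpa only [Ordinal.rank_toZFSet] using this
  obtain ⟨η, θ, τ, j, h5, D⟩ := hδ.data (max ζ₀ k₀)
  have h6 : ζ₀ < η := (le_max_left _ _).trans_lt h5
  have h7 : k₀ < η := (le_max_right _ _).trans_lt h5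
  have hW : V_ ζ₀ ∈ V_ η := vonNeumann_mem_vonNeumann_iff.2 h6
  have hB : ShortB (V_ ζ₀) δ.toZFSet μ.toZFSet := by
    intro k hk hr
    obtain ⟨k, hk', rfl⟩ := Ordinal.mem_toZFSet_iff.1 hk
    obtain ⟨h1, h2, h3⟩ := hS k hk' hr
    have h4 := hζ₀ k hk'
    refine ⟨_, ExtData.ordB (((le_max_left _ _).trans (le_max_left _ _)).trans_lt h4), h1, S k,
      mem_vonNeumann.2 (((le_max_right _ _).trans (le_max_left _ _)).trans_lt h4),
      ⟨V_ (γ k), vonNeumann_mem_vonNeumann_iff.2 ((le_max_right _ _).trans_lt h4), ⟨_, rfl⟩, h2⟩, h3⟩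
  have hB' := (D.E.el.t3 D.E.lvl D.nl (A := fun a b c => ShortB a b c) (dfn_ShortB _ _ _)
    hW D.dB (ExtData.ordB (hμ.trans D.lt))).1 hB
  rw [D.jd, D.fix μ hμ] at hB'
  obtain ⟨l', hl', hr', S', hS', ⟨U, hU, ⟨β, rfl⟩, hOD⟩, hF⟩ := hB' _ (tz_mem.2 (h7.trans D.ητ)) hk₀
  have hl'' : l' = (rank l').toZFSet := hr'.1.toZFSet_rank_eq.symm
  rw [hl''] at hr' hF
  exact ⟨rank l', hr', S', HOD_of_fun ⟨β, hOD⟩ hF.1, hF⟩

/-- `P(k)` has fewer than `δ` elements for `k < δ`. -/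
theorem Extendible.few {δ : Ordinal.{u}} (hδ : Extendible δ) {k : Ordinal.{u}} (hk : k < δ)
    (P : ZFSet.{u} → Prop) {l : Ordinal.{u}} (hl : δ ≤ l) : FewSub P k.toZFSet l.toZFSet := by
  obtain ⟨c, hc⟩ := fewSub_large (fun _ => True) k
  obtain ⟨m, hm, g, hg, h1⟩ := hc (Order.succ c) (Order.lt_succ c)
  obtain ⟨m, hm', rfl⟩ := Ordinal.mem_toZFSet_iff.1 hm
  obtain ⟨η, θ, τ, j, h5, D⟩ := hδ.data (Order.succ c)
  have hmη : m < η := hm'.trans h5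
  have hkη : k < η := hk.trans D.lt
  have h2 := (D.E.el.t2 D.E.lvl D.nl (A := fun a b => ∃ m ∈ a, ∃ g, IsFunc m (powerset b) g ∧
    ∀ B, B ⊆ b → ∃ i ∈ m, pair i B ∈ g) (by
      refine Dfn.bex Lvl_sub_Trs _ ?_
      refine Dfn_pow 2 (A := fun T v => ∃ g, IsFunc (v 0) T g ∧ ∀ B, B ⊆ v 2 →
        ∃ i ∈ v 0, pair i B ∈ g) ?_
      refine Dfn.exfun _ _ ?_
      refine Dfn.allsub subset_rfl _ ?_
      exact Dfn.bex Lvl_sub_Trs _ (dfn_pm Lvl_sub_Trs _ _ _))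
    D.dB (ExtData.ordB hkη)).2 (by
      rw [D.jd, D.fix k hk]
      exact ⟨m.toZFSet, tz_mem.2 (hmη.trans D.ητ), g, hg, fun B hB => h1 B hB trivial⟩)
  obtain ⟨m', hm1, g', hg', h3⟩ := h2
  obtain ⟨m', hm2, rfl⟩ := Ordinal.mem_toZFSet_iff.1 hm1
  exact ⟨_, tz_mem.2 (hm2.trans_le hl), g', hg', fun B hB _ => h3 B hB⟩

end Pool.Agent.H310.HD
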