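import Pool.Agent.H310.HD.Solovay3

/-!
Regular limit cardinals, if `HOD` is correct about singular cardinals of cofinality `ω`.
-/

set_option autoImplicit false
set_option linter.unusedVariables false

namespace Pool.Agent.H310.HD

open ZFSet Gss969

universe u

variable {l : Ordinal.{u}}

/-- A limit of cardinals is a cardinal. -/
theorem isCard_of_lim {α : Ordinal.{u}}
    (h : ∀ ξ < α, ∃ c < α, ξ < c ∧ IsCard c.toZFSet) : IsCard α.toZFSet := by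
  classical
  refine ⟨isOrdinal_toZFSet _, fun m hm f hf => ?_⟩
  by_contra hcon
  push Not at hcon
  obtain ⟨m, hm', rfl⟩ := Ordinal.mem_toZFSet_iff.1 hm
  obtain ⟨c, hc, hmc, hcard⟩ := h m hm'
  have h0 : m.toZFSet ∈ c.toZFSet := tz_mem.2 hmc
  let G : ZFSet.{u} → ZFSet.{u} := fun x => if app f x ∈ c.toZFSet then app f x else m.toZFSet
  obtain ⟨y, hy, h1⟩ := hcard.2 _ h0 (gr m.toZFSet G) (isFunc_gr fun x _ => by
    simp only [G]
    split_ifs with h2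
    · exact h2
    · exact h0)
  obtain ⟨x, hx, hxy⟩ := hcon y ((isOrdinal_toZFSet α).1.mem_trans hy (tz_mem.2 hc))
  refine h1 x hx ?_
  rw [pair_mem_gr]
  refine ⟨hx, ?_⟩
  have h2 := (app_iff hf hx).1 hxy
  simp only [G]
  rw [h2, if_pos hy]

/-- The supremum of an increasing sequence below a regular cardinal. -/
theorem exists_sup (hl : RegUnc l.toZFSet) {G : ℕ → Ordinal.{u}} (hG : ∀ n, G n < l)
    (hs : ∀ n, G n < G (n + 1)) :
    ∃ α < l, (∀ n, G n < α) ∧ (∀ ξ < α, ∃ n, ξ < G n) ∧ CofOm α.toZFSet := by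
  classical
  obtain ⟨b, hb, h⟩ := hl.bdd hl.om_lt (fun i => G (if h : ∃ n : ℕ, i = n then h.choose else 0))
    fun i _ => hG _
  have hGb : ∀ n, G n < b := by
    intro n
    have h1 := h n (Ordinal.natCast_lt_omega0 n)
    have h2 : ∃ m : ℕ, (n : Ordinal.{u}) = m := ⟨n, rfl⟩
    simp only [dif_pos h2] at h1
    have h3 : h2.choose = n := by exact_mod_cast h2.choose_spec.symm
    rwa [h3] at h1
  obtain ⟨α, hα⟩ : ∃ α : Ordinal.{u}, α = ⨆ n, G n := ⟨_, rfl⟩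
  have hbd : BddAbove (Set.range G) := ⟨b, by rintro _ ⟨n, rfl⟩; exact (hGb n).le⟩
  have hle : ∀ n, G n < α := by
    intro n
    rw [hα]
    exact (hs n).trans_le (le_ciSup hbd (n + 1))
  have hαl : α < l := by
    rw [hα]
    exact (ciSup_le fun n => (hGb n).le).trans_lt hb
  have hun : ∀ ξ < α, ∃ n, ξ < G n := by
    intro ξ hξ
    by_contra hcon
    push Not at hcon
    rw [hα] at hξ
    exact absurd hξ (not_lt.2 (ciSup_le fun n => hcon n))
  refine ⟨α, hαl, hle, hun, fn fun n => (G n).toZFSet, fn_func fun n => tz_mem.2 (hle n), ?_⟩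
  intro x hx
  obtain ⟨ξ, hξ, rfl⟩ := Ordinal.mem_toZFSet_iff.1 hx
  obtain ⟨n, hn⟩ := hun ξ hξ
  exact ⟨nt n, nt_mem n, _, tz_mem.2 (hle n), pair_fn.2 rfl, tz_mem.2 hn⟩

/-- Stationary many ordinals below a regular limit cardinal are cardinals of cofinality `ω`. -/
theorem statL_card (hl : RegUnc l.toZFSet)
    (hlim : ∀ ξ < l, ∃ c < l, ξ < c ∧ IsCard c.toZFSet) {β : Ordinal.{u}} (hβ : β < l) :
    StatL {α | β < α ∧ IsSing α.toZFSet ∧ CofOm α.toZFSet} l := by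
  intro C hC1 hC2
  have step : ∀ ξ < l, ∃ c < l, ∃ d < l, ξ < c ∧ c < d ∧ IsCard c.toZFSet ∧ d.toZFSet ∈ C := by
    intro ξ hξ
    obtain ⟨c, hc, h1, h2⟩ := hlim ξ hξ
    obtain ⟨d, hd, hd'⟩ := hC2.2.1 _ (tz_mem.2 hc)
    obtain ⟨δ, hδ, rfl⟩ := Ordinal.mem_toZFSet_iff.1 (hC1 hd)
    exact ⟨c, hc, δ, hδ, h1, tz_mem.1 hd', h2, hd⟩
  choose! c hc d hd h1 h2 h3 h4 using step
  let G : ℕ → Ordinal.{u} := fun n => Nat.rec (max β Ordinal.omega0) (fun _ γ => d γ) n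
  have hG : ∀ n, G n < l := by
    intro n
    induction n with
    | zero => exact max_lt hβ hl.om_lt
    | succ n ih => exact hd _ ih
  obtain ⟨α, hα, h5, h6, h7⟩ := exists_sup hl hG fun n => (h1 _ (hG n)).trans (h2 _ (hG n))
  have hβα : β < α := (le_max_left _ _).trans_lt (h5 0)
  have homα : om.{u} ∈ α.toZFSet := by
    unfold om
    exact tz_mem.2 ((le_max_right _ _).trans_lt (h5 0))
  refine ⟨α, hα, ⟨hβα, ⟨isCard_of_lim fun ξ hξ => ?_, homα, ?_⟩, h7⟩, ?_⟩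
  · obtain ⟨n, hn⟩ := h6 ξ hξ
    exact ⟨c (G n), (h2 _ (hG n)).trans (h5 (n + 1)), hn.trans (h1 _ (hG n)), h3 _ (hG n)⟩
  · obtain ⟨f, hf, h8⟩ := h7
    refine ⟨om, homα, f, hf, fun y hy => ?_⟩
    obtain ⟨n, hn, z, hz, h9⟩ := h8 y hy
    exact ⟨n, hn, z, hz, h9⟩
  · refine hC2.2.2 _ (tz_mem.2 hα) ⟨_, homα, rfl⟩ fun x hx => ?_
    obtain ⟨ξ, hξ, rfl⟩ := Ordinal.mem_toZFSet_iff.1 hx
    obtain ⟨n, hn⟩ := h6 ξ hξ
    exact ⟨_, h4 _ (hG n), tz_mem.2 (h5 (n + 1)),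
      tz_mem.2 (hn.trans ((h1 _ (hG n)).trans (h2 _ (hG n))))⟩

end Pool.Agent.H310.HD
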