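import Pool.Agent.H310.HD.Unif
import Pool.Agent.H310.HD.Card

/-!
If stationary many `α < l` of cofinality `ω` are singular in `HOD`, then `HOD` contains a regressive
function on such points which takes unboundedly many values on stationary sets.
-/

set_option autoImplicit false
set_option linter.unusedVariables false

namespace Pool.Agent.H310.HD

open ZFSet Gss969

universe u

/-- The depth of a formula. -/
def dep : Fml → ℕ
  | .mem _ _ => 0
  | .eq _ _ => 0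
  | .neg φ => dep φ + 1
  | .and φ ψ => max (dep φ) (dep ψ) + 1
  | .ex _ φ => dep φ + 1

theorem countable_dep (n : ℕ) : {φ : Fml | dep φ ≤ n}.Countable := by
  have hat : (Set.range (fun p : ℕ × ℕ => Fml.mem p.1 p.2) ∪
      Set.range (fun p : ℕ × ℕ => Fml.eq p.1 p.2)).Countable :=
    (Set.countable_range _).union (Set.countable_range _)
  induction n with
  | zero =>
    refine hat.mono ?_
    intro φ hφ
    cases φ with
    | mem i j => exact Or.inl ⟨(i, j), rfl⟩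
    | eq i j => exact Or.inr ⟨(i, j), rfl⟩
    | neg φ => simp [dep] at hφ
    | and φ ψ => simp [dep] at hφ
    | ex i φ => simp [dep] at hφ
  | succ n ih =>
    have h1 := ih.image Fml.neg
    have h2 := (ih.prod ih).image (fun p : Fml × Fml => Fml.and p.1 p.2)
    have h3 := ((Set.countable_univ (α := ℕ)).prod ih).image (fun p : ℕ × Fml => Fml.ex p.1 p.2)
    refine (hat.union (h1.union (h2.union h3))).mono ?_
    intro φ hφ
    cases φ with
    | mem i j => exact Or.inl (Or.inl ⟨(i, j), rfl⟩)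
    | eq i j => exact Or.inl (Or.inr ⟨(i, j), rfl⟩)
    | neg φ =>
      refine Or.inr (Or.inl ⟨φ, ?_, rfl⟩)
      simp only [Set.mem_setOf_eq, dep] at hφ ⊢
      omega
    | and φ ψ =>
      refine Or.inr (Or.inr (Or.inl ⟨(φ, ψ), ?_, rfl⟩))
      simp only [Set.mem_setOf_eq, dep, Set.mem_prod] at hφ ⊢
      omega
    | ex i φ =>
      refine Or.inr (Or.inr (Or.inr ⟨(i, φ), ?_, rfl⟩))
      simp only [Set.mem_setOf_eq, dep, Set.mem_prod] at hφ ⊢
      exact ⟨trivial, by omega⟩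

theorem exists_enum : ∃ e : ℕ → Fml, ∀ φ, ∃ n, e n = φ := by
  have h : (Set.univ : Set Fml).Countable := by
    have : (Set.univ : Set Fml) = ⋃ n, {φ : Fml | dep φ ≤ n} := by
      ext φ
      simp only [Set.mem_univ, Set.mem_iUnion, Set.mem_setOf_eq, true_iff]
      exact ⟨dep φ, le_rfl⟩
    rw [this]
    exact Set.countable_iUnion countable_dep
  haveI : Nonempty Fml := ⟨.eq 0 0⟩
  haveI : Countable Fml := Set.countable_univ_iff.1 h
  exact exists_surjective_nat Fml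

/-- `x` is a cofinal function from `n` to `α`. -/
def Good (x α n : ZFSet.{u}) : Prop :=
  n ∈ α ∧ (IsFunc n α x ∧ ∀ y ∈ α, ∃ i ∈ n, ∃ z ∈ α, pair i z ∈ x ∧ y ∈ z)

theorem dfn_Good (a b c : ℕ) : Dfn Lvl.{u} (fun v => Good (v a) (v b) (v c)) := by
  unfold Good
  refine (Dfn.mem _ _).and ((dfn_isFunc Lvl_sub_Trs _ _ _).and ?_)
  repeat' first
    | exact Dfn.mem _ _ | exact dfn_pm Lvl_sub_Trs _ _ _ | refine Dfn.and ?_ ?_
    | refine Dfn.ball Lvl_sub_Trs _ ?_ | refine Dfn.bex Lvl_sub_Trs _ ?_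

/-- There is a smaller tuple which defines a cofinal function. -/
def Inn (φ : Fml) (m : ℕ) (w : ℕ → ZFSet.{u}) : Prop :=
  ∃ p : ℕ → ZFSet.{u}, (∀ i < m, p i ∈ w (2 + m)) ∧ (∀ i, p (i + m) = w i) ∧
    ∃ z, Good z (w (0 + m)) (w (1 + m)) ∧ (Def φ z p ∧ LexLt m p w)

theorem dfn_Inn (φ : Fml) (m : ℕ) : Dfn Lvl.{u} (fun w => Inn φ m w) := by
  refine Dfn_blk m (2 + m) (C := fun p w => ∃ z, Good z (w (0 + m)) (w (1 + m)) ∧
    (Def φ z p ∧ LexLt m p w)) ?_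
  refine Dfn.ex ?_ ?_
  · refine (dfn_Good _ _ _).and ((dfn_Def φ _ _).and ?_)
    exact dfn_LexLt m (fun n => n + 1) (fun n => n + m + 1)
  · rintro U hU v hv ⟨z, h1, h2⟩
    exact ⟨z, Lvl_func hU (hv _) (hv _) h1.2.1, h1, h2⟩

/-- The value at `e 3` of the least definable cofinal function from `e 1` to `e 0` is `e 4`. -/
def Out (φ : Fml) (m : ℕ) (e : ℕ → ZFSet.{u}) : Prop :=
  ∃ p : ℕ → ZFSet.{u}, (∀ i < m, p i ∈ e 2) ∧ (∀ i, p (i + m) = e i) ∧
    ∃ z, Good z (e 0) (e 1) ∧ (Def φ z p ∧ (pair (e 3) (e 4) ∈ z ∧ ¬ Inn φ m p))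

theorem dfn_Out (φ : Fml) (m : ℕ) : Dfn Lvl.{u} (fun e => Out φ m e) := by
  refine Dfn_blk m 2 (C := fun p e => ∃ z, Good z (e 0) (e 1) ∧
    (Def φ z p ∧ (pair (e 3) (e 4) ∈ z ∧ ¬ Inn φ m p))) ?_
  refine Dfn.ex ?_ ?_
  · refine (dfn_Good _ _ _).and ((dfn_Def φ _ _).and ((dfn_pm Lvl_sub_Trs _ _ _).and
      (Dfn.not ?_)))
    exact Dfn_reindex (dfn_Inn φ m) (fun n => n + 1)
  · rintro U hU v hv ⟨z, h1, h2⟩
    exact ⟨z, Lvl_func hU (hv _) (hv _) h1.2.1, h1, h2⟩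

/-- The tuples which define a cofinal function from `ν` to `α`. -/
def QQ (φ : Fml) (m : ℕ) (ζ ν α : Ordinal.{u}) (q : ℕ → Ordinal.{u}) : Prop :=
  (∀ i < m, q i < ζ) ∧ ∃ x, Good x α.toZFSet ν.toZFSet ∧ Def φ x (fun i => (q i).toZFSet)

/-- The assignment `a 0, …, a (m - 1), e 0, e 1, …`. -/
def mrg (m : ℕ) (a e : ℕ → ZFSet.{u}) : ℕ → ZFSet.{u} := fun j => if j < m then a j else e (j - m)

theorem mrg_lt {m j : ℕ} {a e : ℕ → ZFSet.{u}} (h : j < m) : mrg m a e j = a j := by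
  unfold mrg; rw [if_pos h]

theorem mrg_add {m : ℕ} {a e : ℕ → ZFSet.{u}} (j : ℕ) : mrg m a e (j + m) = e j := by
  unfold mrg
  rw [if_neg (by omega)]
  congr 1
  omega

theorem out_iff {φ : Fml} {m : ℕ} (hm : m = bd φ + 1) {ζ ν α : Ordinal.{u}}
    {q : ℕ → Ordinal.{u}} (hq : QQ φ m ζ ν α q)
    (hmin : ∀ q', QQ φ m ζ ν α q' → ¬ ∃ i < m, q' i < q i ∧ ∀ k < i, q' k = q k)
    {x : ZFSet.{u}} (hx : Good x α.toZFSet ν.toZFSet)
    (hx' : Def φ x (fun i => (q i).toZFSet)) (i₀ η : ZFSet.{u}) (e : ℕ → ZFSet.{u})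
    (e0 : e 0 = α.toZFSet) (e1 : e 1 = ν.toZFSet) (e2 : e 2 = ζ.toZFSet) (e3 : e 3 = i₀)
    (e4 : e 4 = η) : Out φ m e ↔ pair i₀ η ∈ x := by
  have hordp : ∀ p : ℕ → ZFSet.{u}, (∀ i < m, p i ∈ ζ.toZFSet) →
      ∀ i < m, (rank (p i)).toZFSet = p i ∧ rank (p i) < ζ := by
    intro p hp i hi
    obtain ⟨β, hβ, h⟩ := Ordinal.mem_toZFSet_iff.1 (hp i hi)
    rw [← h, Ordinal.rank_toZFSet]
    exact ⟨rfl, hβ⟩
  have hQp : ∀ p : ℕ → ZFSet.{u}, (∀ i < m, p i ∈ ζ.toZFSet) → ∀ z,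
      Good z α.toZFSet ν.toZFSet → Def φ z p →
      Def φ z (fun i => (rank (p i)).toZFSet) ∧ QQ φ m ζ ν α (fun i => rank (p i)) := by
    intro p hp z hz hd
    have h1 : Def φ z (fun i => (rank (p i)).toZFSet) :=
      (Def.congr fun i hi => ((hordp p hp i (by omega)).1).symm).1 hd
    exact ⟨h1, fun i hi => (hordp p hp i hi).2, z, hz, h1⟩
  constructor
  · rintro ⟨p, hp, hpe, z, hz, hd, hpz, hI⟩
    rw [e2] at hp
    rw [e0, e1] at hz
    rw [e3, e4] at hpz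
    obtain ⟨h1, h2⟩ := hQp p hp z hz hd
    have h3 : ∀ i < m, q i = rank (p i) := by
      refine lex_trichotomy ?_ (hmin _ h2)
      rintro ⟨i, hi, h3, h4⟩
      refine hI ⟨mrg m (fun j => (q j).toZFSet) p, ?_, fun j => mrg_add j, x, ?_, ?_, ?_⟩
      · intro j hj
        rw [mrg_lt hj, hpe, e2]
        exact tz_mem.2 (hq.1 j hj)
      · rw [hpe, hpe, e0, e1]
        exact hx
      · exact (Def.congr fun j hj => (mrg_lt (by omega)).symm).1 hx'
      · refine ⟨i, hi, ?_, fun k hk => ?_⟩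
        · rw [mrg_lt hi, ← (hordp p hp i hi).1]
          exact tz_mem.2 h3
        · rw [mrg_lt (hk.trans hi), h4 k hk, (hordp p hp k (hk.trans hi)).1]
    have h4 : z = x := by
      refine h1.unique ((Def.congr fun j hj => ?_).1 hx')
      rw [h3 j (by omega)]
    rw [← h4]
    exact hpz
  · intro hpx
    refine ⟨mrg m (fun j => (q j).toZFSet) e, ?_, fun j => mrg_add j, x, ?_, ?_, ?_, ?_⟩
    · intro j hj
      rw [mrg_lt hj, e2]
      exact tz_mem.2 (hq.1 j hj)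
    · rw [e0, e1]; exact hx
    · exact (Def.congr fun j hj => (mrg_lt (by omega)).symm).1 hx'
    · rw [e3, e4]; exact hpx
    · rintro ⟨p, hp, hpe, z, hz, hd, i, hi, h5, h6⟩
      rw [mrg_add, e2] at hp
      rw [mrg_add, mrg_add, e0, e1] at hz
      obtain ⟨h1, h2⟩ := hQp p hp z hz hd
      refine hmin _ h2 ⟨i, hi, ?_, fun k hk => ?_⟩
      · rw [mrg_lt hi, ← (hordp p hp i hi).1] at h5
        exact tz_mem.1 h5
      · have h7 := h6 k hk
        rw [mrg_lt (hk.trans hi)] at h7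
        show rank (p k) = q k
        rw [h7, Ordinal.rank_toZFSet]

theorem out_ex {φ : Fml} {m : ℕ} (hm : m = bd φ + 1) {ζ ν α : Ordinal.{u}}
    (e : ℕ → ZFSet.{u}) (e0 : e 0 = α.toZFSet) (e1 : e 1 = ν.toZFSet) (e2 : e 2 = ζ.toZFSet)
    (h : Out φ m e) : ∃ q, QQ φ m ζ ν α q := by
  obtain ⟨p, hp, hpe, z, hz, hd, _⟩ := h
  rw [e2] at hp
  rw [e0, e1] at hz
  have hordp : ∀ i < m, (rank (p i)).toZFSet = p i ∧ rank (p i) < ζ := by
    intro i hi
    obtain ⟨β, hβ, h⟩ := Ordinal.mem_toZFSet_iff.1 (hp i hi)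
    rw [← h, Ordinal.rank_toZFSet]
    exact ⟨rfl, hβ⟩
  exact ⟨fun i => rank (p i), fun i hi => (hordp i hi).2, z, hz,
    (Def.congr fun i hi => ((hordp i (by omega)).1).symm).1 hd⟩

end Pool.Agent.H310.HD
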