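import Pool.Agent.H310.HD.Solovay

/-!
Solovay's splitting argument in `HOD`.
-/

set_option autoImplicit false
set_option linter.unusedVariables false

namespace Pool.Agent.H310.HD

open ZFSet Gss969

universe u

variable {l : Ordinal.{u}}

theorem dfn_asg {A : (ℕ → ZFSet.{u}) → Prop} (h : Dfn Lvl.{u} A) (a b c d e f : ℕ) :
    Dfn Lvl.{u} (fun v => A (asg (v a) (v b) (v c) (v d) (v e) (v f))) := by
  refine (Dfn_reindex h (fun n => Nat.casesOn n a fun n => Nat.casesOn n b fun n =>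
    Nat.casesOn n c fun n => Nat.casesOn n d fun n => Nat.casesOn n e fun _ => f)).congr
    fun v => ?_
  have : (fun n => v (Nat.casesOn n a fun n => Nat.casesOn n b fun n =>
    Nat.casesOn n c fun n => Nat.casesOn n d fun n => Nat.casesOn n e fun _ => f)) =
      asg (v a) (v b) (v c) (v d) (v e) (v f) := by
    funext n
    rcases n with _ | n
    · rfl
    rcases n with _ | n
    · rfl
    rcases n with _ | n
    · rfl
    rcases n with _ | n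
    · rfl
    rcases n with _ | n
    · rfl
    · rfl
  rw [this]

/-- A regressive function in `HOD` on points of cofinality `ω`, which takes unboundedly many values
on stationary sets. -/
theorem exists_T (hl : RegUnc l.toZFSet)
    (hS : StatL {α | CofOm α.toZFSet ∧ CofinalP HOD α.toZFSet} l) :
    ∃ T, HOD T ∧ (∀ α η, pair α η ∈ T → α ∈ l.toZFSet ∧ η ∈ l.toZFSet ∧ CofOm α) ∧
      (∀ α η η', pair α η ∈ T → pair α η' ∈ T → η = η') ∧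
      ∀ ξ < l, ∃ η < l, ξ ≤ η ∧ StatL {α | pair α.toZFSet η.toZFSet ∈ T} l := by
  classical
  obtain ⟨en, hen⟩ := exists_enum
  have h1 : ∀ α : Ordinal.{u}, (CofOm α.toZFSet ∧ CofinalP HOD α.toZFSet) → ∃ ν < α, ∃ n : ℕ,
      ∃ q : ℕ → Ordinal.{u}, ∃ x, Good x α.toZFSet ν.toZFSet ∧
        Def (en n) x (fun i => (q i).toZFSet) ∧ ∀ i, q i ≤ q 0 := by
    rintro α ⟨_, a, ha, x, hx, h1, h2⟩
    obtain ⟨ν, hν, rfl⟩ := Ordinal.mem_toZFSet_iff.1 ha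
    obtain ⟨φ, q, hq, hq'⟩ := hx.od.exists_def
    obtain ⟨n, rfl⟩ := hen φ
    exact ⟨ν, hν, n, q, x, ⟨ha, h1, h2⟩, hq, hq'⟩
  choose! ν hν n q x hx hd hqb using h1
  obtain ⟨ν₀, hν₀, h2⟩ := fodor hl hS (f := ν) fun α hα _ => hν α hα
  obtain ⟨n₀, h3⟩ := h2.union_nat hl (P := fun k α => n α = k) fun α _ _ => ⟨_, rfl⟩
  obtain ⟨φ, hφ⟩ : ∃ φ, φ = en n₀ := ⟨_, rfl⟩
  obtain ⟨m, hm⟩ : ∃ m, m = bd φ + 1 := ⟨_, rfl⟩
  obtain ⟨ζ, hζ⟩ : ∃ ζ : Ordinal.{u}, ∀ α < l, q α 0 < ζ := by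
    refine ⟨⨆ w : {w // w ∈ l.toZFSet}, Order.succ (q (rank w.1) 0), fun α hα => ?_⟩
    refine (Order.lt_succ _).trans_le ?_
    have := Ordinal.le_iSup (fun w : {w // w ∈ l.toZFSet} => Order.succ (q (rank w.1) 0))
      ⟨α.toZFSet, tz_mem.2 hα⟩
    simpa only [Ordinal.rank_toZFSet] using this
  let A1 : Set Ordinal.{u} := {α | CofOm α.toZFSet ∧ ∃ q, QQ φ m ζ ν₀ α q}
  have hA1 : StatL A1 l := by
    refine h3.mono fun α hα h => ?_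
    obtain ⟨⟨h4, h5⟩, h6⟩ := h
    refine ⟨h4.1, q α, fun i _ => (hqb α h4 i).trans_lt (hζ α hα), x α, ?_, ?_⟩
    · rw [← h5]; exact hx α h4
    · have := hd α h4
      rwa [h6, ← hφ] at this
  -- the least tuples
  have h4 : ∀ α ∈ A1, ∃ q, ∃ x, QQ φ m ζ ν₀ α q ∧
      (∀ q', QQ φ m ζ ν₀ α q' → ¬ ∃ i < m, q' i < q i ∧ ∀ k < i, q' k = q k) ∧
      Good x α.toZFSet ν₀.toZFSet ∧ Def φ x (fun i => (q i).toZFSet) := by
    intro α hα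
    obtain ⟨q, hq, h5⟩ := exists_lexmin hα.2 m
    obtain ⟨x, h6, h7⟩ := hq.2
    exact ⟨q, x, hq, h5, h6, h7⟩
  choose! Q X hQ hmin hG hD using h4
  have hout : ∀ α ∈ A1, ∀ i₀ η : ZFSet.{u}, ∀ e : ℕ → ZFSet.{u}, e 0 = α.toZFSet →
      e 1 = ν₀.toZFSet → e 2 = ζ.toZFSet → e 3 = i₀ → e 4 = η →
      (Out φ m e ↔ pair i₀ η ∈ X α) := fun α hα i₀ η e e0 e1 e2 e3 e4 =>
    out_iff hm (hQ α hα) (hmin α hα) (hG α hα) (hD α hα) i₀ η e e0 e1 e2 e3 e4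
  -- the values
  let val : Ordinal.{u} → Ordinal.{u} → Ordinal.{u} := fun i α => rank (app (X α) i.toZFSet)
  have hval : ∀ α ∈ A1, ∀ i < ν₀, val i α < α ∧ app (X α) i.toZFSet = (val i α).toZFSet := by
    intro α hα i hi
    obtain ⟨β, hβ, h⟩ := Ordinal.mem_toZFSet_iff.1 (app_mem (hG α hα).2.1 (tz_mem.2 hi))
    simp only [val]
    rw [← h, Ordinal.rank_toZFSet]
    exact ⟨hβ, rfl⟩
  have hcof : ∀ α ∈ A1, ∀ b < α, ∃ i < ν₀, b ≤ val i α := by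
    intro α hα b hb
    obtain ⟨i, hi, z, hz, hiz, hbz⟩ := (hG α hα).2.2 _ (tz_mem.2 hb)
    obtain ⟨i, hi', rfl⟩ := Ordinal.mem_toZFSet_iff.1 hi
    obtain ⟨γ, hγ, rfl⟩ := Ordinal.mem_toZFSet_iff.1 hz
    refine ⟨i, hi', ?_⟩
    have h5 := (app_iff (hG α hα).2.1 hi).1 hiz
    simp only [val]
    rw [h5, Ordinal.rank_toZFSet]
    exact (tz_mem.1 hbz).le
  have hi₀ : ∃ i₀ < ν₀, ∀ ξ < l, StatL {α | α ∈ A1 ∧ ξ ≤ val i₀ α} l := by
    by_contra hcon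
    push Not at hcon
    choose! ξ hξ hξ' using hcon
    obtain ⟨b, hb, hb'⟩ := hl.bdd hν₀ ξ hξ
    obtain ⟨i, hi, h5⟩ := (hA1.tail hl hb).union hl hν₀ (P := fun i α => b ≤ val i α)
      fun α hα _ => hcof α hα.1 b hα.2
    exact hξ' i hi (h5.mono fun α _ h6 => ⟨h6.1.1, (hb' i hi).le.trans h6.2⟩)
  obtain ⟨i₀, hi₀, h5⟩ := hi₀
  -- the set `T`
  let P : ZFSet.{u} → ZFSet.{u} → Prop := fun α η =>
    CofOm α ∧ Out φ m (asg α ν₀.toZFSet ζ.toZFSet i₀.toZFSet η η)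
  obtain ⟨T, hT⟩ : ∃ T : ZFSet.{u}, T = ZFSet.sep (fun p => ∃ α η, p = pair α η ∧ P α η)
    (prod l.toZFSet l.toZFSet) := ⟨_, rfl⟩
  have hT' : ∀ α η, pair α η ∈ T ↔ α ∈ l.toZFSet ∧ η ∈ l.toZFSet ∧ P α η := by
    intro α η
    rw [hT, mem_sep, pair_mem_prod]
    constructor
    · rintro ⟨⟨h6, h7⟩, α', η', h8, h9⟩
      rw [pair_inj] at h8
      obtain ⟨rfl, rfl⟩ := h8
      exact ⟨h6, h7, h9⟩
    · rintro ⟨h6, h7, h8⟩
      exact ⟨⟨h6, h7⟩, α, η, rfl, h8⟩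
  have hTo : ∀ α η : Ordinal.{u}, pair α.toZFSet η.toZFSet ∈ T ↔
      α < l ∧ η < l ∧ α ∈ A1 ∧ pair i₀.toZFSet η.toZFSet ∈ X α := by
    intro α η
    rw [hT', tz_mem, tz_mem]
    refine and_congr_right fun _ => and_congr_right fun _ => ?_
    constructor
    · rintro ⟨h6, h7⟩
      have hα : α ∈ A1 := ⟨h6, out_ex hm _ rfl rfl rfl h7⟩
      exact ⟨hα, (hout α hα _ _ _ rfl rfl rfl rfl rfl).1 h7⟩
    · rintro ⟨hα, h6⟩
      exact ⟨hα.1, (hout α hα _ _ _ rfl rfl rfl rfl rfl).2 h6⟩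
  refine ⟨T, ?_, fun α η h => ?_, fun α η η' h h' => ?_, fun ξ hξ => ?_⟩
  · refine HOD_of (R := fun y x => (∀ p ∈ y, ∃ α ∈ x 2, ∃ η ∈ x 2, p = pair α η ∧
      (CofOm α ∧ Out φ m (asg α (x 3) (x 4) (x 5) η η))) ∧ ∀ α ∈ x 2, ∀ η ∈ x 2,
        (CofOm α ∧ Out φ m (asg α (x 3) (x 4) (x 5) η η)) → pair α η ∈ y)
      (x := asg ∅ ∅ l.toZFSet ν₀.toZFSet ζ.toZFSet i₀.toZFSet) ?_ ?_ ?_
      (asg_ord (isOrdinal_toZFSet _) (isOrdinal_toZFSet _) (isOrdinal_toZFSet _)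
        (isOrdinal_toZFSet _)) (fun y => ?_) fun z hz => ?_
    · refine Dfn.and ?_ ?_
      · refine Dfn.ball Lvl_sub_Trs _ (Dfn.bex Lvl_sub_Trs _ (Dfn.bex Lvl_sub_Trs _
          ((dfn_pair Lvl_sub_Trs _ _ _).and ((dfn_CofOm _).and ?_))))
        exact dfn_asg (dfn_Out φ m) 1 7 8 9 0 0
      · refine Dfn.ball Lvl_sub_Trs _ (Dfn.ball Lvl_sub_Trs _ (Dfn.imp ((dfn_CofOm _).and ?_)
          (dfn_pm Lvl_sub_Trs _ _ _)))
        exact dfn_asg (dfn_Out φ m) 1 6 7 8 0 0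
    · have := OD_ord (0 : Ordinal.{u})
      rwa [Ordinal.toZFSet_zero] at this
    · have := OD_ord (0 : Ordinal.{u})
      rwa [Ordinal.toZFSet_zero] at this
    · show ((∀ p ∈ y, ∃ α ∈ l.toZFSet, ∃ η ∈ l.toZFSet, p = pair α η ∧ P α η) ∧
        ∀ α ∈ l.toZFSet, ∀ η ∈ l.toZFSet, P α η → pair α η ∈ y) ↔ _
      constructor
      · rintro ⟨h6, h7⟩
        ext p
        constructor
        · intro hp
          obtain ⟨α, hα, η, hη, rfl, h8⟩ := h6 p hp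
          exact (hT' α η).2 ⟨hα, hη, h8⟩
        · intro hp
          rw [hT, mem_sep] at hp
          obtain ⟨h8, α, η, rfl, h9⟩ := hp
          rw [pair_mem_prod] at h8
          exact h7 α h8.1 η h8.2 h9
      · rintro rfl
        refine ⟨fun p hp => ?_, fun α hα η hη h => (hT' α η).2 ⟨hα, hη, h⟩⟩
        have hp' := hp
        rw [hT, mem_sep] at hp'
        obtain ⟨_, α, η, rfl, h9⟩ := hp'
        obtain ⟨h10, h11, h12⟩ := (hT' α η).1 hp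
        exact ⟨α, h10, η, h11, rfl, h12⟩
    · rw [hT, mem_sep] at hz
      obtain ⟨h8, α, η, rfl, _⟩ := hz
      rw [pair_mem_prod] at h8
      obtain ⟨α, _, rfl⟩ := Ordinal.mem_toZFSet_iff.1 h8.1
      obtain ⟨η, _, rfl⟩ := Ordinal.mem_toZFSet_iff.1 h8.2
      exact HOD_pair (HOD_ord α) (HOD_ord η)
  · obtain ⟨h6, h7, h8⟩ := (hT' α η).1 h
    exact ⟨h6, h7, h8.1⟩
  · obtain ⟨h6, h7, _⟩ := (hT' α η).1 h
    obtain ⟨_, h8, _⟩ := (hT' α η').1 h'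
    obtain ⟨α, _, rfl⟩ := Ordinal.mem_toZFSet_iff.1 h6
    obtain ⟨η, _, rfl⟩ := Ordinal.mem_toZFSet_iff.1 h7
    obtain ⟨η', _, rfl⟩ := Ordinal.mem_toZFSet_iff.1 h8
    obtain ⟨_, _, hα, h9⟩ := (hTo α η).1 h
    obtain ⟨_, _, _, h10⟩ := (hTo α η').1 h'
    have hi' : i₀.toZFSet ∈ ν₀.toZFSet := tz_mem.2 hi₀
    rw [← (app_iff (hG α hα).2.1 hi').1 h9, (app_iff (hG α hα).2.1 hi').1 h10]
  · obtain ⟨η, hη, h6⟩ := fodor hl (h5 ξ hξ) (f := val i₀) fun α hα _ => (hval α hα.1 i₀ hi₀).1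
    have hξη : ξ ≤ η := by
      obtain ⟨α, _, h7, _⟩ := h6 l.toZFSet (fun x hx => hx) ⟨fun x hx => hx, fun x hx => by
        obtain ⟨γ, hγ, rfl⟩ := Ordinal.mem_toZFSet_iff.1 hx
        exact ⟨_, tz_mem.2 (hl.succ_lt hγ), tz_mem.2 (Order.lt_succ γ)⟩, fun a ha _ _ => ha⟩
      rw [← h7.2]
      exact h7.1.2
    refine ⟨η, hη, hξη, h6.mono fun α hα h7 => ?_⟩
    refine (hTo α η).2 ⟨hα, hη, h7.1.1, ?_⟩
    have h8 := app_spec (hG α h7.1.1).2.1 (tz_mem.2 hi₀)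
    rwa [(hval α h7.1.1 i₀ hi₀).2, h7.2] at h8

end Pool.Agent.H310.HD
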