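import Pool.Agent.H310.HD.Solovay2

/-!
Solovay's splitting argument in `HOD`: the partitions.
-/

set_option autoImplicit false
set_option linter.unusedVariables false

namespace Pool.Agent.H310.HD

open ZFSet Gss969

universe u

variable {l : Ordinal.{u}}

/-- Separation in `HOD`. -/
theorem HOD_sep {A : (ℕ → ZFSet.{u}) → Prop} (hA : Dfn Lvl.{u} A) {T w : ZFSet.{u}} (hT : OD T)
    (hw : OD w) (i k l : Ordinal.{u}) :
    HOD (ZFSet.sep (fun α => A (asg α i.toZFSet T w k.toZFSet l.toZFSet)) l.toZFSet) := by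
  refine HOD_of (R := fun y x => (∀ α ∈ y, α ∈ x 4 ∧ A (asg α (x 2) (x 0) (x 1) (x 3) (x 4))) ∧
      ∀ α ∈ x 4, A (asg α (x 2) (x 0) (x 1) (x 3) (x 4)) → α ∈ y)
    (x := asg T w i.toZFSet k.toZFSet l.toZFSet ∅) ?_ hT hw
    (asg_ord (isOrdinal_toZFSet _) (isOrdinal_toZFSet _) (isOrdinal_toZFSet _) empty_ord)
    (fun y => ?_) fun z hz => ?_
  · refine Dfn.and ?_ ?_
    · exact Dfn.ball Lvl_sub_Trs _ ((Dfn.mem _ _).and (dfn_asg hA 0 4 2 3 5 6))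
    · exact Dfn.ball Lvl_sub_Trs _ ((dfn_asg hA 0 4 2 3 5 6).imp (Dfn.mem _ _))
  · show (∀ α ∈ y, α ∈ l.toZFSet ∧ A (asg α i.toZFSet T w k.toZFSet l.toZFSet)) ∧
      (∀ α ∈ l.toZFSet, A (asg α i.toZFSet T w k.toZFSet l.toZFSet) → α ∈ y) ↔ _
    constructor
    · rintro ⟨h1, h2⟩
      ext α
      rw [mem_sep]
      exact ⟨h1 α, fun h => h2 α h.1 h.2⟩
    · rintro rfl
      exact ⟨fun α h => mem_sep.1 h, fun α h1 h2 => mem_sep.2 ⟨h1, h2⟩⟩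
  · obtain ⟨α, _, rfl⟩ := Ordinal.mem_toZFSet_iff.1 (mem_sep.1 hz).1
    exact HOD_ord α

/-- Families of sets in `HOD`. -/
theorem HOD_fam {A : (ℕ → ZFSet.{u}) → Prop} (hA : Dfn Lvl.{u} A) {T w : ZFSet.{u}} (hT : OD T)
    (hw : OD w) (k l : Ordinal.{u}) :
    HOD (gr k.toZFSet fun i =>
      ZFSet.sep (fun α => A (asg α i T w k.toZFSet l.toZFSet)) l.toZFSet) := by
  refine HOD_of (R := fun y x => (∀ p ∈ y, ∃ i ∈ x 2, ∃ Z, Z ⊆ x 3 ∧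
        (((∀ α ∈ Z, A (asg α i (x 0) (x 1) (x 2) (x 3))) ∧
          ∀ α ∈ x 3, A (asg α i (x 0) (x 1) (x 2) (x 3)) → α ∈ Z) ∧ p = pair i Z)) ∧
      ∀ i ∈ x 2, ∃ Z, Z ⊆ x 3 ∧
        (((∀ α ∈ Z, A (asg α i (x 0) (x 1) (x 2) (x 3))) ∧
          ∀ α ∈ x 3, A (asg α i (x 0) (x 1) (x 2) (x 3)) → α ∈ Z) ∧ pair i Z ∈ y))
    (x := asg T w k.toZFSet l.toZFSet ∅ ∅) ?_ hT hw
    (asg_ord (isOrdinal_toZFSet _) (isOrdinal_toZFSet _) empty_ord empty_ord)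
    (fun y => ?_) fun z hz => ?_
  · refine Dfn.and ?_ ?_
    · refine Dfn.ball Lvl_sub_Trs _ (Dfn.bex Lvl_sub_Trs _ (Dfn.exsub subset_rfl _
        (Dfn.and (Dfn.and ?_ ?_) (dfn_pair Lvl_sub_Trs _ _ _))))
      · exact Dfn.ball Lvl_sub_Trs _ (dfn_asg hA 0 2 5 6 7 8)
      · exact Dfn.ball Lvl_sub_Trs _ ((dfn_asg hA 0 2 5 6 7 8).imp (Dfn.mem _ _))
    · refine Dfn.ball Lvl_sub_Trs _ (Dfn.exsub subset_rfl _
        (Dfn.and (Dfn.and ?_ ?_) (dfn_pm Lvl_sub_Trs _ _ _)))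
      · exact Dfn.ball Lvl_sub_Trs _ (dfn_asg hA 0 2 4 5 6 7)
      · exact Dfn.ball Lvl_sub_Trs _ ((dfn_asg hA 0 2 4 5 6 7).imp (Dfn.mem _ _))
  · show ((∀ p ∈ y, ∃ i ∈ k.toZFSet, ∃ Z, Z ⊆ l.toZFSet ∧
        (((∀ α ∈ Z, A (asg α i T w k.toZFSet l.toZFSet)) ∧
          ∀ α ∈ l.toZFSet, A (asg α i T w k.toZFSet l.toZFSet) → α ∈ Z) ∧ p = pair i Z)) ∧
      ∀ i ∈ k.toZFSet, ∃ Z, Z ⊆ l.toZFSet ∧
        (((∀ α ∈ Z, A (asg α i T w k.toZFSet l.toZFSet)) ∧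
          ∀ α ∈ l.toZFSet, A (asg α i T w k.toZFSet l.toZFSet) → α ∈ Z) ∧ pair i Z ∈ y)) ↔ _
    have hZ : ∀ i Z : ZFSet.{u}, Z ⊆ l.toZFSet →
        (∀ α ∈ Z, A (asg α i T w k.toZFSet l.toZFSet)) →
        (∀ α ∈ l.toZFSet, A (asg α i T w k.toZFSet l.toZFSet) → α ∈ Z) →
        Z = ZFSet.sep (fun α => A (asg α i T w k.toZFSet l.toZFSet)) l.toZFSet := by
      intro i Z h1 h2 h3
      ext α
      rw [mem_sep]
      exact ⟨fun h => ⟨h1 h, h2 α h⟩, fun h => h3 α h.1 h.2⟩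
    constructor
    · rintro ⟨h1, h2⟩
      ext p
      rw [mem_gr]
      constructor
      · intro hp
        obtain ⟨i, hi, Z, hZ1, ⟨hZ2, hZ3⟩, rfl⟩ := h1 p hp
        exact ⟨i, hi, by rw [← hZ i Z hZ1 hZ2 hZ3]⟩
      · rintro ⟨i, hi, rfl⟩
        obtain ⟨Z, hZ1, ⟨hZ2, hZ3⟩, h4⟩ := h2 i hi
        rw [hZ i Z hZ1 hZ2 hZ3] at h4
        exact h4
    · rintro rfl
      constructor
      · intro p hp
        obtain ⟨i, hi, rfl⟩ := mem_gr.1 hp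
        exact ⟨i, hi, _, fun z hz => (mem_sep.1 hz).1, ⟨fun z hz => (mem_sep.1 hz).2,
          fun z h1 h2 => mem_sep.2 ⟨h1, h2⟩⟩, rfl⟩
      · intro i hi
        exact ⟨_, fun z hz => (mem_sep.1 hz).1, ⟨fun z hz => (mem_sep.1 hz).2,
          fun z h1 h2 => mem_sep.2 ⟨h1, h2⟩⟩, pair_mem_gr.2 ⟨hi, rfl⟩⟩
  · obtain ⟨i, hi, rfl⟩ := mem_gr.1 hz
    obtain ⟨i, _, rfl⟩ := Ordinal.mem_toZFSet_iff.1 hi
    exact HOD_pair (HOD_ord i) (HOD_sep hA hT hw i k l)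

/-- `w` is the increasing enumeration of the first `k` elements of `W`. -/
def Enum (w W k l : ZFSet.{u}) : Prop :=
  IsFunc k l w ∧ ((∀ i ∈ k, ∀ a ∈ l, pair i a ∈ w → a ∈ W) ∧
    ((∀ i ∈ k, ∀ j ∈ i, ∀ a ∈ l, ∀ b ∈ l, pair i a ∈ w → pair j b ∈ w → b ∈ a) ∧
      ∀ i ∈ k, ∀ a ∈ l, pair i a ∈ w → ∀ b ∈ a, b ∈ W → ∃ j ∈ i, pair j b ∈ w))

theorem dfn_Enum (a b c d : ℕ) : Dfn Lvl.{u} (fun v => Enum (v a) (v b) (v c) (v d)) := by
  unfold Enum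
  refine (dfn_isFunc Lvl_sub_Trs _ _ _).and ?_
  repeat' first
    | exact Dfn.mem _ _ | exact dfn_pm Lvl_sub_Trs _ _ _ | refine Dfn.and ?_ ?_
    | refine Dfn.ball Lvl_sub_Trs _ ?_ | refine Dfn.bex Lvl_sub_Trs _ ?_ | refine Dfn.imp ?_ ?_

theorem Enum.unique {w w' W : ZFSet.{u}} {k : Ordinal.{u}} (h : Enum w W k.toZFSet l.toZFSet)
    (h' : Enum w' W k.toZFSet l.toZFSet) : w = w' := by
  obtain ⟨hf, h1, h2, h3⟩ := h
  obtain ⟨hf', h1', h2', h3'⟩ := h'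
  have key : ∀ i < k, app w i.toZFSet = app w' i.toZFSet := by
    intro i
    induction i using WellFoundedLT.induction with
    | ind i ih =>
      intro hi
      have hi' := tz_mem.2 hi
      obtain ⟨a, ha, hae⟩ := Ordinal.mem_toZFSet_iff.1 (app_mem hf hi')
      obtain ⟨b, hb, hbe⟩ := Ordinal.mem_toZFSet_iff.1 (app_mem hf' hi')
      have s1 := app_spec hf hi'
      have s2 := app_spec hf' hi'
      rw [← hae] at s1 ⊢
      rw [← hbe] at s2 ⊢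
      rcases lt_trichotomy a b with h4 | h4 | h4
      · exfalso
        obtain ⟨j, hj, hj'⟩ := h3' _ hi' _ (tz_mem.2 hb) s2 _ (tz_mem.2 h4)
          (h1 _ hi' _ (tz_mem.2 ha) s1)
        obtain ⟨j, hj2, rfl⟩ := Ordinal.mem_toZFSet_iff.1 hj
        have hjk := tz_mem.2 (hj2.trans hi)
        have h5 := (app_iff hf' hjk).1 hj'
        rw [← ih j hj2 (hj2.trans hi)] at h5
        have h6 := app_spec hf hjk
        rw [h5] at h6
        exact mem_irrefl _ (h2 _ hi' _ hj _ (tz_mem.2 ha) _ (tz_mem.2 ha) s1 h6)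
      · rw [h4]
      · exfalso
        obtain ⟨j, hj, hj'⟩ := h3 _ hi' _ (tz_mem.2 ha) s1 _ (tz_mem.2 h4)
          (h1' _ hi' _ (tz_mem.2 hb) s2)
        obtain ⟨j, hj2, rfl⟩ := Ordinal.mem_toZFSet_iff.1 hj
        have hjk := tz_mem.2 (hj2.trans hi)
        have h5 := (app_iff hf hjk).1 hj'
        rw [ih j hj2 (hj2.trans hi)] at h5
        have h6 := app_spec hf' hjk
        rw [h5] at h6
        exact mem_irrefl _ (h2' _ hi' _ hj _ (tz_mem.2 hb) _ (tz_mem.2 hb) s2 h6)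
  ext p
  constructor
  · intro hp
    obtain ⟨i, hi, a, ha, rfl⟩ := mem_prod.1 (hf.1 hp)
    obtain ⟨i, hi', rfl⟩ := Ordinal.mem_toZFSet_iff.1 hi
    rw [← (app_iff hf hi).1 hp, key i hi']
    exact app_spec hf' hi
  · intro hp
    obtain ⟨i, hi, a, ha, rfl⟩ := mem_prod.1 (hf'.1 hp)
    obtain ⟨i, hi', rfl⟩ := Ordinal.mem_toZFSet_iff.1 hi
    rw [← (app_iff hf' hi).1 hp, ← key i hi']
    exact app_spec hf hi

theorem exists_Enum (hl : RegUnc l.toZFSet) {W : ZFSet.{u}}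
    (hunb : ∀ ξ < l, ∃ η < l, ξ ≤ η ∧ η.toZFSet ∈ W) {k : Ordinal.{u}} (hk : k ≤ l) :
    ∃ w, Enum w W k.toZFSet l.toZFSet := by
  let S : Set Ordinal.{u} := {η | η.toZFSet ∈ W ∨ l ≤ η}
  have hS : ¬ BddAbove S := by
    rintro ⟨b, hb⟩
    have h1 : Order.succ (max b l) ∈ S := Or.inr ((le_max_right _ _).trans (Order.le_succ _))
    have h2 := hb h1
    exact absurd ((le_max_left b l).trans (Order.le_of_lt_succ
      (lt_of_lt_of_le (Order.lt_succ _) (Order.le_succ _)))) (by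
        intro _
        exact absurd ((Order.lt_succ (max b l)).trans_le h2) (not_lt.2 (le_max_left _ _)))
  have hmono := Ordinal.enumOrd_strictMono hS
  have hlt : ∀ i < l, Ordinal.enumOrd S i < l := by
    intro i
    induction i using WellFoundedLT.induction with
    | ind i ih =>
      intro hi
      obtain ⟨b, hb, hb'⟩ := hl.bdd hi (Ordinal.enumOrd S) fun j hj => ih j hj (hj.trans hi)
      obtain ⟨η, hη, hbη, hηW⟩ := hunb b hb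
      exact (Ordinal.enumOrd_le_of_forall_lt (show η ∈ S from Or.inl hηW) fun j hj =>
        (hb' j hj).trans_le hbη).trans_lt hη
  have hmem : ∀ i < l, (Ordinal.enumOrd S i).toZFSet ∈ W := by
    intro i hi
    have h1 := Ordinal.enumOrd_mem hS i
    rcases h1 with h1 | h1
    · exact h1
    · exact absurd h1 (not_le.2 (hlt i hi))
  refine ⟨gr k.toZFSet fun x => (Ordinal.enumOrd S (rank x)).toZFSet, isFunc_gr fun x hx => ?_,
    ?_, ?_, ?_⟩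
  · obtain ⟨i, hi, rfl⟩ := Ordinal.mem_toZFSet_iff.1 hx
    rw [Ordinal.rank_toZFSet]
    exact tz_mem.2 (hlt i (hi.trans_le hk))
  · intro i hi a ha hia
    obtain ⟨i, hi', rfl⟩ := Ordinal.mem_toZFSet_iff.1 hi
    rw [pair_mem_gr, Ordinal.rank_toZFSet] at hia
    rw [← hia.2]
    exact hmem i (hi'.trans_le hk)
  · intro i hi j hj a ha b hb hia hjb
    obtain ⟨i, hi', rfl⟩ := Ordinal.mem_toZFSet_iff.1 hi
    obtain ⟨j, hj', rfl⟩ := Ordinal.mem_toZFSet_iff.1 hj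
    rw [pair_mem_gr, Ordinal.rank_toZFSet] at hia hjb
    rw [← hia.2, ← hjb.2]
    exact tz_mem.2 (hmono hj')
  · intro i hi a ha hia b hb hbW
    obtain ⟨i, hi', rfl⟩ := Ordinal.mem_toZFSet_iff.1 hi
    rw [pair_mem_gr, Ordinal.rank_toZFSet] at hia
    rw [← hia.2] at hb
    obtain ⟨β, hβ, rfl⟩ := Ordinal.mem_toZFSet_iff.1 hb
    have h1 : β ∈ Set.range (Ordinal.enumOrd S) := by
      rw [Ordinal.range_enumOrd hS]
      exact Or.inl hbW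
    obtain ⟨j, rfl⟩ := h1
    have hji : j < i := hmono.lt_iff_lt.1 hβ
    refine ⟨j.toZFSet, tz_mem.2 hji, ?_⟩
    rw [pair_mem_gr, Ordinal.rank_toZFSet]
    exact ⟨tz_mem.2 (hji.trans hi'), rfl⟩

/-- `α` belongs to the `i`-th set of the partition. -/
def InP (α i T w k l : ZFSet.{u}) : Prop :=
  CofOm α ∧ (((∃ x ∈ i, x = x) ∧ ∃ η ∈ l, pair i η ∈ w ∧ pair α η ∈ T) ∨
    ((¬ ∃ x ∈ i, x = x) ∧ ∀ j ∈ k, (∃ x ∈ j, x = x) → ¬ ∃ η ∈ l, pair j η ∈ w ∧ pair α η ∈ T))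

theorem dfn_InP : Dfn Lvl.{u} (fun v => InP (v 0) (v 1) (v 2) (v 3) (v 4) (v 5)) := by
  unfold InP
  refine (dfn_CofOm _).and ?_
  repeat' first
    | exact Dfn.mem _ _ | exact Dfn.eq _ _ | exact dfn_pm Lvl_sub_Trs _ _ _
    | refine Dfn.and ?_ ?_ | refine Dfn.or ?_ ?_ | refine Dfn.not ?_
    | refine Dfn.ball Lvl_sub_Trs _ ?_ | refine Dfn.bex Lvl_sub_Trs _ ?_ | refine Dfn.imp ?_ ?_

/-- **Solovay's splitting theorem in `HOD`.** If stationary many `α < l` of cofinality `ω` are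
singular in `HOD`, then `HOD` contains partitions of `cof(ω) ∩ l` into any number `0 < k ≤ l` of
stationary sets. -/
theorem split_of_sing (hl : RegUnc l.toZFSet)
    (hS : StatL {α | CofOm α.toZFSet ∧ CofinalP HOD α.toZFSet} l) {k : Ordinal.{u}} (hk0 : 0 < k)
    (hk : k ≤ l) : ∃ g, HOD g ∧ IsPart k.toZFSet l.toZFSet g := by
  obtain ⟨T, hT, hT1, hT2, hT3⟩ := exists_T hl hS
  -- the set of the stationary values
  obtain ⟨W, hW, hW'⟩ : ∃ W, HOD W ∧ ∀ η, η ∈ W ↔ η ∈ l.toZFSet ∧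
      ∃ Z, Z ⊆ l.toZFSet ∧ (Stat Z l.toZFSet ∧ ∀ α ∈ Z, pair α η ∈ T) := by
    refine ⟨_, HOD_sep (A := fun v => ∃ Z, Z ⊆ v 5 ∧ (Stat Z (v 5) ∧ ∀ α ∈ Z, pair α (v 0) ∈ v 2))
      ?_ hT.od hT.od 0 0 l, fun η => ?_⟩
    · exact Dfn.exsub subset_rfl _ ((dfn_Stat _ _).and (Dfn.ball Lvl_sub_Trs _
        (dfn_pm Lvl_sub_Trs _ _ _)))
    · rw [mem_sep]
      exact Iff.rfl
  have hWS : ∀ η, η ∈ W → StatL {α | pair α.toZFSet η ∈ T} l := by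
    intro η hη
    obtain ⟨_, Z, _, hZ, h1⟩ := (hW' η).1 hη
    exact (stat_iff.1 hZ).mono fun α _ h2 => h1 _ h2
  have hunb : ∀ ξ < l, ∃ η < l, ξ ≤ η ∧ η.toZFSet ∈ W := by
    intro ξ hξ
    obtain ⟨η, hη, h1, h2⟩ := hT3 ξ hξ
    refine ⟨η, hη, h1, (hW' _).2 ⟨tz_mem.2 hη, ZFSet.sep (fun α => pair α η.toZFSet ∈ T) l.toZFSet,
      fun z hz => (mem_sep.1 hz).1, ?_, fun z hz => (mem_sep.1 hz).2⟩⟩
    rw [stat_iff]
    refine h2.mono fun α hα h3 => ?_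
    show α.toZFSet ∈ ZFSet.sep (fun α => pair α η.toZFSet ∈ T) l.toZFSet
    exact mem_sep.2 ⟨tz_mem.2 hα, h3⟩
  obtain ⟨w, hw⟩ := exists_Enum hl hunb hk
  have hwO : OD w := by
    refine OD_of (R := fun y x => Enum y (x 0) (x 2) (x 3))
      (x := asg W W k.toZFSet l.toZFSet ∅ ∅) (dfn_Enum _ _ _ _) hW.od hW.od
      (asg_ord (isOrdinal_toZFSet _) (isOrdinal_toZFSet _) empty_ord empty_ord) fun y => ?_
    show Enum y W k.toZFSet l.toZFSet ↔ _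
    exact ⟨fun h => h.unique hw, fun h => by rw [h]; exact hw⟩
  obtain ⟨hwf, hw1, hw2, hw3⟩ := hw
  have hinj : ∀ i ∈ k.toZFSet, ∀ j ∈ k.toZFSet, ∀ η ∈ l.toZFSet, pair i η ∈ w → pair j η ∈ w →
      i = j := by
    intro i hi j hj η hη h1 h2
    obtain ⟨i, hi', rfl⟩ := Ordinal.mem_toZFSet_iff.1 hi
    obtain ⟨j, hj', rfl⟩ := Ordinal.mem_toZFSet_iff.1 hj
    rcases lt_trichotomy i j with h3 | h3 | h3
    · exact absurd (hw2 _ hj _ (tz_mem.2 h3) _ hη _ hη h2 h1) (mem_irrefl _)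
    · rw [h3]
    · exact absurd (hw2 _ hi _ (tz_mem.2 h3) _ hη _ hη h1 h2) (mem_irrefl _)
  refine ⟨_, HOD_fam dfn_InP hT.od hwO k l, isFunc_gr fun i hi => ?_, ?_, ?_, ?_⟩
  · rw [mem_powerset]
    exact fun z hz => (mem_sep.1 hz).1
  · intro i hi S hS hiS
    rw [pair_mem_gr] at hiS
    rw [← hiS.2, stat_iff]
    obtain ⟨η, hη⟩ : ∃ η, η = app w i := ⟨_, rfl⟩
    have h1 : pair i η ∈ w := by rw [hη]; exact app_spec hwf hi
    have hηl : η ∈ l.toZFSet := by rw [hη]; exact app_mem hwf hi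
    refine (hWS η (hw1 i hi η hηl h1)).mono fun α hα h2 => ?_
    show α.toZFSet ∈ ZFSet.sep (fun α => InP α i T w k.toZFSet l.toZFSet) l.toZFSet
    refine mem_sep.2 ⟨tz_mem.2 hα, ?_⟩
    refine ⟨(hT1 _ _ h2).2.2, ?_⟩
    by_cases h0 : ∃ x ∈ i, x = x
    · exact Or.inl ⟨h0, η, hηl, h1, h2⟩
    · refine Or.inr ⟨h0, ?_⟩
      rintro j hj hj0 ⟨η', hη', h3, h4⟩
      have h5 : η = η' := hT2 _ _ _ h2 h4
      rw [← h5] at h3
      have h6 := hinj i hi j hj η hηl h1 h3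
      rw [← h6] at hj0
      exact h0 hj0
  · rintro i hi j hj S hS S' hS' hiS hjS ⟨a, ha, ha'⟩
    rw [pair_mem_gr] at hiS hjS
    rw [← hiS.2, mem_sep] at ha
    rw [← hjS.2, mem_sep] at ha'
    obtain ⟨_, _, h1⟩ := ha
    obtain ⟨_, _, h2⟩ := ha'
    rcases h1 with ⟨h3, η, hη, h4, h5⟩ | ⟨h3, h4⟩
    · rcases h2 with ⟨h6, η', hη', h7, h8⟩ | ⟨h6, h7⟩
      · have h9 : η = η' := hT2 _ _ _ h5 h8
        rw [← h9] at h7
        exact hinj i hi j hj η hη h4 h7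
      · exact absurd ⟨η, hη, h4, h5⟩ (h7 i hi h3)
    · rcases h2 with ⟨h6, η', hη', h7, h8⟩ | ⟨h6, h7⟩
      · exact absurd ⟨η', hη', h7, h8⟩ (h4 j hj h6)
      · ext z
        constructor
        · intro hz; exact absurd ⟨z, hz, rfl⟩ h3
        · intro hz; exact absurd ⟨z, hz, rfl⟩ h6
  · intro a ha
    constructor
    · intro hc
      by_cases h1 : ∃ j ∈ k.toZFSet, (∃ x ∈ j, x = x) ∧ ∃ η ∈ l.toZFSet, pair j η ∈ w ∧
          pair a η ∈ T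
      · obtain ⟨j, hj, h2, h3⟩ := h1
        exact ⟨j, hj, _, fun z hz => (mem_sep.1 hz).1, pair_mem_gr.2 ⟨hj, rfl⟩,
          mem_sep.2 ⟨ha, hc, Or.inl ⟨h2, h3⟩⟩⟩
      · push Not at h1
        have h0 : (0 : Ordinal.{u}).toZFSet ∈ k.toZFSet := tz_mem.2 hk0
        refine ⟨_, h0, _, fun z hz => (mem_sep.1 hz).1, pair_mem_gr.2 ⟨h0, rfl⟩,
          mem_sep.2 ⟨ha, hc, Or.inr ⟨?_, ?_⟩⟩⟩
        · rintro ⟨x, hx, _⟩
          obtain ⟨β, hβ, _⟩ := Ordinal.mem_toZFSet_iff.1 hx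
          exact absurd hβ (not_lt.2 bot_le)
        · rintro j hj hj0 ⟨η, hη, h2, h3⟩
          exact h1 j hj hj0 η hη h2 h3
    · rintro ⟨i, hi, S, hS, hiS, haS⟩
      rw [pair_mem_gr] at hiS
      rw [← hiS.2, mem_sep] at haS
      exact haS.2.1

/-- Such a regular cardinal is not `ω`-strongly measurable in `HOD`. -/
theorem notStrMeas_of_sing (b : Bool) (hl : RegUnc l.toZFSet)
    (hS : StatL {α | CofOm α.toZFSet ∧ CofinalP HOD α.toZFSet} l) : NotStrMeas b l := by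
  refine ⟨hl, ?_⟩
  rintro ⟨_, k, hk, hi, _, hn⟩
  obtain ⟨k, hk', rfl⟩ := Ordinal.mem_toZFSet_iff.1 hk
  refine hn (split_of_sing hl hS ?_ hk'.le)
  obtain ⟨⟨x, hx, _⟩, _⟩ := hi
  obtain ⟨β, hβ, _⟩ := Ordinal.mem_toZFSet_iff.1 hx
  exact bot_le.trans_lt hβ

end Pool.Agent.H310.HD
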