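import Pool.Agent.H310.HD.Cover4
import Pool.Agent.H310.HD.Gsplit
import Pool.Agent.H310.HD.Chain

/-!
Tools for the covering forms of the HOD Hypothesis.
-/

set_option autoImplicit false
set_option linter.unusedVariables false

namespace Pool.Agent.H310.HD

open ZFSet Gss969

universe u

/-- The range of every function `e : m → α` is contained in the range of a function in `HOD` from
some `c < b` to `α`. -/
def Cov (b α m : Ordinal.{u}) : Prop :=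
  ∀ e, IsFunc m.toZFSet α.toZFSet e → ∃ c < b, ∃ g, HOD g ∧
    IsFunc (Ordinal.toZFSet c) α.toZFSet g ∧
    ∀ i ∈ m.toZFSet, ∀ y ∈ α.toZFSet, pair i y ∈ e → ∃ i' ∈ c.toZFSet, pair i' y ∈ g

/-- Truncation of a function. -/
theorem exists_trunc {c l γ : Ordinal.{u}} {g : ZFSet.{u}} (hg : HOD g)
    (hf : IsFunc c.toZFSet l.toZFSet g) (h0 : 0 < γ) :
    ∃ g', HOD g' ∧ IsFunc c.toZFSet γ.toZFSet g' ∧
      ∀ i ∈ c.toZFSet, ∀ y ∈ γ.toZFSet, pair i y ∈ g → pair i y ∈ g' := by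
  classical
  let P : ZFSet.{u} → ZFSet.{u} → Prop := fun i z =>
    pair i z ∈ g ∨ ((¬ ∃ t ∈ z, t = t) ∧ ¬ ∃ w ∈ γ.toZFSet, pair i w ∈ g)
  obtain ⟨y, hy⟩ : ∃ y : ZFSet.{u}, ∀ p, p ∈ y ↔ ∃ i ∈ c.toZFSet, ∃ z ∈ γ.toZFSet,
      p = pair i z ∧ P i z := by
    refine ⟨ZFSet.sep (fun p => ∃ i ∈ c.toZFSet, ∃ z ∈ γ.toZFSet, p = pair i z ∧ P i z)
      (prod c.toZFSet γ.toZFSet), fun p => ?_⟩
    rw [mem_sep]
    constructor
    · exact fun h => h.2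
    · rintro ⟨i, hi, z, hz, rfl, h⟩
      exact ⟨pair_mem_prod.2 ⟨hi, hz⟩, i, hi, z, hz, rfl, h⟩
  have hy' : ∀ i ∈ c.toZFSet, ∀ z ∈ γ.toZFSet, (pair i z ∈ y ↔ P i z) := by
    intro i hi z hz
    rw [hy]
    constructor
    · rintro ⟨i', _, z', _, h, h2⟩
      rw [pair_inj] at h
      rw [h.1, h.2]
      exact h2
    · intro h
      exact ⟨i, hi, z, hz, rfl, h⟩
  refine ⟨y, ?_, ?_, fun i hi z hz h => (hy' i hi z hz).2 (Or.inl h)⟩
  · refine HOD_of (R := fun y x => (∀ p ∈ y, ∃ i ∈ x 2, ∃ z ∈ x 3, p = pair i z ∧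
        (pair i z ∈ x 0 ∨ ((¬ ∃ t ∈ z, t = t) ∧ ¬ ∃ w ∈ x 3, pair i w ∈ x 0))) ∧
        ∀ i ∈ x 2, ∀ z ∈ x 3,
        (pair i z ∈ x 0 ∨ ((¬ ∃ t ∈ z, t = t) ∧ ¬ ∃ w ∈ x 3, pair i w ∈ x 0)) → pair i z ∈ y)
      (x := asg g g c.toZFSet γ.toZFSet ∅ ∅) ?_ hg.od hg.od
      (asg_ord (isOrdinal_toZFSet _) (isOrdinal_toZFSet _) empty_ord empty_ord)
      (fun y' => ?_) fun p hp => ?_
    · refine Dfn.and ?_ ?_
      · refine Dfn.ball Lvl_sub_Trs _ (Dfn.bex Lvl_sub_Trs _ (Dfn.bex Lvl_sub_Trs _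
          ((dfn_pair Lvl_sub_Trs _ _ _).and ?_)))
        repeat' first
          | exact Dfn.mem _ _ | exact Dfn.eq _ _ | exact dfn_pm Lvl_sub_Trs _ _ _
          | refine Dfn.and ?_ ?_ | refine Dfn.or ?_ ?_ | refine Dfn.not ?_
          | refine Dfn.bex Lvl_sub_Trs _ ?_
      · refine Dfn.ball Lvl_sub_Trs _ (Dfn.ball Lvl_sub_Trs _ (Dfn.imp ?_
          (dfn_pm Lvl_sub_Trs _ _ _)))
        repeat' first
          | exact Dfn.mem _ _ | exact Dfn.eq _ _ | exact dfn_pm Lvl_sub_Trs _ _ _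
          | refine Dfn.and ?_ ?_ | refine Dfn.or ?_ ?_ | refine Dfn.not ?_
          | refine Dfn.bex Lvl_sub_Trs _ ?_
    · show ((∀ p ∈ y', ∃ i ∈ c.toZFSet, ∃ z ∈ γ.toZFSet, p = pair i z ∧ P i z) ∧
        ∀ i ∈ c.toZFSet, ∀ z ∈ γ.toZFSet, P i z → pair i z ∈ y') ↔ _
      constructor
      · rintro ⟨h1, h2⟩
        ext p
        rw [hy]
        constructor
        · exact h1 p
        · rintro ⟨i, hi, z, hz, rfl, h⟩
          exact h2 i hi z hz h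
      · rintro rfl
        exact ⟨fun p hp => (hy p).1 hp, fun i hi z hz h => (hy' i hi z hz).2 h⟩
    · obtain ⟨i, hi, z, hz, rfl, _⟩ := (hy p).1 hp
      obtain ⟨i, _, rfl⟩ := Ordinal.mem_toZFSet_iff.1 hi
      obtain ⟨z, _, rfl⟩ := Ordinal.mem_toZFSet_iff.1 hz
      exact HOD_pair (HOD_ord i) (HOD_ord z)
  · have h0' : (0 : Ordinal.{u}).toZFSet ∈ γ.toZFSet := tz_mem.2 h0
    have he : y = gr c.toZFSet (fun i => if app g i ∈ γ.toZFSet then app g i else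
        (0 : Ordinal.{u}).toZFSet) := by
      ext p
      rw [hy, mem_gr]
      constructor
      · rintro ⟨i, hi, z, hz, rfl, h⟩
        refine ⟨i, hi, ?_⟩
        rcases h with h | ⟨h1, h2⟩
        · rw [(app_iff hf hi).1 h, if_pos hz]
        · have h3 : app g i ∉ γ.toZFSet := fun h3 => h2 ⟨_, h3, app_spec hf hi⟩
          rw [if_neg h3]
          congr 1
          ext t
          constructor
          · intro ht
            obtain ⟨β, hβ, _⟩ := Ordinal.mem_toZFSet_iff.1 ht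
            exact absurd hβ (not_lt.2 bot_le)
          · intro ht
            exact absurd ⟨t, ht, rfl⟩ h1
      · rintro ⟨i, hi, rfl⟩
        refine ⟨i, hi, _, ?_, rfl, ?_⟩
        · by_cases h3 : app g i ∈ γ.toZFSet
          · rw [if_pos h3]; exact h3
          · rw [if_neg h3]; exact h0'
        · by_cases h3 : app g i ∈ γ.toZFSet
          · rw [if_pos h3]; exact Or.inl (app_spec hf hi)
          · rw [if_neg h3]
            refine Or.inr ⟨?_, ?_⟩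
            · rintro ⟨t, ht, _⟩
              obtain ⟨β, hβ, _⟩ := Ordinal.mem_toZFSet_iff.1 ht
              exact absurd hβ (not_lt.2 bot_le)
            · rintro ⟨w, hw, h4⟩
              rw [(app_iff hf hi).1 h4] at h3
              exact h3 hw
    rw [he]
    refine isFunc_gr fun i hi => ?_
    by_cases h3 : app g i ∈ γ.toZFSet
    · rw [if_pos h3]; exact h3
    · rw [if_neg h3]; exact h0'

/-- Covering makes points of small cofinality singular in `HOD`. -/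
theorem sing_of_cov {b γ m : Ordinal.{u}} (hb : b ≤ γ) (h : Cov b γ m)
    (hc : CofN m.toZFSet γ.toZFSet) : CofinalP HOD γ.toZFSet := by
  obtain ⟨f, hf, hf'⟩ := hc
  obtain ⟨c, hc, g, hg, h1, h2⟩ := h f hf
  refine ⟨_, tz_mem.2 (hc.trans_le hb), g, hg, h1, fun y hy => ?_⟩
  obtain ⟨n, hn, z, hz, h3, h4⟩ := hf' y hy
  obtain ⟨i, hi, h5⟩ := h2 n hn z hz h3
  exact ⟨i, hi, z, hz, h5, h4⟩

/-- Covering in a larger ordinal. -/
theorem Cov.down {b γ l m : Ordinal.{u}} (h : Cov b l m) (hγ : γ ≤ l) (h0 : 0 < γ) :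
    Cov b γ m := by
  intro e he
  have hsub : γ.toZFSet ⊆ l.toZFSet := by
    intro x hx
    obtain ⟨x, hx', rfl⟩ := Ordinal.mem_toZFSet_iff.1 hx
    exact tz_mem.2 (hx'.trans_le hγ)
  have he' : IsFunc m.toZFSet l.toZFSet e := by
    refine ⟨fun p hp => ?_, he.2⟩
    obtain ⟨a, ha, z, hz, rfl⟩ := mem_prod.1 (he.1 hp)
    exact pair_mem_prod.2 ⟨ha, hsub hz⟩
  obtain ⟨c, hc, g, hg, h1, h2⟩ := h e he'
  obtain ⟨g', hg', h3, h4⟩ := exists_trunc hg h1 h0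
  refine ⟨c, hc, g', hg', h3, fun i hi y hy hiy => ?_⟩
  obtain ⟨i', hi', h5⟩ := h2 i hi y (hsub hy) hiy
  exact ⟨i', hi', h4 i' hi' y hy h5⟩

/-- Covering from families. -/
theorem cov_of_fam {δ : Ordinal.{u}} (hδ : Extendible δ) {α k μ l m : Ordinal.{u}} (hαk : α ≤ k)
    (hμ : μ < δ) (hl : RegUnc l.toZFSet) {S : ZFSet.{u}} (hSO : HOD S)
    (hS : Fam μ.toZFSet k.toZFSet l.toZFSet S) (hm : m < δ) : Cov δ α m := by
  intro e he
  obtain ⟨c, hc, g, hg, h1, h2⟩ := cover_set hδ hαk hμ hl hSO hS hm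
    (x := ZFSet.sep (fun y => ∃ i ∈ m.toZFSet, pair i y ∈ e) α.toZFSet)
    (fun y hy => (mem_sep.1 hy).1) he (fun y hy => (mem_sep.1 hy).2)
  exact ⟨c, hc, g, hg, h1, fun i hi y hy hiy => h2 y (mem_sep.2 ⟨hy, i, hi, hiy⟩)⟩

/-- An ordinal definable function from an ordinal to sets of ordinals belongs to `HOD`. -/
theorem HOD_of_fun {S : ZFSet.{u}} (hS : OD S) {k l : Ordinal.{u}}
    (hf : IsFunc k.toZFSet (powerset l.toZFSet) S) : HOD S := by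
  refine HOD_of_sub hS fun p hp => ?_
  obtain ⟨i, hi, B, hB, rfl⟩ := mem_prod.1 (hf.1 hp)
  have hi' := hi
  obtain ⟨i, _, rfl⟩ := Ordinal.mem_toZFSet_iff.1 hi
  rw [mem_powerset] at hB
  refine HOD_pair (HOD_ord i) ?_
  refine HOD_of (R := fun y x => (∀ z ∈ y, z ∈ x 3) ∧ pair (x 2) y ∈ x 0)
    (x := asg S S i.toZFSet l.toZFSet ∅ ∅) ?_ hS hS
    (asg_ord (isOrdinal_toZFSet _) (isOrdinal_toZFSet _) empty_ord empty_ord)
    (fun y => ?_) fun z hz => ?_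
  · exact Dfn.and (Dfn.ball Lvl_sub_Trs _ (Dfn.mem _ _)) (dfn_pm Lvl_sub_Trs _ _ _)
  · show ((∀ z ∈ y, z ∈ l.toZFSet) ∧ pair i.toZFSet y ∈ S) ↔ _
    constructor
    · rintro ⟨_, h⟩
      rw [← (app_iff hf hi').1 h, (app_iff hf hi').1 hp]
    · rintro rfl
      exact ⟨fun z hz => hB hz, hp⟩
  · obtain ⟨z, _, rfl⟩ := Ordinal.mem_toZFSet_iff.1 (hB hz)
    exact HOD_ord z

/-- A family of length `δ` on `δ` gives a longer one. -/
theorem fam_up {δ : Ordinal.{u}} (hδ : Extendible δ) {μ : Ordinal.{u}} (hμ : μ < δ)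
    {S : ZFSet.{u}} (hSO : HOD S) (hS : Fam μ.toZFSet δ.toZFSet δ.toZFSet S) :
    ∃ τ > δ, RegUnc (Ordinal.toZFSet τ) ∧ ∃ S', HOD S' ∧ Fam μ.toZFSet τ.toZFSet τ.toZFSet S' := by
  obtain ⟨l, hle⟩ : ∃ l, l = δ := ⟨_, rfl⟩
  obtain ⟨k, hke⟩ : ∃ k, k = δ := ⟨_, rfl⟩
  have hl : RegUnc l.toZFSet := by rw [hle]; exact hδ.regUnc
  obtain ⟨γ, hγ⟩ := hSO.od
  obtain ⟨ζ, h1, hll, hζL⟩ := exists_limlim (max (max γ (rank S)) (max l k))
  obtain ⟨η, θ, τ, j, h5, D⟩ := hδ.data ζ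
  have hδL := hδ.lim
  have hγζ : γ < ζ := ((le_max_left _ _).trans (le_max_left _ _)).trans_lt h1
  have hSζ : S ∈ V_ ζ := mem_vonNeumann.2 (((le_max_right _ _).trans (le_max_left _ _)).trans_lt h1)
  have hlζ : l < ζ := ((le_max_left _ _).trans (le_max_right _ _)).trans_lt h1
  have hkζ : k < ζ := ((le_max_right _ _).trans (le_max_right _ _)).trans_lt h1
  obtain ⟨α, hα⟩ : ∃ α, α = k := ⟨_, rfl⟩
  have hαζ : α < ζ := by rw [hα]; exact hkζ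
  have hW : V_ ζ ∈ V_ η := vonNeumann_mem_vonNeumann_iff.2 h5
  have hlη := hlζ.trans h5
  have hkη := hkζ.trans h5
  have hαη := hαζ.trans h5
  have hSη : S ∈ V_ η := D.E.bt.mem_trans hSζ hW
  -- the image of `V_ζ`
  obtain ⟨ζ', hζ'⟩ : ∃ ζ' : Ordinal.{u}, ζ' = rank (j ζ.toZFSet) := ⟨_, rfl⟩
  have hζ'θ : ζ' < θ := by
    rw [hζ']
    exact mem_vonNeumann.1 (D.E.el.1 _ (ExtData.ordB h5))
  have hjW : j (V_ ζ) = V_ ζ' := by
    have h := (D.E.jV hW).2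
    rw [← hζ'] at h
    ext x
    rw [h x]
    exact ⟨fun h => h.1, fun h => ⟨h, vonNeumann_subset_of_le hζ'θ.le h⟩⟩
  have hLvl' : V_ ζ' ∈ Lvl.{u} := by
    have := (D.E.el.t1 D.E.lvl D.nl (A := fun a => a ∈ Lvl.{u}) (dfn_Lvl 0) hW).1 hζL
    rwa [hjW] at this
  have hll' : LimLim ζ' := by
    have h2 := (D.E.el.t1 D.E.lvl D.nl (A := fun a => ∀ x ∈ a, ∃ U ∈ a, U ∈ Lvl.{u} ∧ x ∈ U)
      (Dfn.ball Lvl_sub_Trs _ (Dfn.bex Lvl_sub_Trs _ ((dfn_Lvl _).and (Dfn.mem _ _)))) hW).1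
      (fun x hx => by
        obtain ⟨β, h2, h3, h4, h6⟩ := hll _ (mem_vonNeumann.1 hx)
        exact ⟨V_ β, vonNeumann_mem_vonNeumann_iff.2 h2, ⟨β, h6, h4, rfl⟩, mem_vonNeumann.2 h3⟩)
    rw [hjW] at h2
    intro ξ hξ
    obtain ⟨U, hU, ⟨β, h3, h4, rfl⟩, h6⟩ := h2 ξ.toZFSet (ExtData.ordB hξ)
    rw [mem_vonNeumann, Ordinal.rank_toZFSet] at h6
    exact ⟨β, vonNeumann_mem_vonNeumann_iff.1 hU, h6, h4, h3⟩
  have hmemJ : ∀ {x : ZFSet.{u}}, x ∈ V_ ζ → j x ∈ V_ ζ' := by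
    intro x hx
    rw [← hjW]
    exact (D.E.mem_iff (D.E.bt.mem_trans hx hW) hW).1 hx
  have hjl : rank (j l.toZFSet) < ζ' := mem_vonNeumann.1 (hmemJ (ExtData.ordB hlζ))
  have hjα : rank (j α.toZFSet) < ζ' := mem_vonNeumann.1 (hmemJ (ExtData.ordB hαζ))
  have hαζ' : α < ζ' := (D.le_J hαη).trans_lt hjα
  obtain ⟨L, hL1, hL2, hL3⟩ := D.exists_lam hl hlη
  -- `j(S)` is ordinal definable
  have hjS : ∃ β < ζ', ODat (V_ β) (j S) := by
    have h2 := (D.E.el.t2 D.E.lvl D.nl (A := fun W S => ∃ U ∈ W, Lev U ∧ ODat U S)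
      (Dfn.bex Lvl_sub_Trs _ ((dfn_lev _).and (dfn_ODat _ _))) hW hSη).1
      ⟨V_ γ, vonNeumann_mem_vonNeumann_iff.2 hγζ, ⟨γ, rfl⟩, hγ⟩
    rw [hjW] at h2
    obtain ⟨U, hU, ⟨β, rfl⟩, h3⟩ := h2
    exact ⟨β, vonNeumann_mem_vonNeumann_iff.1 hU, h3⟩
  have hS' : Fam μ.toZFSet τ.toZFSet τ.toZFSet (j S) := by
    have := (D.E.el.t3 D.E.lvl D.nl (A := fun a b d => Fam a b b d) (dfn_Fam _ _ _ _)
      (ExtData.ordB (hμ.trans D.lt)) D.dB hSη).1 hS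
    rwa [D.fix μ hμ, D.jd] at this
  have hl' : RegUnc τ.toZFSet := by
    have := (D.E.el.t1 D.E.lvl D.nl (A := fun a => RegUnc a) (dfn_RegUnc _) D.dB).1 hδ.regUnc
    rwa [D.jd] at this
  obtain ⟨β, _, hβ⟩ := hjS
  exact ⟨τ, D.lt.trans D.ητ, hl', j S, HOD_of_fun ⟨β, hβ⟩ hS'.1, hS'⟩

end Pool.Agent.H310.HD
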