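import Pool.Agent.H310.HD.Fodor

/-!
Uniform choice of ordinal definable sets by the least parameters, for a fixed formula.
-/

set_option autoImplicit false
set_option linter.unusedVariables false

namespace Pool.Agent.H310.HD

open ZFSet Gss969

universe u

/-! ### Blocks of quantifiers -/

/-- A block of `m` quantifiers bounded by `v z`. -/
theorem Dfn_blk (m : ℕ) : ∀ (z : ℕ) {C : (ℕ → ZFSet.{u}) → (ℕ → ZFSet.{u}) → Prop},
    Dfn Lvl.{u} (fun w => C w (fun n => w (n + m))) →
    Dfn Lvl.{u} (fun v => ∃ p : ℕ → ZFSet.{u}, (∀ i < m, p i ∈ v z) ∧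
      (∀ i, p (i + m) = v i) ∧ C p v) := by
  induction m with
  | zero =>
    intro z C h
    refine Dfn.congr (A := fun v => C v v) h fun v => ?_
    constructor
    · intro h1
      exact ⟨v, fun i hi => absurd hi (Nat.not_lt_zero i), fun i => rfl, h1⟩
    · rintro ⟨p, _, h1, h2⟩
      have : p = v := by funext i; exact h1 i
      rwa [this] at h2
  | succ m ih =>
    intro z C h
    have h1 := ih (z + 1) (C := fun p v => C p (fun n => v (n + 1))) (by
      refine h.congr fun w => ?_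
      have : (fun n => w (n + (m + 1))) = fun n => w (n + 1 + m) := by
        funext n
        congr 1
        omega
      rw [this])
    refine Dfn.congr (A := fun v => ∃ a ∈ v z, ∃ p : ℕ → ZFSet.{u}, (∀ i < m, p i ∈ v z) ∧
      (p m = a ∧ ∀ i, p (i + (m + 1)) = v i) ∧ C p v) (Dfn.bex Lvl_sub_Trs z ?_) fun v => ?_
    · refine h1.congr fun w => exists_congr fun p => and_congr_right fun _ =>
        and_congr_left fun _ => ?_
      constructor
      · intro h2
        refine ⟨?_, fun i => ?_⟩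
        · have := h2 0
          simpa using this
        · show p (i + (m + 1)) = w (i + 1)
          rw [← h2 (i + 1)]
          congr 1
          omega
      · rintro ⟨h2, h3⟩ i
        rcases i with _ | i
        · simpa using h2
        · have h4 : p (i + (m + 1)) = w (i + 1) := h3 i
          rw [← h4]
          congr 1
          omega
    · constructor
      · rintro ⟨a, ha, p, h2, ⟨h3, h4⟩, h5⟩
        refine ⟨p, fun i hi => ?_, h4, h5⟩
        rcases Nat.lt_succ_iff_lt_or_eq.1 hi with h6 | h6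
        · exact h2 i h6
        · rw [h6, h3]; exact ha
      · rintro ⟨p, h2, h3, h4⟩
        exact ⟨p m, h2 m (Nat.lt_succ_self m), p, fun i hi => h2 i (hi.trans (Nat.lt_succ_self m)),
          ⟨rfl, h3⟩, h4⟩

/-- The tuple `p` is lexicographically smaller than `q`. -/
def LexLt (m : ℕ) (p q : ℕ → ZFSet.{u}) : Prop := ∃ i < m, p i ∈ q i ∧ ∀ k < i, p k = q k

theorem dfn_all_lt (m : ℕ) {A : ℕ → (ℕ → ZFSet.{u}) → Prop} (h : ∀ i < m, Dfn Lvl.{u} (A i)) :
    Dfn Lvl.{u} (fun v => ∀ i < m, A i v) := by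
  induction m with
  | zero => exact (Dfn.eq 0 0).congr fun v => by simp
  | succ m ih =>
    refine ((ih fun i hi => h i (hi.trans (Nat.lt_succ_self m))).and
      (h m (Nat.lt_succ_self m))).congr fun v => ?_
    constructor
    · rintro ⟨h1, h2⟩ i hi
      rcases Nat.lt_succ_iff_lt_or_eq.1 hi with h3 | h3
      · exact h1 i h3
      · rw [h3]; exact h2
    · intro h1
      exact ⟨fun i hi => h1 i (hi.trans (Nat.lt_succ_self m)), h1 m (Nat.lt_succ_self m)⟩

theorem dfn_LexLt (m : ℕ) (f g : ℕ → ℕ) :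
    Dfn Lvl.{u} (fun v => LexLt m (fun n => v (f n)) (fun n => v (g n))) := by
  refine Dfn.congr (A := fun v => ¬ ∀ i < m, ¬ (v (f i) ∈ v (g i) ∧ ∀ k < i, v (f k) = v (g k)))
    (Dfn.not (dfn_all_lt m fun i _ => Dfn.not ((Dfn.mem _ _).and
      (dfn_all_lt i fun k _ => Dfn.eq _ _)))) fun v => ?_
  unfold LexLt
  push Not
  exact Iff.rfl

theorem exists_lexmin {P : (ℕ → Ordinal.{u}) → Prop} (h : ∃ q, P q) (m : ℕ) :
    ∃ q, P q ∧ ∀ q', P q' → ¬ ∃ i < m, q' i < q i ∧ ∀ k < i, q' k = q k := by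
  induction m with
  | zero =>
    obtain ⟨q, hq⟩ := h
    exact ⟨q, hq, fun q' _ ⟨i, hi, _⟩ => absurd hi (Nat.not_lt_zero i)⟩
  | succ m ih =>
    obtain ⟨q, hq, h1⟩ := ih
    obtain ⟨x, ⟨q1, h2, h3, rfl⟩, hx⟩ := WellFounded.has_min (wellFounded_lt (α := Ordinal.{u}))
      {x | ∃ q', P q' ∧ (∀ k < m, q' k = q k) ∧ q' m = x} ⟨q m, q, hq, fun _ _ => rfl, rfl⟩
    refine ⟨q1, h2, ?_⟩
    rintro q' hq' ⟨i, hi, h4, h5⟩
    rcases Nat.lt_succ_iff_lt_or_eq.1 hi with h6 | h6
    · refine h1 q' hq' ⟨i, h6, ?_, fun k hk => ?_⟩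
      · rw [← h3 i h6]; exact h4
      · rw [h5 k hk, h3 k (hk.trans h6)]
    · subst h6
      exact hx (q' i) ⟨q', hq', fun k hk => by rw [h5 k hk, h3 k hk], rfl⟩ h4

theorem lex_trichotomy {q q' : ℕ → Ordinal.{u}} {m : ℕ}
    (h1 : ¬ ∃ i < m, q i < q' i ∧ ∀ k < i, q k = q' k)
    (h2 : ¬ ∃ i < m, q' i < q i ∧ ∀ k < i, q' k = q k) : ∀ i < m, q i = q' i := by
  intro i
  induction i using Nat.strong_induction_on with
  | _ i ih =>
    intro hi
    rcases lt_trichotomy (q i) (q' i) with h3 | h3 | h3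
    · exact absurd ⟨i, hi, h3, fun k hk => ih k hk (hk.trans hi)⟩ h1
    · exact h3
    · exact absurd ⟨i, hi, h3, fun k hk => (ih k hk (hk.trans hi)).symm⟩ h2

/-! ### Variables of a formula -/

/-- A bound for the variables of a formula. -/
def bd : Fml → ℕ
  | .mem i j => max i j + 1
  | .eq i j => max i j + 1
  | .neg φ => bd φ
  | .and φ ψ => max (bd φ) (bd ψ)
  | .ex i φ => max (i + 1) (bd φ)

theorem Sat_congr {U : ZFSet.{u}} (φ : Fml) : ∀ {v w : ℕ → ZFSet.{u}},
    (∀ i < bd φ, v i = w i) → (Sat U v φ ↔ Sat U w φ) := by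
  induction φ with
  | mem i j =>
    intro v w h
    simp only [Sat]
    rw [h i (by simp [bd]), h j (by simp [bd])]
  | eq i j =>
    intro v w h
    simp only [Sat]
    rw [h i (by simp [bd]), h j (by simp [bd])]
  | neg φ ih =>
    intro v w h
    simp only [Sat]
    exact not_congr (ih h)
  | and φ ψ ih ih' =>
    intro v w h
    simp only [Sat]
    exact and_congr (ih fun i hi => h i (lt_of_lt_of_le hi (le_max_left _ _)))
      (ih' fun i hi => h i (lt_of_lt_of_le hi (le_max_right _ _)))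
  | ex i φ ih =>
    intro v w h
    simp only [Sat]
    refine exists_congr fun a => and_congr_right fun _ => ih fun k hk => ?_
    by_cases hki : k = i
    · subst hki; simp
    · rw [Function.update_of_ne hki, Function.update_of_ne hki]
      exact h k (lt_of_lt_of_le hk (le_max_right _ _))

/-! ### Definitions by a fixed formula -/

/-- `x` is defined over `V_{p 0}` by the formula `φ` with the parameters `p 1, p 2, …`. -/
def Def (φ : Fml) (x : ZFSet.{u}) (p : ℕ → ZFSet.{u}) : Prop :=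
  (p 0).IsOrdinal ∧ ∃ U, LevOf U (p 0) ∧ (x ∈ U ∧ ∀ y ∈ U, (Sat U (Function.update p 0 y) φ ↔ y = x))

theorem Def.unique {φ : Fml} {x x' : ZFSet.{u}} {p : ℕ → ZFSet.{u}} (h : Def φ x p)
    (h' : Def φ x' p) : x = x' := by
  obtain ⟨ho, U, hU, hx, h1⟩ := h
  obtain ⟨_, U', hU', hx', h1'⟩ := h'
  rw [← ho.toZFSet_rank_eq, levOf_iff] at hU hU'
  subst hU hU'
  exact (h1' x hx).1 ((h1 x hx).2 rfl)

theorem Def.congr {φ : Fml} {x : ZFSet.{u}} {p q : ℕ → ZFSet.{u}}
    (h : ∀ i < bd φ + 1, p i = q i) : Def φ x p ↔ Def φ x q := by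
  unfold Def
  rw [h 0 (Nat.succ_pos _)]
  refine and_congr_right fun _ => exists_congr fun U => and_congr_right fun _ =>
    and_congr_right fun _ => forall₂_congr fun y _ => ?_
  refine iff_congr (Sat_congr φ fun i hi => ?_) Iff.rfl
  by_cases h0 : i = 0
  · subst h0; simp
  · rw [Function.update_of_ne h0, Function.update_of_ne h0]
    exact h i (hi.trans (Nat.lt_succ_self _))

theorem dfn_Def (φ : Fml) (a : ℕ) (g : ℕ → ℕ) :
    Dfn Lvl.{u} (fun v => Def φ (v a) (fun n => v (g n))) := by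
  refine Dfn.congr (A := fun v => (v (g 0)).IsOrdinal ∧ ∃ U, ((v (g 0)).IsOrdinal ∧
    LevOf U (v (g 0))) ∧ (v a ∈ U ∧ ∀ y ∈ U, (Sat U (Function.update (fun n => v (g n)) 0 y) φ ↔
      y = v a))) ?_ fun v => ?_
  · refine (dfn_ord Lvl_sub_Trs _).and (Dfn.ex ?_ ?_)
    · refine ((dfn_ord Lvl_sub_Trs _).and (dfn_LevOf _ _)).and ((Dfn.mem _ _).and
        (Dfn.ball Lvl_sub_Trs _ (Dfn.iff ?_ (Dfn.eq _ _))))
      refine ((dfn_Sat φ 1 (fun n => if n = 0 then 0 else g n + 2)).mono
        Lvl_sub_Trs).congr fun v => ?_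
      have : (fun n => v (if n = 0 then 0 else g n + 2)) =
          Function.update (fun n => v (g n + 2)) 0 (v 0) := by
        funext n
        by_cases hn : n = 0
        · subst hn; simp
        · simp [hn]
      rw [this]
    · rintro U hU v hv ⟨U', ⟨h1, h2⟩, h3⟩
      refine ⟨U', ?_, ⟨h1, h2⟩, h3⟩
      obtain ⟨β, hβ, _, rfl⟩ := hU
      rw [← h1.toZFSet_rank_eq, levOf_iff] at h2
      rw [h2, vonNeumann_mem_vonNeumann_iff]
      exact mem_vonNeumann.1 (hv _)
  · unfold Def
    exact and_congr_right fun h0 => exists_congr fun U => and_congr_left fun _ =>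
      ⟨fun h => h.2, fun h => ⟨h0, h⟩⟩

theorem OD.exists_def {x : ZFSet.{u}} (h : OD x) : ∃ (φ : Fml) (q : ℕ → Ordinal.{u}),
    Def φ x (fun i => (q i).toZFSet) ∧ ∀ i, q i ≤ q 0 := by
  obtain ⟨α, φ, s, hs, hx, h1⟩ := h
  refine ⟨φ, fun i => if i = 0 then α else rank (s i), ⟨isOrdinal_toZFSet _, V_ α, ?_, hx, ?_⟩, ?_⟩
  · show LevOf (V_ α) (if (0 : ℕ) = 0 then α else rank (s 0)).toZFSet
    rw [if_pos rfl, levOf_iff]
  · intro y hy
    rw [← h1 y hy]
    have : Function.update (fun i => (if i = 0 then α else rank (s i)).toZFSet) 0 y =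
        Function.update s 0 y := by
      funext i
      by_cases h0 : i = 0
      · subst h0; simp
      · rw [Function.update_of_ne h0, Function.update_of_ne h0, if_neg h0,
          (hs i).2.toZFSet_rank_eq]
    rw [this]
  · intro i
    by_cases h0 : i = 0
    · subst h0; exact le_rfl
    · simp only [if_neg h0, if_true]
      exact (mem_vonNeumann.1 (hs i).1).le

theorem Def.od {φ : Fml} {x : ZFSet.{u}} {q : ℕ → Ordinal.{u}}
    (h : Def φ x (fun i => (q i).toZFSet)) : OD x := by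
  refine OD_of (R := fun y x => Def φ y (fun n => x (n + 2))) (x := fun i =>
    Nat.casesOn i ∅ fun j => Nat.casesOn j ∅ fun k => (q k).toZFSet) ?_ ?_ ?_ ?_ fun y => ?_
  · exact dfn_Def φ 0 (fun n => n + 2 + 1)
  · have := OD_ord (0 : Ordinal.{u})
    rwa [Ordinal.toZFSet_zero] at this
  · have := OD_ord (0 : Ordinal.{u})
    rwa [Ordinal.toZFSet_zero] at this
  · intro i; exact isOrdinal_toZFSet _
  · show Def φ y (fun n => (q n).toZFSet) ↔ _
    exact ⟨fun h' => h'.unique h, fun h' => by rw [h']; exact h⟩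

end Pool.Agent.H310.HD
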