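import Pool.Agent.H310.HD.Tail

/-!
Solovay's splitting theorem for points of cofinality `ω`.
-/

set_option autoImplicit false
set_option linter.unusedVariables false

namespace Pool.Agent.H310.HD

open ZFSet Gss969

universe u

variable {l : Ordinal.{u}}

/-- There are `k ≤ l` pairwise disjoint stationary sets of points of cofinality `ω`. -/
theorem exists_fam_V (hl : RegUnc l.toZFSet) {k : Ordinal.{u}} (hk : k ≤ l) :
    ∃ S, Fam om k.toZFSet l.toZFSet S := by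
  classical
  have hS : StatL {α | CofOm α.toZFSet} l := (statL_om hl hl.pos).mono fun α _ h => h.2
  have h1 : ∀ α : Ordinal.{u}, ∃ f, CofOm α.toZFSet → IsFunc om α.toZFSet f ∧
      ∀ x ∈ α.toZFSet, ∃ n ∈ om.{u}, ∃ y ∈ α.toZFSet, pair n y ∈ f ∧ x ∈ y := by
    intro α
    by_cases h : CofOm α.toZFSet
    · obtain ⟨f, hf⟩ := h
      exact ⟨f, fun _ => hf⟩
    · exact ⟨∅, fun h' => absurd h' h⟩
  choose f hf using h1
  let val : ℕ → Ordinal.{u} → Ordinal.{u} := fun n α => rank (app (f α) (nt n))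
  have hval : ∀ α, CofOm α.toZFSet → ∀ n, val n α < α ∧ app (f α) (nt n) = (val n α).toZFSet := by
    intro α hα n
    obtain ⟨β, hβ, h⟩ := Ordinal.mem_toZFSet_iff.1 (app_mem (hf α hα).1 (nt_mem n))
    simp only [val]
    rw [← h, Ordinal.rank_toZFSet]
    exact ⟨hβ, rfl⟩
  have hcof : ∀ α, CofOm α.toZFSet → ∀ b < α, ∃ n, b ≤ val n α := by
    intro α hα b hb
    obtain ⟨n, hn, z, hz, hnz, hbz⟩ := (hf α hα).2 _ (tz_mem.2 hb)
    obtain ⟨n, rfl⟩ := mem_om.1 hn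
    refine ⟨n, ?_⟩
    have h5 := (app_iff (hf α hα).1 hn).1 hnz
    rw [(hval α hα n).2] at h5
    rw [← h5] at hbz
    exact (tz_mem.1 hbz).le
  have hn : ∃ n, ∀ ξ < l, StatL {α | CofOm α.toZFSet ∧ ξ ≤ val n α} l := by
    by_contra hcon
    push Not at hcon
    choose ξ hξ hξ' using hcon
    obtain ⟨b, hb, hb'⟩ := hl.bdd hl.om_lt (fun i => if h : ∃ n : ℕ, i = n then ξ h.choose else 0)
      fun i _ => by
        show (if h : ∃ n : ℕ, i = n then ξ h.choose else 0) < l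
        split_ifs with h
        · exact hξ _
        · exact hl.pos
    obtain ⟨n, h5⟩ := (hS.tail hl hb).union_nat hl (P := fun n α => b ≤ val n α)
      fun α hα _ => hcof α hα.1 b hα.2
    refine hξ' n (h5.mono fun α _ h6 => ⟨h6.1.1, ?_⟩)
    have h7 := hb' n (Ordinal.natCast_lt_omega0 n)
    have h8 : ∃ m : ℕ, (n : Ordinal.{u}) = m := ⟨n, rfl⟩
    rw [dif_pos h8] at h7
    have h9 : h8.choose = n := by
      have := h8.choose_spec
      exact (Nat.cast_injective this).symm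
    rw [h9] at h7
    exact h7.le.trans h6.2
  obtain ⟨n, hn⟩ := hn
  obtain ⟨W, hW⟩ : ∃ W : ZFSet.{u}, ∀ η : Ordinal.{u}, η.toZFSet ∈ W ↔
      η < l ∧ StatL {α | CofOm α.toZFSet ∧ val n α = η} l := by
    refine ⟨ZFSet.sep (fun x => StatL {α | CofOm α.toZFSet ∧ val n α = rank x} l) l.toZFSet,
      fun η => ?_⟩
    rw [mem_sep, tz_mem, Ordinal.rank_toZFSet]
  have hunb : ∀ ξ < l, ∃ η < l, ξ ≤ η ∧ η.toZFSet ∈ W := by
    intro ξ hξ
    obtain ⟨η, hη, h6⟩ := fodor hl (hn ξ hξ) (f := val n) fun α hα _ => (hval α hα.1 n).1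
    have hξη : ξ ≤ η := by
      obtain ⟨α, _, h7, _⟩ := h6 l.toZFSet (fun x hx => hx) ⟨fun x hx => hx, fun x hx => by
        obtain ⟨γ, hγ, rfl⟩ := Ordinal.mem_toZFSet_iff.1 hx
        exact ⟨_, tz_mem.2 (hl.succ_lt hγ), tz_mem.2 (Order.lt_succ γ)⟩, fun a ha _ _ => ha⟩
      rw [← h7.2]
      exact h7.1.2
    exact ⟨η, hη, hξη, (hW η).2 ⟨hη, h6.mono fun α _ h7 => ⟨h7.1.1, h7.2⟩⟩⟩
  obtain ⟨w, hwf, hw1, hw2, hw3⟩ := exists_Enum hl hunb hk
  have hinj : ∀ i ∈ k.toZFSet, ∀ j ∈ k.toZFSet, ∀ η ∈ l.toZFSet, pair i η ∈ w → pair j η ∈ w →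
      i = j := by
    intro i hi j hj η hη h1 h2
    obtain ⟨i, hi', rfl⟩ := Ordinal.mem_toZFSet_iff.1 hi
    obtain ⟨j, hj', rfl⟩ := Ordinal.mem_toZFSet_iff.1 hj
    rcases lt_trichotomy i j with h3 | h3 | h3
    · exact absurd (hw2 _ hj _ (tz_mem.2 h3) _ hη _ hη h2 h1) (mem_irrefl _)
    · rw [h3]
    · exact absurd (hw2 _ hi _ (tz_mem.2 h3) _ hη _ hη h1 h2) (mem_irrefl _)
  refine ⟨gr k.toZFSet fun i => ZFSet.sep (fun α => CofOm α ∧ val n (rank α) = rank (app w i))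
    l.toZFSet, isFunc_gr fun i hi => mem_powerset.2 fun z hz => (mem_sep.1 hz).1, ?_, ?_⟩
  · intro i hi A hA hiA
    rw [pair_mem_gr] at hiA
    rw [← hiA.2]
    have h2 := app_mem hwf hi
    have h3 := app_spec hwf hi
    obtain ⟨η, hη, hη'⟩ := Ordinal.mem_toZFSet_iff.1 h2
    refine ⟨?_, fun a ha => (mem_sep.1 ha).2.1⟩
    rw [← hη'] at h3
    have h4 := ((hW η).1 (hw1 i hi _ (tz_mem.2 hη) h3)).2
    rw [stat_iff]
    refine h4.mono fun α hα h5 => ?_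
    show α.toZFSet ∈ ZFSet.sep (fun α => CofOm α ∧ val n (rank α) = rank (app w i)) l.toZFSet
    rw [mem_sep, Ordinal.rank_toZFSet, ← hη', Ordinal.rank_toZFSet]
    exact ⟨tz_mem.2 hα, h5⟩
  · rintro i hi i' hi' A hA A' hA' hiA hiA' ⟨a, ha, ha'⟩
    rw [pair_mem_gr] at hiA hiA'
    rw [← hiA.2, mem_sep] at ha
    rw [← hiA'.2, mem_sep] at ha'
    have h2 := app_spec hwf hi
    have h3 := app_spec hwf hi'
    obtain ⟨η, hη, hη'⟩ := Ordinal.mem_toZFSet_iff.1 (app_mem hwf hi)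
    obtain ⟨ξ, hξ, hξ'⟩ := Ordinal.mem_toZFSet_iff.1 (app_mem hwf hi')
    have h4 : η = ξ := by
      have h5 := ha.2.2
      have h6 := ha'.2.2
      rw [← hη', Ordinal.rank_toZFSet] at h5
      rw [← hξ', Ordinal.rank_toZFSet] at h6
      rw [← h5, h6]
    rw [← hη'] at h2
    rw [← hξ', ← h4] at h3
    exact hinj i hi i' hi' _ (tz_mem.2 hη) h2 h3

end Pool.Agent.H310.HD
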